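import Pool.Agent.H474.SHP.Tr

/-!
# Distinct zeros and poles: the core
-/

set_option autoImplicit false
set_option linter.unusedSectionVars false

open Complex Filter Topology Set MeasureTheory
open scoped ComplexConjugate
open H370 (zset mult NN Nd Ns)
open W388 H385
open scoped ArithmeticFunction.vonMangoldt

namespace Pool.Agent.H474.SHP

open Pool.Agent.Y772.ND (ev_exp ZZ mem_ZZ ZZ_conj aa_conj)
open Pool.Agent.Y772.SL (av)

lemma alg_sh1 {x δ η G2 : ℝ} (hx : 0 ≤ x) (hδ : 0 < δ) (hδ' : δ ≤ 1 / 4) (hη : 0 ≤ η)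
    (hG : G2 ≤ (1 + δ ^ 2) ^ 2) (hG1 : 1 ≤ G2) :
    x / (x + 1 / 3) - 10 * δ - 4 * η ≤
      (x - η) / ((1 - δ) * ((1 + δ) * G2 * (x / (1 - δ) ^ 2 + 1 / 3) + δ)) := by
  set Den := (1 - δ) * ((1 + δ) * G2 * (x / (1 - δ) ^ 2 + 1 / 3) + δ) with hDen
  have h1 : 0 < 1 - δ := by linarith
  have hx1 : 0 < x + 1 / 3 := by linarith
  have e1 : Den = (1 + δ) * G2 * (x / (1 - δ) + (1 - δ) / 3) + (1 - δ) * δ := by
    rw [hDen]; field_simp
  have hG2 : G2 ≤ 1 + δ := by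
    have h4 : δ ^ 2 ≤ δ / 4 := by nlinarith
    have h5 : 0 ≤ δ ^ 2 := sq_nonneg _
    nlinarith
  have e2 : (1 + δ) * G2 ≤ 1 + 3 * δ := by nlinarith
  have e3 : 1 / (1 - δ) ≤ 1 + 2 * δ := by
    rw [div_le_iff₀ h1]; nlinarith
  have hlow : 1 / 4 ≤ Den := by
    rw [hDen]
    have a1 : 0 ≤ x / (1 - δ) ^ 2 := by positivity
    have a2 : 1 ≤ (1 + δ) * G2 := by nlinarith
    have a3 : 1 / 3 ≤ (1 + δ) * G2 * (x / (1 - δ) ^ 2 + 1 / 3) + δ := by nlinarith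
    nlinarith
  have hup : Den ≤ (1 + 10 * δ) * (x + 1 / 3) := by
    rw [e1]
    have a1 : x / (1 - δ) + (1 - δ) / 3 ≤ (1 + 2 * δ) * (x + 1 / 3) := by
      have : x / (1 - δ) = x * (1 / (1 - δ)) := by ring
      rw [this]
      have := mul_le_mul_of_nonneg_left e3 hx
      linarith
    have a2 : 0 ≤ x / (1 - δ) + (1 - δ) / 3 := by positivity
    have a3 : (1 + δ) * G2 * (x / (1 - δ) + (1 - δ) / 3) ≤ (1 + 3 * δ) * ((1 + 2 * δ) * (x + 1 / 3)) :=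
      mul_le_mul e2 a1 a2 (by linarith)
    have a4 : (1 + 3 * δ) * (1 + 2 * δ) ≤ 1 + 7 * δ := by nlinarith
    have a5 := mul_le_mul_of_nonneg_right a4 hx1.le
    have a6 : (1 - δ) * δ ≤ 3 * δ * (x + 1 / 3) := by nlinarith
    nlinarith
  have hD0 : 0 < Den := by linarith
  have b1 : x / (x + 1 / 3) - 10 * δ ≤ x / Den := by
    have c1 : x / ((1 + 10 * δ) * (x + 1 / 3)) ≤ x / Den :=
      div_le_div_of_nonneg_left hx hD0 hup
    refine le_trans ?_ c1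
    have c2 : x / ((1 + 10 * δ) * (x + 1 / 3)) = x / (x + 1 / 3) / (1 + 10 * δ) := by
      field_simp
    rw [c2]
    set y := x / (x + 1 / 3)
    have hy0 : 0 ≤ y := by positivity
    have hy1 : y ≤ 1 := by
      rw [div_le_one hx1]; linarith
    rw [le_div_iff₀ (by positivity)]
    nlinarith
  have b2 : η / Den ≤ 4 * η := by
    rw [div_le_iff₀ hD0]
    nlinarith
  rw [sub_div]
  linarith

section

variable {ι : Type} [Fintype ι]

/-- **Distinct zeros and poles** -/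
theorem sh1 {K : ℝ} (hK : 0 ≤ K) {d A D : ι → ℝ} (hd : ∀ i, 1 ≤ d i) (hA : ∀ i, 1 ≤ A i)
    {F : ι → ℂ → ℂ} {β : ι → ℕ → ℂ}
    (hF : ∀ i, GoodE (d i) (A i) 1 (F i) (fun n => β i n * (Λ n : ℂ)))
    (hβ : ∀ i n, ‖β i n‖ ≤ D i) (sF : (ι → ℝ) → ℝ)
    (hs : ∀ μ : ι → ℝ, Tendsto (av fun n => ‖∑ i, (μ i : ℂ) * β i n‖ ^ 2) (𝓝[>] 0) (𝓝 (sF μ)))
    {ε : ℝ} (hε : 0 < ε) :
    ∀ᶠ T : ℝ in atTop, ∀ μ : ι → ℝ, (∀ i, |μ i| ≤ K) → sF μ = 1 →
      ((∑ i, μ i * d i) ^ 2 / ((∑ i, μ i * d i) ^ 2 + 1 / 3) - ε) * (T / (2 * Real.pi) * Real.log T) ≤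
        ((DDh F μ T).ncard : ℝ) := by
  obtain ⟨δ, hδ, hδ4, hδε⟩ : ∃ δ : ℝ, 0 < δ ∧ δ ≤ 1 / 4 ∧ 10 * δ ≤ ε / 4 :=
    ⟨min (1 / 4) (ε / 40), by positivity, min_le_left _ _, by
      have := min_le_right (1 / 4) (ε / 40); linarith⟩
  set η := ε / 16 with hη
  have hη0 : 0 < η := by positivity
  set θ := 1 - δ with hθ
  set θ' := 1 - δ / 2 with hθ'
  have hδ1 : δ ≤ 1 := by linarith
  have hπ : δ < Real.pi := by linarith [Real.pi_gt_three]
  choose C hC hfct using fun i => exists_fct θ θ' (by rw [hθ]; linarith) (by rw [hθ, hθ']; linarith)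
    (by rw [hθ']; linarith) (d i) (A i) (hd i) (hA i) (F i) _ (hF i)
  have hQup := Qup (θ := θ) (θ' := θ') (K := K) (γ := δ) (by rw [hθ]; linarith)
    (by rw [hθ, hθ']; linarith) (by rw [hθ']; linarith) hK hδ hδ1 hC hF hβ sF hs hδ
  choose Cn hCn using fun i => Pool.Agent.Y431.ND.t_NASY (d i) (A i) (F i) _ (hd i) (hA i) (hF i)
  have hd0 : ∀ i, 0 ≤ d i := fun i => by linarith [hd i]
  set Dm := K * ∑ i, d i with hDm
  have hDm0 : 0 ≤ Dm := mul_nonneg hK (Finset.sum_nonneg fun i _ => hd0 i)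
  obtain ⟨η1, hη1, hη11, hη12⟩ : ∃ η1 : ℝ, 0 < η1 ∧ η1 ≤ 1 ∧ η1 * (2 * Dm + 1) ≤ η :=
    ⟨min 1 (η / (2 * Dm + 1)), by positivity, min_le_left _ _, by
      have := min_le_right 1 (η / (2 * Dm + 1))
      rwa [le_div_iff₀ (by positivity)] at this⟩
  set CC := ∑ i, (|Cn i| + 2 * C i) with hCC
  have hCC0 : 0 ≤ CC := Finset.sum_nonneg fun i _ => by have := hC i; positivity
  have t1 : ∀ᶠ T : ℝ in atTop, ∀ i, ∃ V1 V2 : ℝ, Fct θ θ' (C i) (d i) (F i) (fun n => β i n * (Λ n : ℂ)) T V1 V2 :=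
    eventually_all.2 hfct
  have t2 : ∀ᶠ T : ℝ in atTop, ∀ i, |(NN (F i) T (2 * T) : ℝ) - d i / (2 * Real.pi) * T * Real.log T| ≤ Cn i * T :=
    eventually_all.2 hCn
  have t3 : ∀ᶠ T : ℝ in atTop, 1 + K * CC * (2 * Real.pi) / η1 ≤ Real.log T :=
    Real.tendsto_log_atTop.eventually_ge_atTop _
  have t4 := ev_exp (1 + 2 * (2 * (∑ i, C i) * (2 * Real.pi)) / ε) 2 (show (0:ℝ) < 1 by norm_num)
  filter_upwards [hQup, t1, t2, t3, t4, eventually_gt_atTop 1] with T hQup t1 t2 t3 t4 hT1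
  choose V1 V2 hV using t1
  intro μ hμ hsμ
  set κ := Real.log T with hκ
  rw [zero_mul, Real.exp_zero, mul_one] at t4
  have hT0 : 0 < T := by linarith
  have hπ0 := Real.pi_pos
  have hCi0 : ∀ i, 0 ≤ C i := fun i => by linarith [hC i]
  have hCs : 0 ≤ ∑ i, C i := Finset.sum_nonneg fun i _ => hCi0 i
  have hκ1 : 1 ≤ κ := by
    have : 0 ≤ K * CC * (2 * Real.pi) / η1 := by positivity
    linarith
  have hκT : κ ^ 2 ≤ T := by
    have : 0 ≤ 2 * (2 * (∑ i, C i) * (2 * Real.pi)) / ε * κ ^ 2 := by positivity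
    linarith
  set U := T / (2 * Real.pi) * κ with hU
  have hU0 : 0 < U := by positivity
  set D1 := ∑ i, μ i * d i with hD1
  set Z := ZZ fun i => (hV i).fin with hZ
  set az := Pool.Agent.Y772.ND.aa F V1 V2 μ with haz
  have hZc : ∀ z ∈ Z, conj z ∈ Z := ZZ_conj hF (fun i => (hV i).v0) fun i => (hV i).fin
  have hac : ∀ z ∈ Z, az (conj z) = conj (az z) := fun z _ => aa_conj hF (fun i => (hV i).v0) μ z
  set G2 := Gg δ ^ 2 with hG2
  have hG1 : 1 ≤ G2 := one_le_pow₀ (Gg_ge hδ hπ)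
  have hGu : G2 ≤ (1 + δ ^ 2) ^ 2 := pow_le_pow_left₀ (Gg_pos hδ hπ).le (Gg_le hδ hδ1) 2
  set Den := (1 - δ) * ((1 + δ) * G2 * (D1 ^ 2 / (1 - δ) ^ 2 + 1 / 3) + δ) with hDen
  have hDen0 : 0 < Den := by
    have : 0 < 1 - δ := by linarith
    have : 0 < G2 := by linarith
    positivity
  have hQ := hQup V1 V2 hV μ hμ
  rw [hsμ] at hQ
  have eQ : T / (2 * Real.pi) * (θ * κ) * ((1 + δ) * G2 * (D1 ^ 2 / θ ^ 2 + 1 / 3) + δ) = U * Den := by
    rw [hU, hDen, hθ]; ring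
  rw [eQ] at hQ
  have htr := trace_use hδ hπ Z az hZc hac (mul_pos hU0 hDen0) hQ
  -- the sum of the weights
  have hsum : (∑ z ∈ Z, az z).re = ∑ i, μ i * (NN (F i) (V1 i) (V2 i) : ℝ) := by
    rw [sum_aa fun i => (hV i).fin, Complex.ofReal_re]
  have hNNi : ∀ i, |(NN (F i) (V1 i) (V2 i) : ℝ) - d i * U| ≤ (|Cn i| + 2 * C i) * T := by
    intro i
    have v1 : V1 i ≤ T := by have := (hV i).v1'; linarith
    have v2 : 2 * T ≤ V2 i := by have := (hV i).v2; linarith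
    have e1 : (NN (F i) T (2 * T) : ℝ) ≤ NN (F i) (V1 i) (V2 i) := by
      exact_mod_cast LocD.NN_mono (hA i) le_rfl (hF i) (hV i).v0 v1 v2
    have e2 : (NN (F i) (V1 i) (V2 i) : ℝ) ≤ NN (F i) (V1 i) T + (NN (F i) T (2 * T) + NN (F i) (2 * T) (V2 i)) := by
      have g1 := LocD.NN_le_add (hA i) le_rfl (hF i) (V1 i) T T (V2 i) (hV i).v0 (by linarith) le_rfl
      have g2 := LocD.NN_le_add (hA i) le_rfl (hF i) T (2 * T) (2 * T) (V2 i) (by linarith) (by linarith) le_rfl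
      have : NN (F i) (V1 i) (V2 i) ≤ NN (F i) (V1 i) T + (NN (F i) T (2 * T) + NN (F i) (2 * T) (V2 i)) := by omega
      exact_mod_cast this
    have e3 := t2 i
    have e4 : d i / (2 * Real.pi) * T * κ = d i * U := by rw [hU]; ring
    rw [e4] at e3
    have e5 := (hV i).cnt1
    have e6 := (hV i).cnt2
    have e7 : C i * κ ^ 2 ≤ C i * T := mul_le_mul_of_nonneg_left hκT (hCi0 i)
    have e8 : Cn i * T ≤ |Cn i| * T := mul_le_mul_of_nonneg_right (le_abs_self _) hT0.le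
    obtain ⟨g1, g2⟩ := abs_le.1 e3
    have e9 : 0 ≤ C i * T := mul_nonneg (hCi0 i) hT0.le
    rw [abs_le]
    constructor <;> linarith
  have hs1 : |(∑ z ∈ Z, az z).re - D1 * U| ≤ η1 * U := by
    rw [hsum, hD1, Finset.sum_mul, ← Finset.sum_sub_distrib]
    refine (Finset.abs_sum_le_sum_abs _ _).trans ?_
    have e1 : ∀ i ∈ (Finset.univ : Finset ι), |μ i * (NN (F i) (V1 i) (V2 i) : ℝ) - μ i * d i * U| ≤
        K * ((|Cn i| + 2 * C i) * T) := by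
      intro i _
      rw [mul_assoc, ← mul_sub, abs_mul]
      exact mul_le_mul (hμ i) (hNNi i) (abs_nonneg _) hK
    refine (Finset.sum_le_sum e1).trans ?_
    rw [← Finset.mul_sum, ← Finset.sum_mul]
    have e2 : K * CC * (2 * Real.pi) / η1 ≤ κ := by linarith
    rw [div_le_iff₀ hη1] at e2
    have e3 : η1 * U = (κ * η1) * T / (2 * Real.pi) := by rw [hU]; ring
    rw [e3, le_div_iff₀ (by positivity)]
    calc K * (CC * T) * (2 * Real.pi) = (K * CC * (2 * Real.pi)) * T := by ring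
      _ ≤ κ * η1 * T := mul_le_mul_of_nonneg_right e2 hT0.le
  have hD1m : |D1| ≤ Dm := by
    refine (Finset.abs_sum_le_sum_abs _ _).trans ?_
    have e : ∑ i, |μ i * d i| = ∑ i, |μ i| * d i :=
      Finset.sum_congr rfl fun i _ => by rw [abs_mul, abs_of_nonneg (hd0 i)]
    rw [e]
    exact sum_le_K hμ hd0
  have hsq : (D1 ^ 2 - η) * U ^ 2 ≤ (∑ z ∈ Z, az z).re ^ 2 := by
    set s1 := (∑ z ∈ Z, az z).re
    set y := s1 / U with hy
    have e1 : s1 = y * U := by rw [hy]; field_simp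
    rw [e1, mul_pow y U 2]
    refine mul_le_mul_of_nonneg_right ?_ (sq_nonneg U)
    have e2 : |y - D1| ≤ η1 := by
      rw [e1, ← sub_mul, abs_mul, abs_of_pos hU0] at hs1
      exact le_of_mul_le_mul_right hs1 hU0
    have e3 : |y ^ 2 - D1 ^ 2| ≤ η := by
      have e4 : y ^ 2 - D1 ^ 2 = (y - D1) * ((y - D1) + 2 * D1) := by ring
      rw [e4, abs_mul]
      have e5 : |(y - D1) + 2 * D1| ≤ 2 * Dm + 1 := by
        refine (abs_add_le _ _).trans ?_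
        rw [abs_mul, abs_two]
        linarith
      exact (mul_le_mul e2 e5 (abs_nonneg _) hη1.le).trans hη12
    have := (abs_le.1 e3).1
    linarith
  have halg := alg_sh1 (sq_nonneg D1) hδ hδ4 hη0.le hGu hG1
  have hmain : (D1 ^ 2 / (D1 ^ 2 + 1 / 3) - 10 * δ - 4 * η) * U ≤
      ((Z.filter fun z => az z ≠ 0 ∧ z.im ≤ 0).card : ℝ) := by
    refine le_trans ?_ htr
    have e1 : (D1 ^ 2 - η) / Den * U ≤ (∑ z ∈ Z, az z).re ^ 2 / (U * Den) := by
      rw [le_div_iff₀ (by positivity)]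
      calc (D1 ^ 2 - η) / Den * U * (U * Den) = (D1 ^ 2 - η) * U ^ 2 := by field_simp
        _ ≤ _ := hsq
    exact (mul_le_mul_of_nonneg_right halg hU0.le).trans e1
  have hcard := card_le_h hA (fun _ => le_rfl) hF μ (T := T) (by linarith) (fun i => (hV i).fin)
    (fun i => by have := (hV i).v1'; linarith) (fun i => (hV i).v0)
    (fun i => by have := (hV i).v2; linarith)
  have hbd : ∑ i, ((NN (F i) (V1 i) T : ℝ) + (NN (F i) (2 * T) (V2 i) : ℝ)) ≤ ε / 2 * U := by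
    have e1 : ∑ i, ((NN (F i) (V1 i) T : ℝ) + (NN (F i) (2 * T) (V2 i) : ℝ)) ≤
        2 * (∑ i, C i) * κ ^ 2 := by
      rw [mul_assoc, Finset.sum_mul, Finset.mul_sum]
      refine Finset.sum_le_sum fun i _ => ?_
      have := (hV i).cnt1
      have := (hV i).cnt2
      linarith
    refine e1.trans ?_
    have e2 : 2 * (2 * (∑ i, C i) * (2 * Real.pi)) / ε * κ ^ 2 ≤ T := by
      have : 0 ≤ κ ^ 2 := sq_nonneg _
      linarith
    rw [div_mul_eq_mul_div, div_le_iff₀ hε] at e2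
    have e3 : ε / 2 * U = (T * ε) * κ / (2 * (2 * Real.pi)) := by rw [hU]; field_simp
    rw [e3, le_div_iff₀ (by positivity)]
    have e4 : 2 * (∑ i, C i) * κ ^ 2 * (2 * (2 * Real.pi)) = 2 * (2 * (∑ i, C i) * (2 * Real.pi)) * κ ^ 2 := by ring
    rw [e4]
    have e5 : T * ε * 1 ≤ T * ε * κ := mul_le_mul_of_nonneg_left hκ1 (by positivity)
    linarith
  have hεη : 10 * δ + 4 * η ≤ ε / 2 := by rw [hη]; linarith
  have h9 : (D1 ^ 2 / (D1 ^ 2 + 1 / 3) - ε) * U + ε / 2 * U ≤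
      (D1 ^ 2 / (D1 ^ 2 + 1 / 3) - 10 * δ - 4 * η) * U := by
    rw [← add_mul]
    refine mul_le_mul_of_nonneg_right ?_ hU0.le
    linarith
  have hcc : ((Z.filter fun z => az z ≠ 0 ∧ z.im ≤ 0).card : ℝ) ≤
      ((DDh F μ T).ncard : ℝ) + ∑ i, ((NN (F i) (V1 i) T : ℝ) + (NN (F i) (2 * T) (V2 i) : ℝ)) := hcard
  linarith

end

end Pool.Agent.H474.SHP
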