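import Pool.Agent.H474.SHP.Sh2c

/-!
# The explicit lower bound: the core
-/

set_option autoImplicit false
set_option linter.unusedSectionVars false

open Complex Filter Topology Set MeasureTheory
open scoped ComplexConjugate
open H370 (zset mult NN Nd Ns)
open W388 H385
open scoped ArithmeticFunction.vonMangoldt

namespace Pool.Agent.H474.SHP

open Pool.Agent.Y772.ND (Wz dz ev_exp ZZ mem_ZZ ZZ_conj aa_conj DD')
open Pool.Agent.Y772.SL (av)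
open PerChi (Rw_cont)

/-- the pure algebra at the end -/
lemma alg_sh2 {δ X S G2 r T Λ' κ I1 card Q : ℝ} (hδ : 0 < δ) (hδ' : δ ≤ 1 / 100) (hX : 0 ≤ X)
    (hS : (1 - 6 * δ) * (X + 1 / 6) ≤ S) (hG : G2 ≤ 1 + δ) (hG1 : 1 ≤ G2) (hr : r ^ 2 = 3 * S)
    (hr0 : 0 < r) (hT : 0 < T) (hκ : 0 < κ) (hΛ : Λ' = (1 / 2 - δ) * κ) (hc : 0 ≤ card)
    (hI : T * ((1 - δ) * (r / 3 - δ) - 2 * δ) ≤ I1)
    (hQ : Q ≤ T / (2 * Real.pi) * Λ' * ((1 + δ) * G2 * (X + 1 / 3) + δ))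
    (hR : I1 ^ 2 ≤ (4 * Real.pi ^ 2 * G2 / Λ' ^ 2) * card * Q) :
    (1 / 12 - 5 * δ) * (T / (2 * Real.pi) * κ) ≤ card := by
  have hπ := Real.pi_pos
  have hΛ0 : 0 < Λ' := by rw [hΛ]; exact mul_pos (by linarith) hκ
  have hS8 : 1 / 8 ≤ S := by nlinarith
  have hr2 : 1 / 2 ≤ r := by
    by_contra h
    push Not at h
    nlinarith
  have hI2 : T * (r / 3) * (1 - 19 * δ) ≤ I1 := by
    refine le_trans ?_ hI
    rw [mul_assoc]
    refine mul_le_mul_of_nonneg_left ?_ hT.le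
    nlinarith [mul_nonneg hδ.le hδ.le, mul_nonneg hδ.le hr0.le]
  have h19 : 0 ≤ 1 - 19 * δ := by linarith
  have hI3 : T ^ 2 * (S / 3) * (1 - 38 * δ) ≤ I1 ^ 2 := by
    have h1 : 0 ≤ T * (r / 3) * (1 - 19 * δ) := by positivity
    have h2 := pow_le_pow_left₀ h1 hI2 2
    refine le_trans ?_ h2
    have h3 : (T * (r / 3) * (1 - 19 * δ)) ^ 2 = T ^ 2 * (S / 3) * (1 - 19 * δ) ^ 2 := by
      have : (T * (r / 3) * (1 - 19 * δ)) ^ 2 = T ^ 2 * (r ^ 2 / 9) * (1 - 19 * δ) ^ 2 := by ring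
      rw [this, hr]; ring
    rw [h3]
    refine mul_le_mul_of_nonneg_left ?_ (by positivity)
    nlinarith [sq_nonneg δ]
  have hbr : (1 + δ) * G2 * (X + 1 / 3) + δ ≤ (1 + 6 * δ) * (X + 1 / 3) := by
    have h1 : (1 + δ) * G2 ≤ 1 + 3 * δ := by nlinarith
    have h2 : (1 + δ) * G2 * (X + 1 / 3) ≤ (1 + 3 * δ) * (X + 1 / 3) :=
      mul_le_mul_of_nonneg_right h1 (by linarith)
    nlinarith
  have hQ2 : Q ≤ T / (2 * Real.pi) * Λ' * ((1 + 6 * δ) * (X + 1 / 3)) :=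
    hQ.trans (mul_le_mul_of_nonneg_left hbr (by positivity))
  have hR2 : T ^ 2 * (S / 3) * (1 - 38 * δ) ≤ (4 * Real.pi ^ 2 * (1 + δ) / Λ' ^ 2) * card *
      (T / (2 * Real.pi) * Λ' * ((1 + 6 * δ) * (X + 1 / 3))) := by
    refine hI3.trans (hR.trans ?_)
    have h1 : (4 * Real.pi ^ 2 * G2 / Λ' ^ 2) * card * Q ≤ (4 * Real.pi ^ 2 * G2 / Λ' ^ 2) * card *
        (T / (2 * Real.pi) * Λ' * ((1 + 6 * δ) * (X + 1 / 3))) :=
      mul_le_mul_of_nonneg_left hQ2 (by positivity)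
    refine h1.trans ?_
    have h2 : 0 ≤ T / (2 * Real.pi) * Λ' * ((1 + 6 * δ) * (X + 1 / 3)) := by positivity
    gcongr
  have e1 : (4 * Real.pi ^ 2 * (1 + δ) / Λ' ^ 2) * card *
      (T / (2 * Real.pi) * Λ' * ((1 + 6 * δ) * (X + 1 / 3))) =
      T * (2 * Real.pi / Λ' * ((1 + δ) * (1 + 6 * δ)) * (X + 1 / 3) * card) := by
    field_simp
    ring
  have e2 : T ^ 2 * (S / 3) * (1 - 38 * δ) = T * (T * (S / 3) * (1 - 38 * δ)) := by ring
  rw [e1, e2] at hR2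
  have hR3 := le_of_mul_le_mul_left hR2 hT
  -- (X + 1/6) ≥ (X + 1/3)/2
  have hS2 : (1 - 6 * δ) * ((X + 1 / 3) / 2) ≤ S := by
    refine le_trans (mul_le_mul_of_nonneg_left ?_ (by linarith)) hS
    linarith
  have hX3 : 0 < X + 1 / 3 := by linarith
  have h38 : 0 ≤ 1 - 38 * δ := by linarith
  have hR4 : T * ((1 - 6 * δ) * ((X + 1 / 3) / 2) / 3) * (1 - 38 * δ) ≤
      2 * Real.pi / Λ' * ((1 + δ) * (1 + 6 * δ)) * (X + 1 / 3) * card := by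
    refine le_trans ?_ hR3
    gcongr
  have e3 : T * ((1 - 6 * δ) * ((X + 1 / 3) / 2) / 3) * (1 - 38 * δ) =
      (X + 1 / 3) * (T / 6 * ((1 - 6 * δ) * (1 - 38 * δ))) := by ring
  have e4 : 2 * Real.pi / Λ' * ((1 + δ) * (1 + 6 * δ)) * (X + 1 / 3) * card =
      (X + 1 / 3) * (2 * Real.pi / Λ' * ((1 + δ) * (1 + 6 * δ)) * card) := by ring
  rw [e3, e4] at hR4
  have hR5 := le_of_mul_le_mul_left hR4 hX3
  -- (1-6δ)(1-38δ) ≥ 1 - 44δ ; (1+δ)(1+6δ) ≤ 1 + 8δ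
  have a1 : 1 - 44 * δ ≤ (1 - 6 * δ) * (1 - 38 * δ) := by nlinarith [sq_nonneg δ]
  have a2 : (1 + δ) * (1 + 6 * δ) ≤ 1 + 8 * δ := by nlinarith
  have hR6 : T / 6 * (1 - 44 * δ) ≤ 2 * Real.pi / Λ' * (1 + 8 * δ) * card := by
    refine (mul_le_mul_of_nonneg_left a1 (by positivity)).trans (hR5.trans ?_)
    gcongr
  have hR7 : T / 6 * (1 - 44 * δ) * Λ' ≤ 2 * Real.pi * (1 + 8 * δ) * card := by
    have := mul_le_mul_of_nonneg_right hR6 hΛ0.le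
    have e5 : 2 * Real.pi / Λ' * (1 + 8 * δ) * card * Λ' = 2 * Real.pi * (1 + 8 * δ) * card := by
      field_simp
    rwa [e5] at this
  rw [hΛ] at hR7
  -- final
  have h8 : 0 < 1 + 8 * δ := by linarith
  have h9 : (1 / 12 - 5 * δ) * (T / (2 * Real.pi) * κ) * (2 * Real.pi * (1 + 8 * δ)) ≤
      card * (2 * Real.pi * (1 + 8 * δ)) := by
    have e6 : (1 / 12 - 5 * δ) * (T / (2 * Real.pi) * κ) * (2 * Real.pi * (1 + 8 * δ)) =
        T * κ * ((1 / 12 - 5 * δ) * (1 + 8 * δ)) := by field_simp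
    have e7 : T / 6 * (1 - 44 * δ) * ((1 / 2 - δ) * κ) = T * κ * (1 / 12 * ((1 - 44 * δ) * (1 - 2 * δ))) := by ring
    have e8 : (1 / 12 - 5 * δ) * (1 + 8 * δ) ≤ 1 / 12 * ((1 - 44 * δ) * (1 - 2 * δ)) := by
      nlinarith [sq_nonneg δ]
    rw [e6]
    have e9 := mul_le_mul_of_nonneg_left e8 (by positivity : 0 ≤ T * κ)
    rw [e7] at hR7
    linarith
  exact le_of_mul_le_mul_right h9 (by positivity)

section

variable {ι : Type} [Fintype ι]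

/-- **Zeros and poles in the whole strip** -/
theorem sh2 {K : ℝ} (hK : 0 ≤ K) {d A D : ι → ℝ} (hd : ∀ i, 1 ≤ d i) (hA : ∀ i, 1 ≤ A i)
    {F : ι → ℂ → ℂ} {β : ι → ℕ → ℂ}
    (hF : ∀ i, GoodE (d i) (A i) 1 (F i) (fun n => β i n * (Λ n : ℂ)))
    (hβ : ∀ i n, ‖β i n‖ ≤ D i) (sF : (ι → ℝ) → ℝ)
    (hs : ∀ μ : ι → ℝ, Tendsto (av fun n => ‖∑ i, (μ i : ℂ) * β i n‖ ^ 2) (𝓝[>] 0) (𝓝 (sF μ)))
    {ε : ℝ} (hε : 0 < ε) :
    ∀ᶠ T : ℝ in atTop, ∀ μ : ι → ℝ, (∀ i, |μ i| ≤ K) → sF μ = 1 →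
      (1 / 12 - ε) * (T / (2 * Real.pi) * Real.log T) ≤ ((DD' F μ T).ncard : ℝ) := by
  obtain ⟨δ, hδ, hδ100, hδε⟩ : ∃ δ : ℝ, 0 < δ ∧ δ ≤ 1 / 100 ∧ 5 * δ ≤ ε / 2 :=
    ⟨min (1 / 100) (ε / 10), by positivity, min_le_left _ _, by
      have := min_le_right (1 / 100) (ε / 10); linarith⟩
  set θ := 1 / 2 - δ with hθ
  set θ' := 1 / 2 - δ / 2 with hθ'
  have hδ1 : δ ≤ 1 := by linarith
  have hπ : δ < Real.pi := by linarith [Real.pi_gt_three]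
  have hd0 : ∀ i, 0 ≤ d i := fun i => by linarith [hd i]
  choose C hC hfct using fun i => exists_fct θ θ' (by rw [hθ]; linarith) (by rw [hθ, hθ']; linarith)
    (by rw [hθ']; linarith) (d i) (A i) (hd i) (hA i) (F i) _ (hF i)
  have hQup := Qup (θ := θ) (θ' := θ') (K := K) (γ := δ) (by rw [hθ]; linarith)
    (by rw [hθ, hθ']; linarith) (by rw [hθ']; linarith) hK hδ hδ1 hC hF hβ sF hs hδ
  have hVl := V_low (θ := θ) (θ' := θ') (K := K) (γ := δ) (by rw [hθ]; linarith)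
    (by rw [hθ, hθ']; linarith) (by rw [hθ']; linarith) hK hδ hδ1 hC hd0 hF hβ hδ
  have hSl := S_low (θ := θ) (θ' := θ') (K := K) (by rw [hθ]; linarith) (by rw [hθ, hθ']; linarith)
    hδ hδ100 d hβ sF hs
  have hIl := I_low (d := d) hK hδ hδ100 hd0 hβ
  have t1 : ∀ᶠ T : ℝ in atTop, ∀ i, ∃ V1 V2 : ℝ, Fct θ θ' (C i) (d i) (F i) (fun n => β i n * (Λ n : ℂ)) T V1 V2 :=
    eventually_all.2 hfct
  have t4 := ev_exp (1 + 2 * (2 * (∑ i, C i) * (2 * Real.pi)) / ε) 2 (show (0:ℝ) < 1 by norm_num)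
  filter_upwards [hQup, hVl, hSl, hIl, t1, t4, Real.tendsto_log_atTop.eventually_ge_atTop 1,
    eventually_gt_atTop 1] with T hQup hVl hSl hIl t1 t4 hκ1 hT1
  choose V1 V2 hV using t1
  intro μ hμ hsμ
  set κ := Real.log T with hκ
  rw [zero_mul, Real.exp_zero, mul_one] at t4
  have hT0 : 0 < T := by linarith
  have hπ0 := Real.pi_pos
  have hCi0 : ∀ i, 0 ≤ C i := fun i => by linarith [hC i]
  have hCs : 0 ≤ ∑ i, C i := Finset.sum_nonneg fun i _ => hCi0 i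
  have hκ0 : 0 < κ := by linarith
  set U := T / (2 * Real.pi) * κ with hU
  have hU0 : 0 < U := by positivity
  set Z := ZZ fun i => (hV i).fin with hZ
  set az := Pool.Agent.Y772.ND.aa F V1 V2 μ with haz
  have hZc : ∀ z ∈ Z, conj z ∈ Z := ZZ_conj hF (fun i => (hV i).v0) fun i => (hV i).fin
  have hac : ∀ z ∈ Z, az (conj z) = conj (az z) := fun z _ => aa_conj hF (fun i => (hV i).v0) μ z
  set G2 := Gg δ ^ 2 with hG2
  have hG1 : 1 ≤ G2 := one_le_pow₀ (Gg_ge hδ hπ)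
  have hGu : G2 ≤ 1 + δ := by
    have h1 : G2 ≤ (1 + δ ^ 2) ^ 2 := pow_le_pow_left₀ (Gg_pos hδ hπ).le (Gg_le hδ hδ1) 2
    have h2 : δ ^ 2 ≤ δ / 100 := by nlinarith
    nlinarith [sq_nonneg δ]
  set Λ' := θ * κ with hΛ
  have hΛ0 : 0 < Λ' := mul_pos (by rw [hθ]; linarith) hκ0
  have hQ := hQup V1 V2 hV μ hμ
  rw [hsμ] at hQ
  set S := SS δ Λ' ((∑ i, μ i * d i) * κ) (bb β μ) (NT θ' T) with hS
  have hSlo := hSl μ hμ hsμ
  set X := (∑ i, μ i * d i) ^ 2 / θ ^ 2 with hX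
  have hX0 : 0 ≤ X := by positivity
  have hS0 : 1 / 12 ≤ S := by
    refine le_trans ?_ hSlo
    nlinarith
  set r := Real.sqrt (3 * S) with hr
  have hr2 : r ^ 2 = 3 * S := Real.sq_sqrt (by linarith)
  have hrh : 1 / 2 ≤ r := by
    rw [hr]
    apply Real.le_sqrt_of_sq_le
    linarith
  have hI := hIl μ hμ S r rfl hr2 hrh
  obtain ⟨q1, q2⟩ := rank_g (Λ' := Λ') hδ hπ hΛ0 Z az hZc hac
  set V : ℝ → ℝ := fun s => ‖∑ z ∈ Z, az z * (pg δ Λ' (z - s)) ^ 2‖ with hVd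
  set P : ℝ → ℝ := fun s => |(∑ n ∈ Finset.Icc 1 (NT θ' T), dz (Rw δ) Λ'
          ((∑ i, μ i * d i) * κ) (bb β μ) n * cexp (-(I * s * Real.log n))).re| with hP
  have hPc : Continuous P := by
    have : Continuous fun s : ℝ => (∑ n ∈ Finset.Icc 1 (NT θ' T), dz (Rw δ) Λ'
          ((∑ i, μ i * d i) * κ) (bb β μ) n * cexp (-(I * s * Real.log n))) := by
      fun_prop
    exact (Complex.continuous_re.comp this).abs
  have h1 : ∫ s in T..(2 * T), (P s - δ) ≤ ∫ s in T..(2 * T), V s := by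
    refine intervalIntegral.integral_mono_on (by linarith) ?_ q1.intervalIntegrable fun s hs => ?_
    · exact (hPc.sub continuous_const).intervalIntegrable _ _
    · exact hVl V1 V2 hV μ hμ s hs
  rw [intervalIntegral.integral_sub (hPc.intervalIntegrable _ _) intervalIntegrable_const,
    intervalIntegral.integral_const, smul_eq_mul] at h1
  have h2 : ∫ s in T..(2 * T), V s ≤ ∫ s, V s := by
    rw [intervalIntegral.integral_of_le (by linarith)]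
    exact setIntegral_le_integral q1 (ae_of_all _ fun s => norm_nonneg _)
  have hI1 : T * ((1 - δ) * (r / 3 - δ) - 2 * δ) ≤ ∫ s, V s := by
    have e1 : T * ((1 - δ) * (r / 3 - δ) - 2 * δ) = T * ((1 - δ) * (r / 3 - δ) - δ) - (2 * T - T) * δ := by
      ring
    rw [e1]
    have hI' : T * ((1 - δ) * (r / 3 - δ) - δ) ≤ ∫ s in T..(2 * T), P s := hI
    linarith
  have hR : (∫ s, V s) ^ 2 ≤ (4 * Real.pi ^ 2 * G2 / Λ' ^ 2) *
      ((Z.filter fun z => az z ≠ 0).card : ℝ) *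
        (∑ z ∈ Z, ∑ w ∈ Z, az z * az w * pg δ Λ' (z - w) ^ 2).re := by
    refine q2.trans (le_of_eq ?_)
    have e9 : (2 * Real.pi * Gg δ / Λ') ^ 2 = 4 * Real.pi ^ 2 * G2 / Λ' ^ 2 := by
      rw [hG2]; ring
    rw [e9]
  have hmain := alg_sh2 hδ hδ100 hX0 hSlo hGu hG1 hr2 (by linarith) hT0 hκ0 rfl
    (Nat.cast_nonneg (Z.filter fun z => az z ≠ 0).card) hI1 hQ hR
  have hbd0 := Pool.Agent.Y772.ND.card_le hA (fun _ => le_rfl) hF μ (T := T) (by linarith) (fun i => (hV i).fin)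
    (fun i => by have := (hV i).v1'; linarith) (fun i => (hV i).v0)
    (fun i => by have := (hV i).v2; linarith)
  have hbd : ∑ i, ((NN (F i) (V1 i) T : ℝ) + (NN (F i) (2 * T) (V2 i) : ℝ)) ≤ ε / 2 * U := by
    have e1 : ∑ i, ((NN (F i) (V1 i) T : ℝ) + (NN (F i) (2 * T) (V2 i) : ℝ)) ≤
        2 * (∑ i, C i) * κ ^ 2 := by
      rw [mul_assoc, Finset.sum_mul, Finset.mul_sum]
      refine Finset.sum_le_sum fun i _ => ?_
      have := (hV i).cnt1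
      have := (hV i).cnt2
      linarith
    refine e1.trans ?_
    have e2 : 2 * (2 * (∑ i, C i) * (2 * Real.pi)) / ε * κ ^ 2 ≤ T := by
      have : 0 ≤ κ ^ 2 := sq_nonneg _
      linarith
    rw [div_mul_eq_mul_div, div_le_iff₀ hε] at e2
    have e3 : ε / 2 * U = (T * ε) * κ / (2 * (2 * Real.pi)) := by rw [hU]; field_simp
    rw [e3, le_div_iff₀ (by positivity)]
    have e4 : 2 * (∑ i, C i) * κ ^ 2 * (2 * (2 * Real.pi)) = 2 * (2 * (∑ i, C i) * (2 * Real.pi)) * κ ^ 2 := by ring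
    rw [e4]
    have e5 : T * ε * 1 ≤ T * ε * κ := mul_le_mul_of_nonneg_left hκ1 (by positivity)
    linarith
  have h9 : (1 / 12 - ε) * U + ε / 2 * U ≤ (1 / 12 - 5 * δ) * U := by
    rw [← add_mul]
    refine mul_le_mul_of_nonneg_right ?_ hU0.le
    linarith
  have hcc : ((Z.filter fun z => az z ≠ 0).card : ℝ) ≤
      ((DD' F μ T).ncard : ℝ) + ∑ i, ((NN (F i) (V1 i) T : ℝ) + (NN (F i) (2 * T) (V2 i) : ℝ)) := hbd0
  linarith

end

end Pool.Agent.H474.SHP
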