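import Pool.Agent.H474.SHP.Bd2
import Pool.Agent.H474.SHP.Sh1
import Pool.Agent.H474.SHP.Sh2

/-!
# Uniform lower bounds for the divisors of Artin L-functions
-/

set_option autoImplicit false
set_option linter.unusedSectionVars false

open NumberField Complex Filter Topology IsDedekindDomain
open scoped ArithmeticFunction.vonMangoldt

namespace Pool.Agent.H474.SHP

open Pool.Agent.H474.ART
open Pool.Agent.Q92.AR Pool.Agent.Q5.BR Pool.Agent.H541R3.ART
open Pool.Agent.Y772.SL (av)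
open Pool.Agent.Y772.ND (DD')
open Pool.Agent.Y772.ND.Pub (Box ord_tr mord_tr)
open H370 (mult)

/-- the right half of the box -/
def HBox (T : ℝ) : Set ℂ := {s : ℂ | 1 / 2 ≤ s.re ∧ s.re < 1 ∧ T < s.im ∧ s.im ≤ 2 * T}

/-- the main term -/
noncomputable def UU (T : ℝ) : ℝ := T / (2 * Real.pi) * Real.log T

section

variable {M : Type} [Field M] [NumberField M] [IsGalois ℚ M]

/-- the degree of the combination -/
noncomputable def deg {ι : Type} [Fintype ι] (χ : ι → (M ≃ₐ[ℚ] M) → ℂ) (lam : ι → ℝ) : ℝ :=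
  (∑ i, (lam i : ℂ) * χ i 1).re

/-- nonnegative shifts -/
theorem sharp_nonneg {ι : Type} [Fintype ι] (χ : ι → (M ≃ₐ[ℚ] M) → ℂ)
    (hχ : ∀ i, χ i ∈ Irr (M ≃ₐ[ℚ] M)) (τ : ι → ℝ) (hτ : ∀ i, 0 ≤ τ i)
    (hne : ∀ i j, i ≠ j → χ i ≠ χ j ∨ τ i ≠ τ j) (L : ι → ℂ → ℂ)
    (hL : ∀ i, Continues (L i) (artinL M (χ i))) {ε : ℝ} (hε : 0 < ε) :
    ∀ᶠ T : ℝ in atTop, ∀ lam : ι → ℝ, lam ≠ 0 →
      (deg χ lam ^ 2 / (deg χ lam ^ 2 + (∑ i, lam i ^ 2) / 3) - ε) * UU T ≤
        ({s : ℂ | s ∈ HBox T ∧ ∑ i, lam i * (od (L i) (s + I * τ i) : ℝ) ≠ 0}.ncard : ℝ) ∧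
      (1 / 12 - ε) * UU T ≤
        ({s : ℂ | s ∈ Box T ∧ ∑ i, lam i * (od (L i) (s + I * τ i) : ℝ) ≠ 0}.ncard : ℝ) := by
  classical
  choose κ hκ m d a F c hE using fun i => exists_BE (hχ i)
  have hD : ∀ i, BD (χ i) (κ i) (m i) (d i) (a i) (F i) := fun i => (hE i).bd
  choose A₀ hA₀ hgood₀ using fun (i : ι) (k : κ i) => (hD i).good k
  -- the family
  let J : Type := Σ i, κ i
  let d' : J → ℝ := fun j => d j.1 j.2
  have hd' : ∀ j, 1 ≤ d' j := fun j => (hD j.1).d1 j.2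
  choose A' hA' hgood' using fun j : J => Pool.Agent.Y923.ND.t_SHIFT (d' j) (A₀ j.1 j.2) (F j.1 j.2)
    (fun n => a j.1 j.2 n * (Λ n : ℂ)) (hd' j) (hA₀ j.1 j.2) (hgood₀ j.1 j.2) (τ j.1) (hτ j.1)
  let F' : J → ℂ → ℂ := fun j s => F j.1 j.2 (s + I * τ j.1)
  let β : J → ℕ → ℂ := fun j n => a j.1 j.2 n * tw (τ j.1) n
  have hgood : ∀ j, W388.GoodE (d' j) (A' j) 1 (F' j) (fun n => β j n * (Λ n : ℂ)) := by
    intro j
    have e : (fun n => β j n * (Λ n : ℂ)) =
        fun n : ℕ => (a j.1 j.2 n * (Λ n : ℂ)) * (n : ℂ) ^ (-(I * (τ j.1 : ℂ))) := by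
      funext n
      simp only [β, tw]
      by_cases hn : n = 0
      · subst hn; simp
      · rw [if_neg hn]; ring
    rw [e]
    exact hgood' j
  have hβ : ∀ j n, ‖β j n‖ ≤ d' j := by
    intro j n
    have h0 : 0 ≤ d' j := by linarith [hd' j]
    calc ‖a j.1 j.2 n * tw (τ j.1) n‖ = ‖a j.1 j.2 n‖ * ‖tw (τ j.1) n‖ := norm_mul _ _
      _ ≤ d' j * 1 := mul_le_mul ((hD j.1).bd j.2 n) (tw_norm _ n) (norm_nonneg _) h0
      _ = d' j := mul_one _
  choose S hS using fun i => (hE i).cp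
  obtain ⟨Q, hQ⟩ := sel_gen (fun j : J => c j.1 j.2) (fun j g x => (hE j.1).cc j.2 g x)
    (fun j : J => τ j.1) (fun j : J => a j.1 j.2) d' (fun j n => (hD j.1).bd j.2 n)
    (fun j => S j.1) (fun j p hp hpS => hS j.1 j.2 p hp hpS)
  -- the combinations
  let μ : (ι → ℝ) → J → ℝ := fun x j => x j.1 * (m j.1 j.2 : ℝ)
  have hQμ : ∀ x : ι → ℝ, Q (μ x) = ∑ i, x i ^ 2 := by
    intro x
    choose S' hS' using fun i => (hD i).pr
    have h1 := sel χ hχ τ hne (fun i n => ∑ k, (m i k : ℂ) * a i k n)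
      (fun i => ∑ k, |(m i k : ℝ)| * d i k) (fun i n => by
        refine (norm_sum_le _ _).trans (Finset.sum_le_sum fun k _ => ?_)
        rw [norm_mul]
        have e : ‖((m i k : ℤ) : ℂ)‖ = |(m i k : ℝ)| := by
          rw [← Complex.ofReal_intCast, Complex.norm_real, Real.norm_eq_abs]
        rw [e]
        exact mul_le_mul_of_nonneg_left ((hD i).bd k n) (abs_nonneg _)) S' hS' x
    have h2 := hQ (μ x)
    refine tendsto_nhds_unique h2 (h1.congr fun σ => ?_)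
    congr 1
    funext n
    congr 2
    rw [Fintype.sum_sigma]
    refine Finset.sum_congr rfl fun i _ => ?_
    rw [Finset.sum_mul, Finset.mul_sum]
    refine Finset.sum_congr rfl fun k _ => ?_
    simp only [μ]
    push_cast
    ring
  -- orders
  have hord : ∀ i (s : ℂ), 0 < s.re → s.re < 1 → od (L i) s = ∑ k, m i k * (mult (F i k) s : ℤ) := by
    intro i s h0 h1
    unfold od
    rw [(hD i).ord (L i) (hL i) s h0 (by rintro rfl; simp at h1)]
    rfl
  have hre : ∀ (s : ℂ) (t : ℝ), (s + I * t).re = s.re := fun s t => by simp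
  have hmult : ∀ (j : J) (s : ℂ), mult (F' j) s = mult (F j.1 j.2) (s + I * τ j.1) := fun j s =>
    ord_tr (F j.1 j.2) (I * τ j.1) s
  have hsum : ∀ (x : ι → ℝ) (s : ℂ), 0 < s.re → s.re < 1 →
      ∑ j : J, μ x j * (mult (F' j) s : ℝ) = ∑ i, x i * (od (L i) (s + I * τ i) : ℝ) := by
    intro x s h0 h1
    rw [Fintype.sum_sigma]
    refine Finset.sum_congr rfl fun i _ => ?_
    rw [hord i _ (by rw [hre]; exact h0) (by rw [hre]; exact h1)]
    push_cast
    rw [Finset.mul_sum]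
    refine Finset.sum_congr rfl fun k _ => ?_
    rw [hmult]
    simp only [μ]
    ring
  have hdeg : ∀ x : ι → ℝ, ∑ j : J, μ x j * d' j = deg χ x := by
    intro x
    have h2 : ((∑ j : J, μ x j * d' j : ℝ) : ℂ) = ∑ i, (x i : ℂ) * χ i 1 := by
      rw [Fintype.sum_sigma, Complex.ofReal_sum]
      refine Finset.sum_congr rfl fun i _ => ?_
      rw [← (hD i).deg, Complex.ofReal_sum, Complex.ofReal_sum, Finset.mul_sum]
      refine Finset.sum_congr rfl fun k _ => ?_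
      simp only [d', μ]
      push_cast
      ring
    unfold deg
    rw [← h2, Complex.ofReal_re]
  set K : ℝ := ∑ j : J, |(m j.1 j.2 : ℝ)| with hK
  have hK0 : 0 ≤ K := Finset.sum_nonneg fun _ _ => abs_nonneg _
  have s1 := sh1 hK0 hd' hA' hgood hβ Q hQ hε
  have s2 := sh2 hK0 hd' hA' hgood hβ Q hQ hε
  filter_upwards [s1, s2] with T s1 s2 lam hlam
  -- normalisation
  have hR0 : 0 < ∑ i, lam i ^ 2 := by
    obtain ⟨i, hi⟩ := Function.ne_iff.1 hlam
    have hi' : lam i ≠ 0 := hi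
    refine Finset.sum_pos' (fun _ _ => sq_nonneg _) ⟨i, Finset.mem_univ i, by positivity⟩
  set R := Real.sqrt (∑ i, lam i ^ 2) with hR
  have hRpos : 0 < R := Real.sqrt_pos.2 hR0
  have hR2 : R ^ 2 = ∑ i, lam i ^ 2 := Real.sq_sqrt hR0.le
  set x : ι → ℝ := fun i => lam i / R with hx
  have hxs : ∑ i, x i ^ 2 = 1 := by
    have e : ∀ i, x i ^ 2 = lam i ^ 2 / R ^ 2 := fun i => by simp only [hx]; rw [div_pow]
    rw [Finset.sum_congr rfl fun i _ => e i, ← Finset.sum_div, hR2, div_self hR0.ne']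
  have hxi : ∀ i, |x i| ≤ 1 := by
    intro i
    have h1 : x i ^ 2 ≤ ∑ j, x j ^ 2 :=
      Finset.single_le_sum (f := fun j => x j ^ 2) (fun j _ => sq_nonneg _) (Finset.mem_univ i)
    rw [hxs] at h1
    exact abs_le_one_iff_mul_self_le_one.2 (by nlinarith)
  have hμK : ∀ j, |μ x j| ≤ K := by
    intro j
    simp only [μ]
    rw [abs_mul]
    have h1 : |(m j.1 j.2 : ℝ)| ≤ K :=
      Finset.single_le_sum (f := fun j : J => |(m j.1 j.2 : ℝ)|) (fun _ _ => abs_nonneg _) (Finset.mem_univ j)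
    calc |x j.1| * |(m j.1 j.2 : ℝ)| ≤ 1 * K := mul_le_mul (hxi _) h1 (abs_nonneg _) zero_le_one
      _ = K := one_mul _
  have hQx : Q (μ x) = 1 := by rw [hQμ, hxs]
  have g1 := s1 (μ x) hμK hQx
  have g2 := s2 (μ x) hμK hQx
  have hsx : ∀ s : ℂ, 0 < s.re → s.re < 1 → (∑ j : J, μ x j * (mult (F' j) s : ℝ) ≠ 0 ↔
      ∑ i, lam i * (od (L i) (s + I * τ i) : ℝ) ≠ 0) := by
    intro s h0 h1
    rw [hsum x s h0 h1]
    have e : ∑ i, x i * (od (L i) (s + I * τ i) : ℝ) =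
        (∑ i, lam i * (od (L i) (s + I * τ i) : ℝ)) / R := by
      rw [Finset.sum_div]
      refine Finset.sum_congr rfl fun i _ => ?_
      simp only [hx]; ring
    rw [e, Ne, div_eq_zero_iff, or_iff_left hRpos.ne']
  have hdx : deg χ x = deg χ lam / R := by
    unfold deg
    have e : ∑ i, (x i : ℂ) * χ i 1 = ((1 / R : ℝ) : ℂ) * ∑ i, (lam i : ℂ) * χ i 1 := by
      rw [Finset.mul_sum]
      refine Finset.sum_congr rfl fun i _ => ?_
      simp only [hx]; push_cast; ring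
    rw [e, Complex.re_ofReal_mul]; ring
  constructor
  · have e1 : DDh F' (μ x) T = {s : ℂ | s ∈ HBox T ∧ ∑ i, lam i * (od (L i) (s + I * τ i) : ℝ) ≠ 0} := by
      ext s
      constructor
      · rintro ⟨h1, h2, h3, h4, h5⟩
        exact ⟨⟨h1, h2, h3, h4⟩, (hsx s (by linarith) h2).1 h5⟩
      · rintro ⟨⟨h1, h2, h3, h4⟩, h5⟩
        exact ⟨h1, h2, h3, h4, (hsx s (by linarith) h2).2 h5⟩
    rw [e1, hdeg, hdx] at g1
    refine le_trans (le_of_eq ?_) g1
    have e2 : deg χ lam ^ 2 / (deg χ lam ^ 2 + (∑ i, lam i ^ 2) / 3) =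
        (deg χ lam / R) ^ 2 / ((deg χ lam / R) ^ 2 + 1 / 3) := by
      rw [← hR2]; field_simp
    rw [e2]
    rfl
  · have e1 : DD' F' (μ x) T = {s : ℂ | s ∈ Box T ∧ ∑ i, lam i * (od (L i) (s + I * τ i) : ℝ) ≠ 0} := by
      ext s
      constructor
      · rintro ⟨h1, h2, h3, h4, h5⟩
        exact ⟨⟨h1, h2, h3, h4⟩, (hsx s h1 h2).1 h5⟩
      · rintro ⟨⟨h1, h2, h3, h4⟩, h5⟩
        exact ⟨h1, h2, h3, h4, (hsx s h1 h2).2 h5⟩
    rw [e1] at g2
    exact g2

lemma UU_nn {T : ℝ} (hT : 1 ≤ T) : 0 ≤ UU T := by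
  unfold UU
  have := Real.log_nonneg hT
  have := Real.pi_pos
  positivity

/-- translation of the main term -/
lemma UU_tr {W η : ℝ} (hW : 0 ≤ W) (hη : 0 < η) (hη1 : η ≤ 1) :
    ∀ᶠ T : ℝ in atTop, (1 - η) * UU T ≤ UU (T - W) := by
  have t1 : ∀ᶠ T : ℝ in atTop, 2 * Real.log 2 / η ≤ Real.log T :=
    Real.tendsto_log_atTop.eventually_ge_atTop _
  filter_upwards [t1, eventually_ge_atTop (2 * W / η), eventually_ge_atTop (2 * W + 2)] with T t1 t2 t3
  unfold UU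
  have hπ := Real.pi_pos
  have hT0 : 0 < T := by linarith
  rw [div_le_iff₀ hη] at t1 t2
  have h1 : Real.log T - Real.log 2 ≤ Real.log (T - W) := by
    rw [← Real.log_div hT0.ne' two_ne_zero]
    exact Real.log_le_log (by positivity) (by linarith)
  have hl : 0 ≤ Real.log T := Real.log_nonneg (by linarith)
  have h2 : (1 - η / 2) * Real.log T ≤ Real.log (T - W) := by linarith
  have h3 : (1 - η / 2) * T ≤ T - W := by linarith
  have h4 : 0 ≤ (1 - η / 2) * Real.log T := mul_nonneg (by linarith) hl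
  have h5 := mul_le_mul h3 h2 h4 (by linarith : 0 ≤ T - W)
  have h6 : (1 - η) * (T * Real.log T) ≤ (1 - η / 2) * T * ((1 - η / 2) * Real.log T) := by
    have : 0 ≤ T * Real.log T := mul_nonneg hT0.le hl
    nlinarith [sq_nonneg η, mul_nonneg (sq_nonneg η) this]
  have h7 := div_le_div_of_nonneg_right (h6.trans h5) (by positivity : 0 ≤ 2 * Real.pi)
  calc (1 - η) * (T / (2 * Real.pi) * Real.log T) = (1 - η) * (T * Real.log T) / (2 * Real.pi) := by ring
    _ ≤ _ := h7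
    _ = _ := by ring

/-- **Main theorem**, all real shifts -/
theorem sharp {ι : Type} [Fintype ι] (χ : ι → (M ≃ₐ[ℚ] M) → ℂ)
    (hχ : ∀ i, χ i ∈ Irr (M ≃ₐ[ℚ] M)) (t : ι → ℝ)
    (hne : ∀ i j, i ≠ j → χ i ≠ χ j ∨ t i ≠ t j) (L : ι → ℂ → ℂ)
    (hL : ∀ i, Continues (L i) (artinL M (χ i))) {ε : ℝ} (hε : 0 < ε) :
    ∀ᶠ T : ℝ in atTop, ∀ lam : ι → ℝ, lam ≠ 0 →
      (deg χ lam ^ 2 / (deg χ lam ^ 2 + (∑ i, lam i ^ 2) / 3) - ε) * UU T ≤
        ({s : ℂ | s ∈ HBox T ∧ ∑ i, lam i * (od (L i) (s + I * t i) : ℝ) ≠ 0}.ncard : ℝ) ∧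
      (1 / 12 - ε) * UU T ≤
        ({s : ℂ | s ∈ Box T ∧ ∑ i, lam i * (od (L i) (s + I * t i) : ℝ) ≠ 0}.ncard : ℝ) := by
  set W : ℝ := ∑ i, |t i| with hW
  have hW0 : 0 ≤ W := Finset.sum_nonneg fun i _ => abs_nonneg _
  have hτ : ∀ i, 0 ≤ t i + W := by
    intro i
    have h1 : |t i| ≤ W := Finset.single_le_sum (fun j _ => abs_nonneg (t j)) (Finset.mem_univ i)
    have h2 := neg_abs_le (t i)
    linarith
  obtain ⟨η, hη, hη2, hη3⟩ : ∃ η : ℝ, 0 < η ∧ η ≤ ε / 2 ∧ η ≤ 1 / 24 :=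
    ⟨min (ε / 2) (1 / 24), by positivity, min_le_left _ _, min_le_right _ _⟩
  have hmain := sharp_nonneg χ hχ (fun i => t i + W) hτ (fun i j hij => by
    rcases hne i j hij with h | h
    · exact Or.inl h
    · exact Or.inr fun h' => h (add_right_cancel h')) L hL hη
  have t1 : Tendsto (fun T : ℝ => T - W) atTop atTop := tendsto_atTop_add_const_right _ _ tendsto_id
  have t2 : Tendsto (fun T : ℝ => 2 * (T - W)) atTop atTop := t1.const_mul_atTop (by norm_num)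
  filter_upwards [t1.eventually hmain, t2.eventually hmain, UU_tr hW0 hη (by linarith),
    eventually_ge_atTop (2 * W), eventually_ge_atTop (W + 4)] with T h1 h2 h3 h4 h5 lam hlam
  have hs : ∀ (s : ℂ) i, s + I * ((t i + W : ℝ) : ℂ) = (s + I * W) + I * t i := by
    intro s i
    push_cast
    ring
  obtain ⟨a1, a2⟩ := h1 lam hlam
  obtain ⟨-, b2⟩ := h2 lam hlam
  simp only [hs] at a1 a2 b2
  set P : ℂ → Prop := fun s => ∑ i, lam i * (od (L i) (s + I * t i) : ℝ) ≠ 0 with hP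
  have hpos : ∀ x : ℝ, 4 ≤ x → 0 < (1 / 12 - η) * UU x := by
    intro x hx
    unfold UU
    have := Real.log_pos (by linarith : 1 < x)
    have := Real.pi_pos
    have : 0 < 1 / 12 - η := by linarith
    positivity
  have f1 : {s : ℂ | s ∈ Box (T - W) ∧ P (s + I * W)}.Finite := by
    refine Set.finite_of_ncard_pos ?_
    have := (hpos (T - W) (by linarith)).trans_le a2
    exact_mod_cast this
  have f2 : {s : ℂ | s ∈ Box (2 * (T - W)) ∧ P (s + I * W)}.Finite := by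
    refine Set.finite_of_ncard_pos ?_
    have := (hpos (2 * (T - W)) (by linarith)).trans_le b2
    exact_mod_cast this
  have hinj : Function.Injective fun s : ℂ => s + I * W := add_left_injective _
  have him : ∀ s : ℂ, (s + I * W).im = s.im + W := by intro s; simp
  have hre : ∀ s : ℂ, (s + I * W).re = s.re := by intro s; simp
  have f3 : {s : ℂ | s ∈ Box T ∧ P s}.Finite := by
    refine ((f1.union f2).image fun s : ℂ => s + I * W).subset ?_
    rintro s ⟨⟨g1, g2, g3, g4⟩, g5⟩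
    have e : s - I * W + I * W = s := by ring
    refine ⟨s - I * W, ?_, e⟩
    have e1 : (s - I * W).re = s.re := by simp
    have e2 : (s - I * W).im = s.im - W := by simp
    by_cases h : s.im - W ≤ 2 * (T - W)
    · left
      refine ⟨⟨by rw [e1]; exact g1, by rw [e1]; exact g2, ?_, by rw [e2]; exact h⟩, by rw [e]; exact g5⟩
      rw [e2]; linarith
    · right
      push Not at h
      refine ⟨⟨by rw [e1]; exact g1, by rw [e1]; exact g2, by rw [e2]; exact h, ?_⟩, by rw [e]; exact g5⟩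
      rw [e2]; linarith
  have f4 : {s : ℂ | s ∈ HBox T ∧ P s}.Finite := by
    refine f3.subset ?_
    rintro s ⟨⟨g1, g2, g3, g4⟩, g5⟩
    exact ⟨⟨by linarith, g2, g3, g4⟩, g5⟩
  have k1 : ({s : ℂ | s ∈ HBox (T - W) ∧ P (s + I * W)}.ncard : ℝ) ≤ ({s : ℂ | s ∈ HBox T ∧ P s}.ncard : ℝ) := by
    rw [← Set.ncard_image_of_injective _ hinj]
    have := Set.ncard_le_ncard (s := (fun s : ℂ => s + I * W) '' {s : ℂ | s ∈ HBox (T - W) ∧ P (s + I * W)})
      (t := {s : ℂ | s ∈ HBox T ∧ P s}) (by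
        rintro _ ⟨s, ⟨⟨g1, g2, g3, g4⟩, g5⟩, rfl⟩
        refine ⟨⟨by rw [hre]; exact g1, by rw [hre]; exact g2, ?_, ?_⟩, g5⟩
        · rw [him]; linarith
        · rw [him]; linarith) f4
    exact_mod_cast this
  have k2 : ({s : ℂ | s ∈ Box (T - W) ∧ P (s + I * W)}.ncard : ℝ) ≤ ({s : ℂ | s ∈ Box T ∧ P s}.ncard : ℝ) := by
    rw [← Set.ncard_image_of_injective _ hinj]
    have := Set.ncard_le_ncard (s := (fun s : ℂ => s + I * W) '' {s : ℂ | s ∈ Box (T - W) ∧ P (s + I * W)})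
      (t := {s : ℂ | s ∈ Box T ∧ P s}) (by
        rintro _ ⟨s, ⟨⟨g1, g2, g3, g4⟩, g5⟩, rfl⟩
        refine ⟨⟨by rw [hre]; exact g1, by rw [hre]; exact g2, ?_, ?_⟩, g5⟩
        · rw [him]; linarith
        · rw [him]; linarith) f3
    exact_mod_cast this
  -- the constants
  have hU0 : 0 ≤ UU T := UU_nn (by linarith)
  have key : ∀ c N : ℝ, 0 ≤ N → c ≤ 1 → (c - η) * UU (T - W) ≤ N → (c - ε) * UU T ≤ N := by
    intro c N hN hc h
    by_cases hcη : 0 ≤ c - η
    · have e1 : (c - η) * ((1 - η) * UU T) ≤ (c - η) * UU (T - W) := mul_le_mul_of_nonneg_left h3 hcη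
      have e2 : (c - ε) * UU T ≤ (c - η) * ((1 - η) * UU T) := by
        rw [← mul_assoc]
        refine mul_le_mul_of_nonneg_right ?_ hU0
        nlinarith
      linarith
    · push Not at hcη
      have : (c - ε) * UU T ≤ 0 := mul_nonpos_of_nonpos_of_nonneg (by linarith) hU0
      linarith
  have hR0 : 0 < ∑ i, lam i ^ 2 := by
    obtain ⟨i, hi⟩ := Function.ne_iff.1 hlam
    have hi' : lam i ≠ 0 := hi
    refine Finset.sum_pos' (fun _ _ => sq_nonneg _) ⟨i, Finset.mem_univ i, by positivity⟩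
  constructor
  · refine key _ _ (Nat.cast_nonneg _) ?_ (a1.trans k1)
    rw [div_le_one (by positivity)]
    linarith
  · exact key _ _ (Nat.cast_nonneg _) (by norm_num) (a2.trans k2)

end

end Pool.Agent.H474.SHP
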