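import Pool.Agent.H474.SHP.Sel
import Pool.Agent.H474.ART.Main

/-!
# Correlations of the coefficients of the Hecke L-functions
-/

set_option autoImplicit false
set_option linter.unusedSectionVars false

open NumberField Complex Filter Topology IsDedekindDomain
open scoped ArithmeticFunction.vonMangoldt

namespace Pool.Agent.H474.SHP

open Pool.Agent.H474.ART
open Pool.Agent.Q92.AR Pool.Agent.Q5.BR Pool.Agent.H541R3.ART
open Pool.Agent.Q92.RT (induced)
open Pool.Agent.Y772.SL (av av_add av_mul av_congr)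
open Pool.Agent.Y772.ND (av_sum norm_nI)
open H370 (mult)

section

variable {M : Type} [Field M] [NumberField M] [IsGalois ℚ M]

/-- an irreducible character, its decomposition into induced characters, and the L-functions,
with the class functions of the pieces -/
structure BE (χ : (M ≃ₐ[ℚ] M) → ℂ) (κ : Type) [Fintype κ] (n : κ → ℤ) (d : κ → ℝ) (a : κ → ℕ → ℂ)
    (F : κ → ℂ → ℂ) (c : κ → (M ≃ₐ[ℚ] M) → ℂ) : Prop where
  bd : BD χ κ n d a F
  cc : ∀ k g x, c k (x * g * x⁻¹) = c k g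
  cp : ∃ S : Finset ℕ, ∀ k (p : ℕ), p.Prime → p ∉ S → a k p = c k (Fr M p)

theorem exists_BE {χ : (M ≃ₐ[ℚ] M) → ℂ} (hχ : χ ∈ Irr (M ≃ₐ[ℚ] M)) :
    ∃ (κ : Type) (_ : Fintype κ) (n : κ → ℤ) (d : κ → ℝ) (a : κ → ℕ → ℂ) (F : κ → ℂ → ℂ)
      (c : κ → (M ≃ₐ[ℚ] M) → ℂ), BE χ κ n d a F c := by
  classical
  obtain ⟨κ, hκ, H, ψ, n, h⟩ := brauer _ χ hχ
  choose d a F hD using fun k => exists_HD (H k) (ψ k)
  have hfun : χ = fun g => ∑ k, (n k : ℂ) * induced (H k) (ψ k) g := funext h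
  choose f hf hford using fun k => (hD k).ord
  have hcont : Continues (fun s => ∏ k, f k s ^ n k) (artinL M χ) := by
    refine ⟨fun s hs => MeromorphicAt.fun_prod fun k _ => ((hf k).1 s hs).fun_zpow _, fun s hs => ?_⟩
    rw [hfun, artinL_sum_int Finset.univ n (fun k => induced (H k) (ψ k)) hs]
    exact Finset.prod_congr rfl fun k _ => by rw [(hf k).2 s hs]
  choose S hS using fun k => (hD k).pr
  refine ⟨κ, hκ, n, d, a, F, fun k => induced (H k) (ψ k), ⟨⟨fun k => (hD k).d1, ?_,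
    fun k m => (hD k).bd m, ?_, fun k => (hD k).good, fun L hL s hs hs1 => ?_, ⟨_, hcont⟩⟩,
    fun k g x => Pool.Agent.Q92.RT.induced_conj (H k) (ψ k) g x,
    ⟨Finset.univ.biUnion S, fun k p hp hpS => hS k p hp fun h' =>
      hpS (Finset.mem_biUnion.2 ⟨k, Finset.mem_univ k, h'⟩)⟩⟩⟩
  · rw [h 1]
    push_cast
    refine Finset.sum_congr rfl fun k _ => ?_
    congr 1
    have hH : (Nat.card (H k) : ℂ) ≠ 0 := by exact_mod_cast Nat.card_pos.ne'
    have h1 := induced_one' (H k) (ψ k)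
    have h2 : ((d k : ℝ) : ℂ) * (Nat.card (H k) : ℂ) = (Nat.card (M ≃ₐ[ℚ] M) : ℂ) := by
      have := (hD k).deg
      exact_mod_cast this
    exact mul_right_cancel₀ hH (h2.trans h1.symm)
  · refine ⟨Finset.univ.biUnion S, fun p hp hpS => ?_⟩
    rw [h (Fr M p)]
    refine Finset.sum_congr rfl fun k _ => ?_
    rw [hS k p hp fun h' => hpS (Finset.mem_biUnion.2 ⟨k, Finset.mem_univ k, h'⟩)]
  · rw [hL.order_eq hcont (fun _ _ => rfl) s]
    have hne : ∀ k, meromorphicOrderAt (f k) s ≠ ⊤ := fun k =>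
      (hf k).order_ne_top (fun z _ => artinL_ne_zero _ z) s
    have hs0 : s ≠ 0 := by
      rintro rfl
      simp at hs
    have hm : ∀ k, meromorphicOrderAt ((f k) ^ n k) s =
        ((n k * (mult (F k) s : ℤ) : ℤ) : WithTop ℤ) := by
      intro k
      have han := (hD k).an s hs0 hs1
      have h1 := hne k
      rw [hford k s hs, han.meromorphicOrderAt_eq] at h1
      have h2 : analyticOrderAt (F k) s ≠ ⊤ := by
        intro h3
        apply h1
        rw [h3]
        rfl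
      have e : analyticOrderAt (F k) s = ((mult (F k) s : ℕ) : ℕ∞) := (ENat.natCast_toNat h2).symm
      rw [meromorphicOrderAt_zpow ((hf k).1 s (Set.mem_univ _)), hford k s hs,
        han.meromorphicOrderAt_eq, e]
      simp
    have e1 : (fun s => ∏ k, f k s ^ n k) = ∏ k, ((f k) ^ n k) := by
      ext z
      simp
    rw [e1, meromorphicOrderAt_prod fun k _ => ((hf k).1 s (Set.mem_univ _)).zpow (n k)]
    rw [Finset.sum_congr rfl fun k _ => hm k, ← WithTop.coe_sum]

/-- **correlations** of class functions with twists -/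
theorem sel_gen {ι : Type} [Fintype ι] (c : ι → (M ≃ₐ[ℚ] M) → ℂ)
    (hc : ∀ i g x, c i (x * g * x⁻¹) = c i g) (τ : ι → ℝ)
    (A : ι → ℕ → ℂ) (D₀ : ι → ℝ) (hA : ∀ i n, ‖A i n‖ ≤ D₀ i)
    (S : ι → Finset ℕ) (hS : ∀ i (p : ℕ), p.Prime → p ∉ S i → A i p = c i (Fr M p)) :
    ∃ Q : (ι → ℝ) → ℝ, ∀ lam : ι → ℝ,
    Tendsto (av fun n => ‖∑ i, (lam i : ℂ) * (A i n * tw (τ i) n)‖ ^ 2) (𝓝[>] 0)
      (𝓝 (Q lam)) := by
  classical
  have hD₀ : ∀ i, 0 ≤ D₀ i := fun i => (norm_nonneg _).trans (hA i 0)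
  -- the class functions
  have hcl : ∀ ij : ι × ι, Pav (M := M) (fun g => c ij.1 g * (starRingEnd ℂ) (c ij.2 g)) := by
    intro ij
    refine Pav.all fun g x => ?_
    rw [hc, hc]
  choose u B hB hup hl1 hl2 using fun ij => hcl ij (τ ij.1 - τ ij.2)
  choose S' hS' using hup
  refine ⟨fun lam => ∑ ij : ι × ι, (lam ij.1 * lam ij.2) * (if τ ij.1 - τ ij.2 = 0 then
    (avg fun g => c ij.1 g * (starRingEnd ℂ) (c ij.2 g)).re else 0), fun lam => ?_⟩
  have h2 := av_sum (Finset.univ : Finset (ι × ι))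
    (fun ij k => (lam ij.1 * lam ij.2) * (u ij k).re)
    (fun ij => |lam ij.1 * lam ij.2| * B ij) (fun ij => (lam ij.1 * lam ij.2) *
      (if τ ij.1 - τ ij.2 = 0 then (avg fun g => c ij.1 g * (starRingEnd ℂ) (c ij.2 g)).re else 0))
    (fun ij _ k => by rw [abs_mul]; exact mul_le_mul_of_nonneg_left ((abs_re_le_norm _).trans (hB ij k)) (abs_nonneg _))
    (fun ij _ => by
      refine ((hl1 ij).const_mul (lam ij.1 * lam ij.2)).congr' ?_
      filter_upwards with x
      rw [av_mul])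
  set Df : ℝ := ∑ i, |lam i| * D₀ i with hDf
  have hDf0 : 0 ≤ Df := Finset.sum_nonneg fun i _ => mul_nonneg (abs_nonneg _) (hD₀ i)
  have hfb : ∀ k, ‖∑ i, (lam i : ℂ) * (A i k * tw (τ i) k)‖ ≤ Df := by
    intro k
    refine (norm_sum_le _ _).trans ?_
    refine Finset.sum_le_sum fun i _ => ?_
    rw [norm_mul, Complex.norm_real, Real.norm_eq_abs, norm_mul]
    refine mul_le_mul_of_nonneg_left ?_ (abs_nonneg _)
    calc ‖A i k‖ * ‖tw (τ i) k‖ ≤ D₀ i * 1 := mul_le_mul (hA i k) (tw_norm _ k) (norm_nonneg _) (hD₀ i)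
      _ = D₀ i := mul_one _
  refine av_congr (A := Df ^ 2) (fun k => ?_) h2.1
    (Finset.univ.biUnion fun i => S i ∪ Finset.univ.biUnion fun j => S' (i, j)) ?_ h2.2
  · rw [abs_of_nonneg (sq_nonneg _)]
    exact pow_le_pow_left₀ (norm_nonneg _) (hfb k) 2
  · intro p hp hS0
    have hp0 : (p : ℂ) ≠ 0 := by exact_mod_cast hp.ne_zero
    have hSi : ∀ i, p ∉ S i := fun i h =>
      hS0 (Finset.mem_biUnion.2 ⟨i, Finset.mem_univ i, Finset.mem_union_left _ h⟩)
    have hSij : ∀ i j, p ∉ S' (i, j) := fun i j h =>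
      hS0 (Finset.mem_biUnion.2 ⟨i, Finset.mem_univ i, Finset.mem_union_right _
        (Finset.mem_biUnion.2 ⟨j, Finset.mem_univ j, h⟩)⟩)
    have hww : ∀ i j, tw (τ i) p * (starRingEnd ℂ) (tw (τ j) p) =
        (p : ℂ) ^ (-(I * ((τ i - τ j : ℝ) : ℂ))) := by
      intro i j
      simp only [tw, if_neg hp.ne_zero]
      have hc : (starRingEnd ℂ) ((p : ℂ) ^ (-(I * (τ j : ℂ)))) = (p : ℂ) ^ (I * (τ j : ℂ)) := by
        have harg : ((p : ℕ) : ℂ).arg ≠ Real.pi := by
          rw [Complex.natCast_arg]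
          exact Real.pi_pos.ne
        have h5 := Complex.cpow_conj ((p : ℕ) : ℂ) (-(I * (τ j : ℂ))) harg
        rw [Complex.conj_natCast] at h5
        rw [← h5]
        congr 1
        simp
      rw [hc, ← Complex.cpow_add _ _ hp0]
      congr 1
      push_cast; ring
    have e1 : ((‖∑ i, (lam i : ℂ) * (A i p * tw (τ i) p)‖ ^ 2 : ℝ) : ℂ) =
        ∑ ij : ι × ι, ((lam ij.1 * lam ij.2 : ℝ) : ℂ) * u ij p := by
      have e0 : ∀ z : ℂ, ((‖z‖ ^ 2 : ℝ) : ℂ) = z * (starRingEnd ℂ) z := by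
        intro z; rw [Complex.mul_conj']; push_cast; rfl
      rw [e0, map_sum, Finset.sum_mul_sum, Fintype.sum_prod_type]
      refine Finset.sum_congr rfl fun i _ => Finset.sum_congr rfl fun j _ => ?_
      rw [hS' (i, j) p hp (hSij i j), ← hww i j, hS i p hp (hSi i), hS j p hp (hSi j)]
      simp only [map_mul, Complex.conj_ofReal]
      push_cast; ring
    have e2 := congrArg Complex.re e1
    rw [Complex.ofReal_re, re_sum] at e2
    rw [e2]
    refine Finset.sum_congr rfl fun ij _ => ?_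
    rw [Complex.re_ofReal_mul]

end

end Pool.Agent.H474.SHP
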