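import Pool.Agent.H474.SHP.Frm
import Pool.Graph.R_pool_sql_team_seeded_1acbe0a2.Y179.ND.Far

/-!
# One L-function: the package of facts at a large height
-/

set_option autoImplicit false

open Complex Filter Topology Set MeasureTheory
open scoped ComplexConjugate
open H370 (zset mult NN Nd Ns)
open W388 H385

namespace Pool.Agent.H474.SHP

open Pool.Agent.Y772.ND (Mz Az ev_exp Zf wf mem_Zf sum_wf sum_wf_le Az_Zf)

/-- the length of the finite sum -/
noncomputable def NT (θ' T : ℝ) : ℕ := ⌊Real.exp (θ' * Real.log T)⌋₊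

/-- the facts about one L-function at height `T` -/
structure Fct (θ θ' C d : ℝ) (F : ℂ → ℂ) (a : ℕ → ℂ) (T V1 V2 : ℝ) : Prop where
  v1 : T - 3 * Real.log T ≤ V1
  v1' : V1 ≤ T - 3 * Real.log T + 1
  v2 : 2 * T + 3 * Real.log T - 1 ≤ V2
  v2' : V2 ≤ 2 * T + 3 * Real.log T
  v0 : 1 ≤ V1
  fin : (zset F V1 V2).Finite
  cnt : (NN F V1 V2 : ℝ) ≤ C * T * Real.log T
  cnt1 : (NN F V1 T : ℝ) ≤ C * (Real.log T) ^ 2
  cnt2 : (NN F (2 * T) V2 : ℝ) ≤ C * (Real.log T) ^ 2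
  ex : ∀ u m : ℝ, 0 ≤ u → u ≤ θ * Real.log T → V1 + Real.log T ≤ m → m ≤ V2 - Real.log T →
        ‖A1 F V1 V2 u m - Mz (d * Real.log T) (NT θ' T) a u m‖ ≤ C * Real.exp (-u)
  ii : ∀ u : ℝ, 0 ≤ u → Integrable (fun t : ℝ => ‖A1 F V1 V2 u t‖ ^ 2)
  far : ∀ u : ℝ, 0 ≤ u → ∫ t in (Set.Icc (T - Real.log T) (2 * T + Real.log T))ᶜ,
      ‖A1 F V1 V2 u t‖ ^ 2 ≤ C * (Real.log T) ^ 5 * Real.exp u

theorem exists_fct (θ θ' : ℝ) (h0 : 0 < θ) (h1 : θ < θ') (h1' : θ' < 1) (d A : ℝ) (hd : 1 ≤ d)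
    (hA : 1 ≤ A) (F : ℂ → ℂ) (a : ℕ → ℂ) (hF : GoodE d A 1 F a) :
    ∃ C : ℝ, 1 ≤ C ∧ ∀ᶠ T : ℝ in atTop, ∃ V1 V2 : ℝ, Fct θ θ' C d F a T V1 V2 := by
  obtain ⟨Cf, hCf, hform⟩ := A1_formula_D d A hd hA
  obtain ⟨C0, hC0, hcount⟩ := zcount_long_D d A hd hA
  obtain ⟨Ch, hCh, hfar⟩ := Pool.Agent.Y179.ND.t_FAR
  set Cx := Ch * (2 * (21 * C0) ^ 2 + 2 * (6 * C0) ^ 2) with hCx
  have hCx0 : 0 < Cx := by positivity
  set C := 1 + (2 * Cf + A) + 12 * C0 + Cx with hC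
  have hC1 : 1 ≤ C := by linarith
  refine ⟨C, hC1, ?_⟩
  have hδ : 0 < θ' - θ := by linarith
  have f3 : ∀ᶠ T : ℝ in atTop, 64 ≤ Real.log T := Real.tendsto_log_atTop.eventually_ge_atTop 64
  have f4 := ev_exp 10 1 (show (0:ℝ) < 1 by norm_num)
  have f5 : ∀ᶠ T : ℝ in atTop, 2 / (θ' - θ) ≤ Real.log T := Real.tendsto_log_atTop.eventually_ge_atTop _
  have f6 : ∀ᶠ T : ℝ in atTop, 4 * (θ' - θ + 2 * θ) / (θ' - θ) ^ 2 ≤ Real.log T :=
    Real.tendsto_log_atTop.eventually_ge_atTop _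
  filter_upwards [f3, f4, f5, f6, eventually_gt_atTop 1] with T f3 f4 f5 f6 hT1
  set κ := Real.log T with hκ
  rw [zero_mul, Real.exp_zero, mul_one, pow_one] at f4
  obtain ⟨V1, V2, h1, h2, h3, h4, h5⟩ := hform 1 F a le_rfl hF T κ (by linarith) (by linarith)
  have hT0 : 0 < T := by linarith
  have hV1 : 15 ≤ V1 := by linarith
  have hfin : (zset F V1 V2).Finite := zset_finite_D hA le_rfl hF V1 V2 (by linarith)
  have hlog : ∀ x : ℝ, 1 ≤ x → x ≤ 3 * T → 0 ≤ Real.log (1 * x) ∧ Real.log (1 * x) ≤ 3 * κ := by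
    intro x hx1 hx
    rw [one_mul]
    have e1 : Real.log x ≤ Real.log (3 * T) := Real.log_le_log (by linarith) hx
    rw [Real.log_mul (by norm_num) hT0.ne'] at e1
    have e2 : Real.log 3 ≤ 2 := by
      have := Real.log_le_sub_one_of_pos (show (0:ℝ) < 3 by norm_num)
      linarith
    have e3 : 0 ≤ Real.log x := Real.log_nonneg hx1
    constructor <;> linarith
  have hcnt : ∀ x y z : ℝ, 3 ≤ x → x + 1 ≤ y → y ≤ 3 * T → y - x ≤ z →
      (NN F x y : ℝ) ≤ 3 * C0 * z * κ := by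
    intro x y z hx hxy hy hz
    refine (hcount 1 F a le_rfl hF x y hx hxy).trans ?_
    obtain ⟨g1, g2⟩ := hlog y (by linarith) hy
    have hz0 : 0 ≤ z := by linarith
    calc C0 * (y - x) * Real.log (1 * y) ≤ C0 * z * (3 * κ) := by gcongr
      _ = _ := by ring
  have c1 : (NN F V1 V2 : ℝ) ≤ 6 * C0 * T * κ := by
    refine (hcnt V1 V2 (2 * T) (by linarith) (by linarith) (by linarith) (by linarith)).trans
      (le_of_eq (by ring))
  have c2 : (NN F V1 T : ℝ) ≤ 9 * C0 * κ ^ 2 := by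
    refine (hcnt V1 T (3 * κ) (by linarith) (by linarith) (by linarith) (by linarith)).trans
      (le_of_eq (by ring))
  have c3 : (NN F (2 * T) V2 : ℝ) ≤ 9 * C0 * κ ^ 2 := by
    refine (hcnt (2 * T) V2 (3 * κ) (by linarith) (by linarith) (by linarith) (by linarith)).trans
      (le_of_eq (by ring))
  have c4 : (NN F V1 (V1 + 6 * κ) : ℝ) ≤ 21 * C0 * κ ^ 2 := by
    refine (hcnt V1 (V1 + 6 * κ) (7 * κ) (by linarith) (by linarith) (by linarith)
      (by linarith)).trans (le_of_eq (by ring))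
  have c5 : (NN F (V2 - 6 * κ - 1) V2 : ℝ) ≤ 21 * C0 * κ ^ 2 := by
    refine (hcnt (V2 - 6 * κ - 1) V2 (7 * κ) (by linarith) (by linarith) (by linarith)
      (by linarith)).trans (le_of_eq (by ring))
  -- the far part
  have hfar1 := fun u hu => hfar (Zf hfin) (fun z => (wf F V1 V2 z : ℂ)) V1 V2 (2 * κ)
    (21 * C0 * κ ^ 2) (6 * C0 * T * κ) u (by linarith) (by linarith) hu (by
      intro z hz
      rw [mem_Zf] at hz
      obtain ⟨g1, g2, g3, g4, -⟩ := hz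
      simp only [add_re, mul_re, I_re, zero_mul, I_im, one_mul, zero_sub, add_im, mul_im,
        zero_add] at g1 g2 g3 g4
      norm_num at g1 g2 g3 g4
      refine ⟨?_, g3.le, g4⟩
      rw [abs_le]; constructor <;> linarith) (by rw [sum_wf hfin]; exact c1) (by
      refine (sum_wf_le hfin (zset_finite_D hA le_rfl hF V1 (V1 + 6 * κ) (by linarith)) _ ?_).trans c4
      rintro z ⟨g1, g2, g3, g4, g5⟩ hP
      refine ⟨g1, g2, g3, ?_, g5⟩
      have e : (1 / 2 + I * z).im = z.re := by simp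
      rw [e]; linarith) (by
      refine (sum_wf_le hfin (zset_finite_D hA le_rfl hF (V2 - 6 * κ - 1) V2 (by linarith)) _ ?_).trans c5
      rintro z ⟨g1, g2, g3, g4, g5⟩ hP
      refine ⟨g1, g2, ?_, g4, g5⟩
      have e : (1 / 2 + I * z).im = z.re := by simp
      rw [e]; linarith)
  simp_rw [Az_Zf hfin] at hfar1
  refine ⟨V1, V2, ⟨h1, h2, h3, h4, by linarith, hfin, ?_, ?_, ?_, ?_, ?_, ?_⟩⟩
  · refine c1.trans ?_
    have h6 : 6 * C0 ≤ C := by linarith
    exact mul_le_mul_of_nonneg_right (mul_le_mul_of_nonneg_right h6 hT0.le) (by linarith)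
  · refine c2.trans ?_
    have : 9 * C0 ≤ C := by linarith
    exact mul_le_mul_of_nonneg_right this (sq_nonneg _)
  · refine c3.trans ?_
    have : 9 * C0 ≤ C := by linarith
    exact mul_le_mul_of_nonneg_right this (sq_nonneg _)
  · intro u m hu0 hu hm1 hm2
    have h6 := h5 u m hu0 hm1 hm2
    rw [one_mul] at h6
    have hY2 : 2 ≤ (θ' - θ) * κ := by
      rw [div_le_iff₀ hδ] at f5
      linarith
    have hY3 : (θ' - θ) * κ + 2 * (θ * κ) ≤ ((θ' - θ) * κ) ^ 2 / 4 := by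
      rw [div_le_iff₀ (by positivity)] at f6
      have := mul_le_mul_of_nonneg_right f6 (by linarith : 0 ≤ κ)
      have e1 : κ * (θ' - θ) ^ 2 * κ = ((θ' - θ) * κ) ^ 2 := by ring
      rw [e1] at this
      linarith
    have h7 := tail_bd hF hY2 hY3 hu (N := NT θ' T) (by
      have : θ * κ + (θ' - θ) * κ = θ' * κ := by ring
      rw [this]
      exact Nat.lt_floor_add_one _) m
    have hu1 : u ≤ κ := by
      have : θ * κ ≤ 1 * κ := mul_le_mul_of_nonneg_right (by linarith) (by linarith)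
      linarith
    have h8 : κ ^ 2 * Real.exp (u - κ ^ 2 / 2) ≤ Real.exp (-u) := by
      have e1 : κ ^ 2 ≤ Real.exp (2 * κ) := by
        have h9 : κ ≤ Real.exp κ := by linarith [Real.add_one_le_exp κ]
        have h10 : Real.exp (2 * κ) = Real.exp κ ^ 2 := by rw [← Real.exp_nat_mul]; norm_num
        rw [h10]
        exact pow_le_pow_left₀ (by linarith) h9 2
      calc κ ^ 2 * Real.exp (u - κ ^ 2 / 2) ≤ Real.exp (2 * κ) * Real.exp (u - κ ^ 2 / 2) :=
            mul_le_mul_of_nonneg_right e1 (Real.exp_pos _).le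
        _ = Real.exp (2 * κ + (u - κ ^ 2 / 2)) := by rw [← Real.exp_add]
        _ ≤ Real.exp (-u) := by
            apply Real.exp_le_exp.2
            nlinarith
    have h9 : (1 / (2 * Real.sqrt Real.pi) : ℝ) ≤ 1 := by
      rw [div_le_one (by positivity)]
      have : 1 ≤ Real.sqrt Real.pi := by
        rw [Real.one_le_sqrt]
        linarith [Real.pi_gt_three]
      linarith
    have h10 : A1 F V1 V2 u m - Mz (d * κ) (NT θ' T) a u m =
        (A1 F V1 V2 u m - (1 / (2 * Real.sqrt Real.pi) : ℝ) *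
            (((d * κ : ℝ) : ℂ) * cexp (I * m * u) * Real.exp (-u ^ 2 / 4)
              - PP1 a u m)) - ((1 / (2 * Real.sqrt Real.pi) : ℝ) : ℂ) *
        (PP1 a u m - ∑ n ∈ Finset.Icc 1 (NT θ' T), a n * (Real.sqrt n : ℂ)⁻¹ *
          cexp (I * m * (u - Real.log n)) * Real.exp (-(u - Real.log n) ^ 2 / 4)) := by
      unfold Mz
      ring
    rw [h10]
    refine (norm_sub_le _ _).trans ?_
    rw [norm_mul, Complex.norm_real, Real.norm_of_nonneg (by positivity : (0:ℝ) ≤ 1 / (2 * Real.sqrt Real.pi))]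
    have h11 : 1 / (2 * Real.sqrt Real.pi) * ‖PP1 a u m - ∑ n ∈ Finset.Icc 1 (NT θ' T),
        a n * (Real.sqrt n : ℂ)⁻¹ * cexp (I * m * (u - Real.log n)) *
        Real.exp (-(u - Real.log n) ^ 2 / 4)‖ ≤ 1 * (A * Real.exp (-u)) :=
      mul_le_mul h9 h7 (norm_nonneg _) (by norm_num)
    have h12 : Cf * (Real.exp (-u) + κ ^ 2 * Real.exp (u - κ ^ 2 / 2)) ≤
        Cf * (2 * Real.exp (-u)) := mul_le_mul_of_nonneg_left (by linarith) hCf.le
    calc _ ≤ Cf * (2 * Real.exp (-u)) + 1 * (A * Real.exp (-u)) := add_le_add (h6.trans h12) h11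
      _ = (2 * Cf + A) * Real.exp (-u) := by ring
      _ ≤ C * Real.exp (-u) := mul_le_mul_of_nonneg_right (by linarith) (Real.exp_pos _).le
  · intro u hu0
    exact (hfar1 u hu0).1
  · intro u hu0
    obtain ⟨i1, i2⟩ := hfar1 u hu0
    have hsub : (Set.Icc (T - κ) (2 * T + κ))ᶜ ⊆ (Set.Icc (V1 + 2 * κ) (V2 - 2 * κ))ᶜ := by
      apply Set.compl_subset_compl.2
      apply Set.Icc_subset_Icc <;> linarith
    refine (setIntegral_mono_set i1.integrableOn (ae_of_all _ fun t => sq_nonneg _)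
      hsub.eventuallyLE).trans (i2.trans ?_)
    have e1 : T ^ 2 * Real.exp (-(2 * κ) ^ 2) ≤ 1 := by
      have : T ^ 2 = Real.exp (2 * κ) := by
        rw [mul_comm, Real.exp_mul, hκ, Real.exp_log hT0]; norm_num
      rw [this, ← Real.exp_add, Real.exp_le_one_iff]
      nlinarith
    have e2 : κ ^ 3 ≤ κ ^ 5 := pow_le_pow_right₀ (by linarith) (by norm_num)
    have e3 : 0 ≤ κ ^ 3 := by positivity
    calc Ch * Real.exp u * (2 * κ * (21 * C0 * κ ^ 2) ^ 2 + 2 * κ * (6 * C0 * T * κ) ^ 2 *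
          Real.exp (-(2 * κ) ^ 2))
        = Real.exp u * (Ch * (2 * (21 * C0) ^ 2) * κ ^ 5 + Ch * (2 * (6 * C0) ^ 2) * (κ ^ 3 *
            (T ^ 2 * Real.exp (-(2 * κ) ^ 2)))) := by ring
      _ ≤ Real.exp u * (Ch * (2 * (21 * C0) ^ 2) * κ ^ 5 + Ch * (2 * (6 * C0) ^ 2) * (κ ^ 5 * 1)) := by
          gcongr
      _ = Cx * κ ^ 5 * Real.exp u := by rw [hCx]; ring
      _ ≤ C * κ ^ 5 * Real.exp u := by
          have : Cx ≤ C := by linarith
          gcongr

end Pool.Agent.H474.SHP
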