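import Pool.Agent.H474.SHP.Win2
import Pool.Graph.R_seed8.H370R2.MV

/-!
# The explicit formula with a long finite sum, and the mean square of the main term
-/

set_option autoImplicit false

open Complex Filter Topology Set MeasureTheory
open H370 (zset mult NN Nd Ns)
open W388 H385

namespace Pool.Agent.H474.SHP

open Pool.Agent.Y772.ND (Mz Az)

/-- the tail of the prime side -/
lemma tail_bd {d A Q : ℝ} {F : ℂ → ℂ} {a : ℕ → ℂ} (hF : GoodE d A Q F a) {U Y u : ℝ}
    (hY : 2 ≤ Y) (hYU : Y + 2 * U ≤ Y ^ 2 / 4) (hu : u ≤ U) {N : ℕ}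
    (hN : Real.exp (U + Y) < N + 1) (m : ℝ) :
    ‖PP1 a u m - ∑ n ∈ Finset.Icc 1 N, a n * (Real.sqrt n : ℂ)⁻¹ * cexp (I * m * (u - Real.log n)) *
      Real.exp (-(u - Real.log n) ^ 2 / 4)‖ ≤ A * Real.exp (-u) := by
  set f : ℕ → ℂ := fun n => a n * (Real.sqrt n : ℂ)⁻¹ * cexp (I * m * (u - Real.log n)) *
      Real.exp (-(u - Real.log n) ^ 2 / 4) with hf
  have hnf : ∀ n, ‖f n‖ = ‖a n‖ * ((Real.sqrt n)⁻¹ * Real.exp (-(u - Real.log n) ^ 2 / 4)) := by
    intro n
    simp only [hf]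
    rw [norm_mul, norm_mul, norm_mul, norm_inv, Complex.norm_real, Complex.norm_real,
      Real.norm_of_nonneg (Real.sqrt_nonneg _), Real.norm_of_nonneg (Real.exp_pos _).le]
    have : ‖cexp (I * m * (u - Real.log n))‖ = 1 := by
      have e : I * (m : ℂ) * ((u : ℂ) - (Real.log n : ℂ)) = ((m * (u - Real.log n) : ℝ) : ℂ) * I := by
        push_cast; ring
      rw [e, Complex.norm_exp_ofReal_mul_I]
    rw [this]
    ring
  have hsf : Summable f := by
    refine Summable.of_norm ?_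
    simp_rw [hnf]
    exact hF.coef.dom u
  have h1 : PP1 a u m = ∑' n, f n := rfl
  have h2 : ∑ n ∈ Finset.Icc 1 N, f n = ∑ n ∈ Finset.range (N + 1), f n := by
    have : Finset.range (N + 1) = insert 0 (Finset.Icc 1 N) := by
      ext n; simp only [Finset.mem_range, Finset.mem_insert, Finset.mem_Icc]; omega
    rw [this, Finset.sum_insert (by simp)]
    have : f 0 = 0 := by
      simp only [hf]; rw [hF.ha1 0 (by norm_num)]; simp
    rw [this, zero_add]
  rw [h1]
  change ‖(∑' n, f n) - ∑ n ∈ Finset.Icc 1 N, f n‖ ≤ _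
  rw [h2, ← hsf.sum_add_tsum_nat_add (N + 1), add_sub_cancel_left]
  have hs2 : Summable fun n : ℕ => ‖a (n + (N + 1))‖ * ((n + (N + 1) : ℕ) : ℝ) ^ (-(3 / 2) : ℝ) :=
    (summable_nat_add_iff (N + 1)).2 hF.has
  have hterm : ∀ n : ℕ, ‖f (n + (N + 1))‖ ≤
      (‖a (n + (N + 1))‖ * ((n + (N + 1) : ℕ) : ℝ) ^ (-(3 / 2) : ℝ)) * Real.exp (-u) := by
    intro n
    rw [hnf]
    set k : ℕ := n + (N + 1) with hk
    have hk0 : (0 : ℝ) < k := by
      have : 0 < k := by omega
      exact_mod_cast this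
    have hkl : U + Y < Real.log k := by
      rw [Real.lt_log_iff_exp_lt hk0]
      refine hN.trans_le ?_
      have : N + 1 ≤ k := by omega
      exact_mod_cast this
    set ℓ := Real.log k with hℓ
    rw [mul_assoc]
    refine mul_le_mul_of_nonneg_left ?_ (norm_nonneg _)
    have e1 : Real.exp (-(u - ℓ) ^ 2 / 4) ≤ Real.exp (-ℓ - u) := by
      apply Real.exp_le_exp.2
      set y := ℓ - u with hy
      have h3 : Y ≤ y := by linarith
      have h4 : (u - ℓ) ^ 2 = y ^ 2 := by rw [hy]; ring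
      rw [h4]
      have h5 : ℓ + u ≤ y + 2 * U := by rw [hy]; linarith
      have h6 : 0 ≤ (y - Y) * (y + Y - 4) := mul_nonneg (sub_nonneg.2 h3) (by linarith)
      have h7 : (y - Y) * (y + Y - 4) = y ^ 2 - 4 * y - Y ^ 2 + 4 * Y := by ring
      linarith
    have e2 : Real.exp (-ℓ - u) = (k : ℝ)⁻¹ * Real.exp (-u) := by
      rw [sub_eq_add_neg, Real.exp_add, Real.exp_neg, Real.exp_log hk0]
    have e3 : (k : ℝ) ^ (-(3 / 2) : ℝ) = (Real.sqrt k)⁻¹ * (k : ℝ)⁻¹ := by
      rw [show (-(3 / 2) : ℝ) = -(1 / 2) + (-1) by norm_num, Real.rpow_add hk0,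
        Real.rpow_neg hk0.le, Real.rpow_neg_one, ← Real.sqrt_eq_rpow]
    rw [e3, mul_assoc, ← e2]
    exact mul_le_mul_of_nonneg_left e1 (by positivity)
  have hs3 := (hs2.mul_right (Real.exp (-u)))
  refine (tsum_of_norm_bounded hs3.hasSum hterm).trans ?_
  rw [tsum_mul_right]
  refine mul_le_mul_of_nonneg_right ?_ (Real.exp_pos _).le
  refine le_trans ?_ hF.ha
  rw [← hF.has.sum_add_tsum_nat_add (N + 1)]
  have : 0 ≤ ∑ n ∈ Finset.range (N + 1), ‖a n‖ * (n : ℝ) ^ (-(3 / 2) : ℝ) :=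
    Finset.sum_nonneg fun n _ => by positivity
  linarith

/-- the mean square of the main term -/
lemma Mz_ms (L : ℝ) (N : ℕ) (hN : 1 ≤ N) (b : ℕ → ℂ) (hb1 : b 1 = 0) (u X Y : ℝ) (hXY : X ≤ Y) :
    ∫ t in X..Y, ‖Mz L N b u t‖ ^ 2 ≤ 1 / (4 * Real.pi) * ((Y - X + 8 * N * (1 + Real.log N)) *
      (L ^ 2 * Real.exp (-(u - 0) ^ 2 / 2) +
        ∑ n ∈ Finset.Icc 1 N, ‖b n‖ ^ 2 / n * Real.exp (-(u - Real.log n) ^ 2 / 2))) := by
  set c : ℕ → ℂ := fun n => (if n = 1 then ((L * Real.exp (-u ^ 2 / 4) : ℝ) : ℂ) else 0) -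
    b n * (Real.sqrt n : ℂ)⁻¹ * Real.exp (-(u - Real.log n) ^ 2 / 4) with hc
  have h1 : ∀ t : ℝ, ‖Mz L N b u t‖ ^ 2 = 1 / (4 * Real.pi) *
      ‖∑ n ∈ Finset.Icc 1 N, c n * (n : ℂ) ^ (-(t : ℂ) * I)‖ ^ 2 := by
    intro t
    have e1 : Mz L N b u t = ((1 / (2 * Real.sqrt Real.pi) : ℝ) : ℂ) * (cexp (I * t * u) *
        ∑ n ∈ Finset.Icc 1 N, c n * (n : ℂ) ^ (-(t : ℂ) * I)) := by
      unfold Mz
      congr 1
      have e2 : ∑ n ∈ Finset.Icc 1 N, c n * (n : ℂ) ^ (-(t : ℂ) * I) =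
          (L * Real.exp (-u ^ 2 / 4) : ℝ) - ∑ n ∈ Finset.Icc 1 N, b n * (Real.sqrt n : ℂ)⁻¹ *
            Real.exp (-(u - Real.log n) ^ 2 / 4) * (n : ℂ) ^ (-(t : ℂ) * I) := by
        simp only [hc, sub_mul]
        rw [Finset.sum_sub_distrib]
        congr 1
        rw [Finset.sum_eq_single 1]
        · simp
        · intro n _ hn; rw [if_neg hn, zero_mul]
        · intro h; exact absurd (Finset.mem_Icc.2 ⟨le_rfl, hN⟩) h
      rw [e2, mul_sub, Finset.mul_sum]
      congr 1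
      · push_cast; ring
      · refine Finset.sum_congr rfl fun n hn => ?_
        have hn0 : (n : ℂ) ≠ 0 := by
          have := (Finset.mem_Icc.1 hn).1
          exact_mod_cast (by omega : n ≠ 0)
        have e3 : (n : ℂ) ^ (-(t : ℂ) * I) = cexp (-(I * t * Real.log n)) := by
          rw [Complex.cpow_def_of_ne_zero hn0, ← Complex.natCast_log]
          congr 1; ring
        rw [e3]
        have e4 : cexp (I * t * (u - Real.log n)) = cexp (I * t * u) * cexp (-(I * t * Real.log n)) := by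
          rw [← Complex.exp_add]; congr 1; ring
        rw [e4]; ring
    rw [e1, norm_mul, norm_mul, Complex.norm_real, mul_pow, mul_pow]
    have e5 : ‖cexp (I * t * u)‖ = 1 := by
      have e : I * (t : ℂ) * (u : ℂ) = ((t * u : ℝ) : ℂ) * I := by push_cast; ring
      rw [e, Complex.norm_exp_ofReal_mul_I]
    rw [e5, one_pow, one_mul]
    congr 1
    rw [Real.norm_eq_abs, sq_abs, div_pow, mul_pow, Real.sq_sqrt Real.pi_pos.le]
    norm_num
  simp_rw [h1]
  rw [intervalIntegral.integral_const_mul]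
  refine mul_le_mul_of_nonneg_left ?_ (by positivity)
  have h2 := H370.mean_value c N X Y hXY
  refine h2.trans (mul_le_mul_of_nonneg_left (le_of_eq ?_) ?_)
  · have h3 : ∀ n ∈ Finset.Icc 1 N, ‖c n‖ ^ 2 = (if n = 1 then L ^ 2 * Real.exp (-(u - 0) ^ 2 / 2) else 0) +
        ‖b n‖ ^ 2 / n * Real.exp (-(u - Real.log n) ^ 2 / 2) := by
      intro n hn
      have hn1 := (Finset.mem_Icc.1 hn).1
      have hn0 : (0 : ℝ) < n := by exact_mod_cast hn1
      by_cases h : n = 1
      · subst h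
        simp only [hc, if_true, hb1, zero_mul, sub_zero, Complex.norm_real, norm_zero]
        rw [Real.norm_eq_abs, sq_abs, mul_pow, ← Real.exp_nat_mul]
        norm_num
        left
        ring
      · simp only [hc, if_neg h, zero_sub, norm_neg, zero_add]
        rw [norm_mul, norm_mul, norm_inv, Complex.norm_real, Complex.norm_real,
          Real.norm_of_nonneg (Real.sqrt_nonneg _), Real.norm_of_nonneg (Real.exp_pos _).le,
          mul_pow, mul_pow, inv_pow, Real.sq_sqrt hn0.le, ← Real.exp_nat_mul]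
        congr 2
        push_cast; ring
    rw [Finset.sum_congr rfl h3, Finset.sum_add_distrib]
    congr 1
    rw [Finset.sum_ite_eq', if_pos (Finset.mem_Icc.2 ⟨le_rfl, hN⟩)]
  · have hN1 : (1 : ℝ) ≤ N := by exact_mod_cast hN
    have := Real.log_nonneg hN1
    have : 0 ≤ 8 * (N : ℝ) * (1 + Real.log N) := by positivity
    linarith

end Pool.Agent.H474.SHP
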