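import Pool.Agent.H474.SHP.Idx

/-!
# Gaussian means of exponential sums
-/

set_option autoImplicit false

open Complex MeasureTheory
open scoped ComplexConjugate

namespace Pool.Agent.H474.SHP

/-- the Gaussian weight -/
noncomputable def gk (H x s : ℝ) : ℝ := Real.exp (-(s - x) ^ 2 / H ^ 2)

lemma gk_pos (H x s : ℝ) : 0 < gk H x s := Real.exp_pos _

lemma gk_cont (H x : ℝ) : Continuous (gk H x) := by unfold gk; fun_prop

/-- the Fourier transform of the Gaussian weight -/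
theorem gk_four (H x f : ℝ) (hH : 0 < H) :
    Integrable (fun s : ℝ => (gk H x s : ℂ) * cexp (-(I * s * f))) ∧
    ∫ s : ℝ, (gk H x s : ℂ) * cexp (-(I * s * f)) =
      ((Real.sqrt Real.pi * H : ℝ) : ℂ) * (cexp (-(I * x * f)) * (Real.exp (-(H ^ 2 * f ^ 2) / 4) : ℝ)) := by
  set b : ℂ := ((-(1 / H ^ 2) : ℝ) : ℂ) with hb
  set c : ℂ := ((2 * x / H ^ 2 : ℝ) : ℂ) - I * f with hc
  set d : ℂ := ((-(x ^ 2 / H ^ 2) : ℝ) : ℂ) with hd
  have hbre : b.re < 0 := by
    rw [hb, Complex.ofReal_re]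
    have : 0 < 1 / H ^ 2 := by positivity
    linarith
  have hHc : (H : ℂ) ≠ 0 := by exact_mod_cast hH.ne'
  have e1 : ∀ s : ℝ, (gk H x s : ℂ) * cexp (-(I * s * f)) = cexp (b * s ^ 2 + c * s + d) := by
    intro s
    unfold gk
    rw [Complex.ofReal_exp, ← Complex.exp_add]
    congr 1
    rw [hb, hc, hd]
    push_cast
    field_simp
    ring
  simp_rw [e1]
  refine ⟨integrable_cexp_quadratic' hbre c d, ?_⟩
  rw [integral_cexp_quadratic hbre]
  have e2 : (Real.pi / -b : ℂ) = ((Real.pi * H ^ 2 : ℝ) : ℂ) := by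
    rw [hb]; push_cast; field_simp
  have e3 : (Real.pi / -b : ℂ) ^ (1 / 2 : ℂ) = ((Real.sqrt Real.pi * H : ℝ) : ℂ) := by
    rw [e2]
    have : (1 / 2 : ℂ) = ((1 / 2 : ℝ) : ℂ) := by push_cast; rfl
    rw [this, ← Complex.ofReal_cpow (by positivity), ← Real.sqrt_eq_rpow,
      Real.sqrt_mul Real.pi_pos.le, Real.sqrt_sq hH.le]
  rw [e3]
  congr 1
  rw [Complex.ofReal_exp, ← Complex.exp_add]
  congr 1
  rw [hb, hc, hd]
  push_cast
  field_simp
  ring_nf
  rw [Complex.I_sq]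
  ring

lemma gk_int (H x : ℝ) (hH : 0 < H) : Integrable (gk H x) ∧ ∫ s : ℝ, gk H x s = Real.sqrt Real.pi * H := by
  obtain ⟨h1, h2⟩ := gk_four H x 0 hH
  simp only [Complex.ofReal_zero, mul_zero, neg_zero, Complex.exp_zero, mul_one, ne_eq,
    OfNat.ofNat_ne_zero, not_false_eq_true, zero_pow, zero_div, Real.exp_zero, Complex.ofReal_one] at h1 h2
  refine ⟨?_, ?_⟩
  · have := h1.re
    simpa using this
  · have h3 : ((∫ s : ℝ, gk H x s : ℝ) : ℂ) = ((Real.sqrt Real.pi * H : ℝ) : ℂ) := by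
      rw [← integral_complex_ofReal]; exact h2
    exact_mod_cast h3

section

variable {ι : Type} (S : Finset ι) (c : ι → ℂ) (f : ι → ℝ)

/-- the exponential sum -/
noncomputable def es (s : ℝ) : ℂ := ∑ i ∈ S, c i * cexp (-(I * s * f i))

lemma es_cont : Continuous (es S c f) := by unfold es; fun_prop

lemma cis_norm (s f : ℝ) : ‖cexp (-(I * s * f))‖ = 1 := by
  have : -(I * (s : ℂ) * (f : ℂ)) = ((-(s * f) : ℝ) : ℂ) * I := by push_cast; ring
  rw [this, Complex.norm_exp_ofReal_mul_I]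

lemma es_le (s : ℝ) : ‖es S c f s‖ ≤ ∑ i ∈ S, ‖c i‖ := by
  unfold es
  refine (norm_sum_le _ _).trans (le_of_eq (Finset.sum_congr rfl fun i _ => ?_))
  rw [norm_mul, cis_norm, mul_one]

lemma es_sq (s : ℝ) : ((‖es S c f s‖ ^ 2 : ℝ) : ℂ) =
    ∑ i ∈ S, ∑ j ∈ S, c i * conj (c j) * cexp (-(I * s * ((f i - f j : ℝ) : ℂ))) := by
  have h1 : ∀ w : ℂ, ((‖w‖ ^ 2 : ℝ) : ℂ) = w * conj w := by
    intro w; rw [Complex.mul_conj']; push_cast; rfl
  rw [h1]
  unfold es
  rw [map_sum, Finset.sum_mul_sum]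
  refine Finset.sum_congr rfl fun i _ => Finset.sum_congr rfl fun j _ => ?_
  rw [map_mul, ← Complex.exp_conj]
  have e1 : conj (-(I * (s : ℂ) * (f j : ℂ))) = I * s * f j := by
    simp
  rw [e1]
  have e2 : cexp (-(I * s * ((f i - f j : ℝ) : ℂ))) = cexp (-(I * s * f i)) * cexp (I * s * f j) := by
    rw [← Complex.exp_add]; congr 1; push_cast; ring
  rw [e2]; ring

/-- **Gaussian mean value** -/
theorem gmv {H g : ℝ} (x : ℝ) (hH : 0 < H) (hg : 0 ≤ g)
    (hgap : ∀ i ∈ S, ∀ j ∈ S, f i ≠ f j → g ≤ |f i - f j|) :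
    Integrable (fun s : ℝ => gk H x s * ‖es S c f s‖ ^ 2) ∧
    |(∫ s : ℝ, gk H x s * ‖es S c f s‖ ^ 2) - Real.sqrt Real.pi * H *
      ∑ i ∈ S, ∑ j ∈ S, (if f i = f j then (c i * conj (c j)).re else 0)| ≤
      Real.sqrt Real.pi * H * ((∑ i ∈ S, ‖c i‖) ^ 2 * Real.exp (-(H ^ 2 * g ^ 2) / 4)) := by
  set P := Real.sqrt Real.pi * H with hP
  have hP0 : 0 < P := by positivity
  have hint : ∀ i j, Integrable (fun s : ℝ => c i * conj (c j) *
      ((gk H x s : ℂ) * cexp (-(I * s * ((f i - f j : ℝ) : ℂ))))) := fun i j =>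
    (gk_four H x (f i - f j) hH).1.const_mul _
  have hexp : ∀ s : ℝ, ((gk H x s * ‖es S c f s‖ ^ 2 : ℝ) : ℂ) = ∑ i ∈ S, ∑ j ∈ S, c i * conj (c j) *
      ((gk H x s : ℂ) * cexp (-(I * s * ((f i - f j : ℝ) : ℂ)))) := by
    intro s
    rw [Complex.ofReal_mul, es_sq, Finset.mul_sum]
    refine Finset.sum_congr rfl fun i _ => ?_
    rw [Finset.mul_sum]
    exact Finset.sum_congr rfl fun j _ => by ring
  have hintC : Integrable (fun s : ℝ => ((gk H x s * ‖es S c f s‖ ^ 2 : ℝ) : ℂ)) := by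
    simp_rw [hexp]
    exact integrable_finsetSum _ fun i _ => integrable_finsetSum _ fun j _ => hint i j
  refine ⟨?_, ?_⟩
  · have h1 := hintC.re
    simp only [RCLike.re_to_complex, Complex.ofReal_re] at h1
    exact h1
  have hval : ((∫ s : ℝ, gk H x s * ‖es S c f s‖ ^ 2 : ℝ) : ℂ) = ∑ i ∈ S, ∑ j ∈ S, c i * conj (c j) *
      ((P : ℂ) * (cexp (-(I * x * ((f i - f j : ℝ) : ℂ))) *
        (Real.exp (-(H ^ 2 * (f i - f j) ^ 2) / 4) : ℝ))) := by
    rw [← integral_complex_ofReal]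
    simp_rw [hexp]
    rw [integral_finsetSum _ fun i _ => integrable_finsetSum _ fun j _ => hint i j]
    refine Finset.sum_congr rfl fun i _ => ?_
    rw [integral_finsetSum _ fun j _ => hint i j]
    refine Finset.sum_congr rfl fun j _ => ?_
    rw [integral_const_mul, (gk_four H x (f i - f j) hH).2]
  have hdiag : ((P * ∑ i ∈ S, ∑ j ∈ S, (if f i = f j then (c i * conj (c j)).re else 0) : ℝ)) =
      (∑ i ∈ S, ∑ j ∈ S, c i * conj (c j) * (P * (if f i = f j then 1 else 0))).re := by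
    rw [Complex.re_sum, Finset.mul_sum]
    refine Finset.sum_congr rfl fun i _ => ?_
    rw [Complex.re_sum, Finset.mul_sum]
    refine Finset.sum_congr rfl fun j _ => ?_
    split_ifs
    · rw [mul_one, mul_comm (c i * conj (c j)), Complex.re_ofReal_mul]
    · simp
  have hre : (∫ s : ℝ, gk H x s * ‖es S c f s‖ ^ 2) = (∑ i ∈ S, ∑ j ∈ S, c i * conj (c j) *
      ((P : ℂ) * (cexp (-(I * x * ((f i - f j : ℝ) : ℂ))) *
        (Real.exp (-(H ^ 2 * (f i - f j) ^ 2) / 4) : ℝ)))).re := by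
    rw [← hval, Complex.ofReal_re]
  rw [hre, hdiag, ← Complex.sub_re]
  refine (Complex.abs_re_le_norm _).trans ?_
  rw [← Finset.sum_sub_distrib]
  have hb : ∀ i ∈ S, ∀ j ∈ S, ‖c i * conj (c j) * ((P : ℂ) * (cexp (-(I * x * ((f i - f j : ℝ) : ℂ))) *
        (Real.exp (-(H ^ 2 * (f i - f j) ^ 2) / 4) : ℝ))) - c i * conj (c j) * (P * (if f i = f j then 1 else 0))‖ ≤
      ‖c i‖ * ‖c j‖ * (P * Real.exp (-(H ^ 2 * g ^ 2) / 4)) := by
    intro i hi j hj
    rw [← mul_sub, norm_mul, norm_mul, Complex.norm_conj]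
    refine mul_le_mul_of_nonneg_left ?_ (mul_nonneg (norm_nonneg _) (norm_nonneg _))
    by_cases h : f i = f j
    · rw [if_pos h, h, sub_self]
      simp only [Complex.ofReal_zero, mul_zero, neg_zero, Complex.exp_zero, mul_one, ne_eq,
        OfNat.ofNat_ne_zero, not_false_eq_true, zero_pow, zero_div, Real.exp_zero, Complex.ofReal_one,
        sub_self, norm_zero]
      positivity
    · rw [if_neg h, mul_zero, sub_zero, norm_mul, norm_mul, cis_norm, one_mul, Complex.norm_real,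
        Complex.norm_real, Real.norm_of_nonneg hP0.le, Real.norm_of_nonneg (Real.exp_pos _).le]
      refine mul_le_mul_of_nonneg_left ?_ hP0.le
      apply Real.exp_le_exp.2
      have h1 := hgap i hi j hj h
      have h2 : g ^ 2 ≤ (f i - f j) ^ 2 := by
        rw [← sq_abs (f i - f j)]
        exact pow_le_pow_left₀ hg h1 2
      have h3 : H ^ 2 * g ^ 2 ≤ H ^ 2 * (f i - f j) ^ 2 := mul_le_mul_of_nonneg_left h2 (sq_nonneg _)
      linarith
  refine (norm_sum_le _ _).trans ?_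
  have h4 : ∀ i ∈ S, ‖∑ j ∈ S, c i * conj (c j) * ((P : ℂ) * (cexp (-(I * x * ((f i - f j : ℝ) : ℂ))) *
        (Real.exp (-(H ^ 2 * (f i - f j) ^ 2) / 4) : ℝ))) - ∑ j ∈ S, c i * conj (c j) * (P * (if f i = f j then 1 else 0))‖ ≤
      ∑ j ∈ S, ‖c i‖ * ‖c j‖ * (P * Real.exp (-(H ^ 2 * g ^ 2) / 4)) := by
    intro i hi
    rw [← Finset.sum_sub_distrib]
    exact (norm_sum_le _ _).trans (Finset.sum_le_sum fun j hj => hb i hi j hj)
  refine (Finset.sum_le_sum h4).trans (le_of_eq ?_)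
  rw [sq (∑ i ∈ S, ‖c i‖), Finset.sum_mul_sum]
  simp only [Finset.sum_mul, Finset.mul_sum]
  refine Finset.sum_congr rfl fun i _ => Finset.sum_congr rfl fun j _ => ?_
  ring

end

end Pool.Agent.H474.SHP
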