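import Mathlib

/-!
# Signed primes: additive quadruples of logarithms
-/

set_option autoImplicit false

namespace Pool.Agent.H474.SHP

/-- the primes up to `N` -/
def Pr (N : ℕ) : Finset ℕ := (Finset.Icc 1 N).filter Nat.Prime

lemma mem_Pr {N p : ℕ} : p ∈ Pr N ↔ p.Prime ∧ p ≤ N := by
  unfold Pr
  rw [Finset.mem_filter, Finset.mem_Icc]
  exact ⟨fun h => ⟨h.2, h.1.2⟩, fun h => ⟨⟨h.1.one_lt.le, h.2⟩, h.1⟩⟩

/-- `0` and the signed primes up to `N` -/
def SP (N : ℕ) : Finset ℤ :=
  insert 0 ((Pr N).image (fun p : ℕ => (p : ℤ)) ∪ (Pr N).image (fun p : ℕ => -(p : ℤ)))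

lemma mem_SP {N : ℕ} {j : ℤ} : j ∈ SP N ↔ j = 0 ∨ (j.natAbs.Prime ∧ j.natAbs ≤ N) := by
  unfold SP
  simp only [Finset.mem_insert, Finset.mem_union, Finset.mem_image, mem_Pr]
  constructor
  · rintro (h | ⟨p, hp, rfl⟩ | ⟨p, hp, rfl⟩)
    · exact Or.inl h
    · right; simpa using hp
    · right; simpa using hp
  · rintro (h | ⟨h1, h2⟩)
    · exact Or.inl h
    · right
      rcases Int.natAbs_eq j with h | h
      · left; exact ⟨j.natAbs, ⟨h1, h2⟩, h.symm⟩
      · right; exact ⟨j.natAbs, ⟨h1, h2⟩, h.symm⟩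

lemma sum_SP {M : Type} [AddCommMonoid M] (N : ℕ) (g : ℤ → M) :
    ∑ j ∈ SP N, g j = g 0 + ∑ p ∈ Pr N, (g p + g (-p)) := by
  unfold SP
  rw [Finset.sum_insert, Finset.sum_union, Finset.sum_image, Finset.sum_image, Finset.sum_add_distrib]
  · intro x _ y _ h
    simpa using h
  · intro x _ y _ h
    simpa using h
  · rw [Finset.disjoint_left]
    intro j hj hj'
    obtain ⟨p, hp, rfl⟩ := Finset.mem_image.1 hj
    obtain ⟨q, hq, h⟩ := Finset.mem_image.1 hj'
    have h1 := (mem_Pr.1 hp).1.pos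
    have h2 := (mem_Pr.1 hq).1.pos
    omega
  · intro h
    rcases Finset.mem_union.1 h with h | h
    · obtain ⟨p, hp, h⟩ := Finset.mem_image.1 h
      have h1 := (mem_Pr.1 hp).1.pos
      omega
    · obtain ⟨p, hp, h⟩ := Finset.mem_image.1 h
      have h1 := (mem_Pr.1 hp).1.pos
      omega

/-- the numerator -/
def nu (j : ℤ) : ℕ := if 0 < j then j.natAbs else 1

/-- the denominator -/
def de (j : ℤ) : ℕ := if j < 0 then j.natAbs else 1

lemma nu_neg (j : ℤ) : nu (-j) = de j := by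
  unfold nu de
  simp only [Left.neg_pos_iff, Int.natAbs_neg]

lemma de_neg (j : ℤ) : de (-j) = nu j := by
  unfold nu de
  simp only [Left.neg_neg_iff, Int.natAbs_neg]

lemma nu_pos (j : ℤ) : 1 ≤ nu j := by
  unfold nu; split_ifs <;> omega

lemma de_pos (j : ℤ) : 1 ≤ de j := by
  unfold de; split_ifs <;> omega

lemma nude_le {N : ℕ} (hN : 1 ≤ N) {j : ℤ} (hj : j ∈ SP N) : nu j * de j ≤ N := by
  unfold nu de
  rcases mem_SP.1 hj with h | ⟨h1, h2⟩
  · subst h; simpa using hN
  · split_ifs <;> omega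

lemma neg_SP {N : ℕ} {j : ℤ} (hj : j ∈ SP N) : -j ∈ SP N := by
  rw [mem_SP] at hj ⊢
  simpa using hj

lemma L1 {N : ℕ} {b c : ℤ} (hb : b ∈ SP N) (hc : c ∈ SP N) (h : nu b * de c = nu c * de b) : b = c := by
  rcases mem_SP.1 hb with rfl | ⟨hb1, -⟩
  · rcases mem_SP.1 hc with rfl | ⟨hc1, -⟩
    · rfl
    · exfalso
      have h2 := hc1.two_le
      simp only [nu, de, lt_self_iff_false, if_false] at h
      split_ifs at h <;> omega
  · rcases mem_SP.1 hc with rfl | ⟨hc1, -⟩
    · exfalso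
      have h2 := hb1.two_le
      simp only [nu, de, lt_self_iff_false, if_false] at h
      split_ifs at h <;> omega
    · have h2 := hb1.two_le
      have h3 := hc1.two_le
      simp only [nu, de] at h
      split_ifs at h
      all_goals first | omega | skip
      all_goals
        exfalso
        nlinarith

lemma nu_prime {N : ℕ} {c : ℤ} (hc : c ∈ SP N) {p : ℕ} (hp : p.Prime) (h : p ∣ nu c) : c = p := by
  unfold nu at h
  rcases mem_SP.1 hc with rfl | ⟨hc1, -⟩
  · simp only [lt_self_iff_false, if_false, Nat.dvd_one] at h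
    exact absurd h hp.one_lt.ne'
  · split_ifs at h with h0
    · have h1 := (Nat.prime_dvd_prime_iff_eq hp hc1).1 h
      omega
    · exact absurd (Nat.dvd_one.1 h) hp.one_lt.ne'

lemma de_prime {N : ℕ} {c : ℤ} (hc : c ∈ SP N) {p : ℕ} (hp : p.Prime) (h : p ∣ de c) : c = -p := by
  have h1 := nu_prime (neg_SP hc) hp (by rw [nu_neg]; exact h)
  omega

lemma L2 {N : ℕ} {a b c e : ℤ} (ha : a ∈ SP N) (hb : b ∈ SP N) (hc : c ∈ SP N) (he : e ∈ SP N)
    (h0 : 0 < a) (h : nu a * nu b * de c * de e = nu c * nu e * de a * de b) :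
    (a = c ∧ b = e) ∨ (a = e ∧ b = c) ∨ (b = -a ∧ e = -c) := by
  rcases mem_SP.1 ha with rfl | ⟨hp, -⟩
  · exact absurd h0 (lt_irrefl _)
  set p := a.natAbs with hpdef
  have ha' : a = p := by omega
  have hna : nu a = p := by unfold nu; rw [if_pos h0]
  have hda : de a = 1 := by unfold de; rw [if_neg (by omega)]
  rw [hna, hda, mul_one] at h
  have hp0 : 0 < p := hp.pos
  have hdvd : p ∣ nu c * nu e * de b := by
    rw [← h]
    exact ⟨nu b * de c * de e, by ring⟩
  rcases (Nat.Prime.dvd_mul hp).1 hdvd with h1 | h1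
  · rcases (Nat.Prime.dvd_mul hp).1 h1 with h2 | h2
    · left
      have hcp := nu_prime hc hp h2
      have hca : c = a := by rw [hcp, ha']
      have hnc : nu c = p := by rw [hca, hna]
      have hdc : de c = 1 := by rw [hca, hda]
      refine ⟨hca.symm, L1 hb he ?_⟩
      rw [hnc, hdc] at h
      have : p * (nu b * de e) = p * (nu e * de b) := by linarith
      exact Nat.eq_of_mul_eq_mul_left hp0 this
    · right; left
      have hcp := nu_prime he hp h2
      have hca : e = a := by rw [hcp, ha']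
      have hnc : nu e = p := by rw [hca, hna]
      have hdc : de e = 1 := by rw [hca, hda]
      refine ⟨hca.symm, L1 hb hc ?_⟩
      rw [hnc, hdc] at h
      have : p * (nu b * de c) = p * (nu c * de b) := by linarith
      exact Nat.eq_of_mul_eq_mul_left hp0 this
  · right; right
    have hbp := de_prime hb hp h1
    have hba : b = -a := by rw [hbp, ha']
    have hnb : nu b = 1 := by rw [hba, nu_neg, hda]
    have hdb : de b = p := by rw [hba, de_neg, hna]
    refine ⟨hba, L1 he (neg_SP hc) ?_⟩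
    rw [nu_neg, de_neg]
    rw [hnb, hdb] at h
    have : p * (nu e * nu c) = p * (de c * de e) := by linarith
    exact Nat.eq_of_mul_eq_mul_left hp0 this

/-- **Additive quadruples** -/
theorem quadr {N : ℕ} {a b c e : ℤ} (ha : a ∈ SP N) (hb : b ∈ SP N) (hc : c ∈ SP N) (he : e ∈ SP N)
    (h : nu a * nu b * de c * de e = nu c * nu e * de a * de b) :
    (a = c ∧ b = e) ∨ (a = e ∧ b = c) ∨ (b = -a ∧ e = -c) := by
  have key : ∀ {a b c e : ℤ}, a ∈ SP N → b ∈ SP N → c ∈ SP N → e ∈ SP N → a ≠ 0 →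
      nu a * nu b * de c * de e = nu c * nu e * de a * de b →
      (a = c ∧ b = e) ∨ (a = e ∧ b = c) ∨ (b = -a ∧ e = -c) := by
    intro a b c e ha hb hc he h0 h
    rcases lt_or_gt_of_ne h0 with h1 | h1
    · have h2 := L2 (neg_SP ha) (neg_SP hb) (neg_SP hc) (neg_SP he) (by omega) (by
        simp only [nu_neg, de_neg]
        linarith)
      omega
    · exact L2 ha hb hc he h1 h
  by_cases h0 : a = 0
  · by_cases h1 : b = 0
    · right; right
      subst h0; subst h1
      refine ⟨by simp, L1 he (neg_SP hc) ?_⟩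
      rw [nu_neg, de_neg]
      have e1 : nu 0 = 1 := rfl
      have e2 : de 0 = 1 := rfl
      rw [e1, e2] at h
      linarith
    · have h2 := key hb ha hc he h1 (by linarith)
      omega
  · exact key ha hb hc he h0 h

/-- the frequencies -/
noncomputable def fz (j : ℤ) : ℝ := Real.log (nu j) - Real.log (de j)

lemma fz_zero : fz 0 = 0 := by unfold fz nu de; simp

lemma fz_neg (j : ℤ) : fz (-j) = -fz j := by
  unfold fz; rw [nu_neg, de_neg]; ring

lemma fz_pos {p : ℕ} (hp : 0 < p) : fz p = Real.log p := by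
  unfold fz nu de
  rw [if_pos (by exact_mod_cast hp), if_neg (by omega)]
  simp

/-- separation of logarithms -/
lemma gap2 {m n : ℕ} (M : ℝ) (hM : 1 ≤ M) (hm : 1 ≤ m) (hn : 1 ≤ n) (hmn : (m : ℝ) * n ≤ M ^ 2)
    (hne : m ≠ n) : 1 / (2 * M) ≤ |Real.log m - Real.log n| := by
  wlog h : n < m generalizing m n
  · rw [abs_sub_comm]
    exact this hn hm (by linarith) hne.symm (by omega)
  have hm0 : (0 : ℝ) < m := by exact_mod_cast hm
  have hn0 : (0 : ℝ) < n := by exact_mod_cast hn
  have h1 : Real.log (n / m) ≤ n / m - 1 := Real.log_le_sub_one_of_pos (by positivity)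
  rw [Real.log_div hn0.ne' hm0.ne'] at h1
  have h2 : (n : ℝ) + 1 ≤ m := by exact_mod_cast h
  refine le_trans ?_ (le_abs_self _)
  have h3 : 1 / (2 * M) ≤ 1 - (n : ℝ) / m := by
    have e1 : 1 - (n : ℝ) / m = (m - n) / m := by field_simp
    rw [e1, div_le_div_iff₀ (by positivity) hm0, one_mul]
    by_cases h4 : 2 * (n : ℝ) ≤ m
    · nlinarith
    · push Not at h4
      have h5 : (m : ℝ) ^ 2 ≤ (2 * M) ^ 2 := by nlinarith
      have h6 : (m : ℝ) ≤ 2 * M := by
        have := abs_le_of_sq_le_sq h5 (by positivity)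
        exact (le_abs_self _).trans (by simpa using this)
      nlinarith
  linarith

/-- additive relations between the frequencies -/
lemma fz_four {N : ℕ} (a b c e : ℤ) :
    (fz a + fz b) - (fz c + fz e) = Real.log ((nu a * nu b * de c * de e : ℕ) : ℝ) -
      Real.log ((nu c * nu e * de a * de b : ℕ) : ℝ) := by
  have h1 : ∀ j, ((nu j : ℕ) : ℝ) ≠ 0 := fun j => by have := nu_pos j; positivity
  have h2 : ∀ j, ((de j : ℕ) : ℝ) ≠ 0 := fun j => by have := de_pos j; positivity
  push_cast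
  rw [Real.log_mul (mul_ne_zero (mul_ne_zero (h1 a) (h1 b)) (h2 c)) (h2 e),
    Real.log_mul (mul_ne_zero (h1 a) (h1 b)) (h2 c), Real.log_mul (h1 a) (h1 b),
    Real.log_mul (mul_ne_zero (mul_ne_zero (h1 c) (h1 e)) (h2 a)) (h2 b),
    Real.log_mul (mul_ne_zero (h1 c) (h1 e)) (h2 a), Real.log_mul (h1 c) (h1 e)]
  unfold fz
  ring

lemma prod_pos4 (a b c e : ℤ) : 1 ≤ nu a * nu b * de c * de e :=
  Nat.mul_pos (Nat.mul_pos (Nat.mul_pos (nu_pos a) (nu_pos b)) (de_pos c)) (de_pos e)

/-- the separation of the sums of two frequencies -/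
theorem fz_gap {N : ℕ} (hN : 1 ≤ N) {a b c e : ℤ} (ha : a ∈ SP N) (hb : b ∈ SP N) (hc : c ∈ SP N)
    (he : e ∈ SP N) (hne : fz a + fz b ≠ fz c + fz e) :
    1 / (2 * (N : ℝ) ^ 2) ≤ |(fz a + fz b) - (fz c + fz e)| := by
  rw [fz_four (N := N)]
  have hN1 : (1 : ℝ) ≤ N := by exact_mod_cast hN
  refine gap2 _ (one_le_pow₀ hN1) (prod_pos4 a b c e) (prod_pos4 c e a b) ?_ ?_
  · have h1 : (nu a * nu b * de c * de e) * (nu c * nu e * de a * de b) =
        (nu a * de a) * (nu b * de b) * ((nu c * de c) * (nu e * de e)) := by ring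
    have h2 : (nu a * nu b * de c * de e) * (nu c * nu e * de a * de b) ≤ (N * N) * (N * N) := by
      rw [h1]
      exact Nat.mul_le_mul (Nat.mul_le_mul (nude_le hN ha) (nude_le hN hb))
        (Nat.mul_le_mul (nude_le hN hc) (nude_le hN he))
    have h3 : (((nu a * nu b * de c * de e : ℕ) : ℝ)) * ((nu c * nu e * de a * de b : ℕ) : ℝ) ≤
        ((N * N) * (N * N) : ℕ) := by exact_mod_cast h2
    refine h3.trans (le_of_eq ?_)
    push_cast; ring
  · intro h
    apply hne
    have := fz_four (N := N) a b c e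
    rw [h, sub_self] at this
    linarith

/-- equal sums -/
theorem fz_eq {N : ℕ} {a b c e : ℤ} (ha : a ∈ SP N) (hb : b ∈ SP N) (hc : c ∈ SP N)
    (he : e ∈ SP N) (h : fz a + fz b = fz c + fz e) :
    (a = c ∧ b = e) ∨ (a = e ∧ b = c) ∨ (b = -a ∧ e = -c) := by
  refine quadr ha hb hc he ?_
  have h1 := fz_four (N := N) a b c e
  rw [h, sub_self] at h1
  have h2 : Real.log ((nu a * nu b * de c * de e : ℕ) : ℝ) =
      Real.log ((nu c * nu e * de a * de b : ℕ) : ℝ) := by linarith
  have h3 := Real.log_injOn_pos (Set.mem_Ioi.2 (by exact_mod_cast prod_pos4 a b c e))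
    (Set.mem_Ioi.2 (by exact_mod_cast prod_pos4 c e a b)) h2
  exact_mod_cast h3

end Pool.Agent.H474.SHP
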