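import Pool.Graph.R_seed8.W688.TW.Kara
import Pool.Graph.R_seed8.Y772.NV.Ord
import Pool.Graph.R_seed8.Y772.SL.Crit

/-!
# Karamata's theorem for continuous test functions
-/

set_option autoImplicit false

open Filter Topology MeasureTheory

namespace Pool.Agent.H474.SHP

open Pool.Agent.H306R2
open Pool.Agent.Y772.SL (av)
open scoped ArithmeticFunction.vonMangoldt

lemma int_Gd (φ : ℝ → ℝ) (M : ℝ) (hM : 0 ≤ M) (h0 : ∀ u, M ≤ u → φ u = 0) :
    ∫ u : Fin 1 → ℝ, Gd (fun _ => 1) u * φ (u 0) = ∫ u in (0 : ℝ)..M, φ u := by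
  have hmp := (volume_preserving_funUnique (Fin 1) ℝ)
  have e1 : ∀ u : Fin 1 → ℝ, Gd (fun _ => 1) u * φ (u 0) =
      (fun y : ℝ => gd 1 y * φ y) (MeasurableEquiv.funUnique (Fin 1) ℝ u) := by
    intro u
    simp [Gd, MeasurableEquiv.funUnique]
  refine (integral_congr_ae (Eventually.of_forall e1)).trans ?_
  refine (hmp.integral_comp (MeasurableEquiv.measurableEmbedding _)
    (fun y : ℝ => gd 1 y * φ y)).trans ?_
  have e2 : (fun y : ℝ => gd 1 y * φ y) = (Set.Ioc 0 M).indicator φ := by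
    funext y
    unfold gd
    by_cases h : 0 < y
    · rw [if_pos h, sub_self, Real.rpow_zero, Real.Gamma_one, div_one, one_mul]
      by_cases h2 : y ≤ M
      · rw [Set.indicator_of_mem (Set.mem_Ioc.2 ⟨h, h2⟩)]
      · rw [Set.indicator_of_notMem (fun h3 => h2 h3.2), h0 y (by linarith)]
    · rw [if_neg h, zero_mul, Set.indicator_of_notMem (fun h3 => h h3.1)]
  rw [e2, integral_indicator measurableSet_Ioc, intervalIntegral.integral_of_le hM]

/-- **Karamata's theorem** -/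
theorem kar (v : ℕ → ℝ) (hv : ∀ n, 0 ≤ v n) (hv0 : v 0 = 0)
    (hsum : ∀ σ : ℝ, 0 < σ → Summable (fun n : ℕ => v n * (n : ℝ) ^ (-σ))) (s : ℝ) (hs : 0 ≤ s)
    (hlim : Tendsto (fun σ : ℝ => σ * ∑' n : ℕ, v n * (n : ℝ) ^ (-σ)) (𝓝[>] 0) (𝓝 s))
    (φ : ℝ → ℝ) (hφ : Continuous φ) (M : ℝ) (hM : 0 ≤ M) (h0 : ∀ u, M ≤ u → φ u = 0) :
    Tendsto (fun L : ℝ => (∑' n : ℕ, v n * φ (Real.log n / L)) / L) atTop
      (𝓝 (s * ∫ u in (0 : ℝ)..M, φ u)) := by
  have H : KH 1 (fun c : Fin 1 → ℕ => v (c 0)) := by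
    refine ⟨fun c => hv _, ?_, ?_⟩
    · rintro c ⟨i, hi⟩
      have : i = 0 := Subsingleton.elim _ _
      subst this
      simp only [hi, hv0]
    · intro s hs
      have h1 := hsum (s 0) (hs 0)
      have h2 := (Equiv.funUnique (Fin 1) ℕ).summable_iff.mpr h1
      refine h2.congr fun c => ?_
      simp [Finset.univ_unique]
  have h := karamata H 1 s hs (fun _ => 1) (fun _ => one_pos) ?_
    (fun u => φ (u 0)) (hφ.comp (continuous_apply 0)) M ?_ hM
  · simp only [Real.rpow_one, int_Gd φ M hM h0] at h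
    refine h.congr fun x => ?_
    congr 1
    exact (Equiv.funUnique (Fin 1) ℕ).tsum_eq (fun n : ℕ => v n * φ (Real.log n / x))
  · intro t ht
    have hs0 := ht 0
    have e0 : Tendsto (fun L : ℝ => t 0 / L) atTop (𝓝[>] 0) := by
      rw [tendsto_nhdsWithin_iff]
      refine ⟨tendsto_const_nhds.div_atTop tendsto_id, ?_⟩
      filter_upwards [eventually_gt_atTop 0] with L hL
      exact div_pos hs0 hL
    have e1 := (hlim.comp e0).div_const (t 0)
    simp only [Finset.univ_unique, Fin.default_eq_zero, Finset.prod_singleton, Real.rpow_one,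
      Real.rpow_neg_one]
    rw [div_eq_mul_inv] at e1
    refine e1.congr' ?_
    filter_upwards [eventually_gt_atTop 0] with L hL
    simp only [Function.comp]
    have e2 : ∑' c : Fin 1 → ℕ, v (c 0) * ((c 0 : ℕ) : ℝ) ^ (-(t 0 / L)) =
        ∑' n : ℕ, v n * (n : ℝ) ^ (-(t 0 / L)) :=
      (Equiv.funUnique (Fin 1) ℕ).tsum_eq (fun n : ℕ => v n * (n : ℝ) ^ (-(t 0 / L)))
    rw [e2]
    field_simp
  · rintro u - ⟨i, hi⟩
    have : i = 0 := Subsingleton.elim _ _
    subst this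
    exact h0 _ hi

/-- Karamata's theorem for the averages of bounded sequences -/
theorem kar_av (u : ℕ → ℝ) (hu0 : ∀ n, 0 ≤ u n) (B : ℝ) (hB : ∀ n, u n ≤ B) (s : ℝ)
    (h : Tendsto (av u) (𝓝[>] 0) (𝓝 s))
    (φ : ℝ → ℝ) (hφ : Continuous φ) (M : ℝ) (hM : 0 ≤ M) (h0 : ∀ x, M ≤ x → φ x = 0) :
    Tendsto (fun L : ℝ => (∑' n : ℕ, u n * Λ n / n * φ (Real.log n / L)) / L) atTop
      (𝓝 (s * ∫ x in (0 : ℝ)..M, φ x)) := by
  have hs : 0 ≤ s := by
    refine ge_of_tendsto h ?_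
    filter_upwards [self_mem_nhdsWithin] with σ hσ
    unfold av
    refine mul_nonneg (le_of_lt hσ) (tsum_nonneg fun n => ?_)
    exact mul_nonneg (mul_nonneg (hu0 n) ArithmeticFunction.vonMangoldt_nonneg)
      (Real.rpow_nonneg (Nat.cast_nonneg n) _)
  have key : ∀ (σ : ℝ) (n : ℕ), u n * Λ n / n * (n : ℝ) ^ (-σ) = u n * Λ n * (n : ℝ) ^ (-(1 + σ)) := by
    intro σ n
    rcases Nat.eq_zero_or_pos n with rfl | hn
    · simp
    · have hn' : (0 : ℝ) < n := by exact_mod_cast hn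
      rw [neg_add, Real.rpow_add hn', Real.rpow_neg_one]
      ring
  refine kar (fun n => u n * Λ n / n) (fun n => div_nonneg (mul_nonneg (hu0 n)
    ArithmeticFunction.vonMangoldt_nonneg) (Nat.cast_nonneg n)) (by simp) ?_ s hs ?_ φ hφ M hM h0
  · intro σ hσ
    refine (Pool.Agent.Y772.NV.summable_bdd hσ u B fun n => ?_).congr fun n => (key σ n).symm
    rw [abs_of_nonneg (hu0 n)]
    exact hB n
  · refine h.congr fun σ => ?_
    unfold av
    congr 1
    exact tsum_congr fun n => (key σ n).symm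

end Pool.Agent.H474.SHP
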