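import Pool.Agent.H474.SHP.Mom

/-!
# The `L¹` norm of a sum over primes
-/

set_option autoImplicit false

open Complex MeasureTheory Set
open scoped ComplexConjugate Convolution

namespace Pool.Agent.H474.SHP

lemma holder2 {y r : ℝ} (hr : 0 < r) : 3 / 2 * y ^ 2 / r - 1 / 2 * y ^ 4 / r ^ 3 ≤ |y| := by
  have h1 : ∀ t : ℝ, 0 ≤ t → 3 / 2 * t ^ 2 - 1 / 2 * t ^ 4 ≤ t := by
    intro t ht
    have h2 : t - (3 / 2 * t ^ 2 - 1 / 2 * t ^ 4) = 1 / 2 * t * (t - 1) ^ 2 * (t + 2) := by ring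
    have h3 : 0 ≤ 1 / 2 * t * (t - 1) ^ 2 * (t + 2) := by positivity
    linarith
  have h2 := h1 (|y| / r) (by positivity)
  have h3 : r * (3 / 2 * (|y| / r) ^ 2 - 1 / 2 * (|y| / r) ^ 4) = 3 / 2 * y ^ 2 / r - 1 / 2 * y ^ 4 / r ^ 3 := by
    rw [div_pow, div_pow, sq_abs, show |y| ^ 4 = y ^ 4 by
      rw [show (4 : ℕ) = 2 * 2 by norm_num, pow_mul, pow_mul, sq_abs]]
    field_simp
  have h4 : r * (|y| / r) = |y| := by field_simp
  calc _ = r * (3 / 2 * (|y| / r) ^ 2 - 1 / 2 * (|y| / r) ^ 4) := h3.symm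
    _ ≤ r * (|y| / r) := mul_le_mul_of_nonneg_left h2 hr.le
    _ = |y| := h4

lemma vv_le (N : ℕ) (v0 : ℝ) (c : ℕ → ℂ) (s : ℝ) : |vv N v0 c s| ≤ |v0| + ∑ p ∈ Pr N, ‖c p‖ := by
  unfold vv
  refine (abs_add_le _ _).trans (add_le_add le_rfl ((abs_re_le_norm _).trans ?_))
  refine (norm_sum_le _ _).trans (le_of_eq (Finset.sum_congr rfl fun p _ => ?_))
  rw [norm_mul, cis_norm, mul_one]

section

variable {N : ℕ} (hN : 1 ≤ N) (v0 : ℝ) (c : ℕ → ℂ) {H : ℝ} (hH : 0 < H)

include hN hH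

/-- the local lower bound -/
lemma loc_low (x : ℝ) {S A E : ℝ} (hS : S = v0 ^ 2 + 1 / 2 * ∑ p ∈ Pr N, ‖c p‖ ^ 2)
    (hA : A = |v0| + ∑ p ∈ Pr N, ‖c p‖)
    (hE : E = Real.exp (-(H ^ 2 * (1 / (2 * (N : ℝ) ^ 2)) ^ 2) / 4)) {r : ℝ} (hr : 0 < r) :
    Real.sqrt Real.pi * H * (3 / 2 * (S - A ^ 2 * E) / r - 1 / 2 * (3 * S ^ 2 + A ^ 4 * E) / r ^ 3) ≤
      ∫ s : ℝ, gk H x s * |vv N v0 c s| := by
  obtain ⟨i2, m2⟩ := mom2 hN v0 c x hH
  obtain ⟨i4, m4⟩ := mom4 hN v0 c x hH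
  rw [← hS, ← hA, ← hE] at m2 m4
  have hi1 : Integrable (fun s : ℝ => gk H x s * |vv N v0 c s|) := by
    refine (gk_int H x hH).1.mul_bdd (c := A) (vv_cont N v0 c).abs.aestronglyMeasurable ?_
    refine ae_of_all _ fun s => ?_
    rw [Real.norm_eq_abs, abs_abs, hA]
    exact vv_le N v0 c s
  have hi2 : Integrable (fun s : ℝ => 3 / 2 / r * (gk H x s * vv N v0 c s ^ 2) -
      1 / 2 / r ^ 3 * (gk H x s * vv N v0 c s ^ 4)) := (i2.const_mul _).sub (i4.const_mul _)
  have h1 : ∫ s : ℝ, (3 / 2 / r * (gk H x s * vv N v0 c s ^ 2) -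
      1 / 2 / r ^ 3 * (gk H x s * vv N v0 c s ^ 4)) ≤ ∫ s : ℝ, gk H x s * |vv N v0 c s| := by
    refine integral_mono hi2 hi1 fun s => ?_
    have h2 := mul_le_mul_of_nonneg_left (holder2 (y := vv N v0 c s) hr) (gk_pos H x s).le
    refine le_trans (le_of_eq ?_) h2
    ring
  refine le_trans ?_ h1
  rw [integral_sub (i2.const_mul _) (i4.const_mul _), integral_const_mul, integral_const_mul]
  have h3 : 3 / 2 / r * (Real.sqrt Real.pi * H * (S - A ^ 2 * E)) ≤ 3 / 2 / r * ∫ s : ℝ, gk H x s * vv N v0 c s ^ 2 :=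
    mul_le_mul_of_nonneg_left m2 (by positivity)
  have h4 : 1 / 2 / r ^ 3 * (∫ s : ℝ, gk H x s * vv N v0 c s ^ 4) ≤
      1 / 2 / r ^ 3 * (Real.sqrt Real.pi * H * (3 * S ^ 2 + A ^ 4 * E)) :=
    mul_le_mul_of_nonneg_left m4 (by positivity)
  have h5 : Real.sqrt Real.pi * H * (3 / 2 * (S - A ^ 2 * E) / r - 1 / 2 * (3 * S ^ 2 + A ^ 4 * E) / r ^ 3) =
      3 / 2 / r * (Real.sqrt Real.pi * H * (S - A ^ 2 * E)) -
      1 / 2 / r ^ 3 * (Real.sqrt Real.pi * H * (3 * S ^ 2 + A ^ 4 * E)) := by ring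
  rw [h5]
  linarith

/-- **The `L¹` norm** -/
theorem l1_low {S A E : ℝ} (hS : S = v0 ^ 2 + 1 / 2 * ∑ p ∈ Pr N, ‖c p‖ ^ 2)
    (hA : A = |v0| + ∑ p ∈ Pr N, ‖c p‖)
    (hE : E = Real.exp (-(H ^ 2 * (1 / (2 * (N : ℝ) ^ 2)) ^ 2) / 4)) {r : ℝ} (hr : 0 < r)
    {T κ : ℝ} (hκ : 0 ≤ κ) (hT : 2 * (κ * H) ≤ T) :
    (T - 2 * (κ * H)) * (3 / 2 * (S - A ^ 2 * E) / r - 1 / 2 * (3 * S ^ 2 + A ^ 4 * E) / r ^ 3 -
      2 * A * Real.exp (-κ ^ 2 / 2)) ≤ ∫ s in T..(2 * T), |vv N v0 c s| := by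
  have hT0 : 0 ≤ T := le_trans (by positivity) hT
  set P := Real.sqrt Real.pi * H with hP
  have hP0 : 0 < P := by positivity
  set X := 3 / 2 * (S - A ^ 2 * E) / r - 1 / 2 * (3 * S ^ 2 + A ^ 4 * E) / r ^ 3 -
      2 * A * Real.exp (-κ ^ 2 / 2) with hX
  have hA0 : 0 ≤ A := by
    rw [hA]; exact add_nonneg (abs_nonneg _) (Finset.sum_nonneg fun _ _ => norm_nonneg _)
  set J := Ioc T (2 * T) with hJ
  have hJm : MeasurableSet J := measurableSet_Ioc
  set G : ℝ → ℝ := J.indicator fun s => |vv N v0 c s| with hG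
  set g : ℝ → ℝ := fun y => gk H 0 y with hg
  have hGint : Integrable G := by
    rw [hG, integrable_indicator_iff hJm]
    exact ((vv_cont N v0 c).abs.integrableOn_Icc).mono_set Ioc_subset_Icc_self
  have hgint : Integrable g := (gk_int H 0 hH).1
  have hgI : ∫ y, g y = P := (gk_int H 0 hH).2
  have hGI : ∫ s, G s = ∫ s in T..(2 * T), |vv N v0 c s| := by
    rw [hG, integral_indicator hJm, intervalIntegral.integral_of_le (by linarith)]
  set L := ContinuousLinearMap.mul ℝ ℝ with hL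
  have hconv := integral_convolution (μ := volume) (ν := volume) L hGint hgint
  have hcint : Integrable (G ⋆[L, volume] g) := hGint.integrable_convolution L hgint
  have hcval : ∀ x, (G ⋆[L, volume] g) x = ∫ s in J, gk H x s * |vv N v0 c s| := by
    intro x
    rw [convolution_def, ← integral_indicator hJm]
    refine integral_congr_ae (ae_of_all _ fun s => ?_)
    simp only [hL, ContinuousLinearMap.mul_apply', hG]
    by_cases hs : s ∈ J
    · rw [indicator_of_mem hs, indicator_of_mem hs, mul_comm]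
      congr 1
      simp only [hg, gk]
      congr 2
      ring
    · rw [indicator_of_notMem hs, indicator_of_notMem hs, zero_mul]
  have hc0 : ∀ x, 0 ≤ (G ⋆[L, volume] g) x := by
    intro x
    rw [hcval]
    exact setIntegral_nonneg hJm fun s _ => mul_nonneg (gk_pos H x s).le (abs_nonneg _)
  -- local bound
  have hloc : ∀ x ∈ Icc (T + κ * H) (2 * T - κ * H), P * X ≤ (G ⋆[L, volume] g) x := by
    intro x hx
    rw [hcval]
    have h1 := loc_low hN v0 c hH x hS hA hE hr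
    have hi1 : Integrable (fun s : ℝ => gk H x s * |vv N v0 c s|) := by
      refine (gk_int H x hH).1.mul_bdd (c := A) (vv_cont N v0 c).abs.aestronglyMeasurable ?_
      refine ae_of_all _ fun s => ?_
      rw [Real.norm_eq_abs, abs_abs, hA]
      exact vv_le N v0 c s
    rw [← integral_add_compl hJm hi1] at h1
    have h2 : ∫ s in Jᶜ, gk H x s * |vv N v0 c s| ≤ P * (2 * A * Real.exp (-κ ^ 2 / 2)) := by
      have hH2 : 0 < Real.sqrt 2 * H := by positivity
      have hi2 : Integrable (fun s : ℝ => A * Real.exp (-κ ^ 2 / 2) * gk (Real.sqrt 2 * H) x s) :=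
        (gk_int _ x hH2).1.const_mul _
      have h3 : ∫ s in Jᶜ, gk H x s * |vv N v0 c s| ≤
          ∫ s in Jᶜ, A * Real.exp (-κ ^ 2 / 2) * gk (Real.sqrt 2 * H) x s := by
        refine setIntegral_mono_on hi1.integrableOn hi2.integrableOn hJm.compl fun s hs => ?_
        have h4 : κ * H ≤ |s - x| := by
          by_contra hlt
          push Not at hlt
          obtain ⟨a1, a2⟩ := abs_lt.1 hlt
          exact hs ⟨by linarith [hx.1], by linarith [hx.2]⟩
        have h5 : gk H x s ≤ Real.exp (-κ ^ 2 / 2) * gk (Real.sqrt 2 * H) x s := by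
          unfold gk
          rw [← Real.exp_add]
          apply Real.exp_le_exp.2
          have h6 : (κ * H) ^ 2 ≤ (s - x) ^ 2 := by
            rw [← sq_abs (s - x)]
            exact pow_le_pow_left₀ (by positivity) h4 2
          have h7 : κ ^ 2 ≤ (s - x) ^ 2 / H ^ 2 := by
            rw [le_div_iff₀ (by positivity)]
            calc κ ^ 2 * H ^ 2 = (κ * H) ^ 2 := by ring
              _ ≤ _ := h6
          have h8 : -(s - x) ^ 2 / (Real.sqrt 2 * H) ^ 2 = -((s - x) ^ 2 / H ^ 2) / 2 := by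
            rw [mul_pow, Real.sq_sqrt (by norm_num)]
            field_simp
          rw [h8]
          have h9 : -(s - x) ^ 2 / H ^ 2 = -((s - x) ^ 2 / H ^ 2) := by ring
          rw [h9]
          linarith
        calc gk H x s * |vv N v0 c s| ≤ (Real.exp (-κ ^ 2 / 2) * gk (Real.sqrt 2 * H) x s) * A := by
              refine mul_le_mul h5 ?_ (abs_nonneg _) ?_
              · rw [hA]; exact vv_le N v0 c s
              · exact mul_nonneg (Real.exp_pos _).le (gk_pos _ _ _).le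
          _ = _ := by ring
      refine h3.trans ?_
      have h4 : ∫ s in Jᶜ, A * Real.exp (-κ ^ 2 / 2) * gk (Real.sqrt 2 * H) x s ≤
          ∫ s, A * Real.exp (-κ ^ 2 / 2) * gk (Real.sqrt 2 * H) x s :=
        setIntegral_le_integral hi2 (ae_of_all _ fun s =>
          mul_nonneg (mul_nonneg hA0 (Real.exp_pos _).le) (gk_pos _ _ _).le)
      refine h4.trans ?_
      rw [integral_const_mul, (gk_int _ x hH2).2]
      have h5 : Real.sqrt 2 ≤ 2 := by
        rw [Real.sqrt_le_left (by norm_num)]; norm_num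
      calc A * Real.exp (-κ ^ 2 / 2) * (Real.sqrt Real.pi * (Real.sqrt 2 * H)) =
          Real.sqrt 2 * (A * Real.exp (-κ ^ 2 / 2) * P) := by rw [hP]; ring
        _ ≤ 2 * (A * Real.exp (-κ ^ 2 / 2) * P) := by
            refine mul_le_mul_of_nonneg_right h5 ?_
            have := Real.exp_pos (-κ ^ 2 / 2)
            positivity
        _ = _ := by ring
    have h6 : P * X = P * (3 / 2 * (S - A ^ 2 * E) / r - 1 / 2 * (3 * S ^ 2 + A ^ 4 * E) / r ^ 3) -
        P * (2 * A * Real.exp (-κ ^ 2 / 2)) := by rw [hX]; ring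
    rw [h6]
    linarith
  -- integrate
  have hle : T + κ * H ≤ 2 * T - κ * H := by linarith
  have h1 : (2 * T - κ * H - (T + κ * H)) * (P * X) ≤ ∫ x in (T + κ * H)..(2 * T - κ * H), (G ⋆[L, volume] g) x := by
    have h2 : ∫ _x in (T + κ * H)..(2 * T - κ * H), P * X ≤
        ∫ x in (T + κ * H)..(2 * T - κ * H), (G ⋆[L, volume] g) x :=
      intervalIntegral.integral_mono_on hle intervalIntegrable_const hcint.intervalIntegrable hloc
    rw [intervalIntegral.integral_const, smul_eq_mul] at h2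
    exact h2
  have h2 : ∫ x in (T + κ * H)..(2 * T - κ * H), (G ⋆[L, volume] g) x ≤ ∫ x, (G ⋆[L, volume] g) x := by
    rw [intervalIntegral.integral_of_le hle]
    exact setIntegral_le_integral hcint (ae_of_all _ hc0)
  rw [hconv, hgI, hGI] at h2
  have h3 : L (∫ s in T..(2 * T), |vv N v0 c s|) P = P * ∫ s in T..(2 * T), |vv N v0 c s| := by
    rw [hL, ContinuousLinearMap.mul_apply']; ring
  rw [h3] at h2
  have h4 := h1.trans h2
  have h5 : (2 * T - κ * H - (T + κ * H)) * (P * X) = P * ((T - 2 * (κ * H)) * X) := by ring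
  rw [h5] at h4
  exact le_of_mul_le_mul_left h4 hP0

end

end Pool.Agent.H474.SHP
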