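import Pool.Agent.H474.SHP.Win2

/-!
# Lower bounds for the weights
-/

set_option autoImplicit false
set_option linter.unusedSectionVars false

open Complex Filter Topology Set MeasureTheory
open scoped ComplexConjugate

namespace Pool.Agent.H474.SHP

open H385
open PerChi (Rw_cont)
open Pool.Agent.Y772.ND (Wz)

/-- the tail of the Gaussian -/
lemma tail_le {y : ℝ} (hy : 0 ≤ y) :
    ∫ x in Ioi y, Real.exp (-x ^ 2 / 2) ≤ Real.sqrt (2 * Real.pi) / 2 * Real.exp (-y ^ 2 / 2) := by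
  have i0 := gs_full.1
  have i1 : Integrable (fun x : ℝ => Real.exp (-(x - y) ^ 2 / 2)) :=
    i0.comp_sub_right y
  have h1 : ∫ x in Ioi y, Real.exp (-x ^ 2 / 2) ≤
      ∫ x in Ioi y, Real.exp (-y ^ 2 / 2) * Real.exp (-(x - y) ^ 2 / 2) := by
    refine setIntegral_mono_on i0.integrableOn (i1.const_mul _).integrableOn measurableSet_Ioi fun x hx => ?_
    rw [← Real.exp_add]
    apply Real.exp_le_exp.2
    have hx' : y < x := hx
    nlinarith [mul_nonneg hy (sub_nonneg.2 hx'.le)]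
  refine h1.trans (le_of_eq ?_)
  rw [integral_const_mul, mul_comm]
  congr 1
  rw [← gs_half_int, ← integral_indicator measurableSet_Ioi, ← integral_indicator measurableSet_Ioi]
  have h2 : ∀ x : ℝ, (Ioi y).indicator (fun x : ℝ => Real.exp (-(x - y) ^ 2 / 2)) x =
      (fun t : ℝ => (Ioi (0 : ℝ)).indicator (fun t : ℝ => Real.exp (-t ^ 2 / 2)) t) (x - y) := by
    intro x
    by_cases h : x ∈ Ioi y
    · rw [indicator_of_mem h]
      simp only
      rw [indicator_of_mem (by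
        have : y < x := h
        exact mem_Ioi.2 (by linarith))]
    · rw [indicator_of_notMem h]
      simp only
      rw [indicator_of_notMem (by
        intro h3
        apply h
        have : 0 < x - y := h3
        exact mem_Ioi.2 (by linarith))]
  simp_rw [h2]
  exact integral_sub_right_eq_self (fun t : ℝ => (Ioi (0 : ℝ)).indicator (fun t : ℝ => Real.exp (-t ^ 2 / 2)) t) y

/-- Gaussian integrals over an interval around `0` -/
lemma gs_lo {a b : ℝ} (ha : 0 ≤ a) (hb : 0 ≤ b) : Real.sqrt (2 * Real.pi) -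
    Real.sqrt (2 * Real.pi) / 2 * (Real.exp (-a ^ 2 / 2) + Real.exp (-b ^ 2 / 2)) ≤
    ∫ x in (-a)..b, Real.exp (-x ^ 2 / 2) := by
  have i0 := gs_full.1
  have h1 : ∫ x in (-a)..b, Real.exp (-x ^ 2 / 2) = (∫ x in Iic b, Real.exp (-x ^ 2 / 2)) -
      ∫ x in Iic (-a), Real.exp (-x ^ 2 / 2) :=
    (intervalIntegral.integral_Iic_sub_Iic i0.integrableOn i0.integrableOn).symm
  have h2 : (∫ x in Iic b, Real.exp (-x ^ 2 / 2)) + ∫ x in Ioi b, Real.exp (-x ^ 2 / 2) =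
      Real.sqrt (2 * Real.pi) := by
    rw [← gs_full.2, ← compl_Iic]
    exact integral_add_compl measurableSet_Iic i0
  have h3 : ∫ x in Iic (-a), Real.exp (-x ^ 2 / 2) = ∫ x in Ioi a, Real.exp (-x ^ 2 / 2) := by
    have h4 := integral_comp_neg_Iic (-a) (fun x : ℝ => Real.exp (-x ^ 2 / 2))
    rw [neg_neg] at h4
    rw [← h4]
    refine setIntegral_congr_fun measurableSet_Iic fun x _ => ?_
    simp
  have h4 := tail_le ha
  have h5 := tail_le hb
  rw [h1, h3]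
  linarith

lemma gs_lo2 {a b : ℝ} (ha : 0 ≤ a) (hb : 0 ≤ b) (h0 : a = 0) : Real.sqrt (2 * Real.pi) / 2 -
    Real.sqrt (2 * Real.pi) / 2 * Real.exp (-b ^ 2 / 2) ≤
    ∫ x in (-a)..b, Real.exp (-x ^ 2 / 2) := by
  have h1 := gs_lo ha hb
  rw [h0] at h1 ⊢
  simp only [ne_eq, OfNat.ofNat_ne_zero, not_false_eq_true, zero_pow, neg_zero, zero_div,
    Real.exp_zero] at h1 ⊢
  linarith

section

variable {γ : ℝ} (h0 : 0 < γ) (hπ : γ < Real.pi) (h1γ : γ ≤ 1)

include h0 hπ h1γ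

/-- the general lower bound -/
lemma Wz_lo (Λ ℓ : ℝ) (hΛ : 0 < Λ) : (1 - γ ^ 2) * (tent (ℓ / Λ) *
    (Λ⁻¹ * ∫ x in (-ℓ)..(Λ - ℓ), Real.exp (-x ^ 2 / 2)) - 4 / Λ ^ 2) ≤ Wz (Rw γ) Λ ℓ := by
  unfold Wz
  have hG : 0 ≤ 1 - γ ^ 2 := by nlinarith
  have h1 : ∫ α in (0 : ℝ)..1, (1 - γ ^ 2) * (tent (ℓ / Λ) * Real.exp (-(Λ * α - ℓ) ^ 2 / 2) -
        |α - ℓ / Λ| * Real.exp (-(Λ * α - ℓ) ^ 2 / 2)) ≤
      ∫ α in (0 : ℝ)..1, Rw γ α * Real.exp (-(Λ * α - ℓ) ^ 2 / 2) := by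
    refine intervalIntegral.integral_mono_on zero_le_one ?_ ?_ fun α hα => ?_
    · apply Continuous.intervalIntegrable; fun_prop
    · have := Rw_cont γ h0 hπ
      apply Continuous.intervalIntegrable; fun_prop
    · rw [← sub_mul, ← mul_assoc]
      refine mul_le_mul_of_nonneg_right ?_ (Real.exp_pos _).le
      refine le_trans (mul_le_mul_of_nonneg_left ?_ hG) (Rw_tent' h0 hπ h1γ hα.1)
      have := tent_lip (ℓ / Λ) α
      rw [abs_sub_comm] at this
      linarith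
  refine le_trans ?_ h1
  rw [intervalIntegral.integral_const_mul]
  refine mul_le_mul_of_nonneg_left ?_ hG
  rw [intervalIntegral.integral_sub, intervalIntegral.integral_const_mul]
  · have h3 := gs_abs Λ ℓ hΛ
    have h4 := gs_scale Λ ℓ hΛ (fun x => Real.exp (-x ^ 2 / 2))
    rw [h4]
    linarith
  · apply Continuous.intervalIntegrable; fun_prop
  · apply Continuous.intervalIntegrable; fun_prop

/-- the minorant -/
noncomputable def ψ (m x : ℝ) : ℝ := max (tent x * (Real.sqrt (2 * Real.pi) - Real.sqrt (2 * Real.pi) / 2 *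
  (Real.exp (-(m * x - 0) ^ 2 / 2) + Real.exp (-(m * x - m) ^ 2 / 2))) - 4 / m) 0

omit h0 hπ h1γ in
lemma ψ_cont (m : ℝ) : Continuous (ψ m) := by
  unfold ψ
  have := tent_cont
  fun_prop

omit h0 hπ h1γ in
lemma ψ_nn (m x : ℝ) : 0 ≤ ψ m x := le_max_right _ _

omit h0 hπ h1γ in
lemma ψ_zero {m x : ℝ} (hm : 0 < m) (hx : 1 ≤ x) : ψ m x = 0 := by
  unfold ψ
  rw [tent_ge1 hx, zero_mul, zero_sub]
  apply max_eq_right
  have : 0 < 4 / m := by positivity
  linarith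

lemma Wz_ψ {m Λ ℓ : ℝ} (hm : 0 < m) (hmΛ : m ≤ Λ) (hℓ : 0 ≤ ℓ) :
    (1 - γ ^ 2) * (ψ m (ℓ / Λ) / Λ) ≤ Wz (Rw γ) Λ ℓ := by
  have hΛ : 0 < Λ := by linarith
  have hG : 0 ≤ 1 - γ ^ 2 := by nlinarith
  have hW := Wz_nng h0 hπ Λ ℓ
  rcases le_total 1 (ℓ / Λ) with h | h
  · rw [ψ_zero hm h]; simpa using hW
  have hℓΛ : ℓ ≤ Λ := by rwa [div_le_one hΛ] at h
  unfold ψ
  set x := ℓ / Λ with hx
  have hx0 : 0 ≤ x := by positivity
  rw [← mul_div_assoc, div_le_iff₀ hΛ, mul_max_of_nonneg _ _ hG, mul_zero]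
  refine max_le ?_ (by positivity)
  have h1 := mul_le_mul_of_nonneg_right (Wz_lo h0 hπ h1γ Λ ℓ hΛ) hΛ.le
  refine le_trans ?_ h1
  rw [mul_assoc]
  refine mul_le_mul_of_nonneg_left ?_ hG
  have h2 := gs_lo hℓ (show 0 ≤ Λ - ℓ by linarith)
  have e1 : Real.exp (-ℓ ^ 2 / 2) ≤ Real.exp (-(m * x - 0) ^ 2 / 2) := by
    apply Real.exp_le_exp.2
    have : (m * x - 0) ^ 2 ≤ ℓ ^ 2 := by
      rw [sub_zero]
      have h3 : m * x ≤ ℓ := by
        calc m * x ≤ Λ * x := mul_le_mul_of_nonneg_right hmΛ hx0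
          _ = ℓ := by rw [hx]; field_simp
      exact pow_le_pow_left₀ (by positivity) h3 2
    linarith
  have e2 : Real.exp (-(Λ - ℓ) ^ 2 / 2) ≤ Real.exp (-(m * x - m) ^ 2 / 2) := by
    apply Real.exp_le_exp.2
    have : (m * x - m) ^ 2 ≤ (Λ - ℓ) ^ 2 := by
      have h3 : (m * x - m) ^ 2 = (m * (1 - x)) ^ 2 := by ring
      have h4 : m * (1 - x) ≤ Λ - ℓ := by
        calc m * (1 - x) ≤ Λ * (1 - x) := mul_le_mul_of_nonneg_right hmΛ (by linarith)
          _ = Λ - ℓ := by rw [hx]; field_simp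
      rw [h3]
      exact pow_le_pow_left₀ (mul_nonneg hm.le (by linarith)) h4 2
    linarith
  have hs : 0 ≤ Real.sqrt (2 * Real.pi) / 2 := by positivity
  have h3 : Real.sqrt (2 * Real.pi) - Real.sqrt (2 * Real.pi) / 2 *
      (Real.exp (-(m * x - 0) ^ 2 / 2) + Real.exp (-(m * x - m) ^ 2 / 2)) ≤
      ∫ x in (-ℓ)..(Λ - ℓ), Real.exp (-x ^ 2 / 2) := by
    refine le_trans ?_ h2
    have := mul_le_mul_of_nonneg_left (add_le_add e1 e2) hs
    linarith
  have h4 := mul_le_mul_of_nonneg_left h3 (tent_nn x)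
  have h5 : (tent x * (Λ⁻¹ * ∫ x in (-ℓ)..(Λ - ℓ), Real.exp (-x ^ 2 / 2)) - 4 / Λ ^ 2) * Λ =
      tent x * (∫ x in (-ℓ)..(Λ - ℓ), Real.exp (-x ^ 2 / 2)) - 4 / Λ := by
    field_simp
  rw [h5]
  have h6 : 4 / Λ ≤ 4 / m := by gcongr
  linarith

/-- the constant term -/
lemma Wz0_lo {Λ : ℝ} (hΛ : 0 < Λ) : (1 - γ ^ 2) * ((Real.sqrt (2 * Real.pi) / 2 -
    Real.sqrt (2 * Real.pi) / 2 * Real.exp (-Λ ^ 2 / 2)) / Λ - 4 / Λ ^ 2) ≤ Wz (Rw γ) Λ 0 := by
  have hG : 0 ≤ 1 - γ ^ 2 := by nlinarith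
  refine le_trans (mul_le_mul_of_nonneg_left ?_ hG) (Wz_lo h0 hπ h1γ Λ 0 hΛ)
  have h1 := gs_lo2 (a := 0) (b := Λ) le_rfl hΛ.le rfl
  rw [zero_div, tent_le1 zero_le_one, sub_zero, sub_zero, one_mul]
  have h2 : (Real.sqrt (2 * Real.pi) / 2 - Real.sqrt (2 * Real.pi) / 2 * Real.exp (-Λ ^ 2 / 2)) / Λ ≤
      Λ⁻¹ * ∫ x in (-0)..Λ, Real.exp (-x ^ 2 / 2) := by
    rw [div_eq_inv_mul]
    exact mul_le_mul_of_nonneg_left h1 (by positivity)
  linarith

omit h0 hπ h1γ in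
/-- the integral of the minorant -/
lemma ψ_int {m : ℝ} (hm : 0 < m) : Real.pi / 6 - 60 / m ≤ ∫ x in (0 : ℝ)..1, x * ψ m x ^ 2 := by
  set q := Real.sqrt (2 * Real.pi) with hq
  have hq2 : q ^ 2 = 2 * Real.pi := Real.sq_sqrt (by positivity)
  have hq0 : 0 ≤ q := Real.sqrt_nonneg _
  have hq3 : q ≤ 3 := by
    rw [hq, Real.sqrt_le_left (by norm_num)]
    linarith [Real.pi_le_four]
  set g : ℝ → ℝ := fun x => q / 2 * (Real.exp (-(m * x - 0) ^ 2 / 2) + Real.exp (-(m * x - m) ^ 2 / 2)) + 4 / m with hg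
  have hgc : Continuous g := by simp only [hg]; fun_prop
  have h1 : ∀ x ∈ Icc (0 : ℝ) 1, x * (q ^ 2 * (1 - x) ^ 2) - 6 * g x ≤ x * ψ m x ^ 2 := by
    intro x hx
    have hg0 : 0 ≤ g x := by simp only [hg]; positivity
    have ht : tent x = 1 - x := tent_le1 hx.2
    have h1x : 0 ≤ 1 - x := by linarith [hx.2]
    have h2 : q * (1 - x) - g x ≤ ψ m x := by
      refine le_trans ?_ (le_max_left _ _)
      rw [ht]
      have h3 : (1 - x) * (q / 2 * (Real.exp (-(m * x - 0) ^ 2 / 2) + Real.exp (-(m * x - m) ^ 2 / 2))) ≤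
          1 * (q / 2 * (Real.exp (-(m * x - 0) ^ 2 / 2) + Real.exp (-(m * x - m) ^ 2 / 2))) :=
        mul_le_mul_of_nonneg_right (by linarith [hx.1]) (by positivity)
      simp only [hg]
      have h4 : (1 - x) * (q - q / 2 * (Real.exp (-(m * x - 0) ^ 2 / 2) + Real.exp (-(m * x - m) ^ 2 / 2))) =
        q * (1 - x) - (1 - x) * (q / 2 * (Real.exp (-(m * x - 0) ^ 2 / 2) + Real.exp (-(m * x - m) ^ 2 / 2))) := by ring
      rw [h4]
      linarith
    have h3 : (q * (1 - x)) ^ 2 - 2 * (q * (1 - x)) * g x ≤ ψ m x ^ 2 := by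
      have ha : 0 ≤ q * (1 - x) := mul_nonneg hq0 h1x
      have hψ := ψ_nn m x
      by_cases h : g x ≤ q * (1 - x)
      · have h5 : (q * (1 - x) - g x) ^ 2 ≤ ψ m x ^ 2 := pow_le_pow_left₀ (by linarith) h2 2
        nlinarith [sq_nonneg (g x)]
      · push Not at h
        nlinarith [sq_nonneg (ψ m x)]
    have h4 := mul_le_mul_of_nonneg_left h3 hx.1
    refine le_trans ?_ h4
    have h5 : x * (2 * (q * (1 - x)) * g x) ≤ 6 * g x := by
      have h6 : x * (1 - x) ≤ 1 := by nlinarith [hx.1, hx.2]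
      have h7 : 0 ≤ x * (1 - x) := mul_nonneg hx.1 h1x
      have h8 : q * (x * (1 - x)) ≤ 3 := by nlinarith
      calc x * (2 * (q * (1 - x)) * g x) = 2 * (q * (x * (1 - x))) * g x := by ring
        _ ≤ 2 * 3 * g x := by gcongr
        _ = 6 * g x := by ring
    nlinarith
  have h2 : ∫ x in (0 : ℝ)..1, (x * (q ^ 2 * (1 - x) ^ 2) - 6 * g x) ≤ ∫ x in (0 : ℝ)..1, x * ψ m x ^ 2 := by
    refine intervalIntegral.integral_mono_on zero_le_one ?_ ?_ h1
    · apply Continuous.intervalIntegrable; fun_prop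
    · have := ψ_cont m
      apply Continuous.intervalIntegrable; fun_prop
  refine le_trans ?_ h2
  have c1 : Continuous fun x : ℝ => x * (q ^ 2 * (1 - x) ^ 2) := by fun_prop
  have c2 : Continuous fun x : ℝ => 6 * g x := by fun_prop
  rw [intervalIntegral.integral_sub (c1.intervalIntegrable _ _) (c2.intervalIntegrable _ _),
    intervalIntegral.integral_const_mul]
  have h3 : ∫ x in (0 : ℝ)..1, x * (q ^ 2 * (1 - x) ^ 2) = Real.pi / 6 := by
    have e1 : ∀ x : ℝ, x * (q ^ 2 * (1 - x) ^ 2) = 2 * Real.pi * (x - 2 * x ^ 2 + x ^ 3) := by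
      intro x; rw [hq2]; ring
    simp_rw [e1]
    rw [intervalIntegral.integral_const_mul, intervalIntegral.integral_add
      (Continuous.intervalIntegrable (by fun_prop) _ _) (Continuous.intervalIntegrable (by fun_prop) _ _),
      intervalIntegral.integral_sub
      (Continuous.intervalIntegrable (by fun_prop) _ _) (Continuous.intervalIntegrable (by fun_prop) _ _),
      intervalIntegral.integral_const_mul, integral_id, integral_pow, integral_pow]
    norm_num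
    ring
  have h4 : ∫ x in (0 : ℝ)..1, g x ≤ 10 / m := by
    have c3 : Continuous fun x : ℝ => Real.exp (-(m * x - 0) ^ 2 / 2) := by fun_prop
    have c4 : Continuous fun x : ℝ => Real.exp (-(m * x - m) ^ 2 / 2) := by fun_prop
    have c5 : Continuous fun x : ℝ => q / 2 * (Real.exp (-(m * x - 0) ^ 2 / 2) + Real.exp (-(m * x - m) ^ 2 / 2)) := by
      fun_prop
    simp only [hg]
    rw [intervalIntegral.integral_add (c5.intervalIntegrable _ _) intervalIntegrable_const,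
      intervalIntegral.integral_const_mul, intervalIntegral.integral_add (c3.intervalIntegrable _ _)
      (c4.intervalIntegrable _ _), intervalIntegral.integral_const]
    have h5 := gs_half m hm
    have h6 := gs_le m m hm
    rw [← hq] at h5 h6
    have h7 : q / 2 * ((∫ x in (0 : ℝ)..1, Real.exp (-(m * x - 0) ^ 2 / 2)) +
        ∫ x in (0 : ℝ)..1, Real.exp (-(m * x - m) ^ 2 / 2)) ≤ q / 2 * (q / 2 / m + q / m) := by
      gcongr
    have h8 : q / 2 * (q / 2 / m + q / m) = 3 / 4 * q ^ 2 / m := by ring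
    have h9 : 3 / 4 * q ^ 2 / m ≤ 6 / m := by
      rw [hq2]
      gcongr
      linarith [Real.pi_le_four]
    have h10 : (1 - 0 : ℝ) • (4 / m) = 4 / m := by simp
    rw [h10]
    have h11 : (10 : ℝ) / m = 6 / m + 4 / m := by ring
    linarith
  rw [h3]
  have h5 : (60 : ℝ) / m = 6 * (10 / m) := by ring
  linarith

end

end Pool.Agent.H474.SHP
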