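import Pool.Agent.H474.SHP.Qup3
import Pool.Agent.H474.SHP.Win3
import Pool.Agent.H474.SHP.Low

/-!
# The coefficients of the linear functional
-/

set_option autoImplicit false
set_option linter.unusedSectionVars false

open Complex Filter Topology Set MeasureTheory
open scoped ComplexConjugate
open H385
open scoped ArithmeticFunction.vonMangoldt

namespace Pool.Agent.H474.SHP

open Pool.Agent.Y772.ND (Wz dz)
open Pool.Agent.Y772.SL (av av_congr)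

section

variable {ι : Type} [Fintype ι]

/-- the restriction to primes -/
noncomputable def βp (β : ι → ℕ → ℂ) (i : ι) (n : ℕ) : ℂ := if n.Prime then β i n else 0

lemma βp_le {β : ι → ℕ → ℂ} {D : ι → ℝ} (hβ : ∀ i n, ‖β i n‖ ≤ D i) (i : ι) (n : ℕ) :
    ‖βp β i n‖ ≤ D i := by
  unfold βp
  split_ifs
  · exact hβ i n
  · rw [norm_zero]; exact (norm_nonneg _).trans (hβ i 0)

lemma βp_av {β : ι → ℕ → ℂ} {D : ι → ℝ} (hβ : ∀ i n, ‖β i n‖ ≤ D i) (sF : (ι → ℝ) → ℝ)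
    (hs : ∀ μ : ι → ℝ, Tendsto (av fun n => ‖∑ i, (μ i : ℂ) * β i n‖ ^ 2) (𝓝[>] 0) (𝓝 (sF μ)))
    (μ : ι → ℝ) : Tendsto (av fun n => ‖∑ i, (μ i : ℂ) * βp β i n‖ ^ 2) (𝓝[>] 0) (𝓝 (sF μ)) := by
  have hD : ∀ i, 0 ≤ D i := fun i => (norm_nonneg _).trans (hβ i 0)
  have hb : ∀ β' : ι → ℕ → ℂ, (∀ i n, ‖β' i n‖ ≤ D i) → ∀ n,
      |‖∑ i, (μ i : ℂ) * β' i n‖ ^ 2| ≤ (∑ i, |μ i| * D i) ^ 2 := by
    intro β' hβ' n
    rw [abs_of_nonneg (sq_nonneg _)]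
    refine pow_le_pow_left₀ (norm_nonneg _) ((norm_sum_le _ _).trans (Finset.sum_le_sum fun i _ => ?_)) 2
    rw [norm_mul, Complex.norm_real, Real.norm_eq_abs]
    exact mul_le_mul_of_nonneg_left (hβ' i n) (abs_nonneg _)
  refine av_congr (hb _ (βp_le hβ)) (hb _ hβ) ∅ ?_ (hs μ)
  intro p hp _
  simp only [βp, if_pos hp]

/-- the test function of the lower bound -/
noncomputable def φ2 (m x : ℝ) : ℝ := x * ψ m x ^ 2

lemma φ2_cont (m : ℝ) : Continuous (φ2 m) := by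
  unfold φ2
  have := ψ_cont m
  fun_prop

lemma φ2_zero {m : ℝ} (hm : 0 < m) (x : ℝ) (hx : 1 ≤ x) : φ2 m x = 0 := by
  unfold φ2; rw [ψ_zero hm hx]; simp

lemma dz_sq {γ Λ' L : ℝ} {b : ℕ → ℂ} {n : ℕ} (hn : 2 ≤ n) :
    ‖dz (Rw γ) Λ' L b n‖ ^ 2 = 2 / Real.pi * (Wz (Rw γ) Λ' (Real.log n) ^ 2 * (‖b n‖ ^ 2 / n)) := by
  have hn0 : (0 : ℝ) < n := by
    have : 0 < n := by omega
    exact_mod_cast this
  unfold dz
  rw [if_neg (by omega), zero_sub, norm_mul, norm_neg, norm_mul, norm_inv, Complex.norm_real,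
    Complex.norm_real, mul_pow, mul_pow, Real.norm_eq_abs, Real.norm_eq_abs, sq_abs, inv_pow, sq_abs,
    Real.sq_sqrt hn0.le, mul_pow, Real.sq_sqrt (by positivity)]
  ring

/-- the lower bound for the primes -/
lemma prime_low {γ m Λ' L : ℝ} (h0 : 0 < γ) (h1γ : γ ≤ 1) (hm : 0 < m) (hmΛ : m ≤ Λ')
    (β : ι → ℕ → ℂ) (μ : ι → ℝ) (N : ℕ) :
    2 / Real.pi * (1 - γ ^ 2) ^ 2 * ((∑ n ∈ Finset.Icc 1 N, ‖∑ i, (μ i : ℂ) * βp β i n‖ ^ 2 * Λ n / n *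
      φ2 m (Real.log n / Λ')) / Λ') ≤ ∑ p ∈ Pr N, ‖dz (Rw γ) Λ' L (bb β μ) p‖ ^ 2 := by
  have hπ : γ < Real.pi := by linarith [Real.pi_gt_three]
  have hΛ : 0 < Λ' := by linarith
  have hG : 0 ≤ 1 - γ ^ 2 := by nlinarith
  have e1 : ∑ n ∈ Finset.Icc 1 N, ‖∑ i, (μ i : ℂ) * βp β i n‖ ^ 2 * Λ n / n * φ2 m (Real.log n / Λ') =
      ∑ p ∈ Pr N, ‖∑ i, (μ i : ℂ) * β i p‖ ^ 2 * Λ p / p * φ2 m (Real.log p / Λ') := by
    unfold Pr
    rw [Finset.sum_filter]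
    refine Finset.sum_congr rfl fun n _ => ?_
    split_ifs with h
    · simp only [βp, if_pos h]
    · simp only [βp, if_neg h, mul_zero, Finset.sum_const_zero, norm_zero]
      simp
  rw [e1, Finset.sum_div, Finset.mul_sum]
  refine Finset.sum_le_sum fun p hp => ?_
  obtain ⟨hp1, -⟩ := mem_Pr.1 hp
  have hp0 : (0 : ℝ) < p := by exact_mod_cast hp1.pos
  have hl0 : 0 ≤ Real.log p := Real.log_nonneg (by exact_mod_cast hp1.one_lt.le)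
  rw [dz_sq hp1.two_le, bb_sq]
  have hvm : Λ p = Real.log p := ArithmeticFunction.vonMangoldt_apply_prime hp1
  rw [hvm]
  have hW := Wz_ψ h0 hπ h1γ hm hmΛ hl0
  have hψ := ψ_nn m (Real.log p / Λ')
  have hW2 := pow_le_pow_left₀ (by positivity) hW 2
  set u := ‖∑ i, (μ i : ℂ) * β i p‖ ^ 2 with hu
  have hu0 : 0 ≤ u := sq_nonneg _
  have h3 : ((1 - γ ^ 2) * (ψ m (Real.log p / Λ') / Λ')) ^ 2 * (u * Real.log p ^ 2 / p) ≤
      Wz (Rw γ) Λ' (Real.log p) ^ 2 * (u * Real.log p ^ 2 / p) :=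
    mul_le_mul_of_nonneg_right hW2 (by positivity)
  have h4 : 2 / Real.pi * (1 - γ ^ 2) ^ 2 * (u * Real.log p / p * φ2 m (Real.log p / Λ') / Λ') =
      2 / Real.pi * (((1 - γ ^ 2) * (ψ m (Real.log p / Λ') / Λ')) ^ 2 * (u * Real.log p ^ 2 / p)) := by
    unfold φ2
    field_simp
  rw [h4]
  exact mul_le_mul_of_nonneg_left h3 (by positivity)

/-- bound for all coefficients -/
lemma dz_bd {γ Λ' L DK : ℝ} (h0 : 0 < γ) (h1γ : γ ≤ 1) (hΛ : 2 ≤ Λ') {b : ℕ → ℂ}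
    (hb : ∀ n, ‖b n‖ ≤ DK * Λ n) {n : ℕ} (hn : 2 ≤ n) :
    ‖dz (Rw γ) Λ' L b n‖ ^ 2 ≤ (5 * Gg γ ^ 2 * DK / Λ') ^ 2 * (Λ n ^ 2 / n) := by
  have hπ : γ < Real.pi := by linarith [Real.pi_gt_three]
  have hΛ0 : 0 < Λ' := by linarith
  have hn0 : (0 : ℝ) < n := by
    have : 0 < n := by omega
    exact_mod_cast this
  have hl0 : 0 ≤ Real.log n := Real.log_nonneg (by exact_mod_cast (by omega : 1 ≤ n))
  rw [dz_sq hn]
  have h1 := Wz_up h0 hπ Λ' (Real.log n) hΛ0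
  have hW0 := Wz_nng h0 hπ Λ' (Real.log n)
  have hG : 0 ≤ Gg γ ^ 2 := sq_nonneg _
  have h2 : Wz (Rw γ) Λ' (Real.log n) ≤ Gg γ ^ 2 * (5 / Λ') := by
    refine h1.trans (mul_le_mul_of_nonneg_left ?_ hG)
    have ht := tent_le_one (div_nonneg hl0 hΛ0.le)
    have hq3 : Real.sqrt (2 * Real.pi) ≤ 3 := by
      rw [Real.sqrt_le_left (by norm_num)]
      linarith [Real.pi_le_four]
    have e1 : Real.sqrt (2 * Real.pi) / Λ' * tent (Real.log n / Λ') ≤ 3 / Λ' * 1 := by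
      have := tent_nn (Real.log n / Λ')
      gcongr
    have e2 : 4 / Λ' ^ 2 ≤ 2 / Λ' := by
      rw [div_le_div_iff₀ (by positivity) hΛ0]
      nlinarith
    have e3 : 5 / Λ' = 3 / Λ' * 1 + 2 / Λ' := by ring
    linarith
  have h3 : Wz (Rw γ) Λ' (Real.log n) ^ 2 ≤ (Gg γ ^ 2 * (5 / Λ')) ^ 2 := pow_le_pow_left₀ hW0 h2 2
  have h4 : ‖b n‖ ^ 2 / n ≤ (DK * Λ n) ^ 2 / n :=
    div_le_div_of_nonneg_right (pow_le_pow_left₀ (norm_nonneg _) (hb n) 2) hn0.le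
  have h5 : 2 / Real.pi ≤ 1 := by
    rw [div_le_one Real.pi_pos]; linarith [Real.pi_gt_three]
  calc 2 / Real.pi * (Wz (Rw γ) Λ' (Real.log n) ^ 2 * (‖b n‖ ^ 2 / n)) ≤
      1 * ((Gg γ ^ 2 * (5 / Λ')) ^ 2 * ((DK * Λ n) ^ 2 / n)) := by
        have : 0 ≤ (DK * Λ n) ^ 2 / n := by positivity
        gcongr
    _ = _ := by ring

/-- the constant term -/
lemma v0_bd {γ Λ' L : ℝ} (h0 : 0 < γ) (h1γ : γ ≤ 1) (hΛ : 5 ≤ Λ') :
    ((1 - γ ^ 2) * (1 - 5 / Λ')) ^ 2 * (L / Λ') ^ 2 ≤ (Real.sqrt (2 / Real.pi) * Wz (Rw γ) Λ' 0 * L) ^ 2 ∧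
    |Real.sqrt (2 / Real.pi) * Wz (Rw γ) Λ' 0 * L| ≤ Gg γ ^ 2 * (|L| / Λ') := by
  have hπ : γ < Real.pi := by linarith [Real.pi_gt_three]
  have hΛ0 : 0 < Λ' := by linarith
  have hG : 0 ≤ 1 - γ ^ 2 := by nlinarith
  set s := Real.sqrt (2 / Real.pi) with hs
  set q := Real.sqrt (2 * Real.pi) with hq
  have hsq : s * q = 2 := s2pi
  have hs0 : 0 ≤ s := Real.sqrt_nonneg _
  have hs1 : s ≤ 1 := by
    rw [hs, Real.sqrt_le_one, div_le_one Real.pi_pos]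
    linarith [Real.pi_gt_three]
  have hW0 := Wz_nng h0 hπ Λ' 0
  constructor
  · have h1 := Wz0_lo h0 hπ h1γ hΛ0
    rw [← hq] at h1
    have h2 := mul_le_mul_of_nonneg_left h1 hs0
    have h3 : (1 - γ ^ 2) * (1 - 5 / Λ') / Λ' ≤ s * ((1 - γ ^ 2) * ((q / 2 - q / 2 * Real.exp (-Λ' ^ 2 / 2)) / Λ' - 4 / Λ' ^ 2)) := by
      have e1 : s * ((1 - γ ^ 2) * ((q / 2 - q / 2 * Real.exp (-Λ' ^ 2 / 2)) / Λ' - 4 / Λ' ^ 2)) =
          (1 - γ ^ 2) * (((s * q) / 2 * (1 - Real.exp (-Λ' ^ 2 / 2))) / Λ' - s * (4 / Λ' ^ 2)) := by ring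
      rw [e1, hsq, mul_div_assoc]
      refine mul_le_mul_of_nonneg_left ?_ hG
      have e2 : Real.exp (-Λ' ^ 2 / 2) ≤ 1 / Λ' := by
        have h4 : Λ' ≤ Real.exp (Λ' ^ 2 / 2) := by
          have := Real.add_one_le_exp (Λ' ^ 2 / 2)
          nlinarith
        have h5 : Real.exp (-Λ' ^ 2 / 2) = (Real.exp (Λ' ^ 2 / 2))⁻¹ := by
          rw [← Real.exp_neg]; congr 1; ring
        rw [h5, one_div]
        exact inv_anti₀ hΛ0 h4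
      have e3 : s * (4 / Λ' ^ 2) ≤ 1 * (4 / Λ' ^ 2) := mul_le_mul_of_nonneg_right hs1 (by positivity)
      have e4 : (2 / 2 * (1 - Real.exp (-Λ' ^ 2 / 2))) / Λ' ≥ (1 - 1 / Λ') / Λ' := by
        apply div_le_div_of_nonneg_right _ hΛ0.le
        linarith
      have e5 : (1 - 5 / Λ') / Λ' = (1 - 1 / Λ') / Λ' - 1 * (4 / Λ' ^ 2) := by
        field_simp; ring
      rw [e5]
      linarith
    have h4 : (1 - γ ^ 2) * (1 - 5 / Λ') / Λ' ≤ s * Wz (Rw γ) Λ' 0 := h3.trans h2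
    have h5 : 0 ≤ (1 - γ ^ 2) * (1 - 5 / Λ') / Λ' := by
      have : 0 ≤ 1 - 5 / Λ' := by
        rw [sub_nonneg, div_le_one hΛ0]; exact hΛ
      positivity
    have h6 := pow_le_pow_left₀ h5 h4 2
    have h7 := mul_le_mul_of_nonneg_right h6 (sq_nonneg L)
    calc ((1 - γ ^ 2) * (1 - 5 / Λ')) ^ 2 * (L / Λ') ^ 2 = ((1 - γ ^ 2) * (1 - 5 / Λ') / Λ') ^ 2 * L ^ 2 := by ring
      _ ≤ (s * Wz (Rw γ) Λ' 0) ^ 2 * L ^ 2 := h7
      _ = _ := by ring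
  · have h1 := Wz0_up h0 hπ Λ' hΛ0
    rw [← hq] at h1
    rw [abs_mul, abs_mul, abs_of_nonneg hs0, abs_of_nonneg hW0]
    calc s * Wz (Rw γ) Λ' 0 * |L| ≤ s * (Gg γ ^ 2 * (q / 2 / Λ')) * |L| := by gcongr
      _ = (s * q) * (Gg γ ^ 2 * (|L| / Λ') / 2) := by ring
      _ = _ := by rw [hsq]; ring

end

end Pool.Agent.H474.SHP
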