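import Pool.Agent.H474.SHP.Lo2

/-!
# Removal of the prime powers
-/

set_option autoImplicit false
set_option linter.unusedSectionVars false

open Complex Filter Topology Set MeasureTheory
open scoped ComplexConjugate
open H385
open scoped ArithmeticFunction.vonMangoldt

namespace Pool.Agent.H474.SHP

open Pool.Agent.Y772.ND (Wz dz)
open Pool.Agent.Y772.SL (av av_congr av_zero)

/-- the numbers up to `N` which are not prime -/
def NP (N : ℕ) : Finset ℕ := (Finset.Icc 2 N).filter fun n => ¬ n.Prime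

/-- the cut-off -/
noncomputable def φ3 (ρ x : ℝ) : ℝ := max 0 (min 1 (ρ + 1 - x))

lemma φ3_cont (ρ : ℝ) : Continuous (φ3 ρ) := by unfold φ3; fun_prop

lemma φ3_zero (ρ x : ℝ) (hx : ρ + 1 ≤ x) : φ3 ρ x = 0 := by
  unfold φ3
  apply max_eq_left
  exact (min_le_right _ _).trans (by linarith)

lemma φ3_one {ρ x : ℝ} (hx : x ≤ ρ) : φ3 ρ x = 1 := by
  unfold φ3
  rw [min_eq_left (by linarith), max_eq_right zero_le_one]

lemma φ3_nn (ρ x : ℝ) : 0 ≤ φ3 ρ x := le_max_left _ _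

/-- the prime powers have density zero -/
lemma np_small {ρ : ℝ} (hρ : 0 ≤ ρ) {η : ℝ} (hη : 0 < η) :
    ∀ᶠ L : ℝ in atTop, ∀ N : ℕ, Real.log N ≤ ρ * L → ∑ n ∈ NP N, Λ n / n ≤ η * L := by
  set u : ℕ → ℝ := fun n => if n.Prime then 0 else 1 with hu
  have hu0 : ∀ n, 0 ≤ u n := by intro n; simp only [hu]; split_ifs <;> norm_num
  have hu1 : ∀ n, u n ≤ 1 := by intro n; simp only [hu]; split_ifs <;> norm_num
  have hav : Tendsto (av u) (𝓝[>] 0) (𝓝 0) :=
    av_zero (B := 1) (fun n => by rw [abs_of_nonneg (hu0 n)]; exact hu1 n) ∅ fun p hp _ => by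
      simp only [hu, if_pos hp]
  have h1 := kar_av u hu0 1 hu1 0 hav (φ3 ρ) (φ3_cont ρ) (ρ + 1) (by linarith) (φ3_zero ρ)
  rw [zero_mul] at h1
  filter_upwards [h1.eventually (gt_mem_nhds hη), eventually_gt_atTop 0] with L hL hL0
  intro N hN
  rw [div_lt_iff₀ hL0] at hL
  refine le_trans ?_ hL.le
  set N' := max N ⌊Real.exp ((ρ + 1) * L)⌋₊ with hN'
  have hN'1 : Real.exp ((ρ + 1) * L) < N' + 1 := by
    have h2 : Real.exp ((ρ + 1) * L) < (⌊Real.exp ((ρ + 1) * L)⌋₊ : ℝ) + 1 := Nat.lt_floor_add_one _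
    have h3 : ((⌊Real.exp ((ρ + 1) * L)⌋₊ : ℕ) : ℝ) ≤ (N' : ℝ) := by exact_mod_cast le_max_right _ _
    linarith
  rw [tsum_fin (fun n => u n * Λ n / n) (by simp) (φ3 ρ) (ρ + 1) (φ3_zero ρ) hL0 hN'1]
  have h2 : ∑ n ∈ NP N, Λ n / n = ∑ n ∈ NP N, u n * Λ n / n * φ3 ρ (Real.log n / L) := by
    refine Finset.sum_congr rfl fun n hn => ?_
    unfold NP at hn
    obtain ⟨h3, h4⟩ := Finset.mem_filter.1 hn
    obtain ⟨h5, h6⟩ := Finset.mem_Icc.1 h3
    have h7 : Real.log n / L ≤ ρ := by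
      rw [div_le_iff₀ hL0]
      refine (Real.log_le_log ?_ ?_).trans hN
      · exact_mod_cast (by omega : 0 < n)
      · exact_mod_cast h6
    rw [φ3_one h7]
    simp only [hu, if_neg h4]
    ring
  rw [h2]
  refine Finset.sum_le_sum_of_subset_of_nonneg ?_ fun n _ _ => ?_
  · intro n hn
    unfold NP at hn
    obtain ⟨h3, -⟩ := Finset.mem_filter.1 hn
    obtain ⟨h5, h6⟩ := Finset.mem_Icc.1 h3
    rw [Finset.mem_Icc]
    exact ⟨by omega, h6.trans (le_max_left _ _)⟩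
  · exact mul_nonneg (div_nonneg (mul_nonneg (hu0 n) ArithmeticFunction.vonMangoldt_nonneg)
      (Nat.cast_nonneg n)) (φ3_nn _ _)

/-- the coefficients outside the primes -/
lemma np_sq {γ Λ' L DK κ η : ℝ} (h0 : 0 < γ) (h1γ : γ ≤ 1) (hΛ : 2 ≤ Λ') (hκ : 0 ≤ κ) {b : ℕ → ℂ}
    (hb : ∀ n, ‖b n‖ ≤ DK * Λ n) {N : ℕ} (hN : Real.log N ≤ κ)
    (hη : ∑ n ∈ NP N, Λ n / n ≤ η * Λ') :
    ∑ n ∈ NP N, ‖dz (Rw γ) Λ' L b n‖ ^ 2 ≤ (5 * Gg γ ^ 2 * DK) ^ 2 * (κ / Λ') * η := by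
  have hΛ0 : 0 < Λ' := by linarith
  have h1 : ∀ n ∈ NP N, ‖dz (Rw γ) Λ' L b n‖ ^ 2 ≤ (5 * Gg γ ^ 2 * DK / Λ') ^ 2 * (κ * (Λ n / n)) := by
    intro n hn
    unfold NP at hn
    obtain ⟨h3, -⟩ := Finset.mem_filter.1 hn
    obtain ⟨h5, h6⟩ := Finset.mem_Icc.1 h3
    have hn0 : (0 : ℝ) < n := by exact_mod_cast (by omega : 0 < n)
    refine (dz_bd h0 h1γ hΛ hb h5).trans (mul_le_mul_of_nonneg_left ?_ (sq_nonneg _))
    have e2 : Λ n ≤ κ := by
      refine ArithmeticFunction.vonMangoldt_le_log.trans ((Real.log_le_log hn0 ?_).trans hN)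
      exact_mod_cast h6
    have e3 : 0 ≤ Λ n := ArithmeticFunction.vonMangoldt_nonneg
    calc Λ n ^ 2 / n = Λ n * (Λ n / n) := by ring
      _ ≤ κ * (Λ n / n) := mul_le_mul_of_nonneg_right e2 (by positivity)
  refine (Finset.sum_le_sum h1).trans ?_
  rw [← Finset.mul_sum, ← Finset.mul_sum]
  calc (5 * Gg γ ^ 2 * DK / Λ') ^ 2 * (κ * ∑ n ∈ NP N, Λ n / n) ≤
      (5 * Gg γ ^ 2 * DK / Λ') ^ 2 * (κ * (η * Λ')) := by gcongr
    _ = _ := by field_simp

/-- splitting of the Dirichlet polynomial -/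
lemma split_dz {N : ℕ} (hN : 1 ≤ N) (dd : ℕ → ℂ) (s : ℝ) :
    (∑ n ∈ Finset.Icc 1 N, dd n * cexp (-(I * s * Real.log n))).re =
      vv N (dd 1).re dd s + (∑ n ∈ NP N, dd n * cexp (-(I * s * Real.log n))).re := by
  have h1 : Finset.Icc 1 N = insert 1 (Pr N ∪ NP N) := by
    ext n
    unfold Pr NP
    simp only [Finset.mem_insert, Finset.mem_union, Finset.mem_filter, Finset.mem_Icc]
    constructor
    · rintro ⟨h1, h2⟩
      by_cases hp : n.Prime
      · exact Or.inr (Or.inl ⟨⟨h1, h2⟩, hp⟩)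
      · by_cases hn : n = 1
        · exact Or.inl hn
        · exact Or.inr (Or.inr ⟨⟨by omega, h2⟩, hp⟩)
    · rintro (h | ⟨h, -⟩ | ⟨h, -⟩) <;> omega
  have h2 : 1 ∉ Pr N ∪ NP N := by
    unfold Pr NP
    simp only [Finset.mem_union, Finset.mem_filter, Finset.mem_Icc]
    rintro (⟨-, h⟩ | ⟨⟨h, -⟩, -⟩)
    · exact Nat.not_prime_one h
    · omega
  have h3 : Disjoint (Pr N) (NP N) := by
    rw [Finset.disjoint_left]
    intro n hn hn'
    unfold Pr at hn
    unfold NP at hn'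
    exact (Finset.mem_filter.1 hn').2 (Finset.mem_filter.1 hn).2
  rw [h1, Finset.sum_insert h2, Finset.sum_union h3]
  unfold vv
  rw [Complex.add_re, Complex.add_re]
  have h4 : (dd 1 * cexp (-(I * s * Real.log (1 : ℕ)))).re = (dd 1).re := by simp
  rw [h4]
  ring

/-- the integral over the part outside the primes -/
lemma np_int {N : ℕ} (dd : ℕ → ℂ) {T η : ℝ} (hT : 0 ≤ T) (hη : 0 < η)
    (hNT : 8 * N * (1 + Real.log N) ≤ T) (hsq : ∑ n ∈ NP N, ‖dd n‖ ^ 2 ≤ η ^ 2 / 2) :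
    ∫ s in T..(2 * T), |(∑ n ∈ NP N, dd n * cexp (-(I * s * Real.log n))).re| ≤ η * T := by
  set b : ℕ → ℂ := fun n => if n ∈ NP N then dd n else 0 with hb
  have hsub : NP N ⊆ Finset.Icc 1 N := by
    intro n hn
    unfold NP at hn
    obtain ⟨h3, -⟩ := Finset.mem_filter.1 hn
    obtain ⟨h5, h6⟩ := Finset.mem_Icc.1 h3
    exact Finset.mem_Icc.2 ⟨by omega, h6⟩
  have h1 : ∀ s : ℝ, ∑ n ∈ NP N, dd n * cexp (-(I * s * Real.log n)) =
      ∑ n ∈ Finset.Icc 1 N, b n * (n : ℂ) ^ (-(s : ℂ) * I) := by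
    intro s
    rw [← Finset.sum_subset hsub]
    · refine Finset.sum_congr rfl fun n hn => ?_
      simp only [hb, if_pos hn]
      have hn0 : (n : ℂ) ≠ 0 := by
        have := (Finset.mem_Icc.1 (hsub hn)).1
        exact_mod_cast (by omega : n ≠ 0)
      rw [Complex.cpow_def_of_ne_zero hn0, ← Complex.natCast_log]
      congr 2; ring
    · intro n _ hn
      simp only [hb, if_neg hn, zero_mul]
  have hmv := H370.mean_value b N T (2 * T) (by linarith)
  have h2 : ∑ n ∈ Finset.Icc 1 N, ‖b n‖ ^ 2 = ∑ n ∈ NP N, ‖dd n‖ ^ 2 := by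
    rw [← Finset.sum_subset hsub]
    · exact Finset.sum_congr rfl fun n hn => by simp only [hb, if_pos hn]
    · intro n _ hn
      simp only [hb, if_neg hn, norm_zero]
      norm_num
  rw [h2] at hmv
  simp_rw [← h1] at hmv
  set R : ℝ → ℂ := fun s => ∑ n ∈ NP N, dd n * cexp (-(I * s * Real.log n)) with hR
  have hRc : Continuous R := by simp only [hR]; fun_prop
  have h3 : ∫ s in T..(2 * T), |(R s).re| ≤ ∫ s in T..(2 * T), (η / 2 + 1 / (2 * η) * ‖R s‖ ^ 2) := by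
    refine intervalIntegral.integral_mono_on (by linarith) ?_ ?_ fun s _ => ?_
    · exact (Complex.continuous_re.comp hRc).abs.intervalIntegrable _ _
    · apply Continuous.intervalIntegrable; fun_prop
    · refine (abs_re_le_norm _).trans ?_
      set y := ‖R s‖
      have h4 : η / 2 + 1 / (2 * η) * y ^ 2 - y = 1 / (2 * η) * (y - η) ^ 2 := by
        field_simp; ring
      have h5 : 0 ≤ 1 / (2 * η) * (y - η) ^ 2 := by positivity
      linarith
  refine h3.trans ?_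
  rw [intervalIntegral.integral_add intervalIntegrable_const
    (Continuous.intervalIntegrable (by fun_prop) _ _), intervalIntegral.integral_const,
    intervalIntegral.integral_const_mul, smul_eq_mul]
  have h4 : ∫ s in T..(2 * T), ‖R s‖ ^ 2 ≤ 2 * T * (η ^ 2 / 2) := by
    refine hmv.trans ?_
    refine mul_le_mul (by linarith) hsq (Finset.sum_nonneg fun _ _ => by positivity) (by linarith)
  have h5 : 1 / (2 * η) * (∫ s in T..(2 * T), ‖R s‖ ^ 2) ≤ 1 / (2 * η) * (2 * T * (η ^ 2 / 2)) :=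
    mul_le_mul_of_nonneg_left h4 (by positivity)
  have h6 : 1 / (2 * η) * (2 * T * (η ^ 2 / 2)) = η / 2 * T := by field_simp
  have h7 : (2 * T - T) * (η / 2) = η / 2 * T := by ring
  rw [h7]
  linarith

end Pool.Agent.H474.SHP
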