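import Pool.Agent.H474.SHP.Gm

/-!
# Second and fourth moments of sums over primes
-/

set_option autoImplicit false

open Complex MeasureTheory
open scoped ComplexConjugate

namespace Pool.Agent.H474.SHP

/-- the signed coefficients -/
noncomputable def cc (v0 : ℝ) (c : ℕ → ℂ) (j : ℤ) : ℂ :=
  if j = 0 then (v0 : ℂ) else if 0 < j then c j.natAbs / 2 else conj (c j.natAbs) / 2

/-- the real exponential sum -/
noncomputable def vv (N : ℕ) (v0 : ℝ) (c : ℕ → ℂ) (s : ℝ) : ℝ :=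
  v0 + (∑ p ∈ Pr N, c p * cexp (-(I * s * Real.log p))).re

lemma vv_cont (N : ℕ) (v0 : ℝ) (c : ℕ → ℂ) : Continuous (vv N v0 c) := by
  unfold vv
  have : Continuous fun s : ℝ => ∑ p ∈ Pr N, c p * cexp (-(I * s * Real.log p)) := by fun_prop
  exact continuous_const.add (Complex.continuous_re.comp this)

lemma cc_pos {v0 : ℝ} {c : ℕ → ℂ} {p : ℕ} (hp : 0 < p) : cc v0 c p = c p / 2 := by
  unfold cc
  rw [if_neg (by omega), if_pos (by exact_mod_cast hp)]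
  simp

lemma cc_neg {v0 : ℝ} {c : ℕ → ℂ} {p : ℕ} (hp : 0 < p) : cc v0 c (-p) = conj (c p) / 2 := by
  unfold cc
  rw [if_neg (by omega), if_neg (by omega)]
  simp

lemma cc_conj (v0 : ℝ) (c : ℕ → ℂ) (j : ℤ) : ‖cc v0 c (-j)‖ = ‖cc v0 c j‖ := by
  rcases lt_trichotomy j 0 with h | h | h
  · unfold cc
    rw [if_neg (by omega), if_pos (by omega), if_neg (by omega), if_neg (by omega), Int.natAbs_neg,
      norm_div, norm_div, Complex.norm_conj]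
  · subst h; simp
  · unfold cc
    rw [if_neg (by omega), if_neg (by omega), if_neg (by omega), if_pos h, Int.natAbs_neg,
      norm_div, norm_div, Complex.norm_conj]

lemma es_vv (N : ℕ) (v0 : ℝ) (c : ℕ → ℂ) (s : ℝ) : es (SP N) (cc v0 c) fz s = (vv N v0 c s : ℂ) := by
  unfold es vv
  rw [sum_SP, Complex.ofReal_add]
  congr 1
  · unfold cc; rw [if_pos rfl, fz_zero]; simp
  · rw [Complex.re_sum, Complex.ofReal_sum]
    refine Finset.sum_congr rfl fun p hp => ?_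
    have hp0 := (mem_Pr.1 hp).1.pos
    rw [cc_pos hp0, cc_neg hp0, fz_neg, fz_pos hp0]
    set z := c p * cexp (-(I * s * Real.log p)) with hz
    have e1 : conj (c p) / 2 * cexp (-(I * s * ((-Real.log p : ℝ) : ℂ))) = conj z / 2 := by
      rw [hz, map_mul, ← Complex.exp_conj]
      have : conj (-(I * (s : ℂ) * (Real.log p : ℂ))) = -(I * s * ((-Real.log p : ℝ) : ℂ)) := by
        rw [map_neg, map_mul, map_mul, Complex.conj_I, Complex.conj_ofReal, Complex.conj_ofReal,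
          Complex.ofReal_neg]
        ring
      rw [this]; ring
    have e2 : c p / 2 * cexp (-(I * s * Real.log p)) = z / 2 := by rw [hz]; ring
    rw [e1, e2, ← add_div, Complex.add_conj]
    change _ = ((z.re : ℝ) : ℂ)
    rw [Complex.ofReal_mul, Complex.ofReal_ofNat]
    ring

lemma sum_cc (N : ℕ) (v0 : ℝ) (c : ℕ → ℂ) :
    ∑ j ∈ SP N, ‖cc v0 c j‖ = |v0| + ∑ p ∈ Pr N, ‖c p‖ := by
  rw [sum_SP]
  congr 1
  · unfold cc; rw [if_pos rfl, Complex.norm_real, Real.norm_eq_abs]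
  · refine Finset.sum_congr rfl fun p hp => ?_
    have hp0 := (mem_Pr.1 hp).1.pos
    rw [cc_conj, cc_pos hp0, norm_div, Complex.norm_ofNat]
    ring

lemma sum_cc_sq (N : ℕ) (v0 : ℝ) (c : ℕ → ℂ) :
    ∑ j ∈ SP N, ‖cc v0 c j‖ ^ 2 = v0 ^ 2 + 1 / 2 * ∑ p ∈ Pr N, ‖c p‖ ^ 2 := by
  rw [sum_SP, Finset.mul_sum]
  congr 1
  · unfold cc; rw [if_pos rfl, Complex.norm_real, Real.norm_eq_abs, sq_abs]
  · refine Finset.sum_congr rfl fun p hp => ?_
    have hp0 := (mem_Pr.1 hp).1.pos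
    rw [cc_conj, cc_pos hp0, norm_div, Complex.norm_ofNat]
    ring

section

variable {N : ℕ} (hN : 1 ≤ N) (v0 : ℝ) (c : ℕ → ℂ) {H : ℝ} (x : ℝ) (hH : 0 < H)

include hN hH

/-- second moment -/
theorem mom2 : Integrable (fun s : ℝ => gk H x s * vv N v0 c s ^ 2) ∧
    Real.sqrt Real.pi * H * ((v0 ^ 2 + 1 / 2 * ∑ p ∈ Pr N, ‖c p‖ ^ 2) -
      (|v0| + ∑ p ∈ Pr N, ‖c p‖) ^ 2 * Real.exp (-(H ^ 2 * (1 / (2 * (N : ℝ) ^ 2)) ^ 2) / 4)) ≤
      ∫ s : ℝ, gk H x s * vv N v0 c s ^ 2 := by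
  have h0 : (0 : ℤ) ∈ SP N := mem_SP.2 (Or.inl rfl)
  have hN1 : (1 : ℝ) ≤ N := by exact_mod_cast hN
  obtain ⟨h1, h2⟩ := gmv (SP N) (cc v0 c) fz (g := 1 / (2 * (N : ℝ) ^ 2)) x hH (by positivity) (by
    intro i hi j hj hij
    have := fz_gap hN hi h0 hj h0 (by rw [fz_zero]; simpa using hij)
    rw [fz_zero] at this
    simpa using this)
  have e1 : ∀ s : ℝ, ‖es (SP N) (cc v0 c) fz s‖ ^ 2 = vv N v0 c s ^ 2 := by
    intro s; rw [es_vv, Complex.norm_real, Real.norm_eq_abs, sq_abs]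
  simp_rw [e1] at h1 h2
  have e2 : ∑ i ∈ SP N, ∑ j ∈ SP N, (if fz i = fz j then (cc v0 c i * conj (cc v0 c j)).re else 0) =
      v0 ^ 2 + 1 / 2 * ∑ p ∈ Pr N, ‖c p‖ ^ 2 := by
    rw [← sum_cc_sq]
    refine Finset.sum_congr rfl fun i hi => ?_
    rw [Finset.sum_eq_single i]
    · rw [if_pos rfl, Complex.mul_conj, Complex.ofReal_re, Complex.normSq_eq_norm_sq]
    · intro j hj hij
      rw [if_neg]
      intro h
      apply hij
      rcases fz_eq hi h0 hj h0 (by rw [h]) with ⟨h3, -⟩ | ⟨h3, h4⟩ | ⟨h3, h4⟩ <;> omega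
    · intro h; exact absurd hi h
  rw [e2, sum_cc] at h2
  refine ⟨h1, ?_⟩
  have := (abs_le.1 h2).1
  rw [mul_sub]
  linarith

omit hN hH in
lemma diag4 : ∑ p ∈ SP N ×ˢ SP N, ∑ q ∈ SP N ×ˢ SP N, (if fz p.1 + fz p.2 = fz q.1 + fz q.2 then
      ((cc v0 c p.1 * cc v0 c p.2) * conj (cc v0 c q.1 * cc v0 c q.2)).re else 0) ≤
    3 * (∑ j ∈ SP N, ‖cc v0 c j‖ ^ 2) ^ 2 := by
  set w : ℤ → ℝ := fun j => ‖cc v0 c j‖ with hw
  have hw0 : ∀ j, 0 ≤ w j := fun j => norm_nonneg _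
  have hwn : ∀ j, w (-j) = w j := fun j => cc_conj v0 c j
  set S := SP N with hS
  have hb : ∀ p ∈ S ×ˢ S, ∀ q ∈ S ×ˢ S, (if fz p.1 + fz p.2 = fz q.1 + fz q.2 then
      ((cc v0 c p.1 * cc v0 c p.2) * conj (cc v0 c q.1 * cc v0 c q.2)).re else 0) ≤
      (if p.1 = q.1 ∧ p.2 = q.2 then w p.1 ^ 2 * w p.2 ^ 2 else 0) +
      (if p.1 = q.2 ∧ p.2 = q.1 then w p.1 ^ 2 * w p.2 ^ 2 else 0) +
      (if p.2 = -p.1 ∧ q.2 = -q.1 then w p.1 ^ 2 * w q.1 ^ 2 else 0) := by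
    intro p hp q hq
    obtain ⟨hp1, hp2⟩ := Finset.mem_product.1 hp
    obtain ⟨hq1, hq2⟩ := Finset.mem_product.1 hq
    have n1 : 0 ≤ (if p.1 = q.1 ∧ p.2 = q.2 then w p.1 ^ 2 * w p.2 ^ 2 else 0) := by
      split_ifs <;> positivity
    have n2 : 0 ≤ (if p.1 = q.2 ∧ p.2 = q.1 then w p.1 ^ 2 * w p.2 ^ 2 else 0) := by
      split_ifs <;> positivity
    have n3 : 0 ≤ (if p.2 = -p.1 ∧ q.2 = -q.1 then w p.1 ^ 2 * w q.1 ^ 2 else 0) := by
      split_ifs <;> positivity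
    by_cases h : fz p.1 + fz p.2 = fz q.1 + fz q.2
    · rw [if_pos h]
      have e1 : ((cc v0 c p.1 * cc v0 c p.2) * conj (cc v0 c q.1 * cc v0 c q.2)).re ≤
          w p.1 * w p.2 * (w q.1 * w q.2) := by
        refine (Complex.re_le_norm _).trans (le_of_eq ?_)
        rw [norm_mul, norm_mul, Complex.norm_conj, norm_mul]
      refine e1.trans ?_
      rcases fz_eq hp1 hp2 hq1 hq2 h with h3 | h3 | h3
      · rw [if_pos h3, ← h3.1, ← h3.2]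
        have : w p.1 * w p.2 * (w p.1 * w p.2) = w p.1 ^ 2 * w p.2 ^ 2 := by ring
        rw [this]
        rw [← h3.1, ← h3.2] at n2 n3
        linarith
      · rw [if_pos (show p.1 = q.2 ∧ p.2 = q.1 from h3), ← h3.1, ← h3.2]
        have : w p.1 * w p.2 * (w p.2 * w p.1) = w p.1 ^ 2 * w p.2 ^ 2 := by ring
        rw [this]
        rw [← h3.1, ← h3.2] at n1 n3
        linarith
      · rw [if_pos (show p.2 = -p.1 ∧ q.2 = -q.1 from h3)]
        have e2 : w p.1 * w p.2 * (w q.1 * w q.2) = w p.1 ^ 2 * w q.1 ^ 2 := by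
          rw [h3.1, h3.2, hwn, hwn]; ring
        rw [e2]
        linarith
    · rw [if_neg h]
      linarith
  refine (Finset.sum_le_sum fun p hp => Finset.sum_le_sum fun q hq => hb p hp q hq).trans ?_
  simp only [Finset.sum_add_distrib]
  set W := ∑ j ∈ S, w j ^ 2 with hW
  have hWW : ∑ p ∈ S ×ˢ S, w p.1 ^ 2 * w p.2 ^ 2 = W ^ 2 := by
    rw [sq W, hW, Finset.sum_mul_sum, Finset.sum_product]
  have s1 : ∑ p ∈ S ×ˢ S, ∑ q ∈ S ×ˢ S, (if p.1 = q.1 ∧ p.2 = q.2 then w p.1 ^ 2 * w p.2 ^ 2 else 0) = W ^ 2 := by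
    rw [← hWW]
    refine Finset.sum_congr rfl fun p hp => ?_
    rw [Finset.sum_eq_single p]
    · rw [if_pos ⟨rfl, rfl⟩]
    · intro q _ hqp
      rw [if_neg]
      rintro ⟨h1, h2⟩
      exact hqp (Prod.ext h1.symm h2.symm)
    · intro h; exact absurd hp h
  have s2 : ∑ p ∈ S ×ˢ S, ∑ q ∈ S ×ˢ S, (if p.1 = q.2 ∧ p.2 = q.1 then w p.1 ^ 2 * w p.2 ^ 2 else 0) = W ^ 2 := by
    rw [← hWW]
    refine Finset.sum_congr rfl fun p hp => ?_
    have hp' := Finset.mem_product.1 hp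
    rw [Finset.sum_eq_single (p.2, p.1)]
    · rw [if_pos ⟨rfl, rfl⟩]
    · intro q _ hqp
      rw [if_neg]
      rintro ⟨h1, h2⟩
      exact hqp (Prod.ext h2.symm h1.symm)
    · intro h; exact absurd (Finset.mem_product.2 ⟨hp'.2, hp'.1⟩) h
  have s3 : ∑ p ∈ S ×ˢ S, ∑ q ∈ S ×ˢ S, (if p.2 = -p.1 ∧ q.2 = -q.1 then w p.1 ^ 2 * w q.1 ^ 2 else 0) ≤ W ^ 2 := by
    have e1 : ∀ p q : ℤ × ℤ, (if p.2 = -p.1 ∧ q.2 = -q.1 then w p.1 ^ 2 * w q.1 ^ 2 else 0) =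
        (if p.2 = -p.1 then w p.1 ^ 2 else 0) * (if q.2 = -q.1 then w q.1 ^ 2 else 0) := by
      intro p q
      by_cases h1 : p.2 = -p.1 <;> by_cases h2 : q.2 = -q.1 <;> simp [h1, h2]
    simp_rw [e1]
    rw [← Finset.sum_mul_sum, ← sq]
    refine pow_le_pow_left₀ (Finset.sum_nonneg fun p _ => by split_ifs <;> positivity) ?_ 2
    rw [Finset.sum_product, hW]
    refine Finset.sum_le_sum fun a _ => ?_
    simp only
    rw [Finset.sum_ite_eq']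
    split_ifs
    · exact le_rfl
    · positivity
  rw [s1, s2]
  linarith

/-- fourth moment -/
theorem mom4 : Integrable (fun s : ℝ => gk H x s * vv N v0 c s ^ 4) ∧
    ∫ s : ℝ, gk H x s * vv N v0 c s ^ 4 ≤
    Real.sqrt Real.pi * H * (3 * (v0 ^ 2 + 1 / 2 * ∑ p ∈ Pr N, ‖c p‖ ^ 2) ^ 2 +
      (|v0| + ∑ p ∈ Pr N, ‖c p‖) ^ 4 * Real.exp (-(H ^ 2 * (1 / (2 * (N : ℝ) ^ 2)) ^ 2) / 4)) := by
  have hN1 : (1 : ℝ) ≤ N := by exact_mod_cast hN
  set S := SP N with hS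
  set c2 : ℤ × ℤ → ℂ := fun p => cc v0 c p.1 * cc v0 c p.2 with hc2
  set f2 : ℤ × ℤ → ℝ := fun p => fz p.1 + fz p.2 with hf2
  obtain ⟨h1, h2⟩ := gmv (S ×ˢ S) c2 f2 (g := 1 / (2 * (N : ℝ) ^ 2)) x hH (by positivity) (by
    intro p hp q hq hpq
    obtain ⟨hp1, hp2⟩ := Finset.mem_product.1 hp
    obtain ⟨hq1, hq2⟩ := Finset.mem_product.1 hq
    exact fz_gap hN hp1 hp2 hq1 hq2 hpq)
  have e0 : ∀ s : ℝ, es (S ×ˢ S) c2 f2 s = (vv N v0 c s : ℂ) ^ 2 := by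
    intro s
    rw [← es_vv, sq]
    unfold es
    rw [Finset.sum_mul_sum, Finset.sum_product]
    refine Finset.sum_congr rfl fun a _ => Finset.sum_congr rfl fun b _ => ?_
    simp only [hc2, hf2]
    have : cexp (-(I * s * ((fz a + fz b : ℝ) : ℂ))) = cexp (-(I * s * fz a)) * cexp (-(I * s * fz b)) := by
      rw [← Complex.exp_add]; congr 1; push_cast; ring
    rw [this]; ring
  have e1 : ∀ s : ℝ, ‖es (S ×ˢ S) c2 f2 s‖ ^ 2 = vv N v0 c s ^ 4 := by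
    intro s
    rw [e0, norm_pow, Complex.norm_real, Real.norm_eq_abs, ← pow_mul]
    rw [show 2 * 2 = 4 by norm_num, show (4 : ℕ) = 2 * 2 by norm_num, pow_mul, pow_mul, sq_abs]
  simp_rw [e1] at h1 h2
  refine ⟨h1, ?_⟩
  have h3 := (abs_le.1 h2).2
  have h4 : ∑ p ∈ S ×ˢ S, ‖c2 p‖ = (|v0| + ∑ p ∈ Pr N, ‖c p‖) ^ 2 := by
    rw [← sum_cc, sq, Finset.sum_mul_sum, Finset.sum_product]
    refine Finset.sum_congr rfl fun a _ => Finset.sum_congr rfl fun b _ => ?_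
    simp only [hc2, norm_mul]
  have h5 := diag4 (N := N) v0 c
  rw [sum_cc_sq] at h5
  rw [h4] at h3
  have h6 : ((|v0| + ∑ p ∈ Pr N, ‖c p‖) ^ 2) ^ 2 = (|v0| + ∑ p ∈ Pr N, ‖c p‖) ^ 4 := by
    rw [← pow_mul]
  rw [h6] at h3
  have hP : 0 ≤ Real.sqrt Real.pi * H := by positivity
  have h7 := mul_le_mul_of_nonneg_left h5 hP
  rw [mul_add]
  linarith

end

end Pool.Agent.H474.SHP
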