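import Pool.Agent.H474.SHP.Kar

/-!
# Uniform convergence of quadratic forms
-/

set_option autoImplicit false

open Filter Topology MeasureTheory Complex
open scoped ComplexConjugate
open scoped ArithmeticFunction.vonMangoldt

namespace Pool.Agent.H474.SHP

open Pool.Agent.Y772.SL (av)

section

variable {ι : Type} [Fintype ι]

/-- pointwise convergence of quadratic forms is uniform on bounded sets -/
theorem quad_unif (B : ℝ → ι → ι → ℝ) (hB : ∀ x i j, B x i j = B x j i) (qF : (ι → ℝ) → ℝ)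
    (h : ∀ μ : ι → ℝ, Tendsto (fun x => ∑ i, ∑ j, μ i * μ j * B x i j) atTop (𝓝 (qF μ)))
    (K : ℝ) {ε : ℝ} (hε : 0 < ε) :
    ∀ᶠ x : ℝ in atTop, ∀ μ : ι → ℝ, (∀ i, |μ i| ≤ K) →
      |(∑ i, ∑ j, μ i * μ j * B x i j) - qF μ| ≤ ε := by
  classical
  set q : ℝ → (ι → ℝ) → ℝ := fun x μ => ∑ i, ∑ j, μ i * μ j * B x i j with hq
  have hexp : ∀ x i j, B x i j = (q x (Pi.single i 1 + Pi.single j 1) -
      q x (Pi.single i 1 - Pi.single j 1)) / 4 := by
    intro x i j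
    have e1 : ∀ k l : ι, ∑ m, ∑ n, (Pi.single k (1 : ℝ) : ι → ℝ) m * (Pi.single l (1 : ℝ) : ι → ℝ) n * B x m n = B x k l := by
      intro k l
      rw [Finset.sum_eq_single k]
      · rw [Finset.sum_eq_single l]
        · simp
        · intro b _ hb; simp [hb]
        · intro hb; exact absurd (Finset.mem_univ _) hb
      · intro b _ hb; simp [hb]
      · intro hb; exact absurd (Finset.mem_univ _) hb
    have e2 : q x (Pi.single i 1 + Pi.single j 1) = B x i i + B x i j + B x j i + B x j j := by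
      simp only [hq, Pi.add_apply, add_mul, mul_add, Finset.sum_add_distrib]
      rw [e1, e1, e1, e1]; ring
    have e3 : q x (Pi.single i 1 - Pi.single j 1) = B x i i - B x i j - B x j i + B x j j := by
      simp only [hq, Pi.sub_apply, sub_mul, mul_sub, Finset.sum_sub_distrib]
      rw [e1, e1, e1, e1]; ring
    rw [e2, e3, hB x j i]; ring
  set C : ι → ι → ℝ := fun i j => (qF (Pi.single i 1 + Pi.single j 1) -
      qF (Pi.single i 1 - Pi.single j 1)) / 4 with hC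
  have hBC : ∀ i j, Tendsto (fun x => B x i j) atTop (𝓝 (C i j)) := by
    intro i j
    refine (((h _).sub (h _)).div_const 4).congr fun x => ?_
    exact (hexp x i j).symm
  have hqF : ∀ μ, qF μ = ∑ i, ∑ j, μ i * μ j * C i j := by
    intro μ
    refine tendsto_nhds_unique (h μ) ?_
    exact tendsto_finsetSum _ fun i _ => tendsto_finsetSum _ fun j _ => (hBC i j).const_mul _
  have hlim : Tendsto (fun x => ∑ i, ∑ j, K ^ 2 * |B x i j - C i j|) atTop (𝓝 0) := by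
    have h1 : Tendsto (fun x => ∑ i, ∑ j, K ^ 2 * |B x i j - C i j|) atTop
        (𝓝 (∑ i, ∑ j, K ^ 2 * |C i j - C i j|)) :=
      tendsto_finsetSum _ fun i _ => tendsto_finsetSum _ fun j _ =>
        (((hBC i j).sub_const _).abs).const_mul _
    simpa using h1
  filter_upwards [hlim.eventually (gt_mem_nhds hε)] with x hx μ hμ
  rw [hqF]
  have e : (∑ i, ∑ j, μ i * μ j * B x i j) - ∑ i, ∑ j, μ i * μ j * C i j =
      ∑ i, ∑ j, μ i * μ j * (B x i j - C i j) := by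
    rw [← Finset.sum_sub_distrib]
    refine Finset.sum_congr rfl fun i _ => ?_
    rw [← Finset.sum_sub_distrib]
    exact Finset.sum_congr rfl fun j _ => by ring
  rw [e]
  refine le_trans ?_ hx.le
  refine (Finset.abs_sum_le_sum_abs _ _).trans (Finset.sum_le_sum fun i _ => ?_)
  refine (Finset.abs_sum_le_sum_abs _ _).trans (Finset.sum_le_sum fun j _ => ?_)
  rw [abs_mul, abs_mul]
  refine mul_le_mul_of_nonneg_right ?_ (abs_nonneg _)
  rw [sq]
  exact mul_le_mul (hμ i) (hμ j) (abs_nonneg _) ((abs_nonneg _).trans (hμ i))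

/-- the square of a linear combination -/
lemma sq_exp (μ : ι → ℝ) (z : ι → ℂ) :
    ‖∑ i, (μ i : ℂ) * z i‖ ^ 2 = ∑ i, ∑ j, μ i * μ j * (z i * conj (z j)).re := by
  have e0 : ((‖∑ i, (μ i : ℂ) * z i‖ ^ 2 : ℝ) : ℂ) = ∑ i, ∑ j, ((μ i * μ j : ℝ) : ℂ) * (z i * conj (z j)) := by
    have h1 : ∀ w : ℂ, ((‖w‖ ^ 2 : ℝ) : ℂ) = w * conj w := by
      intro w; rw [Complex.mul_conj']; push_cast; rfl
    rw [h1, map_sum, Finset.sum_mul_sum]
    refine Finset.sum_congr rfl fun i _ => Finset.sum_congr rfl fun j _ => ?_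
    rw [map_mul, Complex.conj_ofReal]
    push_cast; ring
  have e1 := congrArg Complex.re e0
  rw [Complex.ofReal_re, re_sum] at e1
  rw [e1]
  refine Finset.sum_congr rfl fun i _ => ?_
  rw [re_sum]
  exact Finset.sum_congr rfl fun j _ => by rw [Complex.re_ofReal_mul]

/-- finite sums -/
lemma tsum_fin (f : ℕ → ℝ) (hf : f 0 = 0) (φ : ℝ → ℝ) (M : ℝ) (h0 : ∀ x, M ≤ x → φ x = 0)
    {L : ℝ} (hL : 0 < L) {N : ℕ} (hN : Real.exp (M * L) < N + 1) :
    ∑' n : ℕ, f n * φ (Real.log n / L) = ∑ n ∈ Finset.Icc 1 N, f n * φ (Real.log n / L) := by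
  refine tsum_eq_sum fun n hn => ?_
  rcases Nat.eq_zero_or_pos n with rfl | hn0
  · rw [hf, zero_mul]
  · have h1 : N + 1 ≤ n := by
      by_contra h
      exact hn (Finset.mem_Icc.2 ⟨hn0, by omega⟩)
    have h2 : Real.exp (M * L) < n := hN.trans_le (by exact_mod_cast h1)
    have h3 : M * L < Real.log n := by
      rw [Real.lt_log_iff_exp_lt (by exact_mod_cast hn0)]; exact h2
    rw [h0 _ (by rw [le_div_iff₀ hL]; exact h3.le), mul_zero]

/-- **Uniform Karamata theorem** for the squares of linear combinations -/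
theorem kar_unif (β : ι → ℕ → ℂ) (D : ι → ℝ) (hβ : ∀ i n, ‖β i n‖ ≤ D i) (sF : (ι → ℝ) → ℝ)
    (hs : ∀ μ : ι → ℝ, Tendsto (av fun n => ‖∑ i, (μ i : ℂ) * β i n‖ ^ 2) (𝓝[>] 0) (𝓝 (sF μ)))
    (φ : ℝ → ℝ) (hφ : Continuous φ) (M : ℝ) (hM : 0 ≤ M) (h0 : ∀ x, M ≤ x → φ x = 0)
    (K : ℝ) {ε : ℝ} (hε : 0 < ε) :
    ∀ᶠ L : ℝ in atTop, ∀ μ : ι → ℝ, (∀ i, |μ i| ≤ K) → ∀ N : ℕ, Real.exp (M * L) < N + 1 →
      |(∑ n ∈ Finset.Icc 1 N, ‖∑ i, (μ i : ℂ) * β i n‖ ^ 2 * Λ n / n * φ (Real.log n / L)) / L -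
        sF μ * ∫ x in (0 : ℝ)..M, φ x| ≤ ε := by
  set N0 : ℝ → ℕ := fun L => ⌊Real.exp (M * L)⌋₊ with hN0
  set B : ℝ → ι → ι → ℝ := fun L i j =>
    (∑ n ∈ Finset.Icc 1 (N0 L), (β i n * conj (β j n)).re * Λ n / n * φ (Real.log n / L)) / L with hB
  have hBs : ∀ L i j, B L i j = B L j i := by
    intro L i j
    simp only [hB]
    congr 1
    refine Finset.sum_congr rfl fun n _ => ?_
    congr 3
    simp only [Complex.mul_re, Complex.conj_re, Complex.conj_im]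
    ring
  have hq : ∀ (L : ℝ) (μ : ι → ℝ), ∑ i, ∑ j, μ i * μ j * B L i j =
      (∑ n ∈ Finset.Icc 1 (N0 L), ‖∑ i, (μ i : ℂ) * β i n‖ ^ 2 * Λ n / n * φ (Real.log n / L)) / L := by
    intro L μ
    simp only [hB, sq_exp, Finset.sum_mul, Finset.sum_div, Finset.mul_sum]
    have e1 : ∀ i, ∑ j, ∑ n ∈ Finset.Icc 1 (N0 L), μ i * μ j *
        ((β i n * conj (β j n)).re * Λ n / n * φ (Real.log n / L) / L) =
        ∑ n ∈ Finset.Icc 1 (N0 L), ∑ j, μ i * μ j *
        ((β i n * conj (β j n)).re * Λ n / n * φ (Real.log n / L) / L) := fun i => Finset.sum_comm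
    simp_rw [e1]
    rw [Finset.sum_comm]
    refine Finset.sum_congr rfl fun n _ => Finset.sum_congr rfl fun i _ =>
      Finset.sum_congr rfl fun j _ => ?_
    ring
  have hu : ∀ μ : ι → ℝ, ∀ n, ‖∑ i, (μ i : ℂ) * β i n‖ ^ 2 ≤ (∑ i, |μ i| * D i) ^ 2 := by
    intro μ n
    refine pow_le_pow_left₀ (norm_nonneg _) ((norm_sum_le _ _).trans (Finset.sum_le_sum fun i _ => ?_)) 2
    rw [norm_mul, Complex.norm_real, Real.norm_eq_abs]
    exact mul_le_mul_of_nonneg_left (hβ i n) (abs_nonneg _)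
  have hlim : ∀ μ : ι → ℝ, Tendsto (fun L => ∑ i, ∑ j, μ i * μ j * B L i j) atTop
      (𝓝 (sF μ * ∫ x in (0 : ℝ)..M, φ x)) := by
    intro μ
    refine (kar_av _ (fun n => sq_nonneg _) _ (hu μ) (sF μ) (hs μ) φ hφ M hM h0).congr' ?_
    filter_upwards [eventually_gt_atTop 0] with L hL
    rw [hq, tsum_fin (fun n => ‖∑ i, (μ i : ℂ) * β i n‖ ^ 2 * Λ n / n) (by simp) φ M h0 hL
      (Nat.lt_floor_add_one _)]
  have h1 := quad_unif B hBs (fun μ => sF μ * ∫ x in (0 : ℝ)..M, φ x) hlim K hε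
  filter_upwards [h1, eventually_gt_atTop 0] with L h1 hL μ hμ N hN
  have h2 := h1 μ hμ
  rw [hq] at h2
  rw [← tsum_fin (fun n => ‖∑ i, (μ i : ℂ) * β i n‖ ^ 2 * Λ n / n) (by simp) φ M h0 hL
      (Nat.lt_floor_add_one _)] at h2
  rw [← tsum_fin (fun n => ‖∑ i, (μ i : ℂ) * β i n‖ ^ 2 * Λ n / n) (by simp) φ M h0 hL hN]
  exact h2

end

end Pool.Agent.H474.SHP
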