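import Pool.Agent.H474.SHP.Main

/-!
# Zeros and poles of products of degree zero
-/

set_option autoImplicit false
set_option linter.unusedSectionVars false

open Complex Filter Topology Set
open H370 (zset mult NN Nd Ns)
open W388 H385

namespace Pool.Agent.H474.SHP

open Pool.Agent.Y772.ND (netM box net_zero NN_eq DD' mult_zero)
open Pool.Agent.Y772.ND.Pub (Box tr_set)

section

variable {ι : Type} [Fintype ι]

/-- the number of zeros and the number of poles -/
theorem quo3 {d : ι → ℝ} {A : ι → ℝ} {F : ι → ℂ → ℂ} {a : ι → ℕ → ℂ} (hA : ∀ i, 1 ≤ A i)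
    (hF : ∀ i, GoodE (d i) (A i) 1 (F i) (a i)) (n : ι → ℤ) (hn : ∑ i, (n i : ℝ) * d i = 0)
    (hN : ∀ i, ∃ C : ℝ, ∀ᶠ T : ℝ in atTop,
      |(NN (F i) T (2 * T) : ℝ) - d i / (2 * Real.pi) * T * Real.log T| ≤ C * T)
    {c : ℝ} {ε : ℝ} (hε : 0 < ε)
    (hD : ∀ᶠ T : ℝ in atTop, c * UU T ≤ ((DD' F (fun i => (n i : ℝ)) T).ncard : ℝ)) :
    ∀ᶠ T : ℝ in atTop,
      (c / 2 - ε) * UU T ≤ ((∑ᶠ s ∈ box T, (netM F n s).toNat : ℕ) : ℝ) ∧
      (c / 2 - ε) * UU T ≤ ((∑ᶠ s ∈ box T, (-netM F n s).toNat : ℕ) : ℝ) := by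
  classical
  choose C hC using hN
  set CC := ∑ i, |(n i : ℝ)| * C i with hCC
  have hlog : ∀ᶠ T : ℝ in atTop, CC * Real.pi / ε ≤ Real.log T :=
    Real.tendsto_log_atTop.eventually_ge_atTop _
  filter_upwards [hD, eventually_all.2 hC, hlog, eventually_ge_atTop 1] with T hD hC hlog hT
  have hfin : (⋃ i, zset (F i) T (2 * T)).Finite :=
    Set.finite_iUnion fun i => zset_finite_D (hA i) le_rfl (hF i) T (2 * T) hT
  set Z := hfin.toFinset with hZ
  have hZb : ∀ s, s ∈ Z → s ∈ box T := by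
    intro s hs
    obtain ⟨i, g1, g2, g3, g4, -⟩ := Set.mem_iUnion.1 (hfin.mem_toFinset.1 hs)
    exact ⟨g1, g2, g3, g4⟩
  have hsub : ∀ i, zset (F i) T (2 * T) ⊆ (Z : Set ℂ) := by
    intro i s hs
    exact hfin.mem_toFinset.2 (Set.mem_iUnion.2 ⟨i, hs⟩)
  -- the sums
  have hp : ∀ g : ℤ → ℕ, g 0 = 0 → ∑ᶠ s ∈ box T, g (netM F n s) = ∑ s ∈ Z, g (netM F n s) := by
    intro g hg
    rw [finsum_mem_eq_sum_of_inter_support_eq]
    ext s
    simp only [Set.mem_inter_iff, Function.mem_support]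
    constructor
    · rintro ⟨h1, h2⟩
      refine ⟨?_, h2⟩
      by_contra h3
      rw [Finset.mem_coe, hZ, hfin.mem_toFinset] at h3
      exact h2 (by rw [net_zero hF n hT h1 h3, hg])
    · rintro ⟨h1, h2⟩
      exact ⟨hZb s h1, h2⟩
  have hp1 := hp Int.toNat (by simp)
  have hp2 := hp (fun k => (-k).toNat) (by simp)
  rw [hp1, hp2]
  set Sp := ∑ s ∈ Z, (netM F n s).toNat with hSp
  set Sm := ∑ s ∈ Z, (-netM F n s).toNat with hSm
  -- difference
  have hdiff : ((Sp : ℝ) - (Sm : ℝ)) = ∑ i, (n i : ℝ) * (NN (F i) T (2 * T) : ℝ) := by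
    have e1 : ((Sp : ℤ) - (Sm : ℤ)) = ∑ s ∈ Z, netM F n s := by
      rw [hSp, hSm]
      push_cast
      rw [← Finset.sum_sub_distrib]
      refine Finset.sum_congr rfl fun s _ => ?_
      omega
    have e2 : ∑ s ∈ Z, netM F n s = ∑ i, n i * (NN (F i) T (2 * T) : ℤ) := by
      unfold netM
      rw [Finset.sum_comm]
      refine Finset.sum_congr rfl fun i _ => ?_
      rw [NN_eq (hA i) le_rfl (hF i) hT Z hZb (hsub i), ← Finset.mul_sum]
      push_cast
      rfl
    have e3 : (((Sp : ℤ) - (Sm : ℤ) : ℤ) : ℝ) = ((∑ i, n i * (NN (F i) T (2 * T) : ℤ) : ℤ) : ℝ) := by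
      rw [e1, e2]
    push_cast at e3
    exact e3
  have hdb : |(Sp : ℝ) - (Sm : ℝ)| ≤ CC * T := by
    rw [hdiff]
    have e4 : ∑ i, (n i : ℝ) * (NN (F i) T (2 * T) : ℝ) =
        ∑ i, (n i : ℝ) * ((NN (F i) T (2 * T) : ℝ) - d i / (2 * Real.pi) * T * Real.log T) := by
      have h5 : ∑ i, (n i : ℝ) * (d i / (2 * Real.pi) * T * Real.log T) = 0 := by
        have h6 : ∑ i, (n i : ℝ) * (d i / (2 * Real.pi) * T * Real.log T) =
            (∑ i, (n i : ℝ) * d i) * (1 / (2 * Real.pi) * T * Real.log T) := by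
          rw [Finset.sum_mul]
          exact Finset.sum_congr rfl fun i _ => by ring
        rw [h6, hn, zero_mul]
      simp_rw [mul_sub]
      rw [Finset.sum_sub_distrib, h5, sub_zero]
    rw [e4]
    refine (Finset.abs_sum_le_sum_abs _ _).trans ?_
    rw [hCC, Finset.sum_mul]
    refine Finset.sum_le_sum fun i _ => ?_
    rw [abs_mul, mul_assoc |(n i : ℝ)|]
    exact mul_le_mul_of_nonneg_left (hC i) (abs_nonneg _)
  -- sum
  have hsum : ((DD' F (fun i => (n i : ℝ)) T).ncard : ℝ) ≤ Sp + Sm := by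
    have e5 : (DD' F (fun i => (n i : ℝ)) T) ⊆ ((Z.filter fun s => netM F n s ≠ 0 : Finset ℂ) : Set ℂ) := by
      rintro s ⟨g1, g2, g3, g4, g5⟩
      have g6 : netM F n s ≠ 0 := by
        intro h0
        apply g5
        have : ((netM F n s : ℤ) : ℝ) = 0 := by rw [h0]; simp
        unfold netM at this
        push_cast at this
        exact this
      rw [Finset.coe_filter]
      refine ⟨?_, g6⟩
      by_contra h3
      rw [hZ, hfin.mem_toFinset] at h3
      exact g6 (net_zero hF n hT ⟨g1, g2, g3, g4⟩ h3)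
    have e6 : (DD' F (fun i => (n i : ℝ)) T).ncard ≤ (Z.filter fun s => netM F n s ≠ 0).card := by
      rw [← Set.ncard_coe_finset]
      exact Set.ncard_le_ncard e5 (Finset.finite_toSet _)
    have e7 : (Z.filter fun s => netM F n s ≠ 0).card ≤ Sp + Sm := by
      rw [hSp, hSm, ← Finset.sum_add_distrib, Finset.card_filter]
      refine Finset.sum_le_sum fun s _ => ?_
      split_ifs with h
      · omega
      · omega
    exact_mod_cast e6.trans e7
  have hT0 : 0 < T := by linarith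
  have h1 : CC * T ≤ 2 * (ε * UU T) := by
    have hπ := Real.pi_pos
    unfold UU
    rw [div_le_iff₀ hε] at hlog
    have e1 : 2 * (ε * (T / (2 * Real.pi) * Real.log T)) = (Real.log T * ε) * T / Real.pi := by
      field_simp
    rw [e1, le_div_iff₀ hπ]
    calc CC * T * Real.pi = (CC * Real.pi) * T := by ring
      _ ≤ _ := mul_le_mul_of_nonneg_right hlog hT0.le
  obtain ⟨h2, h3⟩ := abs_le.1 hdb
  constructor
  · linarith
  · linarith

end

/-- translation, for the number of points with multiplicities -/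
theorem tr_sum' (g : ℂ → ℕ) {M c : ℝ} (hM : 0 ≤ M) (hc : 0 < c) {η : ℝ} (hη : 0 < η) (hη1 : η ≤ 1)
    (h : ∀ᶠ T : ℝ in atTop, c * UU T ≤ ((∑ᶠ s ∈ Box T, g (s + I * M) : ℕ) : ℝ)) :
    ∀ᶠ T : ℝ in atTop, c * ((1 - η) * UU T) ≤ ((∑ᶠ s ∈ Box T, g s : ℕ) : ℝ) := by
  have t1 : Tendsto (fun T : ℝ => T - M) atTop atTop := tendsto_atTop_add_const_right _ _ tendsto_id
  have t2 : Tendsto (fun T : ℝ => 2 * (T - M)) atTop atTop := t1.const_mul_atTop (by norm_num)
  have key : ∀ T : ℝ, 0 < ((∑ᶠ s ∈ Box T, g (s + I * M) : ℕ) : ℝ) →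
      {s : ℂ | s ∈ Box T ∧ g (s + I * M) ≠ 0}.Finite := by
    intro T hT
    by_contra hinf
    have h0 : ∑ᶠ s ∈ Box T, g (s + I * M) = 0 :=
      finsum_mem_eq_zero_of_infinite (f := fun s : ℂ => g (s + I * M)) hinf
    rw [h0] at hT
    simp at hT
  have hpos : ∀ x : ℝ, 4 ≤ x → 0 < c * UU x := by
    intro x hx
    unfold UU
    have := Real.log_pos (by linarith : 1 < x)
    have := Real.pi_pos
    positivity
  filter_upwards [t1.eventually h, t2.eventually h, eventually_ge_atTop (2 * M),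
    eventually_ge_atTop (M + 4), eventually_ge_atTop 4, UU_tr hM hη hη1] with T h1 h2 h3 h4 h5 h6
  have f1 := key _ ((hpos _ (by linarith)).trans_le h1)
  have f2 := key _ ((hpos _ (by linarith)).trans_le h2)
  obtain ⟨f3, f4⟩ := tr_set (fun s => g s ≠ 0) hM h3 f1 f2
  refine (mul_le_mul_of_nonneg_left h6 hc.le).trans (h1.trans ?_)
  have e1 : ∑ᶠ s ∈ Box (T - M), g (s + I * M) = ∑ s ∈ f1.toFinset, g (s + I * M) :=
    finsum_mem_eq_sum (fun s : ℂ => g (s + I * M)) f1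
  have e2 : ∑ᶠ s ∈ Box T, g s = ∑ s ∈ f3.toFinset, g s := finsum_mem_eq_sum g f3
  rw [e1, e2]
  have e3 : ∑ s ∈ f1.toFinset, g (s + I * M) =
      ∑ s ∈ f1.toFinset.map ⟨fun s : ℂ => s + I * M, add_left_injective _⟩, g s := by
    rw [Finset.sum_map]
    rfl
  rw [e3]
  have e4 : ∑ s ∈ f1.toFinset.map ⟨fun s : ℂ => s + I * M, add_left_injective _⟩, g s ≤
      ∑ s ∈ f3.toFinset, g s := by
    refine Finset.sum_le_sum_of_subset fun s hs => ?_
    rw [Finset.mem_map] at hs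
    obtain ⟨z, hz, rfl⟩ := hs
    rw [Set.Finite.mem_toFinset] at hz ⊢
    exact f4 ⟨z, hz, rfl⟩
  exact_mod_cast e4

end Pool.Agent.H474.SHP
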