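import Pool.Agent.H474.SHP.Quo

/-!
# Zeros and poles of products of degree zero of Artin L-functions
-/

set_option autoImplicit false
set_option linter.unusedSectionVars false

open NumberField Complex Filter Topology IsDedekindDomain
open scoped ArithmeticFunction.vonMangoldt

namespace Pool.Agent.H474.SHP

open Pool.Agent.H474.ART
open Pool.Agent.Q92.AR Pool.Agent.Q5.BR Pool.Agent.H541R3.ART
open Pool.Agent.Y772.ND (DD' netM box)
open Pool.Agent.Y772.ND.Pub (Box ord_tr mord_tr)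
open H370 (mult)

section

variable {M : Type} [Field M] [NumberField M] [IsGalois ℚ M]

theorem quoA_nonneg {ι : Type} [Fintype ι] (χ : ι → (M ≃ₐ[ℚ] M) → ℂ)
    (hχ : ∀ i, χ i ∈ Irr (M ≃ₐ[ℚ] M)) (τ : ι → ℝ) (hτ : ∀ i, 0 ≤ τ i)
    (hne : ∀ i j, i ≠ j → χ i ≠ χ j ∨ τ i ≠ τ j) (L : ι → ℂ → ℂ)
    (hL : ∀ i, Continues (L i) (artinL M (χ i))) (n : ι → ℤ) (hn : n ≠ 0)
    (hn0 : ∑ i, (n i : ℂ) * χ i 1 = 0) {ε : ℝ} (hε : 0 < ε) :
    ∀ᶠ T : ℝ in atTop,
      (1 / 24 - ε) * UU T ≤ ((∑ᶠ s ∈ Box T, (∑ i, n i * od (L i) (s + I * τ i)).toNat : ℕ) : ℝ) ∧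
      (1 / 24 - ε) * UU T ≤
        ((∑ᶠ s ∈ Box T, (-∑ i, n i * od (L i) (s + I * τ i)).toNat : ℕ) : ℝ) := by
  classical
  choose κ hκ m d a F hD using fun i => exists_BD (hχ i)
  choose A₀ hA₀ hgood₀ using fun (i : ι) (k : κ i) => (hD i).good k
  -- the family
  let J : Type := Σ i, κ i
  let d' : J → ℝ := fun j => d j.1 j.2
  have hd' : ∀ j, 1 ≤ d' j := fun j => (hD j.1).d1 j.2
  choose A' hA' hgood' using fun j : J => Pool.Agent.Y923.ND.t_SHIFT (d' j) (A₀ j.1 j.2) (F j.1 j.2)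
    (fun n => a j.1 j.2 n * (Λ n : ℂ)) (hd' j) (hA₀ j.1 j.2) (hgood₀ j.1 j.2) (τ j.1) (hτ j.1)
  let F' : J → ℂ → ℂ := fun j s => F j.1 j.2 (s + I * τ j.1)
  -- orders
  have hord : ∀ i (s : ℂ), 0 < s.re → s.re < 1 → od (L i) s = ∑ k, m i k * (mult (F i k) s : ℤ) := by
    intro i s h0 h1
    unfold od
    rw [(hD i).ord (L i) (hL i) s h0 (by rintro rfl; simp at h1)]
    rfl
  have hre : ∀ (s : ℂ) (t : ℝ), (s + I * t).re = s.re := fun s t => by simp
  have hmult : ∀ (j : J) (s : ℂ), mult (F' j) s = mult (F j.1 j.2) (s + I * τ j.1) := fun j s =>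
    ord_tr (F j.1 j.2) (I * τ j.1) s
  have hnet : ∀ s : ℂ, 0 < s.re → s.re < 1 →
      netM F' (fun j : J => n j.1 * m j.1 j.2) s = ∑ i, n i * od (L i) (s + I * τ i) := by
    intro s g0 g1
    unfold netM
    rw [Fintype.sum_sigma]
    refine Finset.sum_congr rfl fun i _ => ?_
    rw [hord i _ (by rw [hre]; exact g0) (by rw [hre]; exact g1), Finset.mul_sum]
    refine Finset.sum_congr rfl fun k _ => ?_
    rw [hmult]
    ring
  have hdeg : ∑ j : J, ((n j.1 * m j.1 j.2 : ℤ) : ℝ) * d' j = 0 := by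
    have h2 : ((∑ j : J, ((n j.1 * m j.1 j.2 : ℤ) : ℝ) * d' j : ℝ) : ℂ) = 0 := by
      rw [← hn0, Fintype.sum_sigma, Complex.ofReal_sum]
      refine Finset.sum_congr rfl fun i _ => ?_
      rw [← (hD i).deg, Complex.ofReal_sum, Complex.ofReal_sum, Finset.mul_sum]
      refine Finset.sum_congr rfl fun k _ => ?_
      simp only [d']
      push_cast
      ring
    exact_mod_cast h2
  have hn' : (fun i => (n i : ℝ)) ≠ 0 := by
    intro h
    apply hn
    ext i
    have := congrFun h i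
    simpa using this
  have h1 := sharp_nonneg χ hχ τ hτ hne L hL hε
  have h2 := quo3 (ι := J) (d := d') hA' hgood' (fun j => n j.1 * m j.1 j.2) hdeg
      (fun j => Pool.Agent.Y431.ND.t_NASY _ (A' j) _ _ (hd' j) (hA' j) (hgood' j)) (c := 1 / 12 - ε)
      (half_pos hε) (by
        filter_upwards [h1] with T hT
        refine (hT _ hn').2.trans (le_of_eq ?_)
        congr 2
        ext s
        constructor
        · rintro ⟨⟨g1, g2, g3, g4⟩, g5⟩
          refine ⟨g1, g2, g3, g4, ?_⟩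
          intro h0
          apply g5
          have h3 := congrArg (fun z : ℤ => (z : ℝ)) (hnet s g1 g2)
          unfold netM at h3
          push_cast at h3 h0
          rw [← h3]
          exact h0
        · rintro ⟨g1, g2, g3, g4, g5⟩
          refine ⟨⟨g1, g2, g3, g4⟩, ?_⟩
          intro h0
          apply g5
          have h3 := congrArg (fun z : ℤ => (z : ℝ)) (hnet s g1 g2)
          unfold netM at h3
          push_cast at h3 ⊢
          rw [h3]
          exact h0)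
  filter_upwards [h2] with T hT
  obtain ⟨hT1, hT2⟩ := hT
  have e1 : ∑ᶠ s ∈ box T, (netM F' (fun j : J => n j.1 * m j.1 j.2) s).toNat =
      ∑ᶠ s ∈ Box T, (∑ i, n i * od (L i) (s + I * τ i)).toNat :=
    finsum_mem_congr rfl fun s hs => by rw [hnet s hs.1 hs.2.1]
  have e2 : ∑ᶠ s ∈ box T, (-netM F' (fun j : J => n j.1 * m j.1 j.2) s).toNat =
      ∑ᶠ s ∈ Box T, (-∑ i, n i * od (L i) (s + I * τ i)).toNat :=
    finsum_mem_congr rfl fun s hs => by rw [hnet s hs.1 hs.2.1]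
  rw [e1] at hT1
  rw [e2] at hT2
  have e3 : (1 / 12 - ε) / 2 - ε / 2 = 1 / 24 - ε := by ring
  rw [e3] at hT1 hT2
  exact ⟨hT1, hT2⟩

/-- **Zeros and poles of products of degree zero** -/
theorem quoA {ι : Type} [Fintype ι] (χ : ι → (M ≃ₐ[ℚ] M) → ℂ)
    (hχ : ∀ i, χ i ∈ Irr (M ≃ₐ[ℚ] M)) (t : ι → ℝ)
    (hne : ∀ i j, i ≠ j → χ i ≠ χ j ∨ t i ≠ t j) (L : ι → ℂ → ℂ)
    (hL : ∀ i, Continues (L i) (artinL M (χ i))) (n : ι → ℤ) (hn : n ≠ 0)
    (hn0 : ∑ i, (n i : ℂ) * χ i 1 = 0) {ε : ℝ} (hε : 0 < ε) :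
    ∀ᶠ T : ℝ in atTop,
      (1 / 24 - ε) * UU T ≤ ((∑ᶠ s ∈ Box T, (od (prodL L t n) s).toNat : ℕ) : ℝ) ∧
      (1 / 24 - ε) * UU T ≤ ((∑ᶠ s ∈ Box T, (-od (prodL L t n) s).toNat : ℕ) : ℝ) := by
  set W : ℝ := ∑ i, |t i| with hW
  have hW0 : 0 ≤ W := Finset.sum_nonneg fun i _ => abs_nonneg _
  have hτ : ∀ i, 0 ≤ t i + W := by
    intro i
    have h1 : |t i| ≤ W := Finset.single_le_sum (fun j _ => abs_nonneg (t j)) (Finset.mem_univ i)
    have h2 := neg_abs_le (t i)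
    linarith
  obtain ⟨η, hη, hη2, hη3⟩ : ∃ η : ℝ, 0 < η ∧ η ≤ ε / 2 ∧ η ≤ 1 / 48 :=
    ⟨min (ε / 2) (1 / 48), by positivity, min_le_left _ _, min_le_right _ _⟩
  have h := quoA_nonneg χ hχ (fun i => t i + W) hτ (fun i j hij => by
    rcases hne i j hij with h | h
    · exact Or.inl h
    · exact Or.inr fun h' => h (add_right_cancel h')) L hL n hn hn0 hη
  have hs : ∀ (s : ℂ) i, s + I * ((t i + W : ℝ) : ℂ) = (s + I * W) + I * t i := by
    intro s i
    push_cast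
    ring
  simp only [od_prodL hL]
  have hc : 0 < 1 / 24 - η := by linarith
  have g1 := tr_sum' (fun s => (∑ i, n i * od (L i) (s + I * t i)).toNat) hW0 hc hη (by linarith) (by
    filter_upwards [h] with T hT
    refine hT.1.trans (le_of_eq ?_)
    simp only [hs])
  have g2 := tr_sum' (fun s => (-∑ i, n i * od (L i) (s + I * t i)).toNat) hW0 hc hη (by linarith) (by
    filter_upwards [h] with T hT
    refine hT.2.trans (le_of_eq ?_)
    simp only [hs])
  filter_upwards [g1, g2, eventually_ge_atTop 1] with T hT1 hT2 hT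
  have hU0 : 0 ≤ UU T := UU_nn hT
  have e : (1 / 24 - ε) * UU T ≤ (1 / 24 - η) * ((1 - η) * UU T) := by
    rw [← mul_assoc]
    refine mul_le_mul_of_nonneg_right ?_ hU0
    nlinarith
  exact ⟨e.trans hT1, e.trans hT2⟩

end

end Pool.Agent.H474.SHP
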