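import Pool.Agent.H474.SHP.Fct
import Pool.Agent.H474.SHP.Quad

/-!
# The upper bound for the quadratic form
-/

set_option autoImplicit false
set_option linter.unusedSectionVars false

open Complex Filter Topology Set MeasureTheory
open scoped ComplexConjugate
open H370 (zset mult NN Nd Ns)
open W388 H385
open scoped ArithmeticFunction.vonMangoldt

namespace Pool.Agent.H474.SHP

open Pool.Agent.Y772.ND (Mz Az Wz ev_exp Zf wf mem_Zf sum_wf sum_wf_le Az_Zf ZZ aa mem_ZZ Az_ZZ ZZ_conj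
  aa_conj Mz_sum Az_cont Mz_cont comb_ms)
open Pool.Agent.Y772.SL (av)
open PerChi (Rw_cont)

section

variable {ι : Type} [Fintype ι]

/-- the combined coefficients -/
noncomputable def bb (β : ι → ℕ → ℂ) (μ : ι → ℝ) (n : ℕ) : ℂ := ∑ i, (μ i : ℂ) * (β i n * (Λ n : ℂ))

lemma bb_eq (β : ι → ℕ → ℂ) (μ : ι → ℝ) (n : ℕ) : bb β μ n = (∑ i, (μ i : ℂ) * β i n) * (Λ n : ℂ) := by
  unfold bb
  rw [Finset.sum_mul]
  exact Finset.sum_congr rfl fun i _ => by ring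

lemma bb_sq (β : ι → ℕ → ℂ) (μ : ι → ℝ) (n : ℕ) :
    ‖bb β μ n‖ ^ 2 = ‖∑ i, (μ i : ℂ) * β i n‖ ^ 2 * (Λ n) ^ 2 := by
  rw [bb_eq, norm_mul, mul_pow, Complex.norm_real, Real.norm_eq_abs, sq_abs]

lemma sum_le_K {μ D : ι → ℝ} {K : ℝ} (hμ : ∀ i, |μ i| ≤ K) (hD : ∀ i, 0 ≤ D i) :
    ∑ i, |μ i| * D i ≤ K * ∑ i, D i := by
  rw [Finset.mul_sum]
  exact Finset.sum_le_sum fun i _ => mul_le_mul_of_nonneg_right (hμ i) (hD i)

lemma lin_le {β : ι → ℕ → ℂ} {μ D : ι → ℝ} {K : ℝ} (hμ : ∀ i, |μ i| ≤ K)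
    (hβ : ∀ i n, ‖β i n‖ ≤ D i) (n : ℕ) : ‖∑ i, (μ i : ℂ) * β i n‖ ≤ K * ∑ i, D i := by
  have hD : ∀ i, 0 ≤ D i := fun i => (norm_nonneg _).trans (hβ i 0)
  refine le_trans ?_ (sum_le_K hμ hD)
  refine (norm_sum_le _ _).trans (Finset.sum_le_sum fun i _ => ?_)
  rw [norm_mul, Complex.norm_real, Real.norm_eq_abs]
  exact mul_le_mul_of_nonneg_left (hβ i n) (abs_nonneg _)

lemma bb_le {β : ι → ℕ → ℂ} {μ D : ι → ℝ} {K : ℝ} (hμ : ∀ i, |μ i| ≤ K)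
    (hβ : ∀ i n, ‖β i n‖ ≤ D i) (n : ℕ) : ‖bb β μ n‖ ≤ (K * ∑ i, D i) * Λ n := by
  rw [bb_eq, norm_mul, Complex.norm_real, Real.norm_of_nonneg ArithmeticFunction.vonMangoldt_nonneg]
  exact mul_le_mul_of_nonneg_right (lin_le hμ hβ n) ArithmeticFunction.vonMangoldt_nonneg

/-- the crude bound for the sum of the squares -/
lemma sum_sq_crude {b : ℕ → ℂ} {D : ℝ} (hb : ∀ n, ‖b n‖ ≤ D * Λ n) {N : ℕ} (hN : 1 ≤ N)
    {κ : ℝ} (hκ : Real.log N ≤ κ) :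
    ∑ n ∈ Finset.Icc 1 N, ‖b n‖ ^ 2 / n ≤ D ^ 2 * (κ * (κ + 6)) := by
  have hN1 : (1 : ℝ) ≤ N := by exact_mod_cast hN
  have hl0 : 0 ≤ Real.log N := Real.log_nonneg hN1
  have h1 : ∀ n ∈ Finset.Icc 1 N, ‖b n‖ ^ 2 / n ≤ D ^ 2 * κ * (Λ n / n) := by
    intro n hn
    obtain ⟨h1, h2⟩ := Finset.mem_Icc.1 hn
    have hn0 : (0 : ℝ) < n := by exact_mod_cast h1
    have e1 : ‖b n‖ ^ 2 ≤ (D * Λ n) ^ 2 := pow_le_pow_left₀ (norm_nonneg _) (hb n) 2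
    have e2 : Λ n ≤ κ := by
      refine ArithmeticFunction.vonMangoldt_le_log.trans ((Real.log_le_log hn0 ?_).trans hκ)
      exact_mod_cast h2
    have e3 : 0 ≤ Λ n := ArithmeticFunction.vonMangoldt_nonneg
    rw [div_le_iff₀ hn0]
    calc ‖b n‖ ^ 2 ≤ (D * Λ n) ^ 2 := e1
      _ = D ^ 2 * (Λ n * Λ n) := by ring
      _ ≤ D ^ 2 * (κ * Λ n) :=
          mul_le_mul_of_nonneg_left (mul_le_mul_of_nonneg_right e2 e3) (sq_nonneg _)
      _ = D ^ 2 * κ * (Λ n / n) * n := by field_simp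
  refine (Finset.sum_le_sum h1).trans ?_
  rw [← Finset.mul_sum, mul_assoc]
  refine mul_le_mul_of_nonneg_left ?_ (sq_nonneg _)
  refine mul_le_mul_of_nonneg_left ?_ (by linarith)
  exact (Pool.Agent.Y876.ND.mertens_upper N hN).trans (by linarith)

/-- the test function -/
noncomputable def φ1 (x : ℝ) : ℝ := x * tent x

lemma φ1_cont : Continuous φ1 := by
  unfold φ1
  have := tent_cont
  fun_prop

lemma φ1_zero (x : ℝ) (hx : 1 ≤ x) : φ1 x = 0 := by unfold φ1; rw [tent_ge1 hx, mul_zero]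

lemma φ1_int : ∫ x in (0 : ℝ)..1, φ1 x = 1 / 6 := by
  have h1 : ∫ x in (0 : ℝ)..1, φ1 x = ∫ x in (0 : ℝ)..1, (x - x ^ 2) := by
    refine intervalIntegral.integral_congr fun x hx => ?_
    rw [Set.uIcc_of_le zero_le_one] at hx
    simp only [φ1]
    rw [tent_le1 hx.2]; ring
  rw [h1, intervalIntegral.integral_sub (Continuous.intervalIntegrable (by fun_prop) _ _)
    (Continuous.intervalIntegrable (by fun_prop) _ _), integral_id, integral_pow]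
  norm_num

/-- the weighted sum of the squares -/
lemma sum_sq_tent {β : ι → ℕ → ℂ} {μ : ι → ℝ} {N : ℕ} {L : ℝ} (hL : 0 < L) :
    ∑ n ∈ Finset.Icc 1 N, ‖bb β μ n‖ ^ 2 / n * tent (Real.log n / L) ≤
      L * ∑ n ∈ Finset.Icc 1 N, ‖∑ i, (μ i : ℂ) * β i n‖ ^ 2 * Λ n / n * φ1 (Real.log n / L) := by
  rw [Finset.mul_sum]
  refine Finset.sum_le_sum fun n hn => ?_
  have hn0 : (0 : ℝ) < n := by exact_mod_cast (Finset.mem_Icc.1 hn).1
  rw [bb_sq]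
  have e1 : L * (‖∑ i, (μ i : ℂ) * β i n‖ ^ 2 * Λ n / n * φ1 (Real.log n / L)) =
      ‖∑ i, (μ i : ℂ) * β i n‖ ^ 2 * Λ n * Real.log n / n * tent (Real.log n / L) := by
    unfold φ1
    field_simp
  rw [e1]
  refine mul_le_mul_of_nonneg_right ?_ (tent_nn _)
  refine div_le_div_of_nonneg_right ?_ hn0.le
  have e2 : Λ n ≤ Real.log n := ArithmeticFunction.vonMangoldt_le_log
  have e3 : 0 ≤ Λ n := ArithmeticFunction.vonMangoldt_nonneg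
  calc ‖∑ i, (μ i : ℂ) * β i n‖ ^ 2 * Λ n ^ 2 = ‖∑ i, (μ i : ℂ) * β i n‖ ^ 2 * Λ n * Λ n := by ring
    _ ≤ ‖∑ i, (μ i : ℂ) * β i n‖ ^ 2 * Λ n * Real.log n :=
        mul_le_mul_of_nonneg_left e2 (mul_nonneg (sq_nonneg _) e3)

lemma sq_split {η : ℝ} (hη : 0 < η) (x y : ℂ) : ‖x‖ ^ 2 ≤ (1 + η) * ‖y‖ ^ 2 + (1 + 1 / η) * ‖x - y‖ ^ 2 := by
  have h1 : ‖x‖ ≤ ‖y‖ + ‖x - y‖ := by
    have := norm_add_le y (x - y)
    rwa [add_sub_cancel] at this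
  have h2 := pow_le_pow_left₀ (norm_nonneg _) h1 2
  refine h2.trans ?_
  set p := ‖y‖
  set q := ‖x - y‖
  have h3 : 0 ≤ (Real.sqrt η * p - q / Real.sqrt η) ^ 2 := sq_nonneg _
  have h4 : Real.sqrt η ^ 2 = η := Real.sq_sqrt hη.le
  have hs : Real.sqrt η ≠ 0 := (Real.sqrt_pos.2 hη).ne'
  have h5 : (Real.sqrt η * p - q / Real.sqrt η) ^ 2 = η * p ^ 2 - 2 * p * q + q ^ 2 / η := by
    have : (Real.sqrt η * p - q / Real.sqrt η) ^ 2 = Real.sqrt η ^ 2 * p ^ 2 - 2 * p * q + q ^ 2 / Real.sqrt η ^ 2 := by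
      field_simp
      ring
    rw [this, h4]
  rw [h5] at h3
  have h6 : (1 + 1 / η) * q ^ 2 = q ^ 2 + q ^ 2 / η := by ring
  rw [h6]
  nlinarith

end

end Pool.Agent.H474.SHP
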