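import Pool.Agent.H474.SHP.Qup

/-!
# The upper bound for the quadratic form, continued
-/

set_option autoImplicit false
set_option linter.unusedSectionVars false

open Complex Filter Topology Set MeasureTheory
open scoped ComplexConjugate
open H370 (zset mult NN Nd Ns)
open W388 H385
open scoped ArithmeticFunction.vonMangoldt

namespace Pool.Agent.H474.SHP

open Pool.Agent.Y772.ND (Mz Az Wz ev_exp Zf wf mem_Zf sum_wf sum_wf_le Az_Zf ZZ aa mem_ZZ Az_ZZ ZZ_conj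
  aa_conj Mz_sum Az_cont Mz_cont comb_ms)
open Pool.Agent.Y772.SL (av)
open PerChi (Rw_cont)

section

variable {ι : Type} [Fintype ι]

/-- the mean square of `Az` over the whole line, for one `u` -/
lemma Az_ms {θ θ' K : ℝ} (hθ : 0 < θ) (hθθ : θ < θ') (hθ' : θ' < 1) (hK : 0 ≤ K) (C d : ι → ℝ)
    (hC : ∀ i, 1 ≤ C i) (F : ι → ℂ → ℂ) (β : ι → ℕ → ℂ)
    {η : ℝ} (hη : 0 < η) :
    ∃ C3 : ℝ, 0 ≤ C3 ∧ ∀ᶠ T : ℝ in atTop, ∀ V1 V2 : ι → ℝ,
      ∀ hV : (∀ i, Fct θ θ' (C i) (d i) (F i) (fun n => β i n * (Λ n : ℂ)) T (V1 i) (V2 i)),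
      ∀ μ : ι → ℝ, (∀ i, |μ i| ≤ K) → ∀ u : ℝ, 0 ≤ u → u ≤ θ * Real.log T →
      ∫ t : ℝ, ‖Az (ZZ fun i => (hV i).fin) (aa F V1 V2 μ) u t‖ ^ 2 ≤
        (1 + η) ^ 2 * (T / (4 * Real.pi)) * (((∑ i, μ i * d i) * Real.log T) ^ 2 * Real.exp (-(u - 0) ^ 2 / 2) +
          ∑ n ∈ Finset.Icc 1 (NT θ' T), ‖bb β μ n‖ ^ 2 / n * Real.exp (-(u - Real.log n) ^ 2 / 2)) +
        C3 * T := by
  have hC0 : ∀ i, 0 ≤ C i := fun i => by linarith [hC i]
  set CK := K * ∑ i, C i with hCK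
  have hCs : 0 ≤ ∑ i, C i := Finset.sum_nonneg fun i _ => hC0 i
  have hCK0 : 0 ≤ CK := mul_nonneg hK hCs
  set C3 := (1 + 1 / η) * CK ^ 2 * 2 + 1 with hC3
  refine ⟨C3, by positivity, ?_⟩
  set KK := (Fintype.card ι * K ^ 2) * ∑ i, C i with hKK
  have hKK0 : 0 ≤ KK := by positivity
  have t1 := ev_exp 2 1 (show (0:ℝ) < 1 by norm_num)
  have t2 := ev_exp KK 5 (hθθ.trans hθ')
  have t3 := ev_exp (32 / η) 1 hθ'
  have t4 : ∀ᶠ T : ℝ in atTop, 2 ≤ Real.log T := Real.tendsto_log_atTop.eventually_ge_atTop _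
  have t6 := ev_exp (4 / η) 1 (show (0:ℝ) < 1 by norm_num)
  filter_upwards [t1, t2, t3, t4, t6, eventually_gt_atTop 1] with T t1 t2 t3 t4 t6 hT1
  intro V1 V2 hV μ hμ u hu0 hu
  set κ := Real.log T with hκ
  rw [zero_mul, Real.exp_zero, mul_one, pow_one] at t1 t6
  have hT0 : 0 < T := by linarith
  set N := NT θ' T with hN
  set Z := ZZ fun i => (hV i).fin with hZ
  set az := aa F V1 V2 μ with haz
  set L := (∑ i, μ i * d i) * κ with hL
  have hLs : L = ∑ i, μ i * (d i * κ) := by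
    rw [hL, Finset.sum_mul]; exact Finset.sum_congr rfl fun i _ => by ring
  set J := Set.Icc (T - κ) (2 * T + κ) with hJ
  have hAz : ∀ t : ℝ, Az Z az u t = ∑ i, (μ i : ℂ) * A1 (F i) (V1 i) (V2 i) u t := fun t =>
    Az_ZZ (fun i => (hV i).fin) μ u t
  have hMz : ∀ t : ℝ, Mz L N (bb β μ) u t = ∑ i, (μ i : ℂ) * Mz (d i * κ) N (fun n => β i n * (Λ n : ℂ)) u t := by
    intro t
    rw [hLs]
    exact Mz_sum μ (fun i => d i * κ) N (fun i n => β i n * (Λ n : ℂ)) u t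
  have hCSK : ∑ i, |μ i| * C i ≤ CK := sum_le_K hμ hC0
  have hnear : ∀ t ∈ J, ‖Az Z az u t - Mz L N (bb β μ) u t‖ ≤ CK := by
    intro t ht
    rw [hAz, hMz, ← Finset.sum_sub_distrib]
    refine (norm_sum_le _ _).trans (le_trans (Finset.sum_le_sum fun i _ => ?_) hCSK)
    rw [← mul_sub, norm_mul, Complex.norm_real, Real.norm_eq_abs]
    refine mul_le_mul_of_nonneg_left ?_ (abs_nonneg _)
    refine ((hV i).ex u t hu0 hu ?_ ?_).trans ?_
    · have := (hV i).v1'; linarith [ht.1]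
    · have := (hV i).v2; linarith [ht.2]
    · have : Real.exp (-u) ≤ 1 := Real.exp_le_one_iff.2 (by linarith)
      exact mul_le_of_le_one_right (hC0 i) this
  have hA1c : ∀ i, Continuous (fun t : ℝ => A1 (F i) (V1 i) (V2 i) u t) := by
    intro i
    have : (fun t : ℝ => A1 (F i) (V1 i) (V2 i) u t) = fun t : ℝ =>
        Az (Zf (hV i).fin) (fun z => (wf (F i) (V1 i) (V2 i) z : ℂ)) u t := by
      funext t; rw [Az_Zf (hV i).fin]
    rw [this]
    exact Az_cont _ _ _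
  have hAzc : Continuous fun t : ℝ => Az Z az u t := Az_cont _ _ _
  -- pointwise bound
  have hcs : ∀ t, ‖Az Z az u t‖ ^ 2 ≤ (∑ i, μ i ^ 2) * ∑ i, ‖A1 (F i) (V1 i) (V2 i) u t‖ ^ 2 := by
    intro t
    rw [hAz]
    have e1 : ‖∑ i, (μ i : ℂ) * A1 (F i) (V1 i) (V2 i) u t‖ ≤ ∑ i, |μ i| * ‖A1 (F i) (V1 i) (V2 i) u t‖ := by
      refine (norm_sum_le _ _).trans (le_of_eq ?_)
      refine Finset.sum_congr rfl fun i _ => ?_
      rw [norm_mul, Complex.norm_real, Real.norm_eq_abs]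
    have e2 := Finset.sum_mul_sq_le_sq_mul_sq Finset.univ (fun i => |μ i|) (fun i => ‖A1 (F i) (V1 i) (V2 i) u t‖)
    simp only [sq_abs] at e2
    exact (pow_le_pow_left₀ (norm_nonneg _) e1 2).trans e2
  have hint : Integrable (fun t : ℝ => ‖Az Z az u t‖ ^ 2) := by
    have i2 : Integrable (fun t => (∑ i, μ i ^ 2) * ∑ i, ‖A1 (F i) (V1 i) (V2 i) u t‖ ^ 2) :=
      (integrable_finsetSum _ fun i _ => (hV i).ii u hu0).const_mul _
    refine i2.mono' ?_ (ae_of_all _ fun t => ?_)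
    · exact (hAzc.norm.pow 2).aestronglyMeasurable
    · rw [Real.norm_of_nonneg (sq_nonneg _)]
      exact hcs t
  have hmus : ∑ i, μ i ^ 2 ≤ Fintype.card ι * K ^ 2 := by
    have : ∑ i, μ i ^ 2 ≤ ∑ _i : ι, K ^ 2 := Finset.sum_le_sum fun i _ => by
      rw [← sq_abs]; exact pow_le_pow_left₀ (abs_nonneg _) (hμ i) 2
    refine this.trans (le_of_eq ?_)
    rw [Finset.sum_const, nsmul_eq_mul]; rfl
  -- the far part
  have hfar : ∫ t in Jᶜ, ‖Az Z az u t‖ ^ 2 ≤ T := by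
    have e1 : ∫ t in Jᶜ, ‖Az Z az u t‖ ^ 2 ≤
        ∫ t in Jᶜ, (∑ i, μ i ^ 2) * ∑ i, ‖A1 (F i) (V1 i) (V2 i) u t‖ ^ 2 := by
      refine setIntegral_mono hint.integrableOn ?_ hcs
      exact ((integrable_finsetSum _ fun i _ => (hV i).ii u hu0).const_mul _).integrableOn
    refine e1.trans ?_
    rw [integral_const_mul, integral_finsetSum _ fun i _ => ((hV i).ii u hu0).integrableOn]
    have e2 : ∑ i, ∫ t in Jᶜ, ‖A1 (F i) (V1 i) (V2 i) u t‖ ^ 2 ≤ (∑ i, C i) * (κ ^ 5 * Real.exp u) := by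
      rw [Finset.sum_mul]
      refine Finset.sum_le_sum fun i _ => ?_
      refine ((hV i).far u hu0).trans (le_of_eq (by ring))
    have e3 : 0 ≤ ∑ i, ∫ t in Jᶜ, ‖A1 (F i) (V1 i) (V2 i) u t‖ ^ 2 :=
      Finset.sum_nonneg fun i _ => integral_nonneg fun t => sq_nonneg _
    have e4 : Real.exp u ≤ Real.exp (θ * κ) := Real.exp_le_exp.2 hu
    calc (∑ i, μ i ^ 2) * ∑ i, ∫ t in Jᶜ, ‖A1 (F i) (V1 i) (V2 i) u t‖ ^ 2
        ≤ (Fintype.card ι * K ^ 2) * ((∑ i, C i) * (κ ^ 5 * Real.exp (θ * κ))) := by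
          refine mul_le_mul hmus (e2.trans ?_) e3 (by positivity)
          gcongr
      _ = KK * κ ^ 5 * Real.exp (θ * κ) := by rw [hKK]; ring
      _ ≤ T := t2
  -- the near part
  have hJm : MeasurableSet J := measurableSet_Icc
  have hle : T - κ ≤ 2 * T + κ := by linarith
  have hMc : Continuous fun t : ℝ => Mz L N (bb β μ) u t := Mz_cont _ _ _ _
  have hnearI : ∫ t in J, ‖Az Z az u t‖ ^ 2 ≤
      (1 + η) * (∫ t in (T - κ)..(2 * T + κ), ‖Mz L N (bb β μ) u t‖ ^ 2) +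
        (1 + 1 / η) * CK ^ 2 * (T + 2 * κ) := by
    have e1 : ∫ t in J, ‖Az Z az u t‖ ^ 2 ≤
        ∫ t in J, ((1 + η) * ‖Mz L N (bb β μ) u t‖ ^ 2 + (1 + 1 / η) * CK ^ 2) := by
      refine setIntegral_mono_on hint.integrableOn ?_ hJm fun t ht => ?_
      · refine Continuous.integrableOn_Icc ?_
        fun_prop
      · refine (sq_split hη (Az Z az u t) (Mz L N (bb β μ) u t)).trans ?_
        have h9 := pow_le_pow_left₀ (norm_nonneg _) (hnear t ht) 2
        have h10 : 0 ≤ 1 + 1 / η := by positivity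
        have := mul_le_mul_of_nonneg_left h9 h10
        linarith
    refine e1.trans (le_of_eq ?_)
    rw [hJ, integral_Icc_eq_integral_Ioc, ← intervalIntegral.integral_of_le hle,
      intervalIntegral.integral_add, intervalIntegral.integral_const_mul,
      intervalIntegral.integral_const, smul_eq_mul]
    · ring
    · apply Continuous.intervalIntegrable; fun_prop
    · exact intervalIntegrable_const
  have hN1 : 1 ≤ N := by
    rw [hN]
    unfold NT
    apply Nat.floor_pos.2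
    exact Real.one_le_exp (mul_nonneg (by linarith) (by linarith))
  have hb1 : bb β μ 1 = 0 := by rw [bb_eq]; simp
  have hms := Mz_ms L N hN1 (bb β μ) hb1 u (T - κ) (2 * T + κ) hle
  have hNe : (N : ℝ) ≤ Real.exp (θ' * κ) := Nat.floor_le (Real.exp_pos _).le
  have hlogN : Real.log N ≤ κ := by
    have hN1' : (0 : ℝ) < N := by exact_mod_cast hN1
    rw [Real.log_le_iff_le_exp hN1']
    refine hNe.trans (Real.exp_le_exp.2 ?_)
    have : θ' * κ ≤ 1 * κ := mul_le_mul_of_nonneg_right hθ'.le (by linarith)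
    linarith
  have hsz : 2 * T + κ - (T - κ) + 8 * N * (1 + Real.log N) ≤ (1 + η) * T := by
    have e1 : 8 * (N : ℝ) * (1 + Real.log N) ≤ 8 * Real.exp (θ' * κ) * (2 * κ) := by
      have hl0 : 0 ≤ Real.log N := Real.log_nonneg (by exact_mod_cast hN1)
      have : 1 + Real.log N ≤ 2 * κ := by linarith
      gcongr
    have e2 : 32 / η * κ ^ 1 * Real.exp (θ' * κ) = 2 / η * (16 * Real.exp (θ' * κ) * κ) := by ring
    rw [e2] at t3
    rw [div_mul_eq_mul_div, div_le_iff₀ hη] at t3 t6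
    linarith
  set W := L ^ 2 * Real.exp (-(u - 0) ^ 2 / 2) +
        ∑ n ∈ Finset.Icc 1 N, ‖bb β μ n‖ ^ 2 / n * Real.exp (-(u - Real.log n) ^ 2 / 2) with hW
  have hW0 : 0 ≤ W := by
    refine add_nonneg (mul_nonneg (sq_nonneg _) (Real.exp_pos _).le) (Finset.sum_nonneg fun n _ => ?_)
    positivity
  rw [← integral_add_compl hJm hint]
  have e3 : (1 + η) * (∫ t in (T - κ)..(2 * T + κ), ‖Mz L N (bb β μ) u t‖ ^ 2) ≤
      (1 + η) ^ 2 * (T / (4 * Real.pi)) * W := by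
    have e4 : 1 / (4 * Real.pi) * ((2 * T + κ - (T - κ) + 8 * N * (1 + Real.log N)) * W) ≤
        1 / (4 * Real.pi) * (((1 + η) * T) * W) := by gcongr
    calc (1 + η) * (∫ t in (T - κ)..(2 * T + κ), ‖Mz L N (bb β μ) u t‖ ^ 2) ≤
        (1 + η) * (1 / (4 * Real.pi) * (((1 + η) * T) * W)) :=
          mul_le_mul_of_nonneg_left (hms.trans e4) (by positivity)
      _ = _ := by field_simp
  have e5 : (1 + 1 / η) * CK ^ 2 * (T + 2 * κ) ≤ (1 + 1 / η) * CK ^ 2 * (2 * T) := by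
    have : T + 2 * κ ≤ 2 * T := by linarith
    gcongr
  have e6 : C3 * T = (1 + 1 / η) * CK ^ 2 * (2 * T) + T := by rw [hC3]; ring
  rw [e6]
  linarith

end

end Pool.Agent.H474.SHP
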