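import Pool.Agent.H474.SHP.Qup2
import Pool.Graph.R_pool_sql_team_seeded_1acbe0a2.Y50.ND.Qexp

/-!
# The upper bound for the quadratic form, end
-/

set_option autoImplicit false
set_option linter.unusedSectionVars false

open Complex Filter Topology Set MeasureTheory
open scoped ComplexConjugate
open H370 (zset mult NN Nd Ns)
open W388 H385
open scoped ArithmeticFunction.vonMangoldt

namespace Pool.Agent.H474.SHP

open Pool.Agent.Y772.ND (Mz Az Wz ev_exp Zf wf mem_Zf sum_wf sum_wf_le Az_Zf ZZ aa mem_ZZ Az_ZZ ZZ_conj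
  aa_conj Mz_sum Az_cont Mz_cont comb_ms)
open Pool.Agent.Y772.SL (av)
open PerChi (Rw_cont)

lemma s2pi : Real.sqrt (2 / Real.pi) * Real.sqrt (2 * Real.pi) = 2 := by
  rw [← Real.sqrt_mul (by positivity)]
  have : 2 / Real.pi * (2 * Real.pi) = 2 ^ 2 := by field_simp
  rw [this, Real.sqrt_sq (by norm_num)]

section

variable {ι : Type} [Fintype ι]

lemma int_Rw_le {γ : ℝ} (h0 : 0 < γ) (hπ : γ < Real.pi) : ∫ α in (0 : ℝ)..1, Rw γ α ≤ Gg γ ^ 2 := by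
  have h1 : ∫ α in (0 : ℝ)..1, Rw γ α ≤ ∫ _α in (0 : ℝ)..1, Gg γ ^ 2 := by
    refine intervalIntegral.integral_mono_on zero_le_one ?_ intervalIntegrable_const fun α hα => ?_
    · exact (Rw_cont γ h0 hπ).intervalIntegrable _ _
    · refine (Rw_tent h0 hπ hα.1).trans ?_
      have := mul_le_mul_of_nonneg_left (tent_le_one hα.1) (sq_nonneg (Gg γ))
      linarith
  refine h1.trans (le_of_eq ?_)
  rw [intervalIntegral.integral_const]; simp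

/-- **The quadratic form** -/
theorem Qup {θ θ' K γ : ℝ} (hθ : 0 < θ) (hθθ : θ < θ') (hθ' : θ' < 1) (hK : 0 ≤ K) (h0 : 0 < γ)
    (h1γ : γ ≤ 1) {C d A D : ι → ℝ} (hC : ∀ i, 1 ≤ C i) {F : ι → ℂ → ℂ}
    {β : ι → ℕ → ℂ} (hF : ∀ i, GoodE (d i) (A i) 1 (F i) (fun n => β i n * (Λ n : ℂ)))
    (hβ : ∀ i n, ‖β i n‖ ≤ D i) (sF : (ι → ℝ) → ℝ)
    (hs : ∀ μ : ι → ℝ, Tendsto (av fun n => ‖∑ i, (μ i : ℂ) * β i n‖ ^ 2) (𝓝[>] 0) (𝓝 (sF μ)))
    {ε : ℝ} (hε : 0 < ε) :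
    ∀ᶠ T : ℝ in atTop, ∀ V1 V2 : ι → ℝ,
      ∀ hV : (∀ i, Fct θ θ' (C i) (d i) (F i) (fun n => β i n * (Λ n : ℂ)) T (V1 i) (V2 i)),
      ∀ μ : ι → ℝ, (∀ i, |μ i| ≤ K) →
      (∑ z ∈ ZZ (fun i => (hV i).fin), ∑ w ∈ ZZ (fun i => (hV i).fin), aa F V1 V2 μ z * aa F V1 V2 μ w *
        pg γ (θ * Real.log T) (z - w) ^ 2).re ≤
      T / (2 * Real.pi) * (θ * Real.log T) * ((1 + ε) * Gg γ ^ 2 *
        ((∑ i, μ i * d i) ^ 2 / θ ^ 2 + sF μ / 3) + ε) := by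
  have hπ : γ < Real.pi := by linarith [Real.pi_gt_three]
  have hD : ∀ i, 0 ≤ D i := fun i => (norm_nonneg _).trans (hβ i 0)
  set G2 := Gg γ ^ 2 with hG2
  have hG0 : 0 < G2 := by have := Gg_pos h0 hπ; positivity
  -- choice of eta
  obtain ⟨η, hη, hη2, hη3⟩ : ∃ η : ℝ, 0 < η ∧ (1 + η) ^ 2 ≤ 1 + ε ∧ (1 + ε) * G2 * (2 * η) ≤ ε / 2 := by
    refine ⟨min (min 1 (ε / 3)) (ε / (4 * (1 + ε) * G2)), by positivity, ?_, ?_⟩
    · set η := min (min 1 (ε / 3)) (ε / (4 * (1 + ε) * G2)) with hη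
      have h1 : η ≤ 1 := (min_le_left _ _).trans (min_le_left _ _)
      have h2 : η ≤ ε / 3 := (min_le_left _ _).trans (min_le_right _ _)
      have h3 : 0 < η := by positivity
      nlinarith
    · have h1 : min (min 1 (ε / 3)) (ε / (4 * (1 + ε) * G2)) ≤ ε / (4 * (1 + ε) * G2) := min_le_right _ _
      rw [le_div_iff₀ (by positivity)] at h1
      linarith
  obtain ⟨C3, hC3, hms⟩ := Az_ms hθ hθθ hθ' hK C d hC F β hη
  set DK := K * ∑ i, D i with hDK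
  have hDK0 : 0 ≤ DK := mul_nonneg hK (Finset.sum_nonneg fun i _ => hD i)
  have hkar := kar_unif β D hβ sF hs φ1 φ1_cont 1 zero_le_one φ1_zero K hη
  have htθ : Tendsto (fun T : ℝ => θ * Real.log T) atTop atTop :=
    Real.tendsto_log_atTop.const_mul_atTop hθ
  have t1 := htθ.eventually hkar
  have t2 : ∀ᶠ T : ℝ in atTop, 6 ≤ Real.log T := Real.tendsto_log_atTop.eventually_ge_atTop _
  set R1 := 4 / θ ^ 2 * (DK ^ 2 * 2) with hR1
  have hR10 : 0 ≤ R1 := by positivity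
  set R2 := (1 + ε) * G2 * R1 + 4 * C3 * G2 * Real.pi with hR2
  have hR20 : 0 ≤ R2 := by have := Real.pi_pos; positivity
  have t3 : ∀ᶠ T : ℝ in atTop, R2 / (ε / 2) ≤ θ * Real.log T := htθ.eventually_ge_atTop _
  filter_upwards [hms, t1, t2, t3, eventually_gt_atTop 1] with T hms t1 t2 t3 hT1
  intro V1 V2 hV μ hμ
  set κ := Real.log T with hκ
  set Z := ZZ fun i => (hV i).fin with hZ
  set az := aa F V1 V2 μ with haz
  set N := NT θ' T with hN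
  have hT0 : 0 < T := by linarith
  set Λ' := θ * κ with hΛ
  have hΛ0 : 0 < Λ' := by rw [hΛ]; positivity
  have hms' := hms V1 V2 hV μ hμ
  set L := (∑ i, μ i * d i) * κ with hL
  have hZc : ∀ z ∈ Z, conj z ∈ Z := ZZ_conj hF (fun i => (hV i).v0) fun i => (hV i).fin
  have hac : ∀ z ∈ Z, az (conj z) = conj (az z) := fun z _ => aa_conj hF (fun i => (hV i).v0) μ z
  have hq := Pool.Agent.Y50.ND.t_QEXP (kapw γ) (Rw γ) (Rw_cont γ h0 hπ) (Rw_even γ)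
    (kapw_sq γ h0 hπ) Λ' hΛ0 Z az hZc hac
  have hq2 : (∑ z ∈ Z, ∑ w ∈ Z, az z * az w * pg γ Λ' (z - w) ^ 2).re =
      2 * Real.sqrt (2 / Real.pi) * ∫ α in (0 : ℝ)..1, Rw γ α * ∫ t : ℝ, ‖Az Z az (Λ' * α) t‖ ^ 2 := by
    rw [← hq]; rfl
  rw [hq2]
  set M : ℝ → ℝ := fun α => (1 + η) ^ 2 * (T / (4 * Real.pi)) *
    (L ^ 2 * Real.exp (-(Λ' * α - 0) ^ 2 / 2) +
          ∑ n ∈ Finset.Icc 1 N, ‖bb β μ n‖ ^ 2 / n * Real.exp (-(Λ' * α - Real.log n) ^ 2 / 2)) +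
        C3 * T with hM
  have hMc : Continuous M := by simp only [hM]; fun_prop
  have hMs : ∀ α ∈ Set.Icc (0 : ℝ) 1, ∫ t : ℝ, ‖Az Z az (Λ' * α) t‖ ^ 2 ≤ M α := by
    intro α hα
    exact hms' (Λ' * α) (mul_nonneg hΛ0.le hα.1) (mul_le_of_le_one_right hΛ0.le hα.2)
  have h1 : ∫ α in (0 : ℝ)..1, Rw γ α * ∫ t : ℝ, ‖Az Z az (Λ' * α) t‖ ^ 2 ≤
      ∫ α in (0 : ℝ)..1, Rw γ α * M α := by
    rw [intervalIntegral.integral_of_le zero_le_one, intervalIntegral.integral_of_le zero_le_one]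
    refine integral_mono_of_nonneg ?_ ?_ ?_
    · exact ae_of_all _ fun α => mul_nonneg (Rw_nonneg γ h0 hπ α) (integral_nonneg fun t => sq_nonneg _)
    · exact ((Rw_cont γ h0 hπ).mul hMc).integrableOn_Icc.mono_set Set.Ioc_subset_Icc_self
    · refine (ae_restrict_iff' measurableSet_Ioc).2 (ae_of_all _ fun α hα => ?_)
      exact mul_le_mul_of_nonneg_left (hMs α (Set.Ioc_subset_Icc_self hα)) (Rw_nonneg γ h0 hπ α)
  have hRc := Rw_cont γ h0 hπ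
  have h2 : ∫ α in (0 : ℝ)..1, Rw γ α * M α = (1 + η) ^ 2 * (T / (4 * Real.pi)) *
      (L ^ 2 * Wz (Rw γ) Λ' 0 + ∑ n ∈ Finset.Icc 1 N, ‖bb β μ n‖ ^ 2 / n * Wz (Rw γ) Λ' (Real.log n)) +
      C3 * T * ∫ α in (0 : ℝ)..1, Rw γ α := by
    have e1 : ∀ α, Rw γ α * M α = (1 + η) ^ 2 * (T / (4 * Real.pi)) *
        (L ^ 2 * (Rw γ α * Real.exp (-(Λ' * α - 0) ^ 2 / 2)) +
        ∑ n ∈ Finset.Icc 1 N, ‖bb β μ n‖ ^ 2 / n * (Rw γ α * Real.exp (-(Λ' * α - Real.log n) ^ 2 / 2))) +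
        C3 * T * Rw γ α := by
      intro α
      simp only [hM]
      rw [mul_add, mul_left_comm (Rw γ α), mul_add (Rw γ α), Finset.mul_sum]
      congr 1
      · congr 1
        congr 1
        · ring
        · exact Finset.sum_congr rfl fun n _ => by ring
      · ring
    simp_rw [e1]
    have c0 : ∀ ℓ : ℝ, Continuous fun α : ℝ => Rw γ α * Real.exp (-(Λ' * α - ℓ) ^ 2 / 2) := by
      intro ℓ; fun_prop
    have c1 : Continuous fun α : ℝ => ∑ n ∈ Finset.Icc 1 N, ‖bb β μ n‖ ^ 2 / n *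
        (Rw γ α * Real.exp (-(Λ' * α - Real.log n) ^ 2 / 2)) :=
      continuous_finsetSum _ fun n _ => continuous_const.mul (c0 _)
    have c2 : Continuous fun α : ℝ => L ^ 2 * (Rw γ α * Real.exp (-(Λ' * α - 0) ^ 2 / 2)) :=
      continuous_const.mul (c0 0)
    have c3 : Continuous fun α : ℝ => L ^ 2 * (Rw γ α * Real.exp (-(Λ' * α - 0) ^ 2 / 2)) +
        ∑ n ∈ Finset.Icc 1 N, ‖bb β μ n‖ ^ 2 / n *
        (Rw γ α * Real.exp (-(Λ' * α - Real.log n) ^ 2 / 2)) := c2.add c1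
    have c6 : ∀ n : ℕ, Continuous fun α : ℝ => ‖bb β μ n‖ ^ 2 / n *
        (Rw γ α * Real.exp (-(Λ' * α - Real.log n) ^ 2 / 2)) := fun n => continuous_const.mul (c0 _)
    have c4 : Continuous fun α : ℝ => (1 + η) ^ 2 * (T / (4 * Real.pi)) *
        (L ^ 2 * (Rw γ α * Real.exp (-(Λ' * α - 0) ^ 2 / 2)) +
        ∑ n ∈ Finset.Icc 1 N, ‖bb β μ n‖ ^ 2 / n *
        (Rw γ α * Real.exp (-(Λ' * α - Real.log n) ^ 2 / 2))) := continuous_const.mul c3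
    have c5 : Continuous fun α : ℝ => C3 * T * Rw γ α := continuous_const.mul hRc
    rw [intervalIntegral.integral_add (c4.intervalIntegrable _ _)
      (c5.intervalIntegrable _ _), intervalIntegral.integral_const_mul,
      intervalIntegral.integral_const_mul, intervalIntegral.integral_add (c2.intervalIntegrable _ _)
      (c1.intervalIntegrable _ _), intervalIntegral.integral_const_mul,
      intervalIntegral.integral_finsetSum (fun n _ => (c6 n).intervalIntegrable _ _)]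
    congr 3
    refine Finset.sum_congr rfl fun n _ => ?_
    rw [intervalIntegral.integral_const_mul]
    rfl
  -- the bounds of the weights
  have hN1 : 1 ≤ N := by
    rw [hN]; unfold NT
    exact Nat.floor_pos.2 (Real.one_le_exp (mul_nonneg (by linarith) (by linarith)))
  have hlogN : Real.log N ≤ κ := by
    have hN1' : (0 : ℝ) < N := by exact_mod_cast hN1
    rw [Real.log_le_iff_le_exp hN1']
    refine (Nat.floor_le (Real.exp_pos _).le).trans (Real.exp_le_exp.2 ?_)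
    have : θ' * κ ≤ 1 * κ := mul_le_mul_of_nonneg_right hθ'.le (by linarith)
    linarith
  have hNe : Real.exp (1 * Λ') < N + 1 := by
    have h3 : Real.exp (θ' * κ) < N + 1 := Nat.lt_floor_add_one _
    refine lt_trans ?_ h3
    apply Real.exp_lt_exp.2
    rw [one_mul, hΛ]
    exact mul_lt_mul_of_pos_right hθθ (by linarith)
  set S1 := ∑ n ∈ Finset.Icc 1 N, ‖bb β μ n‖ ^ 2 / n with hS1
  set S2 := ∑ n ∈ Finset.Icc 1 N, ‖bb β μ n‖ ^ 2 / n * tent (Real.log n / Λ') with hS2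
  have hS1le : S1 ≤ DK ^ 2 * (κ * (κ + 6)) := sum_sq_crude (bb_le hμ hβ) hN1 hlogN
  have hS10 : 0 ≤ S1 := Finset.sum_nonneg fun n _ => by positivity
  have hS2le : S2 ≤ Λ' ^ 2 * (sF μ / 6 + η) := by
    refine (sum_sq_tent hΛ0).trans ?_
    have h3 := (abs_le.1 (t1 μ hμ N hNe)).2
    rw [φ1_int] at h3
    set S3 := ∑ n ∈ Finset.Icc 1 N, ‖∑ i, (μ i : ℂ) * β i n‖ ^ 2 * Λ n / n * φ1 (Real.log n / Λ')
    have h4 : S3 / Λ' ≤ sF μ / 6 + η := by linarith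
    rw [div_le_iff₀ hΛ0] at h4
    calc Λ' * S3 ≤ Λ' * ((sF μ / 6 + η) * Λ') := mul_le_mul_of_nonneg_left h4 hΛ0.le
      _ = _ := by ring
  have hsum : ∑ n ∈ Finset.Icc 1 N, ‖bb β μ n‖ ^ 2 / n * Wz (Rw γ) Λ' (Real.log n) ≤
      G2 * (Real.sqrt (2 * Real.pi) / Λ' * S2 + 4 / Λ' ^ 2 * S1) := by
    have e1 : G2 * (Real.sqrt (2 * Real.pi) / Λ' * S2 + 4 / Λ' ^ 2 * S1) =
        ∑ n ∈ Finset.Icc 1 N, ‖bb β μ n‖ ^ 2 / n * (G2 * (Real.sqrt (2 * Real.pi) / Λ' *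
          tent (Real.log n / Λ') + 4 / Λ' ^ 2)) := by
      rw [hS1, hS2, Finset.mul_sum, Finset.mul_sum, ← Finset.sum_add_distrib, Finset.mul_sum]
      exact Finset.sum_congr rfl fun n _ => by ring
    rw [e1]
    refine Finset.sum_le_sum fun n _ => mul_le_mul_of_nonneg_left ?_ (by positivity)
    exact Wz_up h0 hπ Λ' _ hΛ0
  have hW0 : L ^ 2 * Wz (Rw γ) Λ' 0 ≤ L ^ 2 * (G2 * (Real.sqrt (2 * Real.pi) / 2 / Λ')) :=
    mul_le_mul_of_nonneg_left (Wz0_up h0 hπ Λ' hΛ0) (sq_nonneg _)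
  have hIR := int_Rw_le h0 hπ
  have hIR0 : 0 ≤ ∫ α in (0 : ℝ)..1, Rw γ α :=
    intervalIntegral.integral_nonneg zero_le_one fun α _ => Rw_nonneg γ h0 hπ α
  set q := Real.sqrt (2 / Real.pi) with hqdef
  set r := Real.sqrt (2 * Real.pi) with hrdef
  have hqr : q * r = 2 := s2pi
  have hq0 : 0 ≤ q := Real.sqrt_nonneg _
  have hq1 : q ≤ 1 := by
    rw [hqdef, Real.sqrt_le_one, div_le_one Real.pi_pos]
    linarith [Real.pi_gt_three]
  have hr0 : 0 ≤ r := Real.sqrt_nonneg _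
  set P := (1 + η) ^ 2 * (T / (4 * Real.pi)) with hP
  have hP0 : 0 ≤ P := by positivity
  have hP1 : P ≤ (1 + ε) * (T / (4 * Real.pi)) := mul_le_mul_of_nonneg_right hη2 (by positivity)
  have step1 : 2 * q * ∫ α in (0 : ℝ)..1, Rw γ α * ∫ t : ℝ, ‖Az Z az (Λ' * α) t‖ ^ 2 ≤
      2 * q * (P * (L ^ 2 * (G2 * (r / 2 / Λ')) + G2 * (r / Λ' * S2 + 4 / Λ' ^ 2 * S1)) + C3 * T * G2) := by
    refine mul_le_mul_of_nonneg_left ?_ (by positivity)
    refine h1.trans ?_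
    rw [h2]
    refine add_le_add (mul_le_mul_of_nonneg_left (add_le_add hW0 hsum) hP0) ?_
    exact mul_le_mul_of_nonneg_left hIR (by positivity)
  have step2 : 2 * q * (P * (L ^ 2 * (G2 * (r / 2 / Λ')) + G2 * (r / Λ' * S2 + 4 / Λ' ^ 2 * S1)) + C3 * T * G2) =
      P * G2 * (2 * L ^ 2 / Λ' + 4 * S2 / Λ') + P * G2 * (2 * q * (4 / Λ' ^ 2 * S1)) + 2 * q * (C3 * T * G2) := by
    have e1 : 2 * q * (P * (L ^ 2 * (G2 * (r / 2 / Λ')) + G2 * (r / Λ' * S2 + 4 / Λ' ^ 2 * S1)) + C3 * T * G2) =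
      P * G2 * ((q * r) * L ^ 2 / Λ' + 2 * (q * r) * S2 / Λ') + P * G2 * (2 * q * (4 / Λ' ^ 2 * S1)) +
        2 * q * (C3 * T * G2) := by ring
    rw [e1, hqr]; ring
  have step3 : 2 * L ^ 2 / Λ' + 4 * S2 / Λ' ≤ 2 * Λ' * ((∑ i, μ i * d i) ^ 2 / θ ^ 2 + sF μ / 3 + 2 * η) := by
    have e1 : 2 * L ^ 2 / Λ' = 2 * Λ' * ((∑ i, μ i * d i) ^ 2 / θ ^ 2) := by
      rw [hL, hΛ]
      have : κ ≠ 0 := by linarith
      field_simp
    have e2 : 4 * S2 / Λ' ≤ 4 * (Λ' ^ 2 * (sF μ / 6 + η)) / Λ' := by gcongr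
    have e3 : 4 * (Λ' ^ 2 * (sF μ / 6 + η)) / Λ' = 2 * Λ' * (sF μ / 3 + 2 * η) := by
      field_simp; ring
    rw [e1]
    linarith
  have step4 : 4 / Λ' ^ 2 * S1 ≤ R1 := by
    have e1 : κ * (κ + 6) ≤ 2 * κ ^ 2 := by nlinarith
    have e2 : S1 ≤ DK ^ 2 * (2 * κ ^ 2) := hS1le.trans (mul_le_mul_of_nonneg_left e1 (sq_nonneg _))
    calc 4 / Λ' ^ 2 * S1 ≤ 4 / Λ' ^ 2 * (DK ^ 2 * (2 * κ ^ 2)) := by gcongr
      _ = R1 := by
        rw [hR1, hΛ]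
        have : κ ≠ 0 := by linarith
        field_simp
  have hR2Λ : R2 ≤ Λ' * (ε / 2) := by
    rw [div_le_iff₀ (by positivity)] at t3
    exact t3
  refine step1.trans ?_
  rw [step2]
  have b1 : P * G2 * (2 * L ^ 2 / Λ' + 4 * S2 / Λ') ≤
      (P * G2) * (2 * Λ' * ((∑ i, μ i * d i) ^ 2 / θ ^ 2 + sF μ / 3 + 2 * η)) :=
    mul_le_mul_of_nonneg_left step3 (by positivity)
  have hs0 : 0 ≤ sF μ := by
    refine ge_of_tendsto (hs μ) ?_
    filter_upwards [self_mem_nhdsWithin] with σ hσ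
    unfold av
    refine mul_nonneg (le_of_lt hσ) (tsum_nonneg fun n => ?_)
    exact mul_nonneg (mul_nonneg (sq_nonneg _) ArithmeticFunction.vonMangoldt_nonneg)
      (Real.rpow_nonneg (Nat.cast_nonneg n) _)
  have b2 : (P * G2) * (2 * Λ' * ((∑ i, μ i * d i) ^ 2 / θ ^ 2 + sF μ / 3 + 2 * η)) ≤
      ((1 + ε) * (T / (4 * Real.pi)) * G2) * (2 * Λ' * ((∑ i, μ i * d i) ^ 2 / θ ^ 2 + sF μ / 3 + 2 * η)) := by
    gcongr
  have b3 : P * G2 * (2 * q * (4 / Λ' ^ 2 * S1)) ≤ ((1 + ε) * (T / (4 * Real.pi)) * G2) * (2 * 1 * R1) := by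
    have : 0 ≤ 4 / Λ' ^ 2 * S1 := by positivity
    gcongr
  have b4 : 2 * q * (C3 * T * G2) ≤ 2 * 1 * (C3 * T * G2) := by gcongr
  have fin : ((1 + ε) * (T / (4 * Real.pi)) * G2) * (2 * Λ' * ((∑ i, μ i * d i) ^ 2 / θ ^ 2 + sF μ / 3 + 2 * η)) +
      ((1 + ε) * (T / (4 * Real.pi)) * G2) * (2 * 1 * R1) + 2 * 1 * (C3 * T * G2) =
      T / (2 * Real.pi) * (Λ' * ((1 + ε) * G2 * ((∑ i, μ i * d i) ^ 2 / θ ^ 2 + sF μ / 3)) +
        Λ' * ((1 + ε) * G2 * (2 * η)) + R2) := by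
    rw [hR2]
    have := Real.pi_ne_zero
    field_simp
    ring
  have b5 : Λ' * ((1 + ε) * G2 * (2 * η)) ≤ Λ' * (ε / 2) := mul_le_mul_of_nonneg_left hη3 hΛ0.le
  calc _ ≤ _ := add_le_add (add_le_add (b1.trans b2) b3) b4
    _ = _ := fin
    _ ≤ T / (2 * Real.pi) * (Λ' * ((1 + ε) * G2 * ((∑ i, μ i * d i) ^ 2 / θ ^ 2 + sF μ / 3)) +
        Λ' * (ε / 2) + Λ' * (ε / 2)) := by
        refine mul_le_mul_of_nonneg_left ?_ (by positivity)
        linarith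
    _ = _ := by ring

end

end Pool.Agent.H474.SHP
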