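import Pool.Agent.H474.ART.Mrt
import Pool.Graph.R_seed8.W353.L1.Complete

/-!
# Selberg orthonormality for irreducible characters, with twists
-/

set_option autoImplicit false
set_option linter.unusedSectionVars false

open NumberField Complex Filter Topology IsDedekindDomain
open scoped ArithmeticFunction.vonMangoldt

namespace Pool.Agent.H474.SHP

open Pool.Agent.H474.ART
open Pool.Agent.Q92.AR Pool.Agent.Q5.BR Pool.Agent.H541R3.ART
open Pool.Agent.Y772.SL (av av_add av_mul av_congr)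
open Pool.Agent.Y772.ND (av_sum norm_nI)

lemma irr_inv {G : Type} [Group G] [Finite G] {χ : G → ℂ} (hχ : χ ∈ Irr G) (g : G) :
    χ g⁻¹ = (starRingEnd ℂ) (χ g) := by
  obtain ⟨n, ρ, -, rfl⟩ := hχ
  exact Pool.Agent.W353.L1.char_inv ρ g

/-- the twisting factor `n^(-iτ)`, `0` for `n = 0` -/
noncomputable def tw (τ : ℝ) (k : ℕ) : ℂ := if k = 0 then 0 else (k : ℂ) ^ (-(I * (τ : ℂ)))

lemma tw_norm (τ : ℝ) (k : ℕ) : ‖tw τ k‖ ≤ 1 := by
  unfold tw
  split_ifs with hk
  · rw [norm_zero]; exact zero_le_one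
  · rw [norm_nI k hk]

section

variable {M : Type} [Field M] [NumberField M] [IsGalois ℚ M]

/-- **Selberg orthonormality** -/
theorem sel {ι : Type} [Fintype ι] (χ : ι → (M ≃ₐ[ℚ] M) → ℂ)
    (hχ : ∀ i, χ i ∈ Irr (M ≃ₐ[ℚ] M)) (τ : ι → ℝ)
    (hne : ∀ i j, i ≠ j → χ i ≠ χ j ∨ τ i ≠ τ j)
    (A : ι → ℕ → ℂ) (D₀ : ι → ℝ) (hA : ∀ i n, ‖A i n‖ ≤ D₀ i)
    (S : ι → Finset ℕ) (hS : ∀ i (p : ℕ), p.Prime → p ∉ S i → A i p = χ i (Fr M p))
    (lam : ι → ℝ) :
    Tendsto (av fun n => ‖∑ i, (lam i : ℂ) * (A i n * tw (τ i) n)‖ ^ 2) (𝓝[>] 0)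
      (𝓝 (∑ i, lam i ^ 2)) := by
  classical
  have hD₀ : ∀ i, 0 ≤ D₀ i := fun i => (norm_nonneg _).trans (hA i 0)
  -- the class functions
  have hcl : ∀ ij : ι × ι, Pav (M := M) (fun g => χ ij.1 g * χ ij.2 g⁻¹) := by
    intro ij
    refine Pav.all fun g x => ?_
    have e : (x * g * x⁻¹)⁻¹ = x * g⁻¹ * x⁻¹ := by group
    rw [e, Irr.conj (hχ ij.1), Irr.conj (hχ ij.2)]
  choose u B hB hup hl1 hl2 using fun ij => hcl ij (τ ij.1 - τ ij.2)
  choose S' hS' using hup
  have h2 := av_sum (Finset.univ : Finset (ι × ι))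
    (fun ij k => (lam ij.1 * lam ij.2) * (u ij k).re)
    (fun ij => |lam ij.1 * lam ij.2| * B ij) (fun ij => (lam ij.1 * lam ij.2) *
      (if τ ij.1 - τ ij.2 = 0 then (avg fun g => χ ij.1 g * χ ij.2 g⁻¹).re else 0))
    (fun ij _ k => by rw [abs_mul]; exact mul_le_mul_of_nonneg_left ((abs_re_le_norm _).trans (hB ij k)) (abs_nonneg _))
    (fun ij _ => by
      refine ((hl1 ij).const_mul (lam ij.1 * lam ij.2)).congr' ?_
      filter_upwards with x
      rw [av_mul])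
  have hL : ∑ ij : ι × ι, (lam ij.1 * lam ij.2) * (if τ ij.1 - τ ij.2 = 0 then
      (avg fun g => χ ij.1 g * χ ij.2 g⁻¹).re else 0) = ∑ i, lam i ^ 2 := by
    rw [Fintype.sum_prod_type]
    refine Finset.sum_congr rfl fun i _ => ?_
    rw [Finset.sum_eq_single i]
    · simp only [sub_self, if_true]
      rw [avg_pair (hχ i) (hχ i), if_pos rfl, one_re, mul_one, sq]
    · intro j _ hij
      rcases hne i j (Ne.symm hij) with h | h
      · simp only
        rw [avg_pair (hχ i) (hχ j), if_neg h]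
        simp
      · simp only
        rw [if_neg (sub_ne_zero.2 h), mul_zero]
    · intro h; exact absurd (Finset.mem_univ i) h
  rw [hL] at h2
  set Df : ℝ := ∑ i, |lam i| * D₀ i with hDf
  have hDf0 : 0 ≤ Df := Finset.sum_nonneg fun i _ => mul_nonneg (abs_nonneg _) (hD₀ i)
  have hfb : ∀ k, ‖∑ i, (lam i : ℂ) * (A i k * tw (τ i) k)‖ ≤ Df := by
    intro k
    refine (norm_sum_le _ _).trans ?_
    refine Finset.sum_le_sum fun i _ => ?_
    rw [norm_mul, Complex.norm_real, Real.norm_eq_abs, norm_mul]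
    refine mul_le_mul_of_nonneg_left ?_ (abs_nonneg _)
    calc ‖A i k‖ * ‖tw (τ i) k‖ ≤ D₀ i * 1 := mul_le_mul (hA i k) (tw_norm _ k) (norm_nonneg _) (hD₀ i)
      _ = D₀ i := mul_one _
  refine av_congr (A := Df ^ 2) (fun k => ?_) h2.1
    (Finset.univ.biUnion fun i => S i ∪ Finset.univ.biUnion fun j => S' (i, j)) ?_ h2.2
  · rw [abs_of_nonneg (sq_nonneg _)]
    exact pow_le_pow_left₀ (norm_nonneg _) (hfb k) 2
  · intro p hp hS0
    have hp0 : (p : ℂ) ≠ 0 := by exact_mod_cast hp.ne_zero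
    have hSi : ∀ i, p ∉ S i := fun i h =>
      hS0 (Finset.mem_biUnion.2 ⟨i, Finset.mem_univ i, Finset.mem_union_left _ h⟩)
    have hSij : ∀ i j, p ∉ S' (i, j) := fun i j h =>
      hS0 (Finset.mem_biUnion.2 ⟨i, Finset.mem_univ i, Finset.mem_union_right _
        (Finset.mem_biUnion.2 ⟨j, Finset.mem_univ j, h⟩)⟩)
    have hww : ∀ i j, tw (τ i) p * (starRingEnd ℂ) (tw (τ j) p) =
        (p : ℂ) ^ (-(I * ((τ i - τ j : ℝ) : ℂ))) := by
      intro i j
      simp only [tw, if_neg hp.ne_zero]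
      have hc : (starRingEnd ℂ) ((p : ℂ) ^ (-(I * (τ j : ℂ)))) = (p : ℂ) ^ (I * (τ j : ℂ)) := by
        have harg : ((p : ℕ) : ℂ).arg ≠ Real.pi := by
          rw [Complex.natCast_arg]
          exact Real.pi_pos.ne
        have h5 := Complex.cpow_conj ((p : ℕ) : ℂ) (-(I * (τ j : ℂ))) harg
        rw [Complex.conj_natCast] at h5
        rw [← h5]
        congr 1
        simp
      rw [hc, ← Complex.cpow_add _ _ hp0]
      congr 1
      push_cast; ring
    have e1 : ((‖∑ i, (lam i : ℂ) * (A i p * tw (τ i) p)‖ ^ 2 : ℝ) : ℂ) =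
        ∑ ij : ι × ι, ((lam ij.1 * lam ij.2 : ℝ) : ℂ) * u ij p := by
      have e0 : ∀ z : ℂ, ((‖z‖ ^ 2 : ℝ) : ℂ) = z * (starRingEnd ℂ) z := by
        intro z; rw [Complex.mul_conj']; push_cast; rfl
      rw [e0, map_sum, Finset.sum_mul_sum, Fintype.sum_prod_type]
      refine Finset.sum_congr rfl fun i _ => Finset.sum_congr rfl fun j _ => ?_
      rw [hS' (i, j) p hp (hSij i j), ← hww i j, hS i p hp (hSi i), hS j p hp (hSi j)]
      simp only
      rw [irr_inv (hχ j)]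
      simp only [map_mul, Complex.conj_ofReal]
      push_cast; ring
    have e2 := congrArg Complex.re e1
    rw [Complex.ofReal_re, re_sum] at e2
    rw [e2]
    refine Finset.sum_congr rfl fun ij _ => ?_
    rw [Complex.re_ofReal_mul]

end

end Pool.Agent.H474.SHP
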