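import Pool.Agent.H474.SHP.Qup3
import Pool.Graph.R_pool_sql_team_seeded_707910d6.T2H62.MQ.A2
import Pool.Graph.R_pool_sql_team_seeded_1acbe0a2.Y431.ND.Nasy

/-!
# The trace inequality for the combined sum
-/

set_option autoImplicit false
set_option linter.unusedSectionVars false

open Complex Filter Topology Set MeasureTheory
open scoped ComplexConjugate
open H370 (zset mult NN Nd Ns)
open W388 H385
open scoped ArithmeticFunction.vonMangoldt

namespace Pool.Agent.H474.SHP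

open Pool.Agent.Y772.ND (Zf wf mem_Zf sum_wf ZZ aa mem_ZZ ZZ_conj aa_conj wf_notMem mult_zero)

section

variable {ι : Type} [Fintype ι]

/-- the points counted: the right half of the strip -/
def DDh (F : ι → ℂ → ℂ) (μ : ι → ℝ) (T : ℝ) : Set ℂ :=
  {s : ℂ | 1 / 2 ≤ s.re ∧ s.re < 1 ∧ T < s.im ∧ s.im ≤ 2 * T ∧ ∑ i, μ i * (mult (F i) s : ℝ) ≠ 0}

lemma DDh_fin {d A Q : ι → ℝ} {F : ι → ℂ → ℂ} {a : ι → ℕ → ℂ} (hA : ∀ i, 1 ≤ A i) (hQ : ∀ i, 1 ≤ Q i)
    (hF : ∀ i, GoodE (d i) (A i) (Q i) (F i) (a i)) (μ : ι → ℝ) {T : ℝ} (hT : 1 ≤ T) :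
    (DDh F μ T).Finite := by
  refine (Pool.Agent.Y772.ND.DD_fin hA hQ hF μ hT).subset ?_
  rintro s ⟨g1, g2, g3, g4, g5⟩
  exact ⟨by linarith, g2, g3, g4, g5⟩

/-- the number of points with nonzero weight in one half of the strip -/
lemma card_le_h {d A Q : ι → ℝ} {F : ι → ℂ → ℂ} {a : ι → ℕ → ℂ} (hA : ∀ i, 1 ≤ A i) (hQ : ∀ i, 1 ≤ Q i)
    (hF : ∀ i, GoodE (d i) (A i) (Q i) (F i) (a i)) (μ : ι → ℝ) {T : ℝ} (hT : 1 ≤ T)
    {V1 V2 : ι → ℝ} (h : ∀ i, (zset (F i) (V1 i) (V2 i)).Finite) (hV1 : ∀ i, V1 i ≤ T)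
    (hV0 : ∀ i, 1 ≤ V1 i) (hV2 : ∀ i, 2 * T ≤ V2 i) :
    (((ZZ h).filter fun z => aa F V1 V2 μ z ≠ 0 ∧ z.im ≤ 0).card : ℝ) ≤
      (DDh F μ T).ncard + ∑ i, ((NN (F i) (V1 i) T : ℝ) + (NN (F i) (2 * T) (V2 i) : ℝ)) := by
  classical
  have f1 : ∀ i, (zset (F i) (V1 i) T).Finite := fun i =>
    zset_finite_D (hA i) (hQ i) (hF i) _ _ (hV0 i)
  have f2 : ∀ i, (zset (F i) (2 * T) (V2 i)).Finite := fun i =>
    zset_finite_D (hA i) (hQ i) (hF i) _ _ (by linarith)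
  have hDf := DDh_fin hA hQ hF μ hT
  have hinj : Function.Injective fun z : ℂ => 1 / 2 + I * z := by
    intro x y hxy
    have h1 : I * x = I * y := by simpa using hxy
    exact mul_left_cancel₀ I_ne_zero h1
  have hsub : ((ZZ h).filter fun z => aa F V1 V2 μ z ≠ 0 ∧ z.im ≤ 0).image (fun z : ℂ => 1 / 2 + I * z) ⊆
      hDf.toFinset ∪ Finset.univ.biUnion fun i => ((f1 i).toFinset ∪ (f2 i).toFinset) := by
    intro s hs
    obtain ⟨z, hz, rfl⟩ := Finset.mem_image.1 hs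
    obtain ⟨hz1, hz2, hz3⟩ := Finset.mem_filter.1 hz
    obtain ⟨i, hi⟩ := (mem_ZZ h).1 hz1
    obtain ⟨g1, g2, g3, g4, g5⟩ := hi
    rw [Finset.mem_union]
    by_cases hT1 : (1 / 2 + I * z).im ≤ T
    · right
      refine Finset.mem_biUnion.2 ⟨i, Finset.mem_univ _, Finset.mem_union_left _ ?_⟩
      rw [Set.Finite.mem_toFinset]
      exact ⟨g1, g2, g3, hT1, g5⟩
    by_cases hT2 : 2 * T < (1 / 2 + I * z).im
    · right
      refine Finset.mem_biUnion.2 ⟨i, Finset.mem_univ _, Finset.mem_union_right _ ?_⟩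
      rw [Set.Finite.mem_toFinset]
      exact ⟨g1, g2, hT2, g4, g5⟩
    · left
      rw [Set.Finite.mem_toFinset]
      push Not at hT1 hT2
      refine ⟨?_, g2, hT1, hT2, ?_⟩
      · have e1 : (1 / 2 + I * z).re = 1 / 2 - z.im := by simp [sub_eq_add_neg]
        rw [e1]; linarith
      intro hsum
      apply hz2
      unfold Pool.Agent.Y772.ND.aa
      have hw : ∀ j, wf (F j) (V1 j) (V2 j) z = (mult (F j) (1 / 2 + I * z) : ℝ) := by
        intro j
        unfold wf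
        split_ifs with hj
        · rfl
        · have : F j (1 / 2 + I * z) ≠ 0 := by
            intro h0
            exact hj ⟨g1, g2, (hV1 j).trans_lt hT1, hT2.trans (hV2 j), h0⟩
          rw [mult_zero (hF j) (by linarith) this]
          simp
      simp_rw [hw]
      have := congrArg (fun x : ℝ => (x : ℂ)) hsum
      push_cast at this ⊢
      exact this
  have hcard := Finset.card_le_card hsub
  rw [Finset.card_image_of_injective _ hinj] at hcard
  have h2 := Finset.card_union_le hDf.toFinset (Finset.univ.biUnion fun i => ((f1 i).toFinset ∪ (f2 i).toFinset))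
  have h3 : (Finset.univ.biUnion fun i => ((f1 i).toFinset ∪ (f2 i).toFinset)).card ≤
      ∑ i, (NN (F i) (V1 i) T + NN (F i) (2 * T) (V2 i)) := by
    refine Finset.card_biUnion_le.trans (Finset.sum_le_sum fun i _ => ?_)
    refine (Finset.card_union_le _ _).trans (add_le_add ?_ ?_)
    · exact LocD.card_le_NN_D (hA i) (hQ i) (hF i) _ _ (hV0 i)
    · exact LocD.card_le_NN_D (hA i) (hQ i) (hF i) _ _ (by linarith)
  have h4 : (DDh F μ T).ncard = hDf.toFinset.card := Set.ncard_eq_toFinset_card _ hDf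
  have h5 : ((ZZ h).filter fun z => aa F V1 V2 μ z ≠ 0 ∧ z.im ≤ 0).card ≤ (DDh F μ T).ncard +
      ∑ i, (NN (F i) (V1 i) T + NN (F i) (2 * T) (V2 i)) := by
    rw [h4]; omega
  exact_mod_cast h5

/-- the sum of the weights -/
lemma sum_aa {F : ι → ℂ → ℂ} {V1 V2 : ι → ℝ} (h : ∀ i, (zset (F i) (V1 i) (V2 i)).Finite)
    (μ : ι → ℝ) : ∑ z ∈ ZZ h, aa F V1 V2 μ z = ((∑ i, μ i * (NN (F i) (V1 i) (V2 i) : ℝ) : ℝ) : ℂ) := by
  unfold Pool.Agent.Y772.ND.aa
  rw [Finset.sum_comm, Complex.ofReal_sum]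
  refine Finset.sum_congr rfl fun i _ => ?_
  rw [← Finset.mul_sum, Complex.ofReal_mul]
  congr 1
  rw [← sum_wf (h i)]
  have h1 : ∑ z ∈ Zf (h i), ‖(wf (F i) (V1 i) (V2 i) z : ℂ)‖ = ∑ z ∈ Zf (h i), wf (F i) (V1 i) (V2 i) z := by
    refine Finset.sum_congr rfl fun z _ => ?_
    rw [Complex.norm_real, Real.norm_of_nonneg (Pool.Agent.Y772.ND.wf_nonneg _ _ _ _)]
  rw [h1, Complex.ofReal_sum]
  symm
  refine Finset.sum_subset ?_ ?_
  · intro z hz
    exact (mem_ZZ h).2 ⟨i, (mem_Zf (h i)).1 hz⟩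
  · intro z _ hz
    rw [mem_Zf] at hz
    rw [wf_notMem hz]; simp

/-- **the trace inequality** -/
lemma trace_use {γ Λ' Qb : ℝ} (h0 : 0 < γ) (hπ : γ < Real.pi) (Z : Finset ℂ) (a : ℂ → ℂ)
    (hZ : ∀ z ∈ Z, conj z ∈ Z) (ha : ∀ z ∈ Z, a (conj z) = conj (a z)) (hQb : 0 < Qb)
    (hQ : (∑ z ∈ Z, ∑ w ∈ Z, a z * a w * pg γ Λ' (z - w) ^ 2).re ≤ Qb) :
    (∑ z ∈ Z, a z).re ^ 2 / Qb ≤ ((Z.filter fun z => a z ≠ 0 ∧ z.im ≤ 0).card : ℝ) := by
  classical
  obtain ⟨E, i1, i2, k, hk⟩ := gram_pg h0 hπ Λ'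
  set Z' := Z.filter fun z => a z ≠ 0 with hZ'
  have hZ'c : ∀ z ∈ Z', conj z ∈ Z' := by
    intro z hz
    obtain ⟨h1, h2⟩ := Finset.mem_filter.1 hz
    refine Finset.mem_filter.2 ⟨hZ z h1, ?_⟩
    rw [ha z h1]
    simpa using h2
  set s1 := (∑ z ∈ Z, a z).re with hs1
  set x : ℝ := 2 * s1 / Qb with hx
  have hz0 : ∀ z ∈ Z, z ∉ Z' → a z = 0 := by
    intro z hz hz'
    by_contra h
    exact hz' (Finset.mem_filter.2 ⟨hz, h⟩)
  have ht := Pool.Agent.T2H62.MQ.trace_wt 2 (by norm_num) le_rfl (pg γ Λ') k hk (pg_even Λ')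
    (pg_zero h0 hπ Λ') Z' hZ'c (fun z => (x : ℂ) * a z) (by
      intro z hz
      rw [ha z (Finset.mem_filter.1 hz).1, map_mul, Complex.conj_ofReal]) ∅ (Finset.empty_subset _)
      (by intro z hz; simp at hz)
  have e1 : (∑ z ∈ Z', (x : ℂ) * a z).re = x * s1 := by
    rw [← Finset.mul_sum, Complex.re_ofReal_mul, hs1]
    congr 2
    exact Finset.sum_subset (Finset.filter_subset _ _) hz0
  have e2 : (∑ z ∈ Z', ∑ w ∈ Z', (x : ℂ) * a z * ((x : ℂ) * a w) * pg γ Λ' (z - w) ^ 2).re =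
      x ^ 2 * (∑ z ∈ Z, ∑ w ∈ Z, a z * a w * pg γ Λ' (z - w) ^ 2).re := by
    have e3 : ∑ z ∈ Z, ∑ w ∈ Z, a z * a w * pg γ Λ' (z - w) ^ 2 =
        ∑ z ∈ Z', ∑ w ∈ Z', a z * a w * pg γ Λ' (z - w) ^ 2 := by
      rw [← Finset.sum_subset (Finset.filter_subset (fun z => a z ≠ 0) Z) (f := fun z =>
        ∑ w ∈ Z, a z * a w * pg γ Λ' (z - w) ^ 2)]
      · refine Finset.sum_congr rfl fun z _ => ?_
        rw [← Finset.sum_subset (Finset.filter_subset (fun z => a z ≠ 0) Z)]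
        intro w hw hw'
        rw [hz0 w hw hw']; simp
      · intro z hz hz'
        rw [hz0 z hz hz']; simp
    rw [e3, ← Complex.re_ofReal_mul]
    congr 1
    rw [Finset.mul_sum]
    refine Finset.sum_congr rfl fun z _ => ?_
    rw [Finset.mul_sum]
    refine Finset.sum_congr rfl fun w _ => ?_
    push_cast; ring
  rw [e1, e2] at ht
  simp only [Finset.sum_empty, mul_zero, sub_zero, Finset.card_empty, Nat.cast_zero,
    Finset.sdiff_empty] at ht
  -- the two counts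
  have hcount : (((Z'.filter fun z => z.im = 0).card : ℝ) + ((Z'.filter fun z => 0 < z.im).card : ℝ)) =
      ((Z.filter fun z => a z ≠ 0 ∧ z.im ≤ 0).card : ℝ) := by
    have h1 : (Z'.filter fun z => 0 < z.im).card = (Z'.filter fun z => z.im < 0).card := by
      refine Finset.card_bij (fun z _ => conj z) ?_ ?_ ?_
      · intro z hz
        obtain ⟨h1, h2⟩ := Finset.mem_filter.1 hz
        refine Finset.mem_filter.2 ⟨hZ'c z h1, ?_⟩
        rw [Complex.conj_im]; linarith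
      · intro z _ w _ h
        have := congrArg conj h
        simpa using this
      · intro w hw
        obtain ⟨h1, h2⟩ := Finset.mem_filter.1 hw
        refine ⟨conj w, Finset.mem_filter.2 ⟨hZ'c w h1, ?_⟩, by simp⟩
        rw [Complex.conj_im]; linarith
    have h2 : Z.filter (fun z => a z ≠ 0 ∧ z.im ≤ 0) = (Z'.filter fun z => z.im = 0) ∪ (Z'.filter fun z => z.im < 0) := by
      ext z
      simp only [hZ', Finset.mem_filter, Finset.mem_union]
      constructor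
      · rintro ⟨a1, a2, a3⟩
        rcases a3.lt_or_eq with h | h
        · exact Or.inr ⟨⟨a1, a2⟩, h⟩
        · exact Or.inl ⟨⟨a1, a2⟩, h⟩
      · rintro (⟨⟨a1, a2⟩, a3⟩ | ⟨⟨a1, a2⟩, a3⟩)
        · exact ⟨a1, a2, a3.le⟩
        · exact ⟨a1, a2, a3.le⟩
    have h3 : Disjoint (Z'.filter fun z => z.im = 0) (Z'.filter fun z => z.im < 0) := by
      rw [Finset.disjoint_left]
      intro z hz hz'
      have e4 := (Finset.mem_filter.1 hz).2
      have e5 := (Finset.mem_filter.1 hz').2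
      linarith
    rw [h2, Finset.card_union_of_disjoint h3, h1]
    push_cast; ring
  rw [hcount] at ht
  set R : ℝ := ((Z.filter fun z => a z ≠ 0 ∧ z.im ≤ 0).card : ℝ)
  have h5 : x ^ 2 * (∑ z ∈ Z, ∑ w ∈ Z, a z * a w * pg γ Λ' (z - w) ^ 2).re ≤ x ^ 2 * Qb :=
    mul_le_mul_of_nonneg_left hQ (sq_nonneg _)
  have h6 : 4 * (x * s1) - 4 * R ≤ x ^ 2 * Qb := by
    have := ht.trans h5
    linarith
  have h7 : x * s1 = 2 * (s1 ^ 2 / Qb) := by rw [hx]; ring
  have h8 : x ^ 2 * Qb = 4 * (s1 ^ 2 / Qb) := by rw [hx]; field_simp; ring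
  rw [h7, h8] at h6
  linarith

end

end Pool.Agent.H474.SHP
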