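import Pool.Agent.H474.SHP.Lo3
import Pool.Agent.H474.SHP.Tr
import Pool.Graph.R_pool_sql_team_seeded_1acbe0a2.Y179.ND.Rank
import Pool.Graph.R_pool_sql_team_seeded_1acbe0a2.Y550.ND.Bess
import Pool.Graph.R_pool_sql_team_seeded_1acbe0a2.Y772.ND.Vlo
import Pool.Graph.R_pool_sql_team_seeded_1acbe0a2.Y772.ND.Cor

/-!
# The rank inequality and the linear functional
-/

set_option autoImplicit false
set_option linter.unusedSectionVars false

open Complex Filter Topology Set MeasureTheory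
open scoped ComplexConjugate
open H370 (zset mult NN Nd Ns)
open W388 H385
open scoped ArithmeticFunction.vonMangoldt

namespace Pool.Agent.H474.SHP

open Pool.Agent.Y772.ND (Mz Az Wz dz ev_exp Zf wf mem_Zf sum_wf ZZ mem_ZZ Az_ZZ ZZ_conj aa_conj Mz_sum
  Az_cont Mz_cont Mz_crude A1_crude V_approx)
open Pool.Agent.Y772.SL (av)
open PerChi (Rw_cont)

/-- **the rank inequality** -/
lemma rank_g {γ Λ' : ℝ} (h0 : 0 < γ) (hπ : γ < Real.pi) (hΛ : 0 < Λ') (Z : Finset ℂ) (a : ℂ → ℂ)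
    (hZ : ∀ z ∈ Z, conj z ∈ Z) (ha : ∀ z ∈ Z, a (conj z) = conj (a z)) :
    Integrable (fun s : ℝ => ‖∑ z ∈ Z, a z * (pg γ Λ' (z - s)) ^ 2‖) ∧
    (∫ s : ℝ, ‖∑ z ∈ Z, a z * (pg γ Λ' (z - s)) ^ 2‖) ^ 2 ≤
      (2 * Real.pi * Gg γ / Λ') ^ 2 * (Z.filter fun z => a z ≠ 0).card *
        (∑ z ∈ Z, ∑ w ∈ Z, a z * a w * pg γ Λ' (z - w) ^ 2).re := by
  obtain ⟨E, i1, i2, k, hk⟩ := gram_pg h0 hπ Λ'
  exact Pool.Agent.Y179.ND.t_RANK E (pg γ Λ') k hk (pg_even Λ') (pg_cont Λ')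
    (2 * Real.pi * Gg γ / Λ') (by have := Gg_pos h0 hπ; have := Real.pi_pos; positivity)
    (fun Z c => Pool.Agent.Y550.ND.t_BESS (gw γ) gw_cnt (gw_evn h0 hπ) (Gg γ) (gwb h0 hπ) Λ' hΛ (pg γ Λ')
      (fun z => rfl) Z c) Z a hZ ha

section

variable {ι : Type} [Fintype ι]

/-- **the linear functional is close to the Dirichlet polynomial** -/
lemma V_low {θ θ' K γ : ℝ} (hθ : 0 < θ) (hθθ : θ < θ') (hθ' : θ' < 1) (hK : 0 ≤ K) (h0 : 0 < γ)
    (h1γ : γ ≤ 1) {C d A D : ι → ℝ} (hC : ∀ i, 1 ≤ C i) (hd0 : ∀ i, 0 ≤ d i) {F : ι → ℂ → ℂ}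
    {β : ι → ℕ → ℂ} (hF : ∀ i, GoodE (d i) (A i) 1 (F i) (fun n => β i n * (Λ n : ℂ)))
    (hβ : ∀ i n, ‖β i n‖ ≤ D i) {ε : ℝ} (hε : 0 < ε) :
    ∀ᶠ T : ℝ in atTop, ∀ V1 V2 : ι → ℝ,
      ∀ hV : (∀ i, Fct θ θ' (C i) (d i) (F i) (fun n => β i n * (Λ n : ℂ)) T (V1 i) (V2 i)),
      ∀ μ : ι → ℝ, (∀ i, |μ i| ≤ K) → ∀ s ∈ Set.Icc T (2 * T),
      |(∑ n ∈ Finset.Icc 1 (NT θ' T), dz (Rw γ) (θ * Real.log T)
        ((∑ i, μ i * d i) * Real.log T) (bb β μ) n * cexp (-(I * s * Real.log n))).re| - ε ≤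
      ‖∑ z ∈ ZZ (fun i => (hV i).fin), Pool.Agent.Y772.ND.aa F V1 V2 μ z *
        pg γ (θ * Real.log T) (z - s) ^ 2‖ := by
  have hπ : γ < Real.pi := by linarith [Real.pi_gt_three]
  have hD : ∀ i, 0 ≤ D i := fun i => (norm_nonneg _).trans (hβ i 0)
  have hC0 : ∀ i, 0 ≤ C i := fun i => by linarith [hC i]
  set CK := K * ∑ i, C i with hCK
  have hCK0 : 0 ≤ CK := mul_nonneg hK (Finset.sum_nonneg fun i _ => hC0 i)
  set DK := K * ∑ i, D i with hDK
  have hDK0 : 0 ≤ DK := mul_nonneg hK (Finset.sum_nonneg fun i _ => hD i)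
  set Dm := K * ∑ i, d i with hDm
  have hDm0 : 0 ≤ Dm := mul_nonneg hK (Finset.sum_nonneg fun i _ => hd0 i)
  set R0 := Gg γ ^ 2 with hR0
  have hR00 : 0 ≤ R0 := sq_nonneg _
  have t1 : ∀ᶠ T : ℝ in atTop, 4 * R0 * (2 * CK + 3) / (θ * ε) ≤ Real.log T :=
    Real.tendsto_log_atTop.eventually_ge_atTop _
  have t2 : ∀ᶠ T : ℝ in atTop, 20 ≤ Real.log T := Real.tendsto_log_atTop.eventually_ge_atTop _
  have t3 : ∀ᶠ T : ℝ in atTop, 2 * CK + Dm + DK ≤ T := eventually_ge_atTop _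
  filter_upwards [t1, t2, t3, eventually_gt_atTop 1] with T t1 t2 t3 hT1
  intro V1 V2 hV μ hμ s hs
  set κ := Real.log T with hκ
  have hT0 : 0 < T := by linarith
  have hTκ : T = Real.exp κ := by rw [hκ, Real.exp_log hT0]
  set Λ' := θ * κ with hΛ
  have hκ0 : 0 < κ := by linarith
  have hΛ0 : 0 < Λ' := by rw [hΛ]; positivity
  have hΛκ : Λ' ≤ κ := by
    have : θ * κ ≤ 1 * κ := mul_le_mul_of_nonneg_right (by linarith) hκ0.le
    linarith
  set N := NT θ' T with hN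
  have hN1 : 1 ≤ N := by
    rw [hN]; unfold NT
    exact Nat.floor_pos.2 (Real.one_le_exp (mul_nonneg (by linarith) (by linarith)))
  have hNe : (N : ℝ) ≤ Real.exp κ := by
    rw [hN]; unfold NT
    refine (Nat.floor_le (Real.exp_pos _).le).trans (Real.exp_le_exp.2 ?_)
    have : θ' * κ ≤ 1 * κ := mul_le_mul_of_nonneg_right hθ'.le hκ0.le
    linarith
  set Z := ZZ fun i => (hV i).fin with hZ
  set az := Pool.Agent.Y772.ND.aa F V1 V2 μ with haz
  have hZc : ∀ z ∈ Z, conj z ∈ Z := ZZ_conj hF (fun i => (hV i).v0) fun i => (hV i).fin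
  have hac : ∀ z ∈ Z, az (conj z) = conj (az z) := fun z _ => aa_conj hF (fun i => (hV i).v0) μ z
  set L := (∑ i, μ i * d i) * κ with hL
  have hLs : L = ∑ i, μ i * (d i * κ) := by
    rw [hL, Finset.sum_mul]; exact Finset.sum_congr rfl fun i _ => by ring
  have hLle : |L| ≤ Dm * κ := by
    rw [hL, abs_mul, abs_of_pos hκ0]
    refine mul_le_mul_of_nonneg_right ?_ hκ0.le
    refine (Finset.abs_sum_le_sum_abs _ _).trans ?_
    have e : ∑ i, |μ i * d i| = ∑ i, |μ i| * d i :=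
      Finset.sum_congr rfl fun i _ => by rw [abs_mul, abs_of_nonneg (hd0 i)]
    rw [e]
    exact sum_le_K hμ hd0
  have hAz : ∀ u t : ℝ, Az Z az u t = ∑ i, (μ i : ℂ) * A1 (F i) (V1 i) (V2 i) u t := fun u t =>
    Az_ZZ (fun i => (hV i).fin) μ u t
  have hMz : ∀ u t : ℝ, Mz L N (bb β μ) u t = ∑ i, (μ i : ℂ) * Mz (d i * κ) N (fun n => β i n * (Λ n : ℂ)) u t := by
    intro u t
    rw [hLs]
    exact Mz_sum μ (fun i => d i * κ) N (fun i n => β i n * (Λ n : ℂ)) u t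
  have hCSK : ∑ i, |μ i| * C i ≤ CK := sum_le_K hμ hC0
  have hbD := bb_le (β := β) hμ hβ
  have hnear : ∀ u t : ℝ, 0 ≤ u → u ≤ Λ' → T - κ ≤ t → t ≤ 2 * T + κ →
      ‖Az Z az u t - Mz L N (bb β μ) u t‖ ≤ CK * Real.exp (-u) := by
    intro u t hu0 hu ht1 ht2
    rw [hAz, hMz, ← Finset.sum_sub_distrib]
    refine (norm_sum_le _ _).trans (le_trans ?_
      (mul_le_mul_of_nonneg_right hCSK (Real.exp_pos _).le))
    rw [Finset.sum_mul]
    refine Finset.sum_le_sum fun i _ => ?_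
    rw [← mul_sub, norm_mul, Complex.norm_real, Real.norm_eq_abs, mul_assoc]
    refine mul_le_mul_of_nonneg_left ?_ (abs_nonneg _)
    refine ((hV i).ex u t hu0 hu ?_ ?_)
    · have := (hV i).v1'; linarith
    · have := (hV i).v2; linarith
  set E := 2 * Real.exp Λ' * (CK * T * κ) + (Dm * κ + DK * Real.exp (2 * κ)) with hE
  have hcrude : ∀ u t : ℝ, 0 ≤ u → u ≤ Λ' → ‖Az Z az u t - Mz L N (bb β μ) u t‖ ≤ E := by
    intro u t hu0 hu
    refine (norm_sub_le _ _).trans (add_le_add ?_ ?_)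
    · rw [hAz]
      refine (norm_sum_le _ _).trans ?_
      have h1 : ∑ i, ‖(μ i : ℂ) * A1 (F i) (V1 i) (V2 i) u t‖ ≤
          ∑ i, (|μ i| * C i) * (2 * Real.exp Λ' * (T * κ)) := by
        refine Finset.sum_le_sum fun i _ => ?_
        rw [norm_mul, Complex.norm_real, Real.norm_eq_abs, mul_assoc]
        refine mul_le_mul_of_nonneg_left ?_ (abs_nonneg _)
        refine (A1_crude (hV i).fin hu0).trans ?_
        have h1 : Real.exp u ≤ Real.exp Λ' := Real.exp_le_exp.2 hu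
        have h2 := (hV i).cnt
        have h3 : (0 : ℝ) ≤ NN (F i) (V1 i) (V2 i) := Nat.cast_nonneg _
        calc 2 * Real.exp u * (NN (F i) (V1 i) (V2 i) : ℝ) ≤ 2 * Real.exp Λ' * (C i * T * κ) := by gcongr
          _ = _ := by ring
      refine h1.trans ?_
      rw [← Finset.sum_mul]
      calc (∑ i, |μ i| * C i) * (2 * Real.exp Λ' * (T * κ)) ≤ CK * (2 * Real.exp Λ' * (T * κ)) :=
            mul_le_mul_of_nonneg_right hCSK (by positivity)
        _ = _ := by ring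
    · refine (Mz_crude L N (bb β μ) hDK0 hbD u t).trans (add_le_add hLle ?_)
      refine mul_le_mul_of_nonneg_left ?_ hDK0
      calc (N : ℝ) ^ 2 ≤ (Real.exp κ) ^ 2 := by gcongr
        _ = Real.exp (2 * κ) := by rw [← Real.exp_nat_mul]; congr 1
  have hEle : E * Real.exp (-κ ^ 2 / 2) ≤ Real.exp (-Λ') := by
    have e1 : κ ≤ Real.exp κ := by linarith [Real.add_one_le_exp κ]
    have e2 : E ≤ (2 * CK + Dm + DK) * Real.exp (3 * κ) := by
      have x1 : Real.exp Λ' ≤ Real.exp κ := Real.exp_le_exp.2 hΛκ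
      have x3 : Real.exp (3 * κ) = Real.exp κ * Real.exp κ * Real.exp κ := by
        rw [← Real.exp_add, ← Real.exp_add]; congr 1; ring
      have x4 : 2 * Real.exp Λ' * (CK * T * κ) ≤ 2 * CK * Real.exp (3 * κ) := by
        rw [x3]
        calc 2 * Real.exp Λ' * (CK * T * κ) ≤ 2 * Real.exp κ * (CK * Real.exp κ * Real.exp κ) := by
              rw [← hTκ]
              rw [← hTκ] at x1 e1
              gcongr
          _ = _ := by ring
      have x5 : Dm * κ ≤ Dm * Real.exp (3 * κ) := by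
        refine mul_le_mul_of_nonneg_left (e1.trans (Real.exp_le_exp.2 (by linarith))) hDm0
      have x6 : DK * Real.exp (2 * κ) ≤ DK * Real.exp (3 * κ) :=
        mul_le_mul_of_nonneg_left (Real.exp_le_exp.2 (by linarith)) hDK0
      rw [hE]
      linarith
    calc E * Real.exp (-κ ^ 2 / 2) ≤ ((2 * CK + Dm + DK) * Real.exp (3 * κ)) * Real.exp (-κ ^ 2 / 2) :=
          mul_le_mul_of_nonneg_right e2 (Real.exp_pos _).le
      _ ≤ (Real.exp κ * Real.exp (3 * κ)) * Real.exp (-κ ^ 2 / 2) := by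
          rw [hTκ] at t3
          gcongr
      _ = Real.exp (κ + 3 * κ + -κ ^ 2 / 2) := by rw [← Real.exp_add, ← Real.exp_add]
      _ ≤ Real.exp (-Λ') := by
          apply Real.exp_le_exp.2
          nlinarith
  have hfin := V_approx (kapw γ) (Rw γ) (Rw_cont γ h0 hπ) (Rw_even γ) (kapw_sq γ h0 hπ)
    (R0 := R0) (fun α hα => ⟨Rw_nonneg γ h0 hπ α, by
      refine (Rw_tent h0 hπ hα.1).trans ?_
      have := mul_le_mul_of_nonneg_left (tent_le_one hα.1) hR00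
      rw [mul_one] at this
      exact this⟩) hΛ0 (L := L) hCK0 (κ := κ) hκ0.le hN1 (bb β μ) Z az hZc hac s
    (fun u t hu0 hu ht => hnear u t hu0 hu (by
      have := (abs_le.1 ht).1; linarith [hs.1]) (by
      have := (abs_le.1 ht).2; linarith [hs.2])) (fun u t hu0 hu => hcrude u t hu0 hu) hEle
  refine le_trans ?_ hfin
  have hδ : 4 * R0 * (2 * CK + 3) / Λ' ≤ ε := by
    rw [div_le_iff₀ (by positivity)] at t1
    rw [div_le_iff₀ hΛ0, hΛ]
    linarith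
  linarith

end

end Pool.Agent.H474.SHP
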