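import Pool.Agent.H474.SHP.Sh2a

/-!
# The first absolute moment of the Dirichlet polynomial
-/

set_option autoImplicit false
set_option linter.unusedSectionVars false

open Complex Filter Topology Set MeasureTheory
open scoped ComplexConjugate
open H370 (zset mult NN Nd Ns)
open W388 H385
open scoped ArithmeticFunction.vonMangoldt

namespace Pool.Agent.H474.SHP

open Pool.Agent.Y772.ND (Wz dz ev_exp)
open Pool.Agent.Y772.SL (av)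
open PerChi (Rw_cont)

section

variable {ι : Type} [Fintype ι]

lemma dz_one' {γ Λ' L : ℝ} {b : ℕ → ℂ} (hb : b 1 = 0) :
    dz (Rw γ) Λ' L b 1 = ((Real.sqrt (2 / Real.pi) * Wz (Rw γ) Λ' 0 * L : ℝ) : ℂ) := by
  unfold dz
  rw [if_pos rfl, hb]
  simp only [Nat.cast_one, Real.log_one]
  push_cast
  ring

/-- the size of the polynomial -/
noncomputable def SS (γ Λ' L : ℝ) (b : ℕ → ℂ) (N : ℕ) : ℝ :=
  (dz (Rw γ) Λ' L b 1).re ^ 2 + 1 / 2 * ∑ p ∈ Pr N, ‖dz (Rw γ) Λ' L b p‖ ^ 2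

lemma S_low {θ θ' K δ : ℝ} (hθ : 0 < θ) (hθθ : θ < θ') (hδ : 0 < δ)
    (hδ' : δ ≤ 1 / 100) {D : ι → ℝ} (d : ι → ℝ)
    {β : ι → ℕ → ℂ} (hβ : ∀ i n, ‖β i n‖ ≤ D i) (sF : (ι → ℝ) → ℝ)
    (hs : ∀ μ : ι → ℝ, Tendsto (av fun n => ‖∑ i, (μ i : ℂ) * β i n‖ ^ 2) (𝓝[>] 0) (𝓝 (sF μ))) :
    ∀ᶠ T : ℝ in atTop, ∀ μ : ι → ℝ, (∀ i, |μ i| ≤ K) → sF μ = 1 →
      (1 - 6 * δ) * ((∑ i, μ i * d i) ^ 2 / θ ^ 2 + 1 / 6) ≤
      SS δ (θ * Real.log T) ((∑ i, μ i * d i) * Real.log T) (bb β μ) (NT θ' T) := by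
  have hδ1 : δ ≤ 1 := by linarith
  have hm : 0 < 60 / δ := by positivity
  have hkar := kar_unif (βp β) D (βp_le hβ) sF (βp_av hβ sF hs) (φ2 (60 / δ)) (φ2_cont _) 1
    zero_le_one (φ2_zero hm) K hδ
  have htθ : Tendsto (fun T : ℝ => θ * Real.log T) atTop atTop :=
    Real.tendsto_log_atTop.const_mul_atTop hθ
  filter_upwards [htθ.eventually hkar, htθ.eventually_ge_atTop (60 / δ),
    Real.tendsto_log_atTop.eventually_gt_atTop 0] with T hkar t2 hκ0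
  intro μ hμ hsμ
  set κ := Real.log T with hκ
  set Λ' := θ * κ with hΛ
  set N := NT θ' T with hN
  have hΛ0 : 0 < Λ' := by linarith
  have hΛ60 : 60 ≤ δ * Λ' := by
    rw [div_le_iff₀ hδ] at t2
    linarith
  have hΛ5 : 5 ≤ Λ' := by nlinarith
  have h5 : 5 / Λ' ≤ δ := by
    rw [div_le_iff₀ hΛ0]; linarith
  have hNe : Real.exp (1 * Λ') < N + 1 := by
    have h3 : Real.exp (θ' * κ) < N + 1 := Nat.lt_floor_add_one _
    refine lt_trans ?_ h3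
    apply Real.exp_lt_exp.2
    rw [one_mul, hΛ]
    exact mul_lt_mul_of_pos_right hθθ hκ0
  have h1 := (abs_le.1 (hkar μ hμ N hNe)).1
  rw [hsμ, one_mul] at h1
  have h2 : Real.pi / 6 - 60 / (60 / δ) ≤ ∫ x in (0 : ℝ)..1, φ2 (60 / δ) x := ψ_int hm
  have h3 : 60 / (60 / δ) = δ := by field_simp
  rw [h3] at h2
  have hpl := prime_low (L := (∑ i, μ i * d i) * κ) hδ hδ1 hm t2 β μ N
  set S3 := (∑ n ∈ Finset.Icc 1 N, ‖∑ i, (μ i : ℂ) * βp β i n‖ ^ 2 * Λ n / n *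
      φ2 (60 / δ) (Real.log n / Λ')) / Λ' with hS3
  have h4 : Real.pi / 6 - 2 * δ ≤ S3 := by linarith
  have hb1 : bb β μ 1 = 0 := by
    rw [bb_eq, ArithmeticFunction.vonMangoldt_apply_one]; simp
  unfold SS
  rw [dz_one' hb1, Complex.ofReal_re]
  have hv := (v0_bd (L := (∑ i, μ i * d i) * κ) hδ hδ1 hΛ5).1
  have hX : ((∑ i, μ i * d i) * κ / Λ') ^ 2 = (∑ i, μ i * d i) ^ 2 / θ ^ 2 := by
    rw [hΛ]; field_simp
  rw [hX] at hv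
  set X := (∑ i, μ i * d i) ^ 2 / θ ^ 2 with hXd
  have hX0 : 0 ≤ X := by positivity
  have a1 : (1 - 6 * δ) * X ≤ ((1 - δ ^ 2) * (1 - 5 / Λ')) ^ 2 * X := by
    refine mul_le_mul_of_nonneg_right ?_ hX0
    have b1 : (1 - δ ^ 2) * (1 - δ) ≤ (1 - δ ^ 2) * (1 - 5 / Λ') :=
      mul_le_mul_of_nonneg_left (by linarith) (by nlinarith)
    have b2 : 0 ≤ (1 - δ ^ 2) * (1 - δ) := mul_nonneg (by nlinarith) (by linarith)
    refine le_trans ?_ (pow_le_pow_left₀ b2 b1 2)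
    have b3 : 1 - 2 * δ ≤ (1 - δ ^ 2) * (1 - δ) := by nlinarith [mul_pos hδ hδ]
    have b4 := pow_le_pow_left₀ (by linarith : 0 ≤ 1 - 2 * δ) b3 2
    refine le_trans ?_ b4
    nlinarith [sq_nonneg δ]
  have a2 : (1 - 6 * δ) * (1 / 6) ≤ 1 / 2 * (2 / Real.pi * (1 - δ ^ 2) ^ 2 * S3) := by
    have hπ := Real.pi_gt_three
    have c1 : (1 - 2 * δ ^ 2) ≤ (1 - δ ^ 2) ^ 2 := by nlinarith [sq_nonneg (δ ^ 2)]
    have c2 : 0 ≤ Real.pi / 6 - 2 * δ := by linarith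
    have c3 : (1 - 2 * δ ^ 2) * (Real.pi / 6 - 2 * δ) ≤ (1 - δ ^ 2) ^ 2 * S3 :=
      mul_le_mul c1 h4 c2 (sq_nonneg _)
    have c4 : 1 / Real.pi * ((1 - 2 * δ ^ 2) * (Real.pi / 6 - 2 * δ)) ≤ 1 / Real.pi * ((1 - δ ^ 2) ^ 2 * S3) :=
      mul_le_mul_of_nonneg_left c3 (by positivity)
    have c5 : 1 / 2 * (2 / Real.pi * (1 - δ ^ 2) ^ 2 * S3) = 1 / Real.pi * ((1 - δ ^ 2) ^ 2 * S3) := by ring
    rw [c5]
    refine le_trans ?_ c4
    rw [one_div_mul_eq_div, le_div_iff₀ Real.pi_pos]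
    nlinarith [mul_pos hδ hδ, mul_pos hδ Real.pi_pos]
  have a3 : 1 / 2 * (2 / Real.pi * (1 - δ ^ 2) ^ 2 * S3) ≤
      1 / 2 * ∑ p ∈ Pr N, ‖dz (Rw δ) Λ' ((∑ i, μ i * d i) * κ) (bb β μ) p‖ ^ 2 :=
    mul_le_mul_of_nonneg_left hpl (by norm_num)
  linarith

/-- the crude upper bound of the coefficients -/
lemma A_up {γ Λ' L κ DK Dm : ℝ} (h0 : 0 < γ) (h1γ : γ ≤ 1) (hΛ : 5 ≤ Λ') (hκ : 0 < κ) {θ : ℝ}
    (hθ : 0 < θ) (hΛθ : Λ' = θ * κ) {b : ℕ → ℂ} (hb : ∀ n, ‖b n‖ ≤ DK * Λ n) (hDK : 0 ≤ DK)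
    (hDm : 0 ≤ Dm) (hL : |L| ≤ Dm * κ) {N : ℕ} (hN1 : 1 ≤ N) (hN : Real.log N ≤ κ) :
    |(dz (Rw γ) Λ' L b 1).re| + ∑ p ∈ Pr N, ‖dz (Rw γ) Λ' L b p‖ ≤
      (Gg γ ^ 2 * (Dm / θ) + 5 * Gg γ ^ 2 * DK / θ) * N := by
  have hb1 : b 1 = 0 := by
    have := hb 1
    rw [ArithmeticFunction.vonMangoldt_apply_one, mul_zero] at this
    exact norm_le_zero_iff.1 this
  have hΛ0 : 0 < Λ' := by linarith
  have hG : 0 ≤ Gg γ ^ 2 := sq_nonneg _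
  have hN1' : (1 : ℝ) ≤ N := by exact_mod_cast hN1
  rw [dz_one' hb1, Complex.ofReal_re, add_mul]
  refine add_le_add ?_ ?_
  · refine (v0_bd h0 h1γ hΛ).2.trans ?_
    have e1 : |L| / Λ' ≤ Dm / θ := by
      rw [hΛθ, div_le_div_iff₀ (by positivity) hθ]
      nlinarith
    calc Gg γ ^ 2 * (|L| / Λ') ≤ Gg γ ^ 2 * (Dm / θ) * 1 := by
          rw [mul_one]; exact mul_le_mul_of_nonneg_left e1 hG
      _ ≤ _ := mul_le_mul_of_nonneg_left hN1' (by positivity)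
  · have e1 : ∀ p ∈ Pr N, ‖dz (Rw γ) Λ' L b p‖ ≤ 5 * Gg γ ^ 2 * DK / θ := by
      intro p hp
      obtain ⟨hp1, hp2⟩ := mem_Pr.1 hp
      have hp0 : (0 : ℝ) < p := by exact_mod_cast hp1.pos
      have h1 := dz_bd (L := L) h0 h1γ (by linarith : 2 ≤ Λ') hb hp1.two_le
      have h2 : Λ p ^ 2 / p ≤ κ ^ 2 := by
        have e2 : Λ p ≤ κ := by
          refine ArithmeticFunction.vonMangoldt_le_log.trans ((Real.log_le_log hp0 ?_).trans hN)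
          exact_mod_cast hp2
        have e3 : 0 ≤ Λ p := ArithmeticFunction.vonMangoldt_nonneg
        rw [div_le_iff₀ hp0]
        have e4 : Λ p ^ 2 ≤ κ ^ 2 := pow_le_pow_left₀ e3 e2 2
        have e5 : (1 : ℝ) ≤ p := by exact_mod_cast hp1.one_lt.le
        nlinarith [sq_nonneg κ]
      have h3 : ‖dz (Rw γ) Λ' L b p‖ ^ 2 ≤ (5 * Gg γ ^ 2 * DK / θ) ^ 2 := by
        refine h1.trans ((mul_le_mul_of_nonneg_left h2 (sq_nonneg _)).trans (le_of_eq ?_))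
        rw [hΛθ]; field_simp
      exact (pow_le_pow_iff_left₀ (norm_nonneg _) (by positivity) two_ne_zero).1 h3
    refine (Finset.sum_le_sum e1).trans ?_
    rw [Finset.sum_const, nsmul_eq_mul, mul_comm]
    refine mul_le_mul_of_nonneg_left ?_ (by positivity)
    have : (Pr N).card ≤ N := by
      unfold Pr
      refine (Finset.card_filter_le _ _).trans ?_
      simp
    exact_mod_cast this

end

end Pool.Agent.H474.SHP
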