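import Pool.Agent.H474.SHP.Sh2b

/-!
# The first absolute moment of the Dirichlet polynomial, end
-/

set_option autoImplicit false
set_option linter.unusedSectionVars false

open Complex Filter Topology Set MeasureTheory
open scoped ComplexConjugate
open H370 (zset mult NN Nd Ns)
open W388 H385
open scoped ArithmeticFunction.vonMangoldt

namespace Pool.Agent.H474.SHP

open Pool.Agent.Y772.ND (Wz dz ev_exp)
open Pool.Agent.Y772.SL (av)
open PerChi (Rw_cont)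

/-- the error terms -/
lemma err_bd {A E r κ δ a0 S : ℝ} (hr : 1 / 2 ≤ r) (hA0 : 0 ≤ A) (hA : A ≤ a0 * Real.exp κ)
    (hE0 : 0 ≤ E) (hE : E ≤ Real.exp (-(6 * κ))) (hκ : 4 ≤ κ) (ha0 : 0 ≤ a0)
    (hT : 3 * a0 ^ 2 + 4 * a0 ^ 4 + 2 * a0 ≤ δ * Real.exp κ) (hrS : r ^ 2 = 3 * S) :
    r / 3 - δ ≤ 3 / 2 * (S - A ^ 2 * E) / r - 1 / 2 * (3 * S ^ 2 + A ^ 4 * E) / r ^ 3 -
      2 * A * Real.exp (-κ ^ 2 / 2) := by
  have hr0 : 0 < r := by linarith
  have hS : S = r ^ 2 / 3 := by linarith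
  have e1 : 3 / 2 * (S - A ^ 2 * E) / r - 1 / 2 * (3 * S ^ 2 + A ^ 4 * E) / r ^ 3 =
      r / 3 - 3 / 2 * (A ^ 2 * E) / r - 1 / 2 * (A ^ 4 * E) / r ^ 3 := by
    rw [hS]; field_simp; ring
  rw [e1]
  have x2 : A ^ 2 * E ≤ a0 ^ 2 * Real.exp (-κ) := by
    have h1 : A ^ 2 ≤ (a0 * Real.exp κ) ^ 2 := pow_le_pow_left₀ hA0 hA 2
    calc A ^ 2 * E ≤ (a0 * Real.exp κ) ^ 2 * Real.exp (-(6 * κ)) := by gcongr
      _ = a0 ^ 2 * (Real.exp κ * Real.exp κ * Real.exp (-(6 * κ))) := by ring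
      _ = a0 ^ 2 * Real.exp (κ + κ + -(6 * κ)) := by rw [← Real.exp_add, ← Real.exp_add]
      _ ≤ _ := mul_le_mul_of_nonneg_left (Real.exp_le_exp.2 (by linarith)) (sq_nonneg _)
  have x4 : A ^ 4 * E ≤ a0 ^ 4 * Real.exp (-κ) := by
    have h1 : A ^ 4 ≤ (a0 * Real.exp κ) ^ 4 := pow_le_pow_left₀ hA0 hA 4
    calc A ^ 4 * E ≤ (a0 * Real.exp κ) ^ 4 * Real.exp (-(6 * κ)) := by gcongr
      _ = a0 ^ 4 * (Real.exp κ * Real.exp κ * Real.exp κ * Real.exp κ * Real.exp (-(6 * κ))) := by ring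
      _ = a0 ^ 4 * Real.exp (κ + κ + κ + κ + -(6 * κ)) := by
        rw [← Real.exp_add, ← Real.exp_add, ← Real.exp_add, ← Real.exp_add]
      _ ≤ _ := mul_le_mul_of_nonneg_left (Real.exp_le_exp.2 (by linarith)) (by positivity)
  have x1 : A * Real.exp (-κ ^ 2 / 2) ≤ a0 * Real.exp (-κ) := by
    calc A * Real.exp (-κ ^ 2 / 2) ≤ a0 * Real.exp κ * Real.exp (-κ ^ 2 / 2) := by gcongr
      _ = a0 * Real.exp (κ + -κ ^ 2 / 2) := by rw [mul_assoc, ← Real.exp_add]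
      _ ≤ _ := mul_le_mul_of_nonneg_left (Real.exp_le_exp.2 (by nlinarith)) ha0
  have y2 : 3 / 2 * (A ^ 2 * E) / r ≤ 3 * (A ^ 2 * E) := by
    rw [div_le_iff₀ hr0]
    have : 0 ≤ A ^ 2 * E := by positivity
    nlinarith
  have y4 : 1 / 2 * (A ^ 4 * E) / r ^ 3 ≤ 4 * (A ^ 4 * E) := by
    have h1 : (1 / 2 : ℝ) ^ 3 ≤ r ^ 3 := pow_le_pow_left₀ (by norm_num) hr 3
    rw [div_le_iff₀ (by positivity)]
    have : 0 ≤ A ^ 4 * E := by positivity
    nlinarith
  have z : (3 * a0 ^ 2 + 4 * a0 ^ 4 + 2 * a0) * Real.exp (-κ) ≤ δ := by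
    have := mul_le_mul_of_nonneg_right hT (Real.exp_pos (-κ)).le
    rwa [mul_assoc, ← Real.exp_add, add_neg_cancel, Real.exp_zero, mul_one] at this
  nlinarith

section

variable {ι : Type} [Fintype ι]

lemma I_low {K δ : ℝ} (hK : 0 ≤ K) (hδ : 0 < δ) (hδ' : δ ≤ 1 / 100) {d D : ι → ℝ}
    (hd0 : ∀ i, 0 ≤ d i)
    {β : ι → ℕ → ℂ} (hβ : ∀ i n, ‖β i n‖ ≤ D i) :
    ∀ᶠ T : ℝ in atTop, ∀ μ : ι → ℝ, (∀ i, |μ i| ≤ K) → ∀ S r : ℝ,
      S = SS δ ((1 / 2 - δ) * Real.log T) ((∑ i, μ i * d i) * Real.log T) (bb β μ)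
        (NT (1 / 2 - δ / 2) T) → r ^ 2 = 3 * S → 1 / 2 ≤ r →
      T * ((1 - δ) * (r / 3 - δ) - δ) ≤ ∫ s in T..(2 * T),
        |(∑ n ∈ Finset.Icc 1 (NT (1 / 2 - δ / 2) T), dz (Rw δ) ((1 / 2 - δ) * Real.log T)
          ((∑ i, μ i * d i) * Real.log T) (bb β μ) n * cexp (-(I * s * Real.log n))).re| := by
  have hδ1 : δ ≤ 1 := by linarith
  have hD : ∀ i, 0 ≤ D i := fun i => (norm_nonneg _).trans (hβ i 0)
  set θ := 1 / 2 - δ with hθd
  set θ' := 1 / 2 - δ / 2 with hθ'd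
  have hθ : 0 < θ := by rw [hθd]; linarith
  have hθ' : 0 < θ' := by rw [hθ'd]; linarith
  have hθ'1 : θ' < 1 := by rw [hθ'd]; linarith
  set DK := K * ∑ i, D i with hDK
  have hDK0 : 0 ≤ DK := mul_nonneg hK (Finset.sum_nonneg fun i _ => hD i)
  set Dm := K * ∑ i, d i with hDm
  have hDm0 : 0 ≤ Dm := mul_nonneg hK (Finset.sum_nonneg fun i _ => hd0 i)
  set a0 := Gg δ ^ 2 * (Dm / θ) + 5 * Gg δ ^ 2 * DK / θ with ha0
  have ha00 : 0 ≤ a0 := by have := sq_nonneg (Gg δ); positivity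
  set η := δ ^ 2 / 2 * θ / ((5 * Gg δ ^ 2 * DK) ^ 2 + 1) with hη
  have hη0 : 0 < η := by positivity
  have hηle : (5 * Gg δ ^ 2 * DK) ^ 2 * (1 / θ) * η ≤ δ ^ 2 / 2 := by
    set Y := (5 * Gg δ ^ 2 * DK) ^ 2 with hY
    have hY0 : 0 ≤ Y := sq_nonneg _
    have e1 : Y * (1 / θ) * η = δ ^ 2 / 2 * (Y / (Y + 1)) := by
      rw [hη]; field_simp
    rw [e1]
    have e2 : Y / (Y + 1) ≤ 1 := by rw [div_le_one (by positivity)]; linarith
    exact mul_le_of_le_one_right (by positivity) e2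
  have htθ : Tendsto (fun T : ℝ => θ * Real.log T) atTop atTop :=
    Real.tendsto_log_atTop.const_mul_atTop hθ
  have s1 := htθ.eventually (np_small (ρ := θ' / θ) (by positivity) hη0)
  have s2 := ev_exp (2 / δ) 1 (show 1 - δ / 2 < 1 by linarith)
  have s3 := ev_exp 96 1 (show 1 - δ < 1 by linarith)
  have s4 := ev_exp 16 1 hθ'1
  have s5 : ∀ᶠ T : ℝ in atTop, (3 * a0 ^ 2 + 4 * a0 ^ 4 + 2 * a0) / δ ≤ T := eventually_ge_atTop _
  have s6 := htθ.eventually_ge_atTop 5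
  filter_upwards [s1, s2, s3, s4, s5, s6, Real.tendsto_log_atTop.eventually_ge_atTop 4,
    eventually_gt_atTop 1] with T s1 s2 s3 s4 s5 s6 hκ4 hT1
  intro μ hμ S r hS hrS hr
  set κ := Real.log T with hκ
  have hT0 : 0 < T := by linarith
  have hTκ : T = Real.exp κ := by rw [hκ, Real.exp_log hT0]
  rw [pow_one] at s2 s3 s4
  set Λ' := θ * κ with hΛ
  set N := NT θ' T with hN
  set L := (∑ i, μ i * d i) * κ with hL
  set dd := dz (Rw δ) Λ' L (bb β μ) with hdd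
  have hκ0 : 0 < κ := by linarith
  have hN1 : 1 ≤ N := by
    rw [hN]; unfold NT
    exact Nat.floor_pos.2 (Real.one_le_exp (mul_nonneg (by linarith) (by linarith)))
  have hN1' : (1 : ℝ) ≤ N := by exact_mod_cast hN1
  have hNe : (N : ℝ) ≤ Real.exp (θ' * κ) := by
    rw [hN]; unfold NT
    exact Nat.floor_le (Real.exp_pos _).le
  have hlogN' : Real.log N ≤ θ' * κ := by
    rw [Real.log_le_iff_le_exp (by linarith)]; exact hNe
  have hθκ : θ' * κ ≤ κ := by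
    have : θ' * κ ≤ 1 * κ := mul_le_mul_of_nonneg_right hθ'1.le hκ0.le
    linarith
  have hlogN : Real.log N ≤ κ := hlogN'.trans hθκ
  have hbD := bb_le (β := β) hμ hβ
  have hLle : |L| ≤ Dm * κ := by
    rw [hL, abs_mul, abs_of_pos hκ0]
    refine mul_le_mul_of_nonneg_right ?_ hκ0.le
    refine (Finset.abs_sum_le_sum_abs _ _).trans ?_
    have e : ∑ i, |μ i * d i| = ∑ i, |μ i| * d i :=
      Finset.sum_congr rfl fun i _ => by rw [abs_mul, abs_of_nonneg (hd0 i)]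
    rw [e]
    exact sum_le_K hμ hd0
  set A := |(dd 1).re| + ∑ p ∈ Pr N, ‖dd p‖ with hA
  have hAup : A ≤ a0 * N := A_up hδ hδ1 s6 hκ0 hθ hΛ hbD hDK0 hDm0 hLle hN1 hlogN
  have hA0 : 0 ≤ A := by
    rw [hA]; exact add_nonneg (abs_nonneg _) (Finset.sum_nonneg fun _ _ => norm_nonneg _)
  set H := Real.exp ((1 - δ / 2) * κ) with hH
  have hH0 : 0 < H := Real.exp_pos _
  set E := Real.exp (-(H ^ 2 * (1 / (2 * (N : ℝ) ^ 2)) ^ 2) / 4) with hE
  have hEle : E ≤ Real.exp (-(6 * κ)) := by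
    rw [hE]
    apply Real.exp_le_exp.2
    have h1 : (N : ℝ) ^ 2 ≤ Real.exp ((1 - δ) * κ) := by
      calc (N : ℝ) ^ 2 ≤ Real.exp (θ' * κ) ^ 2 := by gcongr
        _ = Real.exp ((1 - δ) * κ) := by
          rw [← Real.exp_nat_mul]; congr 1; rw [hθ'd]; push_cast; ring
    have h2 : Real.exp (δ / 2 * κ) / 2 ≤ H * (1 / (2 * (N : ℝ) ^ 2)) := by
      have h3 : H = Real.exp (δ / 2 * κ) * Real.exp ((1 - δ) * κ) := by
        rw [hH, ← Real.exp_add]; congr 1; ring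
      rw [h3, mul_one_div, div_le_div_iff₀ (by norm_num) (by positivity)]
      have := Real.exp_pos (δ / 2 * κ)
      calc Real.exp (δ / 2 * κ) * (2 * (N : ℝ) ^ 2) ≤
          Real.exp (δ / 2 * κ) * (2 * Real.exp ((1 - δ) * κ)) := by gcongr
        _ = _ := by ring
    have h4 := pow_le_pow_left₀ (by positivity) h2 2
    have h5 : (Real.exp (δ / 2 * κ) / 2) ^ 2 = Real.exp (δ * κ) / 4 := by
      rw [div_pow, ← Real.exp_nat_mul]; congr 1
      · congr 1; push_cast; ring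
      · norm_num
    rw [h5, mul_pow] at h4
    have h6 : 96 * κ ≤ Real.exp (δ * κ) := by
      rw [hTκ] at s3
      have h7 : Real.exp κ = Real.exp (δ * κ) * Real.exp ((1 - δ) * κ) := by
        rw [← Real.exp_add]; congr 1; ring
      rw [h7] at s3
      exact le_of_mul_le_mul_right s3 (Real.exp_pos _)
    linarith
  have hAe : A ≤ a0 * Real.exp κ := by
    refine hAup.trans (mul_le_mul_of_nonneg_left (hNe.trans (Real.exp_le_exp.2 hθκ)) ha00)
  have hT' : 3 * a0 ^ 2 + 4 * a0 ^ 4 + 2 * a0 ≤ δ * Real.exp κ := by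
    rw [← hTκ]
    rw [div_le_iff₀ hδ] at s5
    linarith
  have herr := err_bd hr hA0 hAe (Real.exp_pos _).le hEle hκ4 ha00 hT' hrS
  have hκH : 2 * (κ * H) ≤ δ * T := by
    have e1 : 2 / δ * κ * H = (2 * (κ * H)) / δ := by ring
    rw [e1, div_le_iff₀ hδ] at s2
    linarith
  have hlow := l1_low (N := N) hN1 (dd 1).re dd hH0 (S := S) (A := A) (E := E) (by
    rw [hS]; rfl) hA hE (r := r) (by linarith) hκ0.le (T := T) (by
      have : δ * T ≤ 1 * T := mul_le_mul_of_nonneg_right hδ1 hT0.le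
      linarith)
  -- the remaining part
  have hsm := s1 N (by
    rw [div_mul_eq_mul_div, le_div_iff₀ hθ, hΛ]
    calc Real.log N * θ ≤ θ' * κ * θ := mul_le_mul_of_nonneg_right hlogN' hθ.le
      _ = _ := by ring)
  have hnp := np_sq (L := L) hδ hδ1 (by linarith : 2 ≤ Λ') hκ0.le hbD hlogN hsm
  have hκΛ : κ / Λ' = 1 / θ := by rw [hΛ]; field_simp
  rw [hκΛ] at hnp
  have h8 : 8 * N * (1 + Real.log N) ≤ T := by
    refine le_trans ?_ s4
    have h1 : 1 + Real.log N ≤ 2 * κ := by linarith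
    calc 8 * N * (1 + Real.log N) ≤ 8 * Real.exp (θ' * κ) * (2 * κ) := by
          have : 0 ≤ Real.log N := Real.log_nonneg hN1'
          gcongr
      _ = _ := by ring
  have hnpi := np_int dd hT0.le hδ h8 (hnp.trans hηle)
  set R : ℝ → ℝ := fun s => (∑ n ∈ NP N, dd n * cexp (-(I * s * Real.log n))).re with hR
  have hRc : Continuous R := by
    simp only [hR]
    exact Complex.continuous_re.comp (by fun_prop)
  have hvc := vv_cont N (dd 1).re dd
  have hsp : ∫ s in T..(2 * T), (|vv N (dd 1).re dd s| - |R s|) ≤ ∫ s in T..(2 * T),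
      |(∑ n ∈ Finset.Icc 1 N, dd n * cexp (-(I * s * Real.log n))).re| := by
    refine intervalIntegral.integral_mono_on (by linarith) ?_ ?_ fun s _ => ?_
    · exact (hvc.abs.sub hRc.abs).intervalIntegrable _ _
    · apply Continuous.intervalIntegrable
      have : Continuous fun s : ℝ => (∑ n ∈ Finset.Icc 1 N, dd n * cexp (-(I * s * Real.log n))) := by
        fun_prop
      exact (Complex.continuous_re.comp this).abs
    · rw [split_dz hN1 dd s]
      have := abs_sub_abs_le_abs_sub (vv N (dd 1).re dd s) (-R s)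
      rw [abs_neg, sub_neg_eq_add] at this
      exact this
  rw [intervalIntegral.integral_sub (hvc.abs.intervalIntegrable _ _) (hRc.abs.intervalIntegrable _ _)] at hsp
  have hr3 : 0 ≤ r / 3 - δ := by linarith
  have h9 : T * (1 - δ) * (r / 3 - δ) ≤ (T - 2 * (κ * H)) * (3 / 2 * (S - A ^ 2 * E) / r -
      1 / 2 * (3 * S ^ 2 + A ^ 4 * E) / r ^ 3 - 2 * A * Real.exp (-κ ^ 2 / 2)) := by
    have h10 : 0 ≤ T - 2 * (κ * H) := by
      have : δ * T ≤ 1 * T := mul_le_mul_of_nonneg_right hδ1 hT0.le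
      linarith
    refine le_trans ?_ (mul_le_mul_of_nonneg_left herr h10)
    refine mul_le_mul_of_nonneg_right ?_ hr3
    linarith
  have h11 : T * ((1 - δ) * (r / 3 - δ) - δ) = T * (1 - δ) * (r / 3 - δ) - δ * T := by ring
  rw [h11]
  linarith

end

end Pool.Agent.H474.SHP
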