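import Pool.Agent.H474.SHP.Kar
import Pool.Graph.R_pool_sql_team_seeded_1acbe0a2.Y772.ND.Cor4

/-!
# The cosine windows with a small parameter
-/

set_option autoImplicit false
set_option linter.unusedSectionVars false

open Complex Filter Topology Set MeasureTheory

namespace Pool.Agent.H474.SHP

open H385
open Pool.Agent.Y772.ND (Wz)

/-- the upper bound for the window -/
noncomputable def Gg (γ : ℝ) : ℝ := γ / (2 * Real.sin (γ / 2))

section

variable {γ : ℝ} (h0 : 0 < γ) (hπ : γ < Real.pi)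

include h0 hπ

lemma sinp : 0 < Real.sin (γ / 2) :=
  Real.sin_pos_of_pos_of_lt_pi (by linarith) (by linarith)

lemma Gg_pos : 0 < Gg γ := by
  unfold Gg
  have := sinp h0 hπ
  positivity

lemma Gg_ge : 1 ≤ Gg γ := by
  unfold Gg
  have h1 := sinp h0 hπ
  rw [le_div_iff₀ (by positivity)]
  have := Real.sin_le (show 0 ≤ γ / 2 by linarith)
  linarith

lemma gwb (x : ℝ) (hx : x ∈ Set.Icc (-1 / 2 : ℝ) (1 / 2)) : 0 ≤ gw γ x ∧ gw γ x ≤ Gg γ := by
  refine ⟨gw_nonneg γ h0 hπ x (by linarith [hx.1]) (by linarith [hx.2]), ?_⟩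
  unfold gw Gg
  have := sinp h0 hπ
  have h2 := Real.cos_le_one (γ * x)
  have h3 : γ * Real.cos (γ * x) ≤ γ := by nlinarith
  gcongr

lemma gw_evn (x : ℝ) : gw γ (-x) = gw γ x := by
  unfold gw; rw [mul_neg, Real.cos_neg]

omit h0 hπ in
lemma gw_cnt : Continuous (gw γ) := by
  unfold gw; fun_prop

lemma Rw_ge1 {x : ℝ} (hx : 1 ≤ x) : Rw γ x = 0 := by
  unfold Rw
  rw [abs_of_nonneg (by linarith)]
  split_ifs with h
  · have : x = 1 := le_antisymm h hx
    rw [this]; simp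
  · rfl

lemma Rw_up {x : ℝ} (hx0 : 0 ≤ x) (hx : x ≤ 1) : Rw γ x ≤ Gg γ ^ 2 * (1 - x) := by
  unfold Rw
  rw [abs_of_nonneg hx0, if_pos hx]
  change Gg γ ^ 2 * _ / 2 ≤ _
  rw [mul_div_assoc]
  refine mul_le_mul_of_nonneg_left ?_ (sq_nonneg _)
  have h1 := Real.cos_le_one (γ * x)
  have h2 : Real.sin (γ * (1 - x)) / γ ≤ 1 - x := by
    rw [div_le_iff₀ h0]
    have := Real.sin_le (show 0 ≤ γ * (1 - x) by apply mul_nonneg <;> linarith)
    linarith
  have h3 : (1 - x) * Real.cos (γ * x) ≤ 1 - x := by nlinarith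
  linarith

lemma Rw_lo (_h1γ : γ ≤ 1) {x : ℝ} (hx0 : 0 ≤ x) (hx : x ≤ 1) : Gg γ ^ 2 * ((1 - γ ^ 2) * (1 - x)) ≤ Rw γ x := by
  unfold Rw
  rw [abs_of_nonneg hx0, if_pos hx]
  change _ ≤ Gg γ ^ 2 * _ / 2
  rw [mul_div_assoc]
  refine mul_le_mul_of_nonneg_left ?_ (sq_nonneg _)
  have hx1 : 0 ≤ 1 - x := by linarith
  have h1 := Real.one_sub_sq_div_two_le_cos (x := γ * x)
  have h1' : 1 - γ ^ 2 / 2 ≤ Real.cos (γ * x) := by
    have : (γ * x) ^ 2 ≤ γ ^ 2 := by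
      rw [mul_pow]
      have : x ^ 2 ≤ 1 := by nlinarith
      nlinarith [sq_nonneg γ]
    linarith
  have h2 : (1 - x) * (1 - γ ^ 2 / 2) ≤ Real.sin (γ * (1 - x)) / γ := by
    rw [le_div_iff₀ h0]
    by_cases hy : γ * (1 - x) ≤ 0
    · have : γ * (1 - x) = 0 := le_antisymm hy (mul_nonneg h0.le hx1)
      rw [this, Real.sin_zero]
      have : 1 - x = 0 := by
        rcases mul_eq_zero.1 this with h | h
        · linarith
        · exact h
      rw [this]; simp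
    · push Not at hy
      have hyγ : γ * (1 - x) ≤ γ := by nlinarith
      have h3 := Real.sin_gt_sub_cube hy
      have h5 : (γ * (1 - x)) ^ 2 ≤ γ ^ 2 := pow_le_pow_left₀ hy.le hyγ 2
      have h6 : (γ * (1 - x)) ^ 3 ≤ γ ^ 2 * (γ * (1 - x)) := by
        rw [pow_succ]
        exact mul_le_mul_of_nonneg_right h5 hy.le
      have h7 : 0 ≤ γ ^ 2 * (γ * (1 - x)) := by positivity
      have h8 : (1 - x) * (1 - γ ^ 2 / 2) * γ = γ * (1 - x) - γ ^ 2 * (γ * (1 - x)) / 2 := by ring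
      rw [h8]
      linarith
  have h3 : (1 - x) * (1 - γ ^ 2 / 2) ≤ (1 - x) * Real.cos (γ * x) :=
    mul_le_mul_of_nonneg_left h1' hx1
  nlinarith [sq_nonneg γ, mul_nonneg (sq_nonneg γ) hx1]

end

end Pool.Agent.H474.SHP
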