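import Pool.Agent.H474.SHP.Win

/-!
# The kernel and the weights
-/

set_option autoImplicit false
set_option linter.unusedSectionVars false

open Complex Filter Topology Set MeasureTheory
open scoped ComplexConjugate

namespace Pool.Agent.H474.SHP

open H385
open PerChi (phiw_even Rw_cont)
open Pool.Agent.Y772.ND (Wz int_gauss2)

/-- the kernel -/
noncomputable def pg (γ Λ : ℝ) (z : ℂ) : ℂ := kapw γ (Λ * z) * cexp (-z ^ 2 / 4)

/-- the tent function -/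
noncomputable def tent (x : ℝ) : ℝ := max (1 - x) 0

lemma tent_cont : Continuous tent := by unfold tent; fun_prop

lemma tent_nn (x : ℝ) : 0 ≤ tent x := le_max_right _ _

lemma tent_ge1 {x : ℝ} (hx : 1 ≤ x) : tent x = 0 := max_eq_right (by linarith)

lemma tent_le1 {x : ℝ} (hx : x ≤ 1) : tent x = 1 - x := max_eq_left (by linarith)

lemma tent_le_one {x : ℝ} (hx : 0 ≤ x) : tent x ≤ 1 := max_le (by linarith) zero_le_one

lemma tent_lip (x y : ℝ) : tent x ≤ tent y + |x - y| := by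
  unfold tent
  refine max_le ?_ ?_
  · have h1 : 1 - y ≤ max (1 - y) 0 := le_max_left _ _
    have h2 := neg_abs_le (x - y)
    linarith
  · have h1 : 0 ≤ max (1 - y) 0 := le_max_right _ _
    have h2 := abs_nonneg (x - y)
    linarith

section

variable {γ : ℝ}

lemma kapw_cont' : Continuous (kapw γ) := by
  have h : Continuous (Function.uncurry fun (z : ℂ) (x : ℝ) => (gw γ x : ℂ) * cexp (I * z * x)) := by
    have := gw_cnt (γ := γ)
    unfold Function.uncurry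
    fun_prop
  exact intervalIntegral.continuous_parametric_intervalIntegral_of_continuous' h _ _

lemma pg_cont (Λ : ℝ) : Continuous (pg γ Λ) := by
  unfold pg
  have := kapw_cont' (γ := γ)
  fun_prop

lemma pg_even (Λ : ℝ) (z : ℂ) : pg γ Λ (-z) = pg γ Λ z := by
  unfold pg
  rw [mul_neg, kapw_even, neg_sq]

variable (h0 : 0 < γ) (hπ : γ < Real.pi)

include h0 hπ

lemma pg_zero (Λ : ℝ) : pg γ Λ 0 = 1 := by
  unfold pg
  rw [mul_zero, kapw_zero γ h0 hπ]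
  simp

omit h0 hπ in
lemma pg_eq (Λ : ℝ) (z : ℂ) : pg γ Λ z = phiw γ (Λ / Real.sqrt 2) (Real.sqrt 2 * z) := by
  unfold pg phiw
  have h1 : ((Λ / Real.sqrt 2 : ℝ) : ℂ) * ((Real.sqrt 2 : ℝ) * z) = Λ * z := by
    have h0 : ((Real.sqrt 2 : ℝ) : ℂ) ≠ 0 := by
      rw [Ne, Complex.ofReal_eq_zero]; positivity
    push_cast
    field_simp
  have h2 : -(((Real.sqrt 2 : ℝ) : ℂ) * z) ^ 2 / 8 = -z ^ 2 / 4 := by
    rw [mul_pow, sq ((Real.sqrt 2 : ℝ) : ℂ), Pool.Agent.Y772.ND.sqrt2_sq]; ring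
  rw [h1, h2]

lemma gram_pg (Λ : ℝ) : ∃ (E : Type) (_ : NormedAddCommGroup E) (_ : InnerProductSpace ℂ E)
    (k : ℂ → E), ∀ z w, inner ℂ (k z) (k w) = pg γ Λ (w - conj z) := by
  obtain ⟨E, i1, i2, k, hk⟩ := gram_w γ h0 hπ (Λ / Real.sqrt 2)
  refine ⟨E, i1, i2, fun z => k (Real.sqrt 2 * z), fun z w => ?_⟩
  rw [hk, pg_eq]
  congr 1
  rw [map_mul, Complex.conj_ofReal]
  ring

omit hπ in
lemma Gg_le (h1 : γ ≤ 1) : Gg γ ≤ 1 + γ ^ 2 := by
  unfold Gg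
  have h2 := Real.sin_gt_sub_cube (show 0 < γ / 2 by linarith)
  have h3 : 0 < Real.sin (γ / 2) := by
    have : (γ / 2) ^ 3 / 6 ≤ γ / 4 := by
      have : γ ^ 3 ≤ γ := by
        calc γ ^ 3 = γ * γ ^ 2 := by ring
          _ ≤ γ * 1 := by
            apply mul_le_mul_of_nonneg_left _ h0.le
            nlinarith
          _ = γ := mul_one _
      linarith [show (γ / 2) ^ 3 = γ ^ 3 / 8 by ring]
    linarith
  rw [div_le_iff₀ (by positivity)]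
  have h4 : γ ≤ (1 + γ ^ 2) * (γ - γ ^ 3 / 24) := by
    have : (1 + γ ^ 2) * (γ - γ ^ 3 / 24) = γ + γ ^ 3 * (1 - 1 / 24 - γ ^ 2 / 24) := by ring
    rw [this]
    have h5 : 0 ≤ γ ^ 3 := by positivity
    have h6 : 0 ≤ 1 - 1 / 24 - γ ^ 2 / 24 := by nlinarith
    have := mul_nonneg h5 h6
    linarith
  have h5 : (1 + γ ^ 2) * (γ - γ ^ 3 / 24) ≤ (1 + γ ^ 2) * (2 * Real.sin (γ / 2)) := by
    apply mul_le_mul_of_nonneg_left _ (by positivity)
    have : (γ / 2) ^ 3 = γ ^ 3 / 8 := by ring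
    linarith
  linarith

lemma Rw_tent {x : ℝ} (hx0 : 0 ≤ x) : Rw γ x ≤ Gg γ ^ 2 * tent x := by
  rcases le_total x 1 with h | h
  · rw [tent_le1 h]; exact Rw_up h0 hπ hx0 h
  · rw [tent_ge1 h, Rw_ge1 h0 hπ h]; simp

lemma Rw_tent' (h1γ : γ ≤ 1) {x : ℝ} (hx0 : 0 ≤ x) : (1 - γ ^ 2) * tent x ≤ Rw γ x := by
  rcases le_total x 1 with h | h
  · rw [tent_le1 h]
    refine le_trans ?_ (Rw_lo h0 hπ h1γ hx0 h)
    have h2 : 0 ≤ (1 - γ ^ 2) * (1 - x) := mul_nonneg (by nlinarith) (by linarith)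
    have h3 : 1 ≤ Gg γ ^ 2 := one_le_pow₀ (Gg_ge h0 hπ)
    nlinarith
  · rw [tent_ge1 h, Rw_ge1 h0 hπ h]; simp

omit h0 hπ in
/-- comparison of the Gaussian integrals -/
lemma gs_scale (Λ ℓ : ℝ) (hΛ : 0 < Λ) (f : ℝ → ℝ) :
    ∫ α in (0 : ℝ)..1, f (Λ * α - ℓ) = Λ⁻¹ * ∫ x in (-ℓ)..(Λ - ℓ), f x := by
  have h1 := intervalIntegral.integral_comp_mul_sub (a := (0 : ℝ)) (b := 1) f hΛ.ne' ℓ
  rw [h1, smul_eq_mul]
  congr 2 <;> ring

omit h0 hπ in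
lemma gs_full : Integrable (fun x : ℝ => Real.exp (-x ^ 2 / 2)) ∧
    ∫ x : ℝ, Real.exp (-x ^ 2 / 2) = Real.sqrt (2 * Real.pi) := by
  have h1 : Integrable (fun t : ℝ => Real.exp (-(1 / 2) * t ^ 2)) :=
    integrable_exp_neg_mul_sq (by norm_num)
  have h2 := integral_gaussian (1 / 2)
  have e : ∀ t : ℝ, Real.exp (-t ^ 2 / 2) = Real.exp (-(1 / 2) * t ^ 2) := by
    intro t; congr 1; ring
  simp_rw [e]
  refine ⟨h1, ?_⟩
  rw [h2]
  congr 1
  field_simp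

omit h0 hπ in
lemma gs_le (Λ ℓ : ℝ) (hΛ : 0 < Λ) :
    ∫ α in (0 : ℝ)..1, Real.exp (-(Λ * α - ℓ) ^ 2 / 2) ≤ Real.sqrt (2 * Real.pi) / Λ := by
  rw [gs_scale Λ ℓ hΛ (fun x => Real.exp (-x ^ 2 / 2)), intervalIntegral.integral_of_le (by linarith)]
  have h1 : ∫ x in Ioc (-ℓ) (Λ - ℓ), Real.exp (-x ^ 2 / 2) ≤ Real.sqrt (2 * Real.pi) := by
    rw [← gs_full.2]
    exact setIntegral_le_integral gs_full.1 (ae_of_all _ fun x => (Real.exp_pos _).le)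
  calc Λ⁻¹ * _ ≤ Λ⁻¹ * Real.sqrt (2 * Real.pi) := mul_le_mul_of_nonneg_left h1 (by positivity)
    _ = _ := by ring

omit h0 hπ in
lemma gs_half_int : ∫ x in Ioi (0 : ℝ), Real.exp (-x ^ 2 / 2) = Real.sqrt (2 * Real.pi) / 2 := by
  have h2 := integral_gaussian_Ioi (1 / 2)
  have e : ∀ t : ℝ, Real.exp (-t ^ 2 / 2) = Real.exp (-(1 / 2) * t ^ 2) := by
    intro t; congr 1; ring
  simp_rw [e]
  rw [h2]
  congr 2
  field_simp

omit h0 hπ in
lemma gs_half (Λ : ℝ) (hΛ : 0 < Λ) :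
    ∫ α in (0 : ℝ)..1, Real.exp (-(Λ * α - 0) ^ 2 / 2) ≤ Real.sqrt (2 * Real.pi) / 2 / Λ := by
  rw [gs_scale Λ 0 hΛ (fun x => Real.exp (-x ^ 2 / 2)), intervalIntegral.integral_of_le (by linarith)]
  have h1 : ∫ x in Ioc (-0) (Λ - 0), Real.exp (-x ^ 2 / 2) ≤ Real.sqrt (2 * Real.pi) / 2 := by
    rw [← gs_half_int, neg_zero]
    exact setIntegral_mono_set gs_full.1.integrableOn (ae_of_all _ fun x => (Real.exp_pos _).le)
      (Ioc_subset_Ioi_self.eventuallyLE)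
  calc Λ⁻¹ * _ ≤ Λ⁻¹ * (Real.sqrt (2 * Real.pi) / 2) := mul_le_mul_of_nonneg_left h1 (by positivity)
    _ = _ := by ring

omit h0 hπ in
lemma gs_abs (Λ ℓ : ℝ) (hΛ : 0 < Λ) :
    ∫ α in (0 : ℝ)..1, |α - ℓ / Λ| * Real.exp (-(Λ * α - ℓ) ^ 2 / 2) ≤ 4 / Λ ^ 2 := by
  have h1 : ∀ α : ℝ, |α - ℓ / Λ| * Real.exp (-(Λ * α - ℓ) ^ 2 / 2) ≤
      Λ⁻¹ * Real.exp (-(Λ * α - ℓ) ^ 2 / 4) := by
    intro α
    have e1 : |α - ℓ / Λ| = Λ⁻¹ * |Λ * α - ℓ| := by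
      have : α - ℓ / Λ = Λ⁻¹ * (Λ * α - ℓ) := by field_simp
      rw [this, abs_mul, abs_of_pos (by positivity : 0 < Λ⁻¹)]
    rw [e1, mul_assoc]
    refine mul_le_mul_of_nonneg_left ?_ (by positivity)
    set y := Λ * α - ℓ
    have e2 : |y| ≤ Real.exp (y ^ 2 / 4) := by
      have := Real.add_one_le_exp (y ^ 2 / 4)
      have h3 : |y| ≤ y ^ 2 / 4 + 1 := by
        have h4 : y ^ 2 = |y| ^ 2 := (sq_abs y).symm
        nlinarith [sq_nonneg (|y| / 2 - 1)]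
      linarith
    calc |y| * Real.exp (-y ^ 2 / 2) ≤ Real.exp (y ^ 2 / 4) * Real.exp (-y ^ 2 / 2) :=
          mul_le_mul_of_nonneg_right e2 (Real.exp_pos _).le
      _ = Real.exp (-y ^ 2 / 4) := by rw [← Real.exp_add]; congr 1; ring
  have h2 : ∫ α in (0 : ℝ)..1, |α - ℓ / Λ| * Real.exp (-(Λ * α - ℓ) ^ 2 / 2) ≤
      ∫ α in (0 : ℝ)..1, Λ⁻¹ * Real.exp (-(Λ * α - ℓ) ^ 2 / 4) := by
    refine intervalIntegral.integral_mono_on zero_le_one ?_ ?_ fun α _ => h1 α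
    · apply Continuous.intervalIntegrable; fun_prop
    · apply Continuous.intervalIntegrable; fun_prop
  refine h2.trans ?_
  rw [intervalIntegral.integral_const_mul, gs_scale Λ ℓ hΛ (fun x => Real.exp (-x ^ 2 / 4)),
    intervalIntegral.integral_of_le (by linarith)]
  have i1 : Integrable (fun t : ℝ => Real.exp (-(1 / 4) * t ^ 2)) :=
    integrable_exp_neg_mul_sq (by norm_num)
  have i2 := integral_gaussian (1 / 4)
  have e : ∀ t : ℝ, Real.exp (-t ^ 2 / 4) = Real.exp (-(1 / 4) * t ^ 2) := by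
    intro t; congr 1; ring
  have h3 : ∫ x in Ioc (-ℓ) (Λ - ℓ), Real.exp (-x ^ 2 / 4) ≤ 4 := by
    simp_rw [e]
    refine (setIntegral_le_integral i1 (ae_of_all _ fun x => (Real.exp_pos _).le)).trans ?_
    rw [i2]
    rw [show (4 : ℝ) = Real.sqrt 16 by rw [show (16 : ℝ) = 4 ^ 2 by norm_num]; simp]
    refine Real.sqrt_le_sqrt ?_
    have := Real.pi_le_four
    rw [div_le_iff₀ (by norm_num)]
    rw [show Real.sqrt 16 = 4 by rw [show (16 : ℝ) = 4 ^ 2 by norm_num]; simp]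
    linarith
  calc Λ⁻¹ * (Λ⁻¹ * _) ≤ Λ⁻¹ * (Λ⁻¹ * 4) :=
        mul_le_mul_of_nonneg_left (mul_le_mul_of_nonneg_left h3 (by positivity)) (by positivity)
    _ = 4 / Λ ^ 2 := by field_simp

/-- upper bound for the weights -/
lemma Wz_up (Λ ℓ : ℝ) (hΛ : 0 < Λ) : Wz (Rw γ) Λ ℓ ≤
    Gg γ ^ 2 * (Real.sqrt (2 * Real.pi) / Λ * tent (ℓ / Λ) + 4 / Λ ^ 2) := by
  unfold Wz
  have hG : 0 ≤ Gg γ ^ 2 := sq_nonneg _
  have h1 : ∫ α in (0 : ℝ)..1, Rw γ α * Real.exp (-(Λ * α - ℓ) ^ 2 / 2) ≤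
      ∫ α in (0 : ℝ)..1, Gg γ ^ 2 * (tent (ℓ / Λ) * Real.exp (-(Λ * α - ℓ) ^ 2 / 2) +
        |α - ℓ / Λ| * Real.exp (-(Λ * α - ℓ) ^ 2 / 2)) := by
    refine intervalIntegral.integral_mono_on zero_le_one ?_ ?_ fun α hα => ?_
    · have := Rw_cont γ h0 hπ
      apply Continuous.intervalIntegrable; fun_prop
    · apply Continuous.intervalIntegrable; fun_prop
    · rw [← add_mul, ← mul_assoc]
      refine mul_le_mul_of_nonneg_right ?_ (Real.exp_pos _).le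
      exact (Rw_tent h0 hπ hα.1).trans (mul_le_mul_of_nonneg_left (tent_lip _ _) hG)
  refine h1.trans ?_
  rw [intervalIntegral.integral_const_mul]
  refine mul_le_mul_of_nonneg_left ?_ hG
  rw [intervalIntegral.integral_add, intervalIntegral.integral_const_mul]
  · have h2 := mul_le_mul_of_nonneg_left (gs_le Λ ℓ hΛ) (tent_nn (ℓ / Λ))
    have h3 := gs_abs Λ ℓ hΛ
    linarith
  · apply Continuous.intervalIntegrable; fun_prop
  · apply Continuous.intervalIntegrable; fun_prop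

lemma Wz0_up (Λ : ℝ) (hΛ : 0 < Λ) : Wz (Rw γ) Λ 0 ≤ Gg γ ^ 2 * (Real.sqrt (2 * Real.pi) / 2 / Λ) := by
  unfold Wz
  have hG : 0 ≤ Gg γ ^ 2 := sq_nonneg _
  have h1 : ∫ α in (0 : ℝ)..1, Rw γ α * Real.exp (-(Λ * α - 0) ^ 2 / 2) ≤
      ∫ α in (0 : ℝ)..1, Gg γ ^ 2 * Real.exp (-(Λ * α - 0) ^ 2 / 2) := by
    refine intervalIntegral.integral_mono_on zero_le_one ?_ ?_ fun α hα => ?_
    · have := Rw_cont γ h0 hπ
      apply Continuous.intervalIntegrable; fun_prop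
    · apply Continuous.intervalIntegrable; fun_prop
    · refine mul_le_mul_of_nonneg_right ?_ (Real.exp_pos _).le
      refine (Rw_tent h0 hπ hα.1).trans ?_
      have := mul_le_mul_of_nonneg_left (tent_le_one hα.1) hG
      linarith
  refine h1.trans ?_
  rw [intervalIntegral.integral_const_mul]
  exact mul_le_mul_of_nonneg_left (gs_half Λ hΛ) hG

lemma Wz_nng (Λ ℓ : ℝ) : 0 ≤ Wz (Rw γ) Λ ℓ := by
  unfold Wz
  exact intervalIntegral.integral_nonneg zero_le_one fun α _ =>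
    mul_nonneg (Rw_nonneg γ h0 hπ α) (Real.exp_pos _).le

end

end Pool.Agent.H474.SHP
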